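import Pool.Agent.SharpSix.An5

/-!
# The three configurations
-/

open MvPolynomial

namespace SharpSix

open FiveNum

theorem gq_denominator (r s : ℚ) : ∃ Q : ℕ, 0 < Q ∧ (Q : ℂ) * ((r : ℂ) + s * Complex.I) ∈ GInt := by
  refine ⟨r.den * s.den, Nat.mul_pos r.den_pos s.den_pos, ?_⟩
  have h1 : ((r.den : ℕ) : ℂ) * (r : ℂ) = ((r.num : ℤ) : ℂ) := by
    have := Rat.den_mul_eq_num r
    exact_mod_cast congrArg (fun q : ℚ => (q : ℂ)) this
  have h2 : ((s.den : ℕ) : ℂ) * (s : ℂ) = ((s.num : ℤ) : ℂ) := by
    have := Rat.den_mul_eq_num s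
    exact_mod_cast congrArg (fun q : ℚ => (q : ℂ)) this
  have e : ((r.den * s.den : ℕ) : ℂ) * ((r : ℂ) + s * Complex.I) =
      ((s.den : ℕ) : ℂ) * ((r.num : ℤ) : ℂ) +
        ((r.den : ℕ) : ℂ) * (((s.num : ℤ) : ℂ) * Complex.I) := by
    rw [← h1, ← h2]
    push_cast
    ring
  rw [e]
  exact GInt.add_mem (GInt.mul_mem (natCast_mem_GInt _) (intCast_mem_GInt _))
    (GInt.mul_mem (natCast_mem_GInt _) (GInt.mul_mem (intCast_mem_GInt _) I_mem_GInt))

theorem common_denominator {α : Type} [Fintype α] (z : α → ℂ)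
    (h : ∀ i, ∃ r s : ℚ, z i = (r : ℂ) + s * Complex.I) :
    ∃ Q : ℕ, 0 < Q ∧ ∀ i, (Q : ℂ) * z i ∈ GInt := by
  classical
  have h' : ∀ i, ∃ Q : ℕ, 0 < Q ∧ (Q : ℂ) * z i ∈ GInt := by
    intro i
    obtain ⟨r, s, hrs⟩ := h i
    rw [hrs]
    exact gq_denominator r s
  choose Q hQ hQz using h'
  refine ⟨∏ i, Q i, Finset.prod_pos fun i _ => hQ i, fun i => ?_⟩
  obtain ⟨c, hc⟩ := Finset.dvd_prod_of_mem Q (Finset.mem_univ i)
  rw [hc]
  push_cast
  rw [mul_comm ((Q i : ℕ) : ℂ), mul_assoc]
  exact GInt.mul_mem (natCast_mem_GInt _) (hQz i)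

theorem sharp_six' (G : Cfg) (x : ℂ) (η : Fin 3 → ℂ)
    (hY : ∀ j, Complex.exp (η j - G.a j 0) = G.y j 0)
    (hZ : ∀ j, Complex.exp (x * η j - G.a j 1) = G.y j 1)
    (ha : ∀ j i, ∃ r s : ℚ, G.a j i = (r : ℂ) + s * Complex.I)
    (hy : ∀ j i, ∃ r s : ℚ, G.y j i = (r : ℂ) + s * Complex.I) : False := by
  obtain ⟨Q₁, hQ₁, h₁⟩ := common_denominator (fun p : Fin 3 × Fin 2 => G.a p.1 p.2)
    (fun p => ha p.1 p.2)
  obtain ⟨Q₂, hQ₂, h₂⟩ := common_denominator (fun p : Fin 3 × Fin 2 => G.y p.1 p.2)
    (fun p => hy p.1 p.2)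
  refine sharp_six G x η (Q₁ * Q₂) (Nat.mul_pos hQ₁ hQ₂) hY hZ (fun j i => ?_) (fun j i => ?_)
  · push_cast
    rw [mul_comm (Q₁ : ℂ), mul_assoc]
    exact GInt.mul_mem (natCast_mem_GInt _) (h₁ (j, i))
  · push_cast
    rw [mul_assoc]
    exact GInt.mul_mem (natCast_mem_GInt _) (h₂ (j, i))

theorem real_pow_inj {r : ℝ} (h0 : 0 < r) (h1 : r ≠ 1) {m n : ℕ} (h : (r : ℂ) ^ m = (r : ℂ) ^ n) :
    m = n := by
  have h' : r ^ m = r ^ n := by exact_mod_cast h
  exact pow_right_injective₀ h0 h1 h'

theorem re_im_eq {a b c d : ℝ} (h : (a : ℂ) + b * Complex.I = c + d * Complex.I) : a = c ∧ b = d := by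
  have h1 := congrArg Complex.re h
  have h2 := congrArg Complex.im h
  simp at h1 h2
  exact ⟨h1, h2⟩

section facts

theorem B_gt : 1 < Real.pi * Real.exp 1 := by
  have h1 : (1 : ℝ) < Real.pi := by linarith [Real.pi_gt_three]
  have h2 : (1 : ℝ) < Real.exp 1 := Real.one_lt_exp_iff.2 one_pos
  nlinarith

theorem D_gt : 1 < Real.exp 1 ^ Real.exp 1 :=
  Real.one_lt_rpow (Real.one_lt_exp_iff.2 one_pos) (Real.exp_pos 1)

theorem E_gt : 1 < Real.pi ^ Real.pi :=
  Real.one_lt_rpow (by linarith [Real.pi_gt_three]) Real.pi_pos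

theorem C_pos : 0 < Real.pi ^ Real.exp 1 := Real.rpow_pos_of_pos Real.pi_pos _

theorem exp_log_pi : Complex.exp (Real.log Real.pi) = (Real.pi : ℂ) := by
  rw [← Complex.ofReal_exp, Real.exp_log Real.pi_pos]

end facts

/-- `π e`, `π ^ e`, `e ^ e` are not all rational. -/
theorem not_BCD (q₁ q₂ q₃ : ℚ) (h1 : Real.pi * Real.exp 1 = q₁) (h2 : Real.pi ^ Real.exp 1 = q₂)
    (h3 : Real.exp 1 ^ Real.exp 1 = q₃) : False := by
  set B : ℝ := Real.pi * Real.exp 1 with hB
  set D : ℝ := Real.exp 1 ^ Real.exp 1 with hD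
  set F : ℝ := Real.pi ^ Real.exp 1 * D with hF
  have hB1 : 1 < B := B_gt
  have hD1 : 1 < D := D_gt
  have hB0 : 0 < B := by linarith
  have hD0 : 0 < D := by linarith
  have hF0 : 0 < F := mul_pos C_pos hD0
  have hBc : (B : ℂ) ≠ 0 := by exact_mod_cast hB0.ne'
  have hDc : (D : ℂ) ≠ 0 := by exact_mod_cast hD0.ne'
  have hFc : (F : ℂ) ≠ 0 := by exact_mod_cast hF0.ne'
  let G : Cfg :=
    { a := ![![1, 0], ![0, B * Complex.I], ![0, 0]]
      y := ![![1, D], ![-1, 1], ![B, F]]
      hy := by
        intro j k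
        fin_cases j <;> fin_cases k <;> simp [hBc, hDc, hFc]
      jd := ![0, 1]
      jd_ne := by simp
      a01 := by simp
      a10 := by simp
      irr := by
        intro m n h
        simp only [Matrix.cons_val_zero, Matrix.cons_val_one] at h
        have h' : ((m : ℝ) : ℂ) + ((n * B : ℝ) : ℂ) * Complex.I =
            ((0 : ℝ) : ℂ) + ((0 : ℝ) : ℂ) * Complex.I := by
          push_cast
          linear_combination h
        obtain ⟨k1, k2⟩ := re_im_eq h'
        refine ⟨by exact_mod_cast k1, ?_⟩
        have := (mul_eq_zero.1 k2).resolve_right hB0.ne'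
        exact_mod_cast this
      kd := ![![0, 2], ![0, 1]]
      kd_ne := by
        intro i
        fin_cases i <;> simp
      kd_inj := by
        intro i s s' hs hs' ha hy
        fin_cases i
        · simp only [Fin.zero_eta, Matrix.cons_val_zero] at *
          have e1 : s 1 = 0 := hs 1 (by simp) (by simp)
          have e1' : s' 1 = 0 := hs' 1 (by simp) (by simp)
          have a0 : s 0 = s' 0 := by
            simp [addp, Fin.sum_univ_three] at ha
            exact_mod_cast ha
          have a2 : s 2 = s' 2 := by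
            simp [mulp, Fin.prod_univ_three, e1, e1'] at hy
            exact real_pow_inj hB0 hB1.ne' hy
          funext j
          fin_cases j
          · exact a0
          · exact e1.trans e1'.symm
          · exact a2
        · simp only [Fin.mk_one, Matrix.cons_val_one] at *
          have e1 : s 2 = 0 := hs 2 (by simp) (by simp)
          have e1' : s' 2 = 0 := hs' 2 (by simp) (by simp)
          have a1 : s 1 = s' 1 := by
            simp [addp, Fin.sum_univ_three, hBc] at ha
            exact_mod_cast ha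
          have a0 : s 0 = s' 0 := by
            simp [mulp, Fin.prod_univ_three, e1, e1'] at hy
            exact real_pow_inj hD0 hD1.ne' hy
          funext j
          fin_cases j
          · exact a0
          · exact a1
          · exact e1.trans e1'.symm
      j3 := 2
      tors := by
        intro m n h
        simp at h
        exact real_pow_inj hB0 hB1.ne' h
      inj := by
        intro s s' ha hy
        have a0 : s 0 = s' 0 := by
          have := congrFun ha 0
          simp [addp, Fin.sum_univ_three] at this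
          exact_mod_cast this
        have a1 : s 1 = s' 1 := by
          have := congrFun ha 1
          simp [addp, Fin.sum_univ_three, hBc] at this
          exact_mod_cast this
        have a2 : s 2 = s' 2 := by
          have := congrFun hy 0
          simp [mulp, Fin.prod_univ_three, a1] at this
          exact real_pow_inj hB0 hB1.ne' this
        funext j
        fin_cases j
        · exact a0
        · exact a1
        · exact a2 }
  have eB : Complex.exp (1 + Real.log Real.pi) = (B : ℂ) := by
    rw [Complex.exp_add, exp_log_pi, hB]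
    push_cast
    ring
  have eD : Complex.exp (Real.exp 1) = (D : ℂ) := by
    rw [← Complex.ofReal_exp, hD, Real.rpow_def_of_pos (Real.exp_pos 1), Real.log_exp, one_mul]
  have eC : Complex.exp ((Real.exp 1 : ℝ) * Real.log Real.pi) = ((Real.pi ^ Real.exp 1 : ℝ) : ℂ) := by
    rw [Real.rpow_def_of_pos Real.pi_pos, mul_comm]
    push_cast
    rfl
  refine sharp_six' G (Real.exp 1 : ℝ) ![1, Real.pi * Complex.I, 1 + Real.log Real.pi] ?_ ?_ ?_ ?_
  · intro j
    fin_cases j
    · change Complex.exp (1 - 1) = 1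
      simp
    · change Complex.exp (Real.pi * Complex.I - 0) = -1
      rw [sub_zero, Complex.exp_pi_mul_I]
    · change Complex.exp (1 + Real.log Real.pi - 0) = B
      rw [sub_zero, eB]
  · intro j
    fin_cases j
    · change Complex.exp ((Real.exp 1 : ℝ) * 1 - 0) = D
      rw [sub_zero, mul_one]
      exact eD
    · change Complex.exp ((Real.exp 1 : ℝ) * (Real.pi * Complex.I) - B * Complex.I) = 1
      have : ((Real.exp 1 : ℝ) : ℂ) * (Real.pi * Complex.I) - B * Complex.I = 0 := by
        rw [hB]
        push_cast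
        ring
      rw [this, Complex.exp_zero]
    · change Complex.exp ((Real.exp 1 : ℝ) * (1 + Real.log Real.pi) - 0) = F
      rw [sub_zero, mul_add, mul_one, Complex.exp_add]
      have e1 : Complex.exp ((Real.exp 1 : ℝ) : ℂ) = (D : ℂ) := eD
      rw [e1, eC, hF]
      push_cast
      ring
  · intro j i
    fin_cases j <;> fin_cases i
    · exact ⟨1, 0, by simp [G]⟩
    · exact ⟨0, 0, by simp [G]⟩
    · exact ⟨0, 0, by simp [G]⟩
    · exact ⟨0, q₁, by
        change (B : ℂ) * Complex.I = _
        rw [h1]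
        simp⟩
    · exact ⟨0, 0, by simp [G]⟩
    · exact ⟨0, 0, by simp [G]⟩
  · intro j i
    fin_cases j <;> fin_cases i
    · exact ⟨1, 0, by simp [G]⟩
    · exact ⟨q₃, 0, by
        change (D : ℂ) = _
        rw [h3]
        simp⟩
    · exact ⟨-1, 0, by simp [G]⟩
    · exact ⟨1, 0, by simp [G]⟩
    · exact ⟨q₁, 0, by
        change (B : ℂ) = _
        rw [h1]
        simp⟩
    · exact ⟨q₂ * q₃, 0, by
        change (F : ℂ) = _
        rw [hF, h2, h3]
        simp⟩

/-- `π e`, `π ^ e`, `π ^ π` are not all rational. -/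
theorem not_BCE (q₁ q₂ q₃ : ℚ) (h1 : Real.pi * Real.exp 1 = q₁) (h2 : Real.pi ^ Real.exp 1 = q₂)
    (h3 : Real.pi ^ Real.pi = q₃) : False := by
  set B : ℝ := Real.pi * Real.exp 1 with hB
  set E : ℝ := Real.pi ^ Real.pi with hE
  set C : ℝ := Real.pi ^ Real.exp 1 with hC
  have hB1 : 1 < B := B_gt
  have hE1 : 1 < E := E_gt
  have hC0 : 0 < C := C_pos
  have hB0 : 0 < B := by linarith
  have hE0 : 0 < E := by linarith
  obtain ⟨b₁, b₂, hb₁, hb₂, hb⟩ : ∃ b₁ b₂ : ℕ, 0 < b₁ ∧ 0 < b₂ ∧ (b₂ : ℝ) * B = b₁ := by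
    have hq : 0 < q₁ := by
      have : (0 : ℝ) < q₁ := by rw [← h1]; exact hB0
      exact_mod_cast this
    refine ⟨q₁.num.natAbs, q₁.den, Int.natAbs_pos.2 (Rat.num_pos.2 hq).ne', q₁.den_pos, ?_⟩
    have e1 : ((q₁.num.natAbs : ℕ) : ℝ) = ((q₁.num : ℤ) : ℝ) := by
      rw [Nat.cast_natAbs, abs_of_nonneg (Rat.num_pos.2 hq).le]
    rw [e1, h1]
    have := Rat.den_mul_eq_num q₁
    exact_mod_cast congrArg (fun q : ℚ => (q : ℝ)) this
  have hb₁' : (b₁ : ℂ) ≠ 0 := by exact_mod_cast hb₁.ne'
  have hb₁r : (b₁ : ℝ) ≠ 0 := by exact_mod_cast hb₁.ne'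
  have hE2 : 1 < E ^ b₂ := one_lt_pow₀ hE1 hb₂.ne'
  have hE20 : 0 < E ^ b₂ := by linarith
  have hBc : (B : ℂ) ≠ 0 := by exact_mod_cast hB0.ne'
  have hEc : (E : ℂ) ≠ 0 := by exact_mod_cast hE0.ne'
  have hCc : (C : ℂ) ≠ 0 := by exact_mod_cast hC0.ne'
  let G : Cfg :=
    { a := ![![-1, 0], ![0, B * Complex.I], ![0, -b₁]]
      y := ![![B, C], ![-1, 1], ![(E : ℂ) ^ b₂, (B : ℂ) ^ b₁]]
      hy := by
        intro j k
        fin_cases j <;> fin_cases k <;> simp [hBc, hEc, hCc]
      jd := ![0, 1]
      jd_ne := by simp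
      a01 := by simp
      a10 := by simp
      irr := by
        intro m n h
        simp only [Matrix.cons_val_zero, Matrix.cons_val_one] at h
        have h' : ((-m : ℝ) : ℂ) + ((n * B : ℝ) : ℂ) * Complex.I =
            ((0 : ℝ) : ℂ) + ((0 : ℝ) : ℂ) * Complex.I := by
          push_cast
          linear_combination h
        obtain ⟨k1, k2⟩ := re_im_eq h'
        refine ⟨by
          have : (m : ℝ) = 0 := by linarith
          exact_mod_cast this, ?_⟩
        have := (mul_eq_zero.1 k2).resolve_right hB0.ne'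
        exact_mod_cast this
      kd := ![![0, 2], ![1, 2]]
      kd_ne := by
        intro i
        fin_cases i <;> simp
      kd_inj := by
        intro i s s' hs hs' ha hy
        fin_cases i
        · simp only [Fin.zero_eta, Matrix.cons_val_zero] at *
          have e1 : s 1 = 0 := hs 1 (by simp) (by simp)
          have e1' : s' 1 = 0 := hs' 1 (by simp) (by simp)
          have a0 : s 0 = s' 0 := by
            simp [addp, Fin.sum_univ_three] at ha
            exact_mod_cast ha
          have a2 : s 2 = s' 2 := by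
            simp [mulp, Fin.prod_univ_three, e1, e1', a0, hBc] at hy
            have hy' : ((E ^ b₂ : ℝ) : ℂ) ^ s 2 = ((E ^ b₂ : ℝ) : ℂ) ^ s' 2 := by
              push_cast
              exact hy
            exact real_pow_inj hE20 hE2.ne' hy'
          funext j
          fin_cases j
          · exact a0
          · exact e1.trans e1'.symm
          · exact a2
        · simp only [Fin.mk_one, Matrix.cons_val_one] at *
          have e1 : s 0 = 0 := hs 0 (by simp) (by simp)
          have e1' : s' 0 = 0 := hs' 0 (by simp) (by simp)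
          have key : s 1 = s' 1 ∧ s 2 = s' 2 := by
            simp only [addp, Fin.sum_univ_three, Matrix.cons_val_zero, Matrix.cons_val_one,
              Matrix.cons_val] at ha
            have h' : ((-(b₁ * s 2) : ℝ) : ℂ) + ((B * s 1 : ℝ) : ℂ) * Complex.I =
                ((-(b₁ * s' 2) : ℝ) : ℂ) + ((B * s' 1 : ℝ) : ℂ) * Complex.I := by
              push_cast
              linear_combination ha
            obtain ⟨k1, k2⟩ := re_im_eq h'
            have k3 : (s 1 : ℝ) = s' 1 := mul_left_cancel₀ hB0.ne' k2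
            have k4 : (s 2 : ℝ) = s' 2 := mul_left_cancel₀ hb₁r (neg_inj.1 k1)
            exact ⟨by exact_mod_cast k3, by exact_mod_cast k4⟩
          funext j
          fin_cases j
          · exact e1.trans e1'.symm
          · exact key.1
          · exact key.2
      j3 := 0
      tors := by
        intro m n h
        simp at h
        exact real_pow_inj hB0 hB1.ne' h
      inj := by
        intro s s' ha hy
        have a0 : s 0 = s' 0 := by
          have := congrFun ha 0
          simp [addp, Fin.sum_univ_three] at this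
          exact_mod_cast this
        have key : s 1 = s' 1 ∧ s 2 = s' 2 := by
          have := congrFun ha 1
          simp only [addp, Fin.sum_univ_three, Matrix.cons_val_zero, Matrix.cons_val_one,
            Matrix.cons_val] at this
          have h' : ((-(b₁ * s 2) : ℝ) : ℂ) + ((B * s 1 : ℝ) : ℂ) * Complex.I =
              ((-(b₁ * s' 2) : ℝ) : ℂ) + ((B * s' 1 : ℝ) : ℂ) * Complex.I := by
            push_cast
            linear_combination this
          obtain ⟨k1, k2⟩ := re_im_eq h'
          have k3 : (s 1 : ℝ) = s' 1 := mul_left_cancel₀ hB0.ne' k2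
          have k4 : (s 2 : ℝ) = s' 2 := mul_left_cancel₀ hb₁r (neg_inj.1 k1)
          exact ⟨by exact_mod_cast k3, by exact_mod_cast k4⟩
        funext j
        fin_cases j
        · exact a0
        · exact key.1
        · exact key.2 }
  have eB : Complex.exp (1 + Real.log Real.pi) = (B : ℂ) := by
    rw [Complex.exp_add, exp_log_pi, hB]
    push_cast
    ring
  have eC : Complex.exp ((Real.exp 1 : ℝ) * Real.log Real.pi) = (C : ℂ) := by
    rw [hC, Real.rpow_def_of_pos Real.pi_pos, mul_comm]
    push_cast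
    rfl
  have eE : Complex.exp ((Real.pi : ℝ) * Real.log Real.pi) = (E : ℂ) := by
    rw [hE, Real.rpow_def_of_pos Real.pi_pos, mul_comm]
    push_cast
    rfl
  refine sharp_six' G (Real.exp 1 : ℝ)
    ![Real.log Real.pi, Real.pi * Complex.I, b₂ * (Real.pi * Real.log Real.pi)] ?_ ?_ ?_ ?_
  · intro j
    fin_cases j
    · change Complex.exp (Real.log Real.pi - -1) = B
      rw [sub_neg_eq_add, add_comm]
      exact eB
    · change Complex.exp (Real.pi * Complex.I - 0) = -1
      rw [sub_zero, Complex.exp_pi_mul_I]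
    · change Complex.exp (b₂ * (Real.pi * Real.log Real.pi) - 0) = (E : ℂ) ^ b₂
      rw [sub_zero, Complex.exp_nat_mul, eE]
  · intro j
    fin_cases j
    · change Complex.exp ((Real.exp 1 : ℝ) * Real.log Real.pi - 0) = C
      rw [sub_zero]
      exact eC
    · change Complex.exp ((Real.exp 1 : ℝ) * (Real.pi * Complex.I) - B * Complex.I) = 1
      have : ((Real.exp 1 : ℝ) : ℂ) * (Real.pi * Complex.I) - B * Complex.I = 0 := by
        rw [hB]
        push_cast
        ring
      rw [this, Complex.exp_zero]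
    · change Complex.exp ((Real.exp 1 : ℝ) * (b₂ * (Real.pi * Real.log Real.pi)) - -(b₁ : ℂ)) =
        (B : ℂ) ^ b₁
      have hbc : (b₂ : ℂ) * (B : ℂ) = b₁ := by exact_mod_cast hb
      have e1 : ((Real.exp 1 : ℝ) : ℂ) * (b₂ * (Real.pi * Real.log Real.pi)) - -(b₁ : ℂ) =
          b₁ * (1 + Real.log Real.pi) := by
        have e2 : (B : ℂ) = (Real.pi : ℂ) * ((Real.exp 1 : ℝ) : ℂ) := by
          rw [hB]
          push_cast
          rfl
        rw [e2] at hbc
        linear_combination (Real.log Real.pi : ℂ) * hbc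
      rw [e1, Complex.exp_nat_mul, eB]
  · intro j i
    fin_cases j <;> fin_cases i
    · exact ⟨-1, 0, by simp [G]⟩
    · exact ⟨0, 0, by simp [G]⟩
    · exact ⟨0, 0, by simp [G]⟩
    · exact ⟨0, q₁, by
        change (B : ℂ) * Complex.I = _
        rw [h1]
        simp⟩
    · exact ⟨0, 0, by simp [G]⟩
    · exact ⟨-b₁, 0, by
        change -(b₁ : ℂ) = _
        simp⟩
  · intro j i
    fin_cases j <;> fin_cases i
    · exact ⟨q₁, 0, by
        change (B : ℂ) = _
        rw [h1]
        simp⟩
    · exact ⟨q₂, 0, by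
        change (C : ℂ) = _
        rw [h2]
        simp⟩
    · exact ⟨-1, 0, by simp [G]⟩
    · exact ⟨1, 0, by simp [G]⟩
    · exact ⟨q₃ ^ b₂, 0, by
        change (E : ℂ) ^ b₂ = _
        rw [h3]
        simp⟩
    · exact ⟨q₁ ^ b₁, 0, by
        change (B : ℂ) ^ b₁ = _
        rw [h1]
        simp⟩

/-- `π e`, `e ^ e`, `π ^ π` are not all rational. -/
theorem not_BDE (q₁ q₂ q₃ : ℚ) (h1 : Real.pi * Real.exp 1 = q₁)
    (h2 : Real.exp 1 ^ Real.exp 1 = q₂) (h3 : Real.pi ^ Real.pi = q₃) : False := by
  set B : ℝ := Real.pi * Real.exp 1 with hB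
  set E : ℝ := Real.pi ^ Real.pi with hE
  set D : ℝ := Real.exp 1 ^ Real.exp 1 with hD
  have hB1 : 1 < B := B_gt
  have hE1 : 1 < E := E_gt
  have hD1 : 1 < D := D_gt
  have hB0 : 0 < B := by linarith
  have hE0 : 0 < E := by linarith
  have hD0 : 0 < D := by linarith
  have hBc : (B : ℂ) ≠ 0 := by exact_mod_cast hB0.ne'
  have hEc : (E : ℂ) ≠ 0 := by exact_mod_cast hE0.ne'
  have hDc : (D : ℂ) ≠ 0 := by exact_mod_cast hD0.ne'
  have keyI : ∀ s s' : Fin 3 → ℕ,
      (s 0 : ℂ) * 0 + s 1 * (-1) + s 2 * Complex.I =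
        (s' 0 : ℂ) * 0 + s' 1 * (-1) + s' 2 * Complex.I → s 1 = s' 1 ∧ s 2 = s' 2 := by
    intro s s' h
    have h' : ((-(s 1) : ℝ) : ℂ) + ((s 2 : ℝ) : ℂ) * Complex.I =
        ((-(s' 1) : ℝ) : ℂ) + ((s' 2 : ℝ) : ℂ) * Complex.I := by
      push_cast
      linear_combination h
    obtain ⟨k1, k2⟩ := re_im_eq h'
    exact ⟨by exact_mod_cast neg_inj.1 k1, by exact_mod_cast k2⟩
  let G : Cfg :=
    { a := ![![0, B], ![-1, 0], ![Complex.I, 0]]
      y := ![![D, 1], ![B, E], ![1, -1]]
      hy := by
        intro j k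
        fin_cases j <;> fin_cases k <;> simp [hBc, hEc, hDc]
      jd := ![2, 0]
      jd_ne := by simp
      a01 := by simp
      a10 := by simp
      irr := by
        intro m n h
        simp only [Matrix.cons_val_zero, Matrix.cons_val_one, Matrix.cons_val] at h
        have h' : ((n * B : ℝ) : ℂ) + ((m : ℝ) : ℂ) * Complex.I =
            ((0 : ℝ) : ℂ) + ((0 : ℝ) : ℂ) * Complex.I := by
          push_cast
          linear_combination h
        obtain ⟨k1, k2⟩ := re_im_eq h'
        refine ⟨by exact_mod_cast k2, ?_⟩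
        have := (mul_eq_zero.1 k1).resolve_right hB0.ne'
        exact_mod_cast this
      kd := ![![1, 2], ![0, 1]]
      kd_ne := by
        intro i
        fin_cases i <;> simp
      kd_inj := by
        intro i s s' hs hs' ha hy
        fin_cases i
        · simp only [Fin.zero_eta, Matrix.cons_val_zero] at *
          have e1 : s 0 = 0 := hs 0 (by simp) (by simp)
          have e1' : s' 0 = 0 := hs' 0 (by simp) (by simp)
          have key : s 1 = s' 1 ∧ s 2 = s' 2 := by
            simp only [addp, Fin.sum_univ_three, Matrix.cons_val_zero, Matrix.cons_val_one,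
              Matrix.cons_val] at ha
            exact keyI s s' ha
          funext j
          fin_cases j
          · exact e1.trans e1'.symm
          · exact key.1
          · exact key.2
        · simp only [Fin.mk_one, Matrix.cons_val_one] at *
          have e1 : s 2 = 0 := hs 2 (by simp) (by simp)
          have e1' : s' 2 = 0 := hs' 2 (by simp) (by simp)
          have a0 : s 0 = s' 0 := by
            simp [addp, Fin.sum_univ_three, hBc] at ha
            exact_mod_cast ha
          have a1 : s 1 = s' 1 := by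
            simp [mulp, Fin.prod_univ_three, e1, e1'] at hy
            exact real_pow_inj hE0 hE1.ne' hy
          funext j
          fin_cases j
          · exact a0
          · exact a1
          · exact e1.trans e1'.symm
      j3 := 0
      tors := by
        intro m n h
        simp at h
        exact real_pow_inj hD0 hD1.ne' h
      inj := by
        intro s s' ha hy
        have a0 : s 0 = s' 0 := by
          have := congrFun ha 1
          simp [addp, Fin.sum_univ_three, hBc] at this
          exact_mod_cast this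
        have key : s 1 = s' 1 ∧ s 2 = s' 2 := by
          have := congrFun ha 0
          simp only [addp, Fin.sum_univ_three, Matrix.cons_val_zero, Matrix.cons_val_one,
            Matrix.cons_val] at this
          exact keyI s s' this
        funext j
        fin_cases j
        · exact a0
        · exact key.1
        · exact key.2 }
  have eB : Complex.exp (1 + Real.log Real.pi) = (B : ℂ) := by
    rw [Complex.exp_add, exp_log_pi, hB]
    push_cast
    ring
  have eD : Complex.exp (Real.exp 1) = (D : ℂ) := by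
    rw [← Complex.ofReal_exp, hD, Real.rpow_def_of_pos (Real.exp_pos 1), Real.log_exp, one_mul]
  have eE : Complex.exp ((Real.pi : ℝ) * Real.log Real.pi) = (E : ℂ) := by
    rw [hE, Real.rpow_def_of_pos Real.pi_pos, mul_comm]
    push_cast
    rfl
  refine sharp_six' G (Real.pi : ℝ)
    ![(Real.exp 1 : ℝ), Real.log Real.pi, Complex.I] ?_ ?_ ?_ ?_
  · intro j
    fin_cases j
    · change Complex.exp ((Real.exp 1 : ℝ) - 0) = D
      rw [sub_zero]
      exact eD
    · change Complex.exp (Real.log Real.pi - -1) = B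
      rw [sub_neg_eq_add, add_comm]
      exact eB
    · change Complex.exp (Complex.I - Complex.I) = 1
      rw [sub_self, Complex.exp_zero]
  · intro j
    fin_cases j
    · change Complex.exp ((Real.pi : ℝ) * ((Real.exp 1 : ℝ) : ℂ) - B) = 1
      have : ((Real.pi : ℝ) : ℂ) * ((Real.exp 1 : ℝ) : ℂ) - B = 0 := by
        rw [hB]
        push_cast
        ring
      rw [this, Complex.exp_zero]
    · change Complex.exp ((Real.pi : ℝ) * Real.log Real.pi - 0) = E
      rw [sub_zero]
      exact eE
    · change Complex.exp ((Real.pi : ℝ) * Complex.I - 0) = -1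
      rw [sub_zero, Complex.exp_pi_mul_I]
  · intro j i
    fin_cases j <;> fin_cases i
    · exact ⟨0, 0, by simp [G]⟩
    · exact ⟨q₁, 0, by
        change (B : ℂ) = _
        rw [h1]
        simp⟩
    · exact ⟨-1, 0, by simp [G]⟩
    · exact ⟨0, 0, by simp [G]⟩
    · exact ⟨0, 1, by simp [G]⟩
    · exact ⟨0, 0, by simp [G]⟩
  · intro j i
    fin_cases j <;> fin_cases i
    · exact ⟨q₂, 0, by
        change (D : ℂ) = _
        rw [h2]
        simp⟩
    · exact ⟨1, 0, by simp [G]⟩
    · exact ⟨q₁, 0, by
        change (B : ℂ) = _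
        rw [h1]
        simp⟩
    · exact ⟨q₃, 0, by
        change (E : ℂ) = _
        rw [h3]
        simp⟩
    · exact ⟨1, 0, by simp [G]⟩
    · exact ⟨-1, 0, by simp [G]⟩

end SharpSix
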