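import Pool.Agent.SharpSix.Kn5
import Pool.Agent.Lib.LindemannWeierstrass

/-!
# How many of the five numbers are transcendental, how many are irrational

The elementary part: the exclusions that follow from Lindemann's theorem, and the counting.
-/

set_option autoImplicit false

namespace SharpSix

/-- `π + e` and `π e` are not both algebraic. -/
theorem not_AB (hA : IsAlgebraic ℚ (Real.pi + Real.exp 1))
    (hB : IsAlgebraic ℚ (Real.pi * Real.exp 1)) : False := by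
  have h2 : IsAlgebraic ℚ (2 : ℝ) := by
    simpa using isAlgebraic_algebraMap (A := ℝ) (2 : ℚ)
  have h4 : IsAlgebraic ℚ (4 : ℝ) := by
    simpa using isAlgebraic_algebraMap (A := ℝ) (4 : ℚ)
  have h : IsAlgebraic ℚ ((Real.pi - Real.exp 1) ^ 2) := by
    have e : (Real.pi - Real.exp 1) ^ 2 =
        (Real.pi + Real.exp 1) ^ 2 - 4 * (Real.pi * Real.exp 1) := by ring
    rw [e]
    exact (hA.pow 2).sub (h4.mul hB)
  have h' : IsAlgebraic ℚ (Real.pi - Real.exp 1) := h.of_pow two_pos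
  have hp : IsAlgebraic ℚ Real.pi := by
    have e : Real.pi = (2 : ℝ)⁻¹ * ((Real.pi + Real.exp 1) + (Real.pi - Real.exp 1)) := by ring
    rw [e]
    exact h2.inv.mul (hA.add h')
  exact Pool.Agent.Lib.LW.transcendental_pi hp

/-- If `π + e` is rational, then `π ^ e` and `π ^ π` are not both algebraic. -/
theorem not_ACE (r : ℚ) (hr : Real.pi + Real.exp 1 = r)
    (hC : IsAlgebraic ℚ (Real.pi ^ Real.exp 1)) (hE : IsAlgebraic ℚ (Real.pi ^ Real.pi)) :
    False := by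
  have h2 := hC.mul hE
  rw [← Real.rpow_add Real.pi_pos, add_comm (Real.exp 1), hr] at h2
  have hr0 : 0 < r := by
    have h3 : (0 : ℝ) < (r : ℝ) := by
      rw [← hr]
      exact add_pos Real.pi_pos (Real.exp_pos 1)
    exact_mod_cast h3
  have hpow : (Real.pi ^ (r : ℝ)) ^ r.den = Real.pi ^ r.num.toNat := by
    rw [← Real.rpow_natCast, ← Real.rpow_mul Real.pi_pos.le, ← Real.rpow_natCast]
    congr 1
    have h4 : ((r.num.toNat : ℕ) : ℝ) = (r.num : ℝ) := by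
      have h5 : ((r.num.toNat : ℕ) : ℤ) = r.num :=
        Int.toNat_of_nonneg (Rat.num_nonneg.mpr hr0.le)
      exact_mod_cast congrArg (fun z : ℤ => (z : ℝ)) h5
    rw [h4]
    exact_mod_cast congrArg (fun q : ℚ => (q : ℝ)) (Rat.mul_den_eq_num r)
  have h7 : IsAlgebraic ℚ (Real.pi ^ r.num.toNat) := by
    rw [← hpow]
    exact h2.pow _
  have hn : 0 < r.num.toNat := by
    have := Rat.num_pos.mpr hr0
    omega
  exact Pool.Agent.Lib.LW.transcendental_pi (h7.of_pow hn)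

open Classical in
theorem ncard_five (p : Fin 5 → Prop) : {i | p i}.ncard =
    (if p 0 then 1 else 0) + (if p 1 then 1 else 0) + (if p 2 then 1 else 0) +
      (if p 3 then 1 else 0) + (if p 4 then 1 else 0) := by
  rw [Set.ncard_eq_toFinset_card']
  simp only [Set.toFinset_ofPred, Finset.card_filter, Fin.sum_univ_five]

theorem alg_of_not_irrational {r : ℝ} (h : ¬ Irrational r) : IsAlgebraic ℚ r := by
  obtain ⟨q, rfl⟩ := not_not.1 h
  exact isAlgebraic_algebraMap q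

open Classical in
theorem count_aux {a0 a1 a2 a3 a4 i0 i1 i2 i3 i4 t0 t1 t2 t3 t4 : Prop}
    (e0 : t0 ↔ ¬ a0) (e1 : t1 ↔ ¬ a1) (e2 : t2 ↔ ¬ a2) (e3 : t3 ↔ ¬ a3) (e4 : t4 ↔ ¬ a4)
    (hAB : a0 → a1 → False)
    (hAD : a0 → a3 → False) (hBCD : a1 → a2 → a3 → False) (hBDE : a1 → a3 → a4 → False)
    (hACE : ¬ i0 → a2 → a4 → False) (hBCE : ¬ i1 → a2 → a4 → False)
    (h0 : ¬ i0 → a0) (h1 : ¬ i1 → a1) (h2 : ¬ i2 → a2) (h3 : ¬ i3 → a3) (h4 : ¬ i4 → a4) :
    2 ≤ (if t0 then 1 else 0) + (if t1 then 1 else 0) + (if t2 then 1 else 0) +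
      (if t3 then 1 else 0) + (if t4 then 1 else 0) ∧
    ((if t0 then 1 else 0) + (if t1 then 1 else 0) + (if t2 then 1 else 0) +
      (if t3 then 1 else 0) + (if t4 then 1 else 0) = 2 → a2 ∧ a4 ∧ i0 ∧ i1) ∧
    (3 ≤ (if i0 then 1 else 0) + (if i1 then 1 else 0) + (if i2 then 1 else 0) +
      (if i3 then 1 else 0) + (if i4 then 1 else 0) ∨ (¬ i2 ∧ ¬ i3 ∧ ¬ i4 ∧ t0 ∧ t1)) := by
  by_cases b0 : a0 <;> by_cases b1 : a1 <;> by_cases b2 : a2 <;> by_cases b3 : a3 <;>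
    by_cases b4 : a4 <;> simp_all <;>
    (by_cases c0 : i0 <;> by_cases c1 : i1 <;> by_cases c2 : i2 <;> by_cases c3 : i3 <;>
      by_cases c4 : i4 <;> simp_all)

/-- The counting statement, for five real numbers with the given exclusions. -/
theorem count (x : Fin 5 → ℝ)
    (hAB : IsAlgebraic ℚ (x 0) → IsAlgebraic ℚ (x 1) → False)
    (hAD : IsAlgebraic ℚ (x 0) → IsAlgebraic ℚ (x 3) → False)
    (hBCD : IsAlgebraic ℚ (x 1) → IsAlgebraic ℚ (x 2) → IsAlgebraic ℚ (x 3) → False)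
    (hBDE : IsAlgebraic ℚ (x 1) → IsAlgebraic ℚ (x 3) → IsAlgebraic ℚ (x 4) → False)
    (hACE : ¬ Irrational (x 0) → IsAlgebraic ℚ (x 2) → IsAlgebraic ℚ (x 4) → False)
    (hBCE : ¬ Irrational (x 1) → IsAlgebraic ℚ (x 2) → IsAlgebraic ℚ (x 4) → False) :
    2 ≤ {i | Transcendental ℚ (x i)}.ncard ∧
    ({i | Transcendental ℚ (x i)}.ncard = 2 → IsAlgebraic ℚ (x 2) ∧ IsAlgebraic ℚ (x 4) ∧
      Irrational (x 0) ∧ Irrational (x 1)) ∧
    (3 ≤ {i | Irrational (x i)}.ncard ∨ (¬ Irrational (x 2) ∧ ¬ Irrational (x 3) ∧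
      ¬ Irrational (x 4) ∧ Transcendental ℚ (x 0) ∧ Transcendental ℚ (x 1))) := by
  rw [ncard_five, ncard_five]
  exact count_aux Iff.rfl Iff.rfl Iff.rfl Iff.rfl Iff.rfl hAB hAD hBCD hBDE hACE hBCE
    alg_of_not_irrational alg_of_not_irrational alg_of_not_irrational alg_of_not_irrational
    alg_of_not_irrational

/-- The statement for the five numbers, given that `π + e` and `e ^ e` are not both algebraic. -/
theorem five_of_AD
    (hAD : IsAlgebraic ℚ (Real.pi + Real.exp 1) → IsAlgebraic ℚ (Real.exp 1 ^ Real.exp 1) → False)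
    (x : Fin 5 → ℝ) (hx : x = ![Real.pi + Real.exp 1, Real.pi * Real.exp 1,
      Real.pi ^ Real.exp 1, Real.exp 1 ^ Real.exp 1, Real.pi ^ Real.pi]) :
    2 ≤ {i | Transcendental ℚ (x i)}.ncard ∧
    ({i | Transcendental ℚ (x i)}.ncard = 2 → IsAlgebraic ℚ (x 2) ∧ IsAlgebraic ℚ (x 4) ∧
      Irrational (x 0) ∧ Irrational (x 1)) ∧
    (3 ≤ {i | Irrational (x i)}.ncard ∨ (¬ Irrational (x 2) ∧ ¬ Irrational (x 3) ∧
      ¬ Irrational (x 4) ∧ Transcendental ℚ (x 0) ∧ Transcendental ℚ (x 1))) := by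
  have e0 : x 0 = Real.pi + Real.exp 1 := by rw [hx]; rfl
  have e1 : x 1 = Real.pi * Real.exp 1 := by rw [hx]; rfl
  have e2 : x 2 = Real.pi ^ Real.exp 1 := by rw [hx]; rfl
  have e3 : x 3 = Real.exp 1 ^ Real.exp 1 := by rw [hx]; rfl
  have e4 : x 4 = Real.pi ^ Real.pi := by rw [hx]; rfl
  apply count
  · rw [e0, e1]
    exact not_AB
  · rw [e0, e3]
    exact hAD
  · rw [e1, e2, e3]
    exact not_BCD_alg
  · rw [e1, e3, e4]
    exact not_BDE_alg
  · rw [e0, e2, e4]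
    intro h
    obtain ⟨q, hq⟩ := not_not.1 h
    exact not_ACE q hq.symm
  · rw [e1, e2, e4]
    intro h
    obtain ⟨q, hq⟩ := not_not.1 h
    exact not_BCE_alg q hq.symm

end SharpSix
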