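import Pool.Agent.FiveNum.AnSchwarz
import Pool.Agent.FiveNum.AnDet
import Pool.Agent.FiveNum.AnFun

/-!
# Separable approximation and order of vanishing
-/

open Filter Topology Asymptotics Matrix

namespace SharpSix

/-- A product of separably approximated functions is separably approximated. -/
theorem prod_isBigO {r δ : ℕ} (A P : Fin r → ℂ → ℂ)
    (hA : ∀ f, (fun t => A f t - P f t) =O[𝓝 0] fun t => t ^ δ)
    (hA1 : ∀ f, A f =O[𝓝 0] fun _ => (1 : ℂ)) (hP1 : ∀ f, P f =O[𝓝 0] fun _ => (1 : ℂ)) :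
    (fun t => ∏ f, A f t - ∏ f, P f t) =O[𝓝 0] fun t => t ^ δ := by
  induction r with
  | zero =>
    simp only [Finset.univ_eq_empty, Finset.prod_empty, sub_self]
    exact isBigO_zero _ _
  | succ r ih =>
    have h := ih (fun f => A f.succ) (fun f => P f.succ) (fun f => hA _) (fun f => hA1 _)
      (fun f => hP1 _)
    have h1 : (fun t => ∏ f : Fin r, A f.succ t) =O[𝓝 0] fun _ => (1 : ℂ) := by
      have := IsBigO.finsetProd (s := (Finset.univ : Finset (Fin r))) (f := fun f t => A f.succ t)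
        (g := fun _ _ => (1 : ℂ)) (l := 𝓝 (0 : ℂ)) (fun f _ => hA1 _)
      simpa using this
    have h2 := (hA 0).mul h1
    have h3 := (hP1 0).mul h
    simp only [mul_one] at h2
    simp only [one_mul] at h3
    refine (h2.add h3).congr_left fun t => ?_
    rw [Fin.prod_univ_succ, Fin.prod_univ_succ]
    ring

/-- Separable approximation. -/
theorem sep_isBigO {r δ : ℕ} {ι : Type} [Fintype ι] (A : Fin r → ι → ℂ → ℂ)
    (p : Fin r → Fin δ → ℂ → ℂ) (C : Fin r → Fin δ → ι → ℂ)
    (hA : ∀ f lam, (fun t => A f lam t - ∑ n, p f n t * C f n lam) =O[𝓝 0] fun t => t ^ δ)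
    (hA1 : ∀ f lam, A f lam =O[𝓝 0] fun _ => (1 : ℂ))
    (hp1 : ∀ f n, p f n =O[𝓝 0] fun _ => (1 : ℂ)) (v : ι → ℂ)
    (hv : ∀ n : Fin r → Fin δ, ∑ lam, (∏ f, C f (n f) lam) * v lam = 0) :
    (fun t => ∑ lam, (∏ f, A f lam t) * v lam) =O[𝓝 0] fun t => t ^ δ := by
  classical
  have hzero : ∀ t, ∑ lam, (∏ f, ∑ n, p f n t * C f n lam) * v lam = 0 := by
    intro t
    have h1 : ∀ lam, (∏ f, ∑ n, p f n t * C f n lam) * v lam =
        ∑ n : Fin r → Fin δ, (∏ f, p f (n f) t) * ((∏ f, C f (n f) lam) * v lam) := by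
      intro lam
      rw [Finset.prod_univ_sum, Fintype.piFinset_univ, Finset.sum_mul]
      refine Finset.sum_congr rfl fun n _ => ?_
      rw [Finset.prod_mul_distrib]
      ring
    simp_rw [h1]
    rw [Finset.sum_comm]
    refine Finset.sum_eq_zero fun n _ => ?_
    rw [← Finset.mul_sum, hv n, mul_zero]
  have hterm : ∀ lam, (fun t => (∏ f, A f lam t) * v lam -
      (∏ f, ∑ n, p f n t * C f n lam) * v lam) =O[𝓝 0] fun t => t ^ δ := by
    intro lam
    have hP1 : ∀ f, (fun t => ∑ n, p f n t * C f n lam) =O[𝓝 0] fun _ => (1 : ℂ) := by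
      intro f
      refine IsBigO.fun_sum fun n _ => ?_
      have := (hp1 f n).mul (isBigO_const_const (C f n lam) (one_ne_zero (α := ℂ)) (𝓝 (0 : ℂ)))
      simpa using this
    have h := prod_isBigO (fun f => A f lam) (fun f t => ∑ n, p f n t * C f n lam)
      (fun f => hA f lam) (fun f => hA1 f lam) hP1
    have h2 := h.mul (isBigO_const_const (v lam) (one_ne_zero (α := ℂ)) (𝓝 (0 : ℂ)))
    simp only [mul_one] at h2
    refine h2.congr_left fun t => ?_
    ring
  have hsum := IsBigO.fun_sum (s := (Finset.univ : Finset ι)) fun lam _ => hterm lam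
  refine hsum.congr_left fun t => ?_
  rw [Finset.sum_sub_distrib, hzero t, sub_zero]

/-- The vectors killed by all moments. -/
noncomputable def sepKer {r δ : ℕ} {ι : Type} [Fintype ι] (c : Fin r → ℕ → ι → ℂ) :
    Submodule ℂ (ι → ℂ) :=
  LinearMap.ker (Matrix.of fun (n : Fin r → Fin δ) lam => ∏ f, c f (n f) lam :
    Matrix (Fin r → Fin δ) ι ℂ).mulVecLin

theorem finrank_sepKer {r δ : ℕ} {ι : Type} [Fintype ι] (c : Fin r → ℕ → ι → ℂ) :
    Fintype.card ι ≤ Module.finrank ℂ (sepKer (δ := δ) c) + δ ^ r := by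
  have h := LinearMap.finrank_range_add_finrank_ker
    (Matrix.of fun (n : Fin r → Fin δ) lam => ∏ f, c f (n f) lam :
      Matrix (Fin r → Fin δ) ι ℂ).mulVecLin
  have h1 : Module.finrank ℂ (LinearMap.range (Matrix.of fun (n : Fin r → Fin δ) lam =>
      ∏ f, c f (n f) lam : Matrix (Fin r → Fin δ) ι ℂ).mulVecLin) ≤ δ ^ r := by
    refine (Submodule.finrank_le _).trans ?_
    simp
  have h2 : Module.finrank ℂ (ι → ℂ) = Fintype.card ι := Module.finrank_fintype_fun_eq_card ℂ
  unfold sepKer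
  omega

theorem mem_sepKer {r δ : ℕ} {ι : Type} [Fintype ι] {c : Fin r → ℕ → ι → ℂ} {v : ι → ℂ}
    (hv : v ∈ sepKer (δ := δ) c) (n : Fin r → ℕ) (hn : ∀ f, n f < δ) :
    ∑ lam, (∏ f, c f (n f) lam) * v lam = 0 := by
  have h := LinearMap.mem_ker.1 hv
  have h2 := congrFun h (fun f => ⟨n f, hn f⟩)
  simpa [Matrix.mulVec, dotProduct] using h2

/-- The order of vanishing of the determinant of a separable family of functions. -/
theorem det_sep_isBigO {r δ : ℕ} {ι : Type} [Fintype ι] [DecidableEq ι]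
    (c : Fin r → ℕ → ι → ℂ) (A : ι → Fin r → ι → ℂ → ℂ)
    (hAc : ∀ j f lam, Continuous (A j f lam))
    (p : ι → Fin r → Fin δ → ℂ → ℂ) (hpc : ∀ j f n, Continuous (p j f n))
    (C : ι → Fin r → Fin δ → ι → ℂ)
    (hA : ∀ j f lam, (fun t => A j f lam t - ∑ n, p j f n t * C j f n lam) =O[𝓝 0]
      fun t => t ^ δ)
    (hC : ∀ j f n, (∃ m < δ, C j f n = c f m) ∨ C j f n = 0) :
    (fun t => (Matrix.of fun j lam => ∏ f, A j f lam t : Matrix ι ι ℂ).det) =O[𝓝[≠] 0]
      fun t => t ^ (δ * (Fintype.card ι - δ ^ r)) := by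
  have hcont : ∀ j lam, Continuous fun t => ∏ f, A j f lam t := fun j lam =>
    continuous_finsetProd _ fun f _ => hAc j f lam
  have h := FiveNum.det_isBigO (fun t => (Matrix.of fun j lam => ∏ f, A j f lam t :
      Matrix ι ι ℂ)) (sepKer (δ := δ) c) δ (𝓝 0)
    (by
      intro v hv j
      have h1 := sep_isBigO (A j) (p j) (C j) (hA j)
        (fun f lam => (hAc j f lam).continuousAt.isBigO_one ℂ)
        (fun f n => (hpc j f n).continuousAt.isBigO_one ℂ) v (by
          intro n
          by_cases hz : ∃ f, C j f (n f) = 0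
          · obtain ⟨f, hf⟩ := hz
            refine Finset.sum_eq_zero fun lam _ => ?_
            rw [Finset.prod_eq_zero (Finset.mem_univ f) (by rw [hf]; rfl), zero_mul]
          · push Not at hz
            have hm : ∀ f, ∃ m < δ, C j f (n f) = c f m := fun f =>
              (hC j f (n f)).resolve_right (hz f)
            choose m hm1 hm2 using hm
            simp_rw [hm2]
            exact mem_sepKer hv m hm1)
      exact h1)
    (by
      intro v j
      have hc : Continuous fun t => ∑ lam, (∏ f, A j f lam t) * v lam :=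
        continuous_finsetSum _ fun lam _ => (hcont j lam).mul continuous_const
      exact hc.continuousAt.isBigO_one ℂ)
  have h' := h.mono (nhdsWithin_le_nhds (s := {0}ᶜ))
  refine h'.trans ?_
  have hle : δ * (Fintype.card ι - δ ^ r) ≤ δ * Module.finrank ℂ (sepKer (δ := δ) c) := by
    refine Nat.mul_le_mul_left _ ?_
    have := finrank_sepKer (δ := δ) c
    omega
  obtain ⟨e, he⟩ := Nat.exists_eq_add_of_le hle
  rw [he]
  have hc : Continuous fun t : ℂ => t ^ e := continuous_pow e
  have h1 := ((hc.continuousAt (x := 0)).isBigO_one ℂ).mono (nhdsWithin_le_nhds (s := {0}ᶜ))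
  have h2 := (isBigO_refl (fun t : ℂ => t ^ (δ * (Fintype.card ι - δ ^ r))) (𝓝[≠] 0)).mul h1
  simp only [mul_one] at h2
  refine h2.congr_left fun t => ?_
  rw [pow_add]

end SharpSix
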