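import Pool.Agent.SharpSix.An1
import Pool.Agent.FiveNum.AnBound
import Pool.Agent.FiveNum.AnArith

/-!
# The interpolation determinant on `G_a^2 × G_m^2`
-/

open Filter Topology Asymptotics Matrix

namespace SharpSix

open FiveNum

/-- Index set of the monomials. -/
abbrev LamS (D₀ D₁ : ℕ) := (Fin D₀ × Fin D₀) × (Fin D₁ × Fin D₁)

theorem card_LamS (D₀ D₁ : ℕ) : Fintype.card (LamS D₀ D₁) = D₀ * D₀ * (D₁ * D₁) := by simp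

/-- The moments. -/
noncomputable def mom (x : ℂ) (D₀ D₁ : ℕ) : Fin 3 → ℕ → LamS D₀ D₁ → ℂ :=
  ![fun m lam => iteratedDeriv m (Ffun lam.1.1 lam.2.1) 0,
    fun m lam => iteratedDeriv m (Ffun lam.1.2 lam.2.2) 0,
    fun m lam => (((lam.2.1 : ℕ) : ℂ) + ((lam.2.2 : ℕ) : ℂ) * x) ^ m]

/-- The three factors of an entry. -/
noncomputable def fac (x : ℂ) (D₀ D₁ : ℕ) (t₁ t₂ : ℕ) (a b y : ℂ) :
    Fin 3 → LamS D₀ D₁ → ℂ → ℂ :=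
  ![fun lam t => t ^ t₁ * ((wC lam.1.1 lam.2.1 t₁).eval (t * a) *
      Complex.exp (-((lam.2.1 : ℕ) : ℂ) * (t * a))),
    fun lam t => t ^ t₂ * ((wC lam.1.2 lam.2.2 t₂).eval (t * b) *
      Complex.exp (-((lam.2.2 : ℕ) : ℂ) * (t * b))),
    fun lam t => Complex.exp ((((lam.2.1 : ℕ) : ℂ) + ((lam.2.2 : ℕ) : ℂ) * x) * (t * y))]

/-- coefficient functions -/
noncomputable def pfun (t₁ t₂ : ℕ) (a b y : ℂ) {δ : ℕ} : Fin 3 → Fin δ → ℂ → ℂ :=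
  ![fun n t => (-1) ^ t₁ * (a ^ (n : ℕ) / ((n : ℕ).factorial : ℂ) * t ^ ((n : ℕ) + t₁)),
    fun n t => (-1) ^ t₂ * (b ^ (n : ℕ) / ((n : ℕ).factorial : ℂ) * t ^ ((n : ℕ) + t₂)),
    fun n t => (t * y) ^ (n : ℕ) / ((n : ℕ).factorial : ℂ)]

/-- coefficient vectors -/
noncomputable def Cfun (x : ℂ) (D₀ D₁ : ℕ) (t₁ t₂ : ℕ) {δ : ℕ} :
    Fin 3 → Fin δ → LamS D₀ D₁ → ℂ :=
  ![fun n => if (n : ℕ) + t₁ < δ then mom x D₀ D₁ 0 ((n : ℕ) + t₁) else 0,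
    fun n => if (n : ℕ) + t₂ < δ then mom x D₀ D₁ 1 ((n : ℕ) + t₂) else 0,
    fun n => mom x D₀ D₁ 2 n]

theorem continuous_fac (x : ℂ) (D₀ D₁ t₁ t₂ : ℕ) (a b y : ℂ) (f : Fin 3) (lam : LamS D₀ D₁) :
    Continuous (fac x D₀ D₁ t₁ t₂ a b y f lam) := by
  have h : ∀ (i k t : ℕ) (a : ℂ), Continuous (fun s : ℂ => (wC i k t).eval (s * a)) :=
    fun i k t a => (wC i k t).continuous.comp (continuous_id.mul continuous_const)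
  fin_cases f
  · simp only [fac]
    have := h lam.1.1 lam.2.1 t₁ a
    change Continuous fun t : ℂ => t ^ t₁ * ((wC lam.1.1 lam.2.1 t₁).eval (t * a) *
      Complex.exp (-((lam.2.1 : ℕ) : ℂ) * (t * a)))
    fun_prop
  · simp only [fac]
    have := h lam.1.2 lam.2.2 t₂ b
    change Continuous fun t : ℂ => t ^ t₂ * ((wC lam.1.2 lam.2.2 t₂).eval (t * b) *
      Complex.exp (-((lam.2.2 : ℕ) : ℂ) * (t * b)))
    fun_prop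
  · change Continuous fun t : ℂ =>
      Complex.exp ((((lam.2.1 : ℕ) : ℂ) + ((lam.2.2 : ℕ) : ℂ) * x) * (t * y))
    fun_prop

theorem differentiable_fac (x : ℂ) (D₀ D₁ t₁ t₂ : ℕ) (a b y : ℂ) (f : Fin 3)
    (lam : LamS D₀ D₁) : Differentiable ℂ (fac x D₀ D₁ t₁ t₂ a b y f lam) := by
  have h : ∀ (i k t : ℕ) (a : ℂ), Differentiable ℂ (fun s : ℂ => (wC i k t).eval (s * a)) :=
    fun i k t a => (wC i k t).differentiable.comp (differentiable_id.mul_const a)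
  fin_cases f
  · have := h lam.1.1 lam.2.1 t₁ a
    change Differentiable ℂ fun t : ℂ => t ^ t₁ * ((wC lam.1.1 lam.2.1 t₁).eval (t * a) *
      Complex.exp (-((lam.2.1 : ℕ) : ℂ) * (t * a)))
    fun_prop
  · have := h lam.1.2 lam.2.2 t₂ b
    change Differentiable ℂ fun t : ℂ => t ^ t₂ * ((wC lam.1.2 lam.2.2 t₂).eval (t * b) *
      Complex.exp (-((lam.2.2 : ℕ) : ℂ) * (t * b)))
    fun_prop
  · change Differentiable ℂ fun t : ℂ =>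
      Complex.exp ((((lam.2.1 : ℕ) : ℂ) + ((lam.2.2 : ℕ) : ℂ) * x) * (t * y))
    fun_prop

theorem continuous_pfun (t₁ t₂ : ℕ) (a b y : ℂ) {δ : ℕ} (f : Fin 3) (n : Fin δ) :
    Continuous (pfun t₁ t₂ a b y f n) := by
  fin_cases f
  · change Continuous fun t : ℂ =>
      (-1) ^ t₁ * (a ^ (n : ℕ) / ((n : ℕ).factorial : ℂ) * t ^ ((n : ℕ) + t₁))
    fun_prop
  · change Continuous fun t : ℂ =>
      (-1) ^ t₂ * (b ^ (n : ℕ) / ((n : ℕ).factorial : ℂ) * t ^ ((n : ℕ) + t₂))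
    fun_prop
  · change Continuous fun t : ℂ => (t * y) ^ (n : ℕ) / ((n : ℕ).factorial : ℂ)
    fun_prop

theorem fac_sub_isBigO (x : ℂ) (D₀ D₁ t₁ t₂ δ : ℕ) (a b y : ℂ) (f : Fin 3) (lam : LamS D₀ D₁) :
    (fun t => fac x D₀ D₁ t₁ t₂ a b y f lam t -
      ∑ n : Fin δ, pfun t₁ t₂ a b y f n t * Cfun x D₀ D₁ t₁ t₂ f n lam) =O[𝓝 0]
        fun t => t ^ δ := by
  fin_cases f
  · have h := ent_first lam.1.1 lam.2.1 t₁ a δ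
    refine h.congr_left fun t => ?_
    rw [← Fin.sum_univ_eq_sum_range (fun n => if n + t₁ < δ then
        (-1) ^ t₁ * (a ^ n / (n.factorial : ℂ) * t ^ (n + t₁)) *
          iteratedDeriv (n + t₁) (Ffun lam.1.1 lam.2.1) 0 else 0)]
    change _ = t ^ t₁ * ((wC lam.1.1 lam.2.1 t₁).eval (t * a) *
      Complex.exp (-((lam.2.1 : ℕ) : ℂ) * (t * a))) - ∑ n : Fin δ,
        ((-1) ^ t₁ * (a ^ (n : ℕ) / ((n : ℕ).factorial : ℂ) * t ^ ((n : ℕ) + t₁))) *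
        (if (n : ℕ) + t₁ < δ then mom x D₀ D₁ 0 ((n : ℕ) + t₁) else 0) lam
    congr 1
    refine Finset.sum_congr rfl fun n _ => ?_
    by_cases hn : (n : ℕ) + t₁ < δ
    · rw [if_pos hn, if_pos hn]
      rfl
    · rw [if_neg hn, if_neg hn]
      simp
  · have h := ent_first lam.1.2 lam.2.2 t₂ b δ
    refine h.congr_left fun t => ?_
    rw [← Fin.sum_univ_eq_sum_range (fun n => if n + t₂ < δ then
        (-1) ^ t₂ * (b ^ n / (n.factorial : ℂ) * t ^ (n + t₂)) *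
          iteratedDeriv (n + t₂) (Ffun lam.1.2 lam.2.2) 0 else 0)]
    change _ = t ^ t₂ * ((wC lam.1.2 lam.2.2 t₂).eval (t * b) *
      Complex.exp (-((lam.2.2 : ℕ) : ℂ) * (t * b))) - ∑ n : Fin δ,
        ((-1) ^ t₂ * (b ^ (n : ℕ) / ((n : ℕ).factorial : ℂ) * t ^ ((n : ℕ) + t₂))) *
        (if (n : ℕ) + t₂ < δ then mom x D₀ D₁ 1 ((n : ℕ) + t₂) else 0) lam
    congr 1
    refine Finset.sum_congr rfl fun n _ => ?_
    by_cases hn : (n : ℕ) + t₂ < δ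
    · rw [if_pos hn, if_pos hn]
      rfl
    · rw [if_neg hn, if_neg hn]
      simp
  · have h := ent_second (((lam.2.1 : ℕ) : ℂ) + ((lam.2.2 : ℕ) : ℂ) * x) y δ
    refine h.congr_left fun t => ?_
    rw [← Fin.sum_univ_eq_sum_range (fun β => (t * y) ^ β / (β.factorial : ℂ) *
      (((lam.2.1 : ℕ) : ℂ) + ((lam.2.2 : ℕ) : ℂ) * x) ^ β)]
    rfl

/-- The matrix. -/
noncomputable def matS (x : ℂ) (D₀ D₁ : ℕ) (t₁ t₂ : LamS D₀ D₁ → ℕ) (a b y : LamS D₀ D₁ → ℂ)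
    (t : ℂ) : Matrix (LamS D₀ D₁) (LamS D₀ D₁) ℂ :=
  Matrix.of fun j lam => ∏ f, fac x D₀ D₁ (t₁ j) (t₂ j) (a j) (b j) (y j) f lam t

theorem differentiable_det_matS (x : ℂ) (D₀ D₁ : ℕ) (t₁ t₂ : LamS D₀ D₁ → ℕ)
    (a b y : LamS D₀ D₁ → ℂ) : Differentiable ℂ fun t => (matS x D₀ D₁ t₁ t₂ a b y t).det := by
  simp_rw [Matrix.det_apply']
  have h : ∀ j lam, Differentiable ℂ fun t => matS x D₀ D₁ t₁ t₂ a b y t j lam := by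
    intro j lam
    have h1 : Differentiable ℂ fun t => ∏ f, fac x D₀ D₁ (t₁ j) (t₂ j) (a j) (b j) (y j) f lam t :=
      Differentiable.fun_finsetProd fun f _ => differentiable_fac _ _ _ _ _ _ _ _ f lam
    exact h1
  refine Differentiable.fun_sum fun σ _ => ?_
  refine Differentiable.const_mul ?_ _
  exact Differentiable.fun_finsetProd fun μ _ => h _ _

theorem det_matS_isBigO (x : ℂ) (D₀ D₁ δ : ℕ) (t₁ t₂ : LamS D₀ D₁ → ℕ)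
    (a b y : LamS D₀ D₁ → ℂ) : (fun t => (matS x D₀ D₁ t₁ t₂ a b y t).det) =O[𝓝[≠] 0]
      fun t => t ^ (δ * (D₀ * D₀ * (D₁ * D₁) - δ ^ 3)) := by
  have h := det_sep_isBigO (δ := δ) (mom x D₀ D₁)
    (fun j => fac x D₀ D₁ (t₁ j) (t₂ j) (a j) (b j) (y j))
    (fun j f lam => continuous_fac _ _ _ _ _ _ _ _ _ _)
    (fun j => pfun (t₁ j) (t₂ j) (a j) (b j) (y j))
    (fun j f n => continuous_pfun _ _ _ _ _ _ _)
    (fun j => Cfun x D₀ D₁ (t₁ j) (t₂ j))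
    (fun j f lam => fac_sub_isBigO _ _ _ _ _ _ _ _ _ _ _) (by
      intro j f n
      fin_cases f
      · change (∃ m < δ, (if (n : ℕ) + t₁ j < δ then mom x D₀ D₁ 0 ((n : ℕ) + t₁ j) else 0) =
          mom x D₀ D₁ 0 m) ∨ (if (n : ℕ) + t₁ j < δ then mom x D₀ D₁ 0 ((n : ℕ) + t₁ j) else 0) = 0
        by_cases hn : (n : ℕ) + t₁ j < δ
        · left
          exact ⟨_, hn, by rw [if_pos hn]⟩
        · right
          rw [if_neg hn]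
      · change (∃ m < δ, (if (n : ℕ) + t₂ j < δ then mom x D₀ D₁ 1 ((n : ℕ) + t₂ j) else 0) =
          mom x D₀ D₁ 1 m) ∨ (if (n : ℕ) + t₂ j < δ then mom x D₀ D₁ 1 ((n : ℕ) + t₂ j) else 0) = 0
        by_cases hn : (n : ℕ) + t₂ j < δ
        · left
          exact ⟨_, hn, by rw [if_pos hn]⟩
        · right
          rw [if_neg hn]
      · left
        exact ⟨n, n.2, rfl⟩)
  rw [card_LamS] at h
  exact h

/-- Bound for the entries on the circle of radius `ρ`. -/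
noncomputable def bndS (D₀ D₁ T : ℕ) (H ρ Xb : ℝ) : ℝ :=
  (ρ ^ T * (((D₀ : ℝ) + D₁) ^ T * (ρ * H) ^ D₀ * Real.exp (ρ * H * D₁))) ^ 2 *
    Real.exp (ρ * H * D₁ * (1 + Xb))

theorem norm_fac_poly_le {i k τ D₀ D₁ T : ℕ} {a t : ℂ} {H ρ : ℝ}
    (hi : i < D₀) (hk : k < D₁) (hτ : τ ≤ T) (hH : 1 ≤ H) (hρ : 1 ≤ ρ)
    (ha : ‖a‖ ≤ H) (ht : ‖t‖ = ρ) :
    ‖t ^ τ * ((wC i k τ).eval (t * a) * Complex.exp (-(k : ℂ) * (t * a)))‖ ≤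
      ρ ^ T * (((D₀ : ℝ) + D₁) ^ T * (ρ * H) ^ D₀ * Real.exp (ρ * H * D₁)) := by
  have hH0 : 0 ≤ H := by linarith
  have hρ0 : 0 ≤ ρ := by linarith
  have hta : ‖t * a‖ ≤ ρ * H := by
    rw [norm_mul, ht]
    exact mul_le_mul_of_nonneg_left ha hρ0
  have hρH : 1 ≤ ρ * H := by nlinarith
  have hw := norm_wC_le i k τ (t * a) (ρ * H) hρH hta
  have hbase : (1 : ℝ) ≤ (D₀ : ℝ) + D₁ := by
    have : (1 : ℝ) ≤ (D₀ : ℝ) := by exact_mod_cast (by omega : 1 ≤ D₀)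
    have : (0 : ℝ) ≤ (D₁ : ℝ) := by positivity
    linarith
  have hil : ((i : ℝ) + k) ^ τ ≤ ((D₀ : ℝ) + D₁) ^ T := by
    have h1 : (i : ℝ) + k ≤ (D₀ : ℝ) + D₁ := by
      have h2 : (i : ℝ) ≤ D₀ := by exact_mod_cast hi.le
      have h3 : (k : ℝ) ≤ D₁ := by exact_mod_cast hk.le
      linarith
    exact (pow_le_pow_left₀ (by positivity) h1 τ).trans (pow_le_pow_right₀ hbase hτ)
  have hMi : (ρ * H) ^ i ≤ (ρ * H) ^ D₀ := pow_le_pow_right₀ hρH hi.le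
  have hw' : ‖(wC i k τ).eval (t * a)‖ ≤ ((D₀ : ℝ) + D₁) ^ T * (ρ * H) ^ D₀ :=
    hw.trans (mul_le_mul hil hMi (by positivity) (by positivity))
  have ht' : ‖t ^ τ‖ ≤ ρ ^ T := by
    rw [norm_pow, ht]
    exact pow_le_pow_right₀ hρ hτ
  have hkD : (k : ℝ) ≤ D₁ := by exact_mod_cast hk.le
  have he1 : ‖Complex.exp (-(k : ℂ) * (t * a))‖ ≤ Real.exp (ρ * H * D₁) := by
    refine (Complex.norm_exp_le_exp_norm _).trans (Real.exp_le_exp.2 ?_)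
    rw [norm_mul, norm_neg, Complex.norm_natCast]
    calc (k : ℝ) * ‖t * a‖ ≤ D₁ * (ρ * H) := mul_le_mul hkD hta (norm_nonneg _) (by positivity)
      _ = ρ * H * D₁ := by ring
  rw [norm_mul, norm_mul]
  exact mul_le_mul ht' (mul_le_mul hw' he1 (norm_nonneg _) (by positivity))
    (by positivity) (by positivity)

theorem norm_matS_le {x : ℂ} {D₀ D₁ T : ℕ} {t₁ t₂ : LamS D₀ D₁ → ℕ} {a b y : LamS D₀ D₁ → ℂ}
    {t : ℂ} {H ρ Xb : ℝ} (h1 : ∀ j, t₁ j ≤ T) (h2 : ∀ j, t₂ j ≤ T) (hH : 1 ≤ H) (hρ : 1 ≤ ρ)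
    (ha : ∀ j, ‖a j‖ ≤ H) (hb : ∀ j, ‖b j‖ ≤ H) (hy : ∀ j, ‖y j‖ ≤ H) (hx : ‖x‖ ≤ Xb)
    (ht : ‖t‖ = ρ) (j lam : LamS D₀ D₁) :
    ‖matS x D₀ D₁ t₁ t₂ a b y t j lam‖ ≤ bndS D₀ D₁ T H ρ Xb := by
  have hρ0 : 0 ≤ ρ := by linarith
  have hXb : 0 ≤ Xb := (norm_nonneg x).trans hx
  have e : matS x D₀ D₁ t₁ t₂ a b y t j lam =
      (t ^ t₁ j * ((wC lam.1.1 lam.2.1 (t₁ j)).eval (t * a j) *
        Complex.exp (-((lam.2.1 : ℕ) : ℂ) * (t * a j)))) *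
      (t ^ t₂ j * ((wC lam.1.2 lam.2.2 (t₂ j)).eval (t * b j) *
        Complex.exp (-((lam.2.2 : ℕ) : ℂ) * (t * b j)))) *
      Complex.exp ((((lam.2.1 : ℕ) : ℂ) + ((lam.2.2 : ℕ) : ℂ) * x) * (t * y j)) := by
    simp only [matS, Matrix.of_apply, Fin.prod_univ_three]
    rfl
  rw [e, norm_mul, norm_mul, bndS, sq]
  have k1 := norm_fac_poly_le (T := T) lam.1.1.2 lam.2.1.2 (h1 j) hH hρ (ha j) ht
  have k2 := norm_fac_poly_le (T := T) lam.1.2.2 lam.2.2.2 (h2 j) hH hρ (hb j) ht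
  have k3 : ‖Complex.exp ((((lam.2.1 : ℕ) : ℂ) + ((lam.2.2 : ℕ) : ℂ) * x) * (t * y j))‖ ≤
      Real.exp (ρ * H * D₁ * (1 + Xb)) := by
    refine (Complex.norm_exp_le_exp_norm _).trans (Real.exp_le_exp.2 ?_)
    rw [norm_mul, norm_mul t, ht]
    have h1 : ‖((lam.2.1 : ℕ) : ℂ) + ((lam.2.2 : ℕ) : ℂ) * x‖ ≤ D₁ * (1 + Xb) := by
      refine (norm_add_le _ _).trans ?_
      rw [norm_mul, Complex.norm_natCast, Complex.norm_natCast]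
      have hkD : ((lam.2.1 : ℕ) : ℝ) ≤ D₁ := by exact_mod_cast lam.2.1.2.le
      have hlD : ((lam.2.2 : ℕ) : ℝ) ≤ D₁ := by exact_mod_cast lam.2.2.2.le
      have : ((lam.2.2 : ℕ) : ℝ) * ‖x‖ ≤ D₁ * Xb :=
        mul_le_mul hlD hx (norm_nonneg _) (by positivity)
      linarith
    have h2 : ρ * ‖y j‖ ≤ ρ * H := mul_le_mul_of_nonneg_left (hy j) hρ0
    calc ‖((lam.2.1 : ℕ) : ℂ) + ((lam.2.2 : ℕ) : ℂ) * x‖ * (ρ * ‖y j‖)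
        ≤ (D₁ * (1 + Xb)) * (ρ * H) := mul_le_mul h1 h2 (by positivity) (by positivity)
      _ = ρ * H * D₁ * (1 + Xb) := by ring
  have hH0 : 0 ≤ H := by linarith
  exact mul_le_mul (mul_le_mul k1 k2 (norm_nonneg _) (by positivity)) k3 (norm_nonneg _)
    (by positivity)

theorem norm_det_matS_le {x : ℂ} {D₀ D₁ T δ : ℕ} {t₁ t₂ : LamS D₀ D₁ → ℕ}
    {a b y : LamS D₀ D₁ → ℂ}
    {H ρ Xb : ℝ} (h1 : ∀ j, t₁ j ≤ T) (h2 : ∀ j, t₂ j ≤ T) (hH : 1 ≤ H) (hρ : 1 ≤ ρ)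
    (ha : ∀ j, ‖a j‖ ≤ H) (hb : ∀ j, ‖b j‖ ≤ H) (hy : ∀ j, ‖y j‖ ≤ H) (hx : ‖x‖ ≤ Xb) :
    ‖(matS x D₀ D₁ t₁ t₂ a b y 1).det‖ ≤
      ((D₀ * D₀ * (D₁ * D₁)).factorial * (bndS D₀ D₁ T H ρ Xb) ^ (D₀ * D₀ * (D₁ * D₁))) /
        ρ ^ (δ * (D₀ * D₀ * (D₁ * D₁) - δ ^ 3)) := by
  refine schwarz_one (differentiable_det_matS x D₀ D₁ t₁ t₂ a b y)
    (det_matS_isBigO x D₀ D₁ δ t₁ t₂ a b y) hρ ?_
  intro t ht
  have h := Matrix.det_le (A := matS x D₀ D₁ t₁ t₂ a b y t)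
    (abv := NormedField.toAbsoluteValue ℂ) (x := bndS D₀ D₁ T H ρ Xb) (by
      intro j lam
      exact norm_matS_le h1 h2 hH hρ ha hb hy hx ht j lam)
  rw [card_LamS, nsmul_eq_mul] at h
  exact h

theorem matS_one (x : ℂ) (D₀ D₁ : ℕ) (t₁ t₂ : LamS D₀ D₁ → ℕ) (a b y : LamS D₀ D₁ → ℂ)
    (j lam : LamS D₀ D₁) : matS x D₀ D₁ t₁ t₂ a b y 1 j lam =
      (wC lam.1.1 lam.2.1 (t₁ j)).eval (a j) * (wC lam.1.2 lam.2.2 (t₂ j)).eval (b j) *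
        (Complex.exp (y j - a j) ^ (lam.2.1 : ℕ) * Complex.exp (x * y j - b j) ^ (lam.2.2 : ℕ)) := by
  have e : matS x D₀ D₁ t₁ t₂ a b y 1 j lam =
      (1 ^ t₁ j * ((wC lam.1.1 lam.2.1 (t₁ j)).eval (1 * a j) *
        Complex.exp (-((lam.2.1 : ℕ) : ℂ) * (1 * a j)))) *
      (1 ^ t₂ j * ((wC lam.1.2 lam.2.2 (t₂ j)).eval (1 * b j) *
        Complex.exp (-((lam.2.2 : ℕ) : ℂ) * (1 * b j)))) *
      Complex.exp ((((lam.2.1 : ℕ) : ℂ) + ((lam.2.2 : ℕ) : ℂ) * x) * (1 * y j)) := by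
    simp only [matS, Matrix.of_apply, Fin.prod_univ_three]
    rfl
  rw [e, ← Complex.exp_nat_mul, ← Complex.exp_nat_mul, ← Complex.exp_add]
  simp only [one_pow, one_mul]
  have h1 : Complex.exp (((lam.2.1 : ℕ) : ℂ) * (y j - a j) +
      ((lam.2.2 : ℕ) : ℂ) * (x * y j - b j)) =
      Complex.exp (-((lam.2.1 : ℕ) : ℂ) * a j) * Complex.exp (-((lam.2.2 : ℕ) : ℂ) * b j) *
      Complex.exp ((((lam.2.1 : ℕ) : ℂ) + ((lam.2.2 : ℕ) : ℂ) * x) * y j) := by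
    rw [← Complex.exp_add, ← Complex.exp_add]
    congr 1
    ring
  rw [h1]
  ring

theorem det_matS_eq_zero {x : ℂ} {D₀ D₁ T δ κ Q : ℕ} {t₁ t₂ : LamS D₀ D₁ → ℕ}
    {a b y : LamS D₀ D₁ → ℂ}
    {H ρ Xb : ℝ} (h1 : ∀ j, t₁ j ≤ T) (h2 : ∀ j, t₂ j ≤ T) (hH : 1 ≤ H) (hρ : 1 ≤ ρ)
    (ha : ∀ j, ‖a j‖ ≤ H) (hb : ∀ j, ‖b j‖ ≤ H) (hy : ∀ j, ‖y j‖ ≤ H) (hx : ‖x‖ ≤ Xb)
    (hQa : ∀ j, (Q : ℂ) * a j ∈ GInt) (hQb : ∀ j, (Q : ℂ) * b j ∈ GInt)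
    (hQY : ∀ j, (Q : ℂ) ^ κ * Complex.exp (y j - a j) ∈ GInt)
    (hQZ : ∀ j, (Q : ℂ) ^ κ * Complex.exp (x * y j - b j) ∈ GInt) (hQ : 0 < Q)
    (hnum : (Q : ℝ) ^ ((2 * D₀ + 2 * κ * D₁) * (D₀ * D₀ * (D₁ * D₁))) *
      ((D₀ * D₀ * (D₁ * D₁)).factorial *
        (bndS D₀ D₁ T H ρ Xb) ^ (D₀ * D₀ * (D₁ * D₁))) <
        ρ ^ (δ * (D₀ * D₀ * (D₁ * D₁) - δ ^ 3))) :
    (matS x D₀ D₁ t₁ t₂ a b y 1).det = 0 := by
  by_contra hne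
  have k1 := norm_det_matS_le (δ := δ) h1 h2 hH hρ ha hb hy hx
  have k2 : (Q : ℂ) ^ ((2 * D₀ + 2 * κ * D₁) * Fintype.card (LamS D₀ D₁)) *
      (matS x D₀ D₁ t₁ t₂ a b y 1).det ∈ GInt := det_mem_GInt fun j lam => by
    rw [matS_one]
    have e1 := mem_GInt_mul (wC_eval_mem_GInt (i := lam.1.1) (l := lam.2.1) (τ := t₁ j) (hQa j))
      (wC_eval_mem_GInt (i := lam.1.2) (l := lam.2.2) (τ := t₂ j) (hQb j))
    have e2 := mem_GInt_mul (mem_GInt_pow (hQY j) (lam.2.1 : ℕ))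
      (mem_GInt_pow (hQZ j) (lam.2.2 : ℕ))
    refine mem_GInt_pow_mono (mem_GInt_mul e1 e2) ?_
    have h1 : κ * (lam.2.1 : ℕ) ≤ κ * D₁ := Nat.mul_le_mul_left _ lam.2.1.2.le
    have h2 : κ * (lam.2.2 : ℕ) ≤ κ * D₁ := Nat.mul_le_mul_left _ lam.2.2.2.le
    have h3 : (lam.1.1 : ℕ) < D₀ := lam.1.1.2
    have h4 : (lam.1.2 : ℕ) < D₀ := lam.1.2.2
    have : 2 * κ * D₁ = κ * D₁ + κ * D₁ := by ring
    omega
  have hQ0 : (Q : ℂ) ≠ 0 := by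
    exact_mod_cast hQ.ne'
  have k3 := one_le_norm_of_mem_GInt k2 (mul_ne_zero (pow_ne_zero _ hQ0) hne)
  rw [norm_mul, norm_pow, Complex.norm_natCast, card_LamS] at k3
  have hρ0 : 0 < ρ ^ (δ * (D₀ * D₀ * (D₁ * D₁) - δ ^ 3)) := by
    have : 0 < ρ := by linarith
    positivity
  have hQr : 0 < (Q : ℝ) := by exact_mod_cast hQ
  have k4 := mul_le_mul_of_nonneg_left k1
    (by positivity : 0 ≤ (Q : ℝ) ^ ((2 * D₀ + 2 * κ * D₁) * (D₀ * D₀ * (D₁ * D₁))))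
  have k5 : (Q : ℝ) ^ ((2 * D₀ + 2 * κ * D₁) * (D₀ * D₀ * (D₁ * D₁))) *
      (((D₀ * D₀ * (D₁ * D₁)).factorial *
        (bndS D₀ D₁ T H ρ Xb) ^ (D₀ * D₀ * (D₁ * D₁))) /
        ρ ^ (δ * (D₀ * D₀ * (D₁ * D₁) - δ ^ 3))) < 1 := by
    rw [← mul_div_assoc, div_lt_one hρ0]
    exact hnum
  linarith

end SharpSix
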