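import Pool.Agent.SharpSix.ZHilb

/-!
# Chains: extending regular sequences, upper bounds for Hilbert functions
-/

set_option linter.unusedSectionVars false

open MvPolynomial

namespace SharpSix

variable {σ : Type} [Fintype σ]

theorem ofList_le_satI {R : Type} [CommRing R] (U : R) (ps : List R) :
    Ideal.ofList ps ≤ satI U ps := by
  intro f hf
  exact ⟨0, by simpa using hf⟩

theorem satI_mono {R : Type} [CommRing R] (U : R) (ps qs : List R) :
    satI U ps ≤ satI U (ps ++ qs) := by
  rintro f ⟨n, hn⟩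
  refine ⟨n, ?_⟩
  rw [Ideal.ofList_append]
  exact (le_sup_left : Ideal.ofList ps ≤ _) hn

theorem satI_closed {R : Type} [CommRing R] {U : R} {ps : List R} {f : R}
    (h : U * f ∈ satI U ps) : f ∈ satI U ps := by
  obtain ⟨n, hn⟩ := h
  refine ⟨n + 1, ?_⟩
  have : U ^ (n + 1) * f = U ^ n * (U * f) := by ring
  rw [this]
  exact hn

theorem satI_le {R : Type} [CommRing R] {U : R} {ps : List R} (p : Ideal R) (hp : p.IsPrime)
    (hU : U ∉ p) (hps : ∀ f ∈ ps, f ∈ p) : satI U ps ≤ p := by
  rintro f ⟨n, hn⟩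
  have h1 : Ideal.ofList ps ≤ p := by
    unfold Ideal.ofList
    exact Ideal.span_le.2 hps
  rcases hp.mem_or_mem (h1 hn) with h2 | h2
  · exact absurd (hp.mem_of_pow_mem n h2) hU
  · exact h2

/-- A vector space is not a finite union of proper subspaces. -/
theorem exists_avoidZ {κ : Type*} [Finite κ] (G0 : Submodule ℂ (MvPolynomial σ ℂ))
    (B : κ → Submodule ℂ (MvPolynomial σ ℂ)) (h : ∀ k, ¬ G0 ≤ B k) : ∃ f ∈ G0, ∀ k, f ∉ B k := by
  by_contra hcon
  push Not at hcon
  obtain ⟨k, hk⟩ := Subspace.exists_eq_top_of_iUnion_eq_univ (k := ℂ) (E := G0)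
    (p := fun k => (B k).comap G0.subtype) (by
      rw [Set.eq_univ_iff_forall]
      intro f
      obtain ⟨k, hk⟩ := hcon f.1 f.2
      exact Set.mem_iUnion.mpr ⟨k, hk⟩)
  apply h k
  intro f hf
  have : (⟨f, hf⟩ : G0) ∈ (B k).comap G0.subtype := by rw [hk]; trivial
  exact this

/-- Either the sequence can be extended by an element of `W`, or some prime associated to
`R / satI U ps` contains `W`. Proof: `R / satI U ps` has finitely many associated primes, whose
union is the set of zero divisors; a vector space over `ℂ` is not a finite union of proper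
subspaces (see `FiveNum.exists_avoid` in Pool/Agent/FiveNum/ZeFactor.lean). -/
theorem snoc_or (U : MvPolynomial σ ℂ) (ps : List (MvPolynomial σ ℂ)) (h : RegU U ps)
    (W : Submodule ℂ (MvPolynomial σ ℂ)) :
    (∃ w ∈ W, RegU U (ps ++ [w])) ∨
      ∃ p : Ideal (MvPolynomial σ ℂ), p.IsPrime ∧ U ∉ p ∧ satI U ps ≤ p ∧
        (∃ x, ∀ f, f ∈ p ↔ f * x ∈ satI U ps) ∧ ∀ w ∈ W, w ∈ p := by
  set I := satI U ps with hI
  have hfin : (associatedPrimes (MvPolynomial σ ℂ) (MvPolynomial σ ℂ ⧸ I)).Finite :=
    associatedPrimes.finite _ _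
  have : Finite (associatedPrimes (MvPolynomial σ ℂ) (MvPolynomial σ ℂ ⧸ I)) := hfin
  by_cases hc : ∀ k : associatedPrimes (MvPolynomial σ ℂ) (MvPolynomial σ ℂ ⧸ I),
      ¬ W ≤ (k.1 : Ideal (MvPolynomial σ ℂ)).restrictScalars ℂ
  · left
    obtain ⟨w, hwW, hw⟩ := exists_avoidZ W
      (fun k : associatedPrimes (MvPolynomial σ ℂ) (MvPolynomial σ ℂ ⧸ I) =>
        (k.1 : Ideal (MvPolynomial σ ℂ)).restrictScalars ℂ) hc
    refine ⟨w, hwW, RegU.snoc ps w h ?_⟩
    intro g hg
    by_contra hgI
    have hz := biUnion_associatedPrimes_eq_zero_divisors (MvPolynomial σ ℂ)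
      (MvPolynomial σ ℂ ⧸ I)
    have hmem : w ∈ {r : MvPolynomial σ ℂ | ∃ x : MvPolynomial σ ℂ ⧸ I, x ≠ 0 ∧ r • x = 0} := by
      refine ⟨Ideal.Quotient.mk I g, fun h0 => hgI (Ideal.Quotient.eq_zero_iff_mem.1 h0), ?_⟩
      have : w • Ideal.Quotient.mk I g = Ideal.Quotient.mk I (w * g) := rfl
      rw [this]
      exact Ideal.Quotient.eq_zero_iff_mem.2 hg
    rw [← hz] at hmem
    obtain ⟨p, hp, hwp⟩ := Set.mem_iUnion₂.1 hmem
    exact hw ⟨p, hp⟩ hwp
  · right
    push Not at hc
    obtain ⟨⟨p, hp⟩, hWp⟩ := hc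
    rw [AssociatedPrimes.mem_iff, isAssociatedPrime_iff] at hp
    obtain ⟨hprime, x, hx⟩ := hp
    obtain ⟨x, rfl⟩ := Ideal.Quotient.mk_surjective x
    have key : ∀ f, f ∈ p ↔ f * x ∈ I := by
      intro f
      rw [hx, Submodule.mem_colon_singleton, Submodule.mem_bot]
      have : f • Ideal.Quotient.mk I x = Ideal.Quotient.mk I (f * x) := rfl
      rw [this]
      exact Ideal.Quotient.eq_zero_iff_mem
    refine ⟨p, hprime, ?_, ?_, ⟨x, key⟩, fun w hw => hWp hw⟩
    · intro hU
      have h1 := satI_closed ((key U).1 hU)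
      apply hprime.ne_top
      rw [Ideal.eq_top_iff_one, key, one_mul]
      exact h1
    · intro f hf
      rw [key]
      exact Ideal.mul_mem_right _ _ hf

/-- Upper bound for the Hilbert function. Proof: induction with `hilb_step` and `telescope`. -/
theorem hilb_regU (d : σ → ℕ) (U : MvPolynomial σ ℂ) (ps : List (MvPolynomial σ ℂ))
    (h : RegU U ps) (hd : ∀ p ∈ ps, p ∈ box d) (hlen : ps.length ≤ Fintype.card σ) (t : ℕ)
    (ht : 0 < t) :
    hilb d (satI U ps) t ≤
      2 ^ (Fintype.card σ * ps.length) * t ^ (Fintype.card σ - ps.length) * ∏ i, d i := by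
  induction h generalizing t with
  | nil =>
    refine (hd_anti (bot_le : (⊥ : Ideal (MvPolynomial σ ℂ)) ≤ satI U [])).trans ?_
    have h1 := hilb_bot d t
    unfold hilb at h1
    rw [h1]
    simp
  | snoc ps w hps hw ih =>
    have hlen' : ps.length + 1 ≤ Fintype.card σ := by
      simpa using hlen
    have hwd : w ∈ box d := hd w (by simp)
    have hwJ : w ∈ satI U (ps ++ [w]) := by
      apply ofList_le_satI
      rw [Ideal.ofList_append]
      apply (le_sup_right : Ideal.ofList [w] ≤ _)
      rw [Ideal.ofList_singleton]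
      exact Ideal.mem_span_singleton_self w
    have hstep : ∀ s, hilb d (satI U (ps ++ [w])) (s + 1) + hilb d (satI U ps) s ≤
        hilb d (satI U ps) (s + 1) := fun s =>
      hilb_step hwd hw (satI_mono U ps [w]) hwJ s
    have h1 := telescope hstep (hilb_mono d _) t
    have h2 := ih (fun p hp => hd p (by simp [hp])) (by omega) (2 * t) (by omega)
    have h3 := h1.trans h2
    set n := Fintype.card σ with hn
    obtain ⟨k, hk⟩ : ∃ k, n = ps.length + 1 + k := ⟨n - (ps.length + 1), by omega⟩
    have e1 : n - ps.length = k + 1 := by omega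
    have e2 : n - (ps ++ [w]).length = k := by
      rw [List.length_append, List.length_singleton]; omega
    have e3 : n * (ps ++ [w]).length = n * ps.length + n := by
      rw [List.length_append, List.length_singleton]; ring
    rw [e2, e3]
    rw [e1] at h3
    have h4 : t * hilb d (satI U (ps ++ [w])) t ≤
        t * (2 ^ (n * ps.length + (k + 1)) * t ^ k * ∏ i, d i) := by
      refine h3.trans (le_of_eq ?_)
      rw [mul_pow]
      ring
    have h5 := Nat.le_of_mul_le_mul_left h4 ht
    refine h5.trans ?_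
    apply Nat.mul_le_mul_right
    apply Nat.mul_le_mul_right
    apply Nat.pow_le_pow_right (by norm_num)
    omega

end SharpSix
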