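import Pool.Agent.SharpSix.ZGrow
import Pool.Agent.SharpSix.ZChain

/-!
# Ideals generated by translated derivatives, outside `U = 0`
-/

set_option linter.unusedSectionVars false

open MvPolynomial

namespace SharpSix

variable {ι κ l : Type} [Fintype ι] [Fintype κ] [Fintype l]

theorem mem_jet2 (v₁ v₂ : ι → ℂ) (w₁ w₂ : κ → ℂ) (p : Ideal (MvPolynomial (ι ⊕ κ) ℂ)) (T : ℕ)
    (f : MvPolynomial (ι ⊕ κ) ℂ) :
    f ∈ jetI (der v₂ w₂) T (jetI (der v₁ w₁) T p) ↔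
      ∀ t₁ < T, ∀ t₂ < T, (der v₁ w₁)^[t₁] ((der v₂ w₂)^[t₂] f) ∈ p := by
  rw [mem_jetI]
  constructor
  · intro h t₁ ht₁ t₂ ht₂
    exact mem_jetI.1 (h t₂ ht₂) t₁ ht₁
  · intro h t₂ ht₂
    exact mem_jetI.2 fun t₁ ht₁ => h t₁ ht₁ t₂ ht₂

theorem derivs_satI (v₁ v₂ : ι → ℂ) (w₁ w₂ : κ → ℂ) (a : l → ι → ℂ)
    (y : l → κ → ℂ) (hy : ∀ j k, y j k ≠ 0) {P : MvPolynomial (ι ⊕ κ) ℂ} {T S T₀ S₀ : ℕ}
    (p : Ideal (MvPolynomial (ι ⊕ κ) ℂ)) (hp : p.IsPrime) (hU : UU ι κ ∉ p)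
    (hW : ∀ f ∈ derivs (der v₁ w₁) (der v₂ w₂) a y P (T + T₀) (S + S₀), f ∈ p)
    (ps : List (MvPolynomial (ι ⊕ κ) ℂ))
    (hps : ∀ f ∈ ps, f ∈ derivs (der v₁ w₁) (der v₂ w₂) a y P T S)
    {f : MvPolynomial (ι ⊕ κ) ℂ} (hf : f ∈ satI (UU ι κ) ps) {t₁ t₂ : ℕ} (h₁ : t₁ < T₀)
    (h₂ : t₂ < T₀) {s : l → ℕ} (hs : ∀ j, s j < S₀) :
    (der v₁ w₁)^[t₁] ((der v₂ w₂)^[t₂] (tau a y s f)) ∈ p := by
  have key : ∀ g ∈ Ideal.ofList ps,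
      tau a y s g ∈ jetI (der v₂ w₂) T₀ (jetI (der v₁ w₁) T₀ p) := by
    intro g hg
    have h3 : Ideal.ofList ps ≤
        (jetI (der v₂ w₂) T₀ (jetI (der v₁ w₁) T₀ p)).comap (tau a y s) := by
      refine Ideal.span_le.2 fun g hg => ?_
      rw [SetLike.mem_coe, Ideal.mem_comap, mem_jet2]
      intro u₁ hu₁ u₂ hu₂
      exact hW _ (mem_derivs_add v₁ v₂ w₁ w₂ a y (hps g hg) hu₁ hu₂ hs)
    exact h3 hg
  obtain ⟨n, hn⟩ := mem_satI.1 hf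
  have h3 := key _ hn
  rw [map_mul, map_pow] at h3
  have hU' : tau a y s (UU ι κ) ∉ p := by
    rw [tau, tr_UU]
    intro h4
    rcases hp.mem_or_mem h4 with h5 | h5
    · have h6 : (∏ k, mulp y s k) ≠ 0 :=
        Finset.prod_ne_zero_iff.2 fun k _ => mulp_ne_zero y hy s k
      apply hp.ne_top
      rw [Ideal.eq_top_iff_one]
      have h7 := p.mul_mem_left (C (∏ k, mulp y s k)⁻¹) h5
      rw [← C_mul, inv_mul_cancel₀ h6, C_1] at h7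
      exact h7
    · exact hU h5
  have hclosed : ∀ g, tau a y s (UU ι κ) * g ∈ jetI (der v₂ w₂) T₀ (jetI (der v₁ w₁) T₀ p) →
      g ∈ jetI (der v₂ w₂) T₀ (jetI (der v₁ w₁) T₀ p) := by
    intro g hg
    refine jetI_closed (fun g' hg' => ?_) hg
    exact jetI_closed (fun g'' hg'' => (hp.mem_or_mem hg'').resolve_left hU') hg'
  have h4 : ∀ n, tau a y s (UU ι κ) ^ n * tau a y s f ∈
      jetI (der v₂ w₂) T₀ (jetI (der v₁ w₁) T₀ p) →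
      tau a y s f ∈ jetI (der v₂ w₂) T₀ (jetI (der v₁ w₁) T₀ p) := by
    intro n
    induction n with
    | zero => rw [pow_zero, one_mul]; exact id
    | succ n ih =>
      intro h
      rw [pow_succ', mul_assoc] at h
      exact ih (hclosed _ h)
  exact (mem_jet2 _ _ _ _ _ _ _).1 (h4 n h3) t₁ h₁ t₂ h₂

end SharpSix
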