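import Pool.Agent.SharpSix.ZEigen
import Pool.Agent.SharpSix.ZSat

/-!
# Hypotheses on the three points of `G_a² × G_m²`
-/

set_option linter.unusedSectionVars false

open MvPolynomial

namespace SharpSix

/-- Hypotheses on the three points. -/
structure Cfg where
  /-- additive coordinates -/
  a : Fin 3 → Fin 2 → ℂ
  /-- multiplicative coordinates -/
  y : Fin 3 → Fin 2 → ℂ
  hy : ∀ j k, y j k ≠ 0
  /-- directions with additive parts `(α, 0)` and `(0, β)` -/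
  jd : Fin 2 → Fin 3
  jd_ne : jd 0 ≠ jd 1
  a01 : a (jd 0) 1 = 0
  a10 : a (jd 1) 0 = 0
  irr : ∀ m n : ℤ, (m : ℂ) * a (jd 0) 0 + n * a (jd 1) 1 = 0 → m = 0 ∧ n = 0
  /-- two directions `kd i 0`, `kd i 1` on which `(a i, y i)` is injective -/
  kd : Fin 2 → Fin 2 → Fin 3
  kd_ne : ∀ i, kd i 0 ≠ kd i 1
  kd_inj : ∀ i, ∀ s s' : Fin 3 → ℕ, (∀ j, j ≠ kd i 0 → j ≠ kd i 1 → s j = 0) →
    (∀ j, j ≠ kd i 0 → j ≠ kd i 1 → s' j = 0) → addp a s i = addp a s' i →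
    mulp y s i = mulp y s' i → s = s'
  /-- a direction with a non-torsion multiplicative coordinate -/
  j3 : Fin 3
  tors : ∀ m n : ℕ, y j3 0 ^ m = y j3 0 ^ n → m = n
  inj : ∀ s s' : Fin 3 → ℕ, addp a s = addp a s' → mulp y s = mulp y s' → s = s'

/-- The degrees. -/
def dd (D₀ D₁ : ℕ) : Fin 2 ⊕ Fin 2 → ℕ := Sum.elim (fun _ => D₀) (fun _ => D₁)

/-- Derivatives of order `< T`, translated by the points `s < S`, of elements of `I` lie in `p`. -/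
def JetsIn (G : Cfg) (T S : ℕ) (I p : Ideal R4) : Prop :=
  ∀ f ∈ I, ∀ t₁ < T, ∀ t₂ < T, ∀ s : Fin 3 → ℕ, (∀ j, s j < S) →
    (DD 0)^[t₁] ((DD 1)^[t₂] (tau G.a G.y s f)) ∈ p

theorem stable_of_comap_le {ι κ : Type} [Fintype ι] [Fintype κ]
    (p : Ideal (MvPolynomial (ι ⊕ κ) ℂ)) (A A' : ι → ℂ) (B B' : κ → ℂ) (hB : ∀ k, B k ≠ 0)
    (h : p.comap (tr A B) ≤ p.comap (tr A' B')) : ∀ f ∈ p, tr (A' - A) (B' / B) f ∈ p := by
  intro f hf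
  have h1 : tr (-A) B⁻¹ f ∈ p.comap (tr A B) := by
    rw [Ideal.mem_comap, tr_inv A B hB]
    exact hf
  have h2 := h h1
  rw [Ideal.mem_comap, tr_tr] at h2
  rwa [sub_eq_add_neg, div_eq_mul_inv]

theorem dd_pos {D₀ D₁ : ℕ} (h₀ : 0 < D₀) (h₁ : 0 < D₁) (i : Fin 2 ⊕ Fin 2) : 0 < dd D₀ D₁ i := by
  rcases i with i | i
  · exact h₀
  · exact h₁

theorem prod_dd (D₀ D₁ : ℕ) : ∏ i, dd D₀ D₁ i = D₀ ^ 2 * D₁ ^ 2 := by
  rw [Fintype.prod_sum_type]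
  simp [dd]

end SharpSix
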