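import Pool.Agent.SharpSix.An3
import Pool.Agent.SharpSix.ZCfg

/-!
# The auxiliary polynomial on `G_a² × G_m²`
-/

open Matrix MvPolynomial

namespace SharpSix

open FiveNum

/-- exponent vector of a monomial -/
noncomputable def expoS {D₀ D₁ : ℕ} (lam : LamS D₀ D₁) : Fin 2 ⊕ Fin 2 →₀ ℕ :=
  Finsupp.equivFunOnFinite.symm (Sum.elim ![(lam.1.1 : ℕ), lam.1.2] ![(lam.2.1 : ℕ), lam.2.2])

theorem expoS_apply {D₀ D₁ : ℕ} (lam : LamS D₀ D₁) (i : Fin 2 ⊕ Fin 2) :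
    expoS lam i = Sum.elim ![(lam.1.1 : ℕ), lam.1.2] ![(lam.2.1 : ℕ), lam.2.2] i := rfl

theorem expoS_injective {D₀ D₁ : ℕ} :
    Function.Injective (expoS : LamS D₀ D₁ → (Fin 2 ⊕ Fin 2 →₀ ℕ)) := by
  intro p q h
  have h0 := DFunLike.congr_fun h (Sum.inl 0)
  have h1 := DFunLike.congr_fun h (Sum.inl 1)
  have h2 := DFunLike.congr_fun h (Sum.inr 0)
  have h3 := DFunLike.congr_fun h (Sum.inr 1)
  simp only [expoS_apply, Sum.elim_inl, Sum.elim_inr, Matrix.cons_val_zero,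
    Matrix.cons_val_one] at h0 h1 h2 h3
  exact Prod.ext (Prod.ext (Fin.ext h0) (Fin.ext h1)) (Prod.ext (Fin.ext h2) (Fin.ext h3))

theorem monomial_expoS {D₀ D₁ : ℕ} (lam : LamS D₀ D₁) (c : ℂ) :
    monomial (expoS lam) c =
      c • (((X (Sum.inl 0) : R4) ^ (lam.1.1 : ℕ) * X (Sum.inr 0) ^ (lam.2.1 : ℕ)) *
        (X (Sum.inl 1) ^ (lam.1.2 : ℕ) * X (Sum.inr 1) ^ (lam.2.2 : ℕ))) := by
  rw [monomial_eq, Finsupp.prod_fintype _ _ (by simp), Fintype.prod_sum_type, Fin.prod_univ_two,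
    Fin.prod_univ_two, smul_eq_C_mul]
  simp only [expoS_apply, Sum.elim_inl, Sum.elim_inr, Matrix.cons_val_zero, Matrix.cons_val_one]
  ring

theorem DD_aeval (i : Fin 2) (p : Polynomial ℂ) :
    DD i (Polynomial.aeval (X (Sum.inl i)) p) = -(Polynomial.aeval (X (Sum.inl i) : R4)
      (Polynomial.derivative p)) := by
  rw [Derivation.map_aeval, DD, der_X_inl]
  simp

theorem DD_mul_pow (i : Fin 2) (p : Polynomial ℂ) (l : ℕ) :
    DD i (Polynomial.aeval (X (Sum.inl i) : R4) p * X (Sum.inr i) ^ l) =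
      Polynomial.aeval (X (Sum.inl i) : R4)
        (-Polynomial.derivative p + Polynomial.C (l : ℂ) * p) * X (Sum.inr i) ^ l := by
  have h2 : DD i (X (Sum.inr i) : R4) = X (Sum.inr i) := by
    rw [DD, der_X_inr]
    simp
  rw [Derivation.leibniz, DD_aeval, Derivation.leibniz_pow, h2]
  simp only [smul_eq_mul, map_add, map_neg, map_mul,
    nsmul_eq_mul, map_natCast]
  rcases Nat.eq_zero_or_pos l with hl | hl
  · subst hl
    simp
  · obtain ⟨m, rfl⟩ : ∃ m, l = m + 1 := ⟨l - 1, by omega⟩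
    simp only [Nat.add_sub_cancel]
    ring

theorem DD_iterate (i : Fin 2) (n l t : ℕ) :
    (DD i)^[t] ((X (Sum.inl i) : R4) ^ n * X (Sum.inr i) ^ l) =
      Polynomial.aeval (X (Sum.inl i) : R4) (wC n l t) * X (Sum.inr i) ^ l := by
  induction t with
  | zero => simp [wC_zero]
  | succ t ih =>
    rw [Function.iterate_succ_apply', ih, DD_mul_pow, wC_succ]

theorem DD_iterate_const_mul (i : Fin 2) (t : ℕ) {f g : R4} (hf : DD i f = 0) :
    (DD i)^[t] (f * g) = f * (DD i)^[t] g := by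
  induction t with
  | zero => rfl
  | succ t ih =>
    rw [Function.iterate_succ_apply', Function.iterate_succ_apply', ih, Derivation.leibniz, hf]
    simp

theorem DD_other (i j : Fin 2) (hij : i ≠ j) (p : Polynomial ℂ) (l : ℕ) :
    DD i (Polynomial.aeval (X (Sum.inl j) : R4) p * X (Sum.inr j) ^ l) = 0 := by
  have h1 : DD i (X (Sum.inl j) : R4) = 0 := by
    rw [DD, der_X_inl, Pi.single_eq_of_ne hij.symm, C_0]
  have h2 : DD i (X (Sum.inr j) : R4) = 0 := by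
    rw [DD, der_X_inr, Pi.single_eq_of_ne hij.symm, C_0, zero_mul]
  rw [Derivation.leibniz, Derivation.map_aeval, Derivation.leibniz_pow, h1, h2]
  simp

theorem DD_monomial (n₁ n₂ k₁ k₂ t₁ t₂ : ℕ) :
    (DD 0)^[t₁] ((DD 1)^[t₂] (((X (Sum.inl 0) : R4) ^ n₁ * X (Sum.inr 0) ^ k₁) *
        (X (Sum.inl 1) ^ n₂ * X (Sum.inr 1) ^ k₂))) =
      (Polynomial.aeval (X (Sum.inl 0) : R4) (wC n₁ k₁ t₁) * X (Sum.inr 0) ^ k₁) *
      (Polynomial.aeval (X (Sum.inl 1) : R4) (wC n₂ k₂ t₂) * X (Sum.inr 1) ^ k₂) := by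
  have h1 : DD 1 ((X (Sum.inl 0) : R4) ^ n₁ * X (Sum.inr 0) ^ k₁) = 0 := by
    have := DD_other 1 0 (by decide) (Polynomial.X ^ n₁) k₁
    simpa using this
  rw [DD_iterate_const_mul 1 t₂ h1, DD_iterate, mul_comm,
    DD_iterate_const_mul 0 t₁ (DD_other 0 1 (by decide) _ _), DD_iterate, mul_comm]

/-- Existence of the auxiliary polynomial, from the determinant method. -/
theorem exists_auxS (x : ℂ) (a b y : (Fin 3 → ℕ) → ℂ) (Q : ℕ) (hQ : 0 < Q) (C Xb : ℝ)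
    (hC : 1 ≤ C) (hx : ‖x‖ ≤ Xb)
    (ha : ∀ (S : ℕ) (s : Fin 3 → ℕ), (∀ j, s j < S) → ‖a s‖ ≤ C * S)
    (hb : ∀ (S : ℕ) (s : Fin 3 → ℕ), (∀ j, s j < S) → ‖b s‖ ≤ C * S)
    (hy : ∀ (S : ℕ) (s : Fin 3 → ℕ), (∀ j, s j < S) → ‖y s‖ ≤ C * S)
    (hQa : ∀ s, (Q : ℂ) * a s ∈ GInt) (hQb : ∀ s, (Q : ℂ) * b s ∈ GInt)
    (hQY : ∀ (S : ℕ) (s : Fin 3 → ℕ), (∀ j, s j < S) →
      (Q : ℂ) ^ (3 * S) * Complex.exp (y s - a s) ∈ GInt)
    (hQZ : ∀ (S : ℕ) (s : Fin 3 → ℕ), (∀ j, s j < S) →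
      (Q : ℂ) ^ (3 * S) * Complex.exp (x * y s - b s) ∈ GInt) :
    ∃ N₀ : ℕ, ∀ N ≥ N₀, ∃ P : R4, P ≠ 0 ∧ P ∈ box (dd (N ^ 34) (N ^ 20)) ∧
      ∀ t₁ < 4 * N ^ 35, ∀ t₂ < 4 * N ^ 35, ∀ s : Fin 3 → ℕ, (∀ j, s j < 4 * N ^ 15) →
        eval (Sum.elim ![a s, b s] ![Complex.exp (y s - a s), Complex.exp (x * y s - b s)])
          ((DD 0)^[t₁] ((DD 1)^[t₂] P)) = 0 := by
  have hXb : 0 ≤ Xb := (norm_nonneg _).trans hx
  obtain ⟨N₀, hN₀2, hN₀⟩ := numericS Q hQ C Xb hC hXb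
  refine ⟨N₀, fun N hN => ?_⟩
  have hnum := hN₀ N hN
  have hN2 : 2 ≤ N := le_trans hN₀2 hN
  have hN0 : 0 < N := by omega
  -- the matrix
  let J := (Fin 3 → Fin (4 * N ^ 15)) × (Fin (4 * N ^ 35) × Fin (4 * N ^ 35))
  let pt : J → (Fin 3 → ℕ) := fun j i => (j.1 i : ℕ)
  have hpt : ∀ j i, pt j i < 4 * N ^ 15 := fun j i => (j.1 i).2
  let M : Matrix J (LamS (N ^ 34) (N ^ 20)) ℂ := Matrix.of fun j lam =>
    (wC lam.1.1 lam.2.1 (j.2.1 : ℕ)).eval (a (pt j)) *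
      (wC lam.1.2 lam.2.2 (j.2.2 : ℕ)).eval (b (pt j)) *
        (Complex.exp (y (pt j) - a (pt j)) ^ (lam.2.1 : ℕ) *
          Complex.exp (x * y (pt j) - b (pt j)) ^ (lam.2.2 : ℕ))
  have hCS : ((4 * N ^ 15 : ℕ) : ℝ) = 4 * (N : ℝ) ^ 15 := by push_cast; rfl
  have hN15 : (1 : ℝ) ≤ 4 * (N : ℝ) ^ 15 := by
    have h1 : (1 : ℝ) ≤ (N : ℝ) := by exact_mod_cast hN0
    have h2 : (1 : ℝ) ≤ (N : ℝ) ^ 15 := one_le_pow₀ h1
    linarith
  have hdet : ∀ f : LamS (N ^ 34) (N ^ 20) → J, (M.submatrix f id).det = 0 := by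
    intro f
    have h := det_matS_eq_zero (x := x) (D₀ := N ^ 34) (D₁ := N ^ 20) (T := 4 * N ^ 35)
      (δ := N ^ 36 / 2) (κ := 12 * N ^ 15) (Q := Q) (t₁ := fun lam => ((f lam).2.1 : ℕ))
      (t₂ := fun lam => ((f lam).2.2 : ℕ))
      (a := fun lam => a (pt (f lam))) (b := fun lam => b (pt (f lam)))
      (y := fun lam => y (pt (f lam)))
      (H := C * (4 * (N : ℝ) ^ 15)) (ρ := Real.exp 1) (Xb := Xb)
      (fun lam => (f lam).2.1.2.le) (fun lam => (f lam).2.2.2.le) (by nlinarith) (by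
        have := Real.add_one_le_exp (1 : ℝ)
        linarith)
      (fun lam => by rw [← hCS]; exact ha _ _ (hpt _))
      (fun lam => by rw [← hCS]; exact hb _ _ (hpt _))
      (fun lam => by rw [← hCS]; exact hy _ _ (hpt _))
      hx (fun lam => hQa _) (fun lam => hQb _)
      (fun lam => by
        have h := hQY (4 * N ^ 15) _ (hpt (f lam))
        have e : 3 * (4 * N ^ 15) = 12 * N ^ 15 := by ring
        rwa [e] at h)
      (fun lam => by
        have h := hQZ (4 * N ^ 15) _ (hpt (f lam))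
        have e : 3 * (4 * N ^ 15) = 12 * N ^ 15 := by ring
        rwa [e] at h) hQ hnum
    have e : M.submatrix f id = matS x (N ^ 34) (N ^ 20) (fun lam => ((f lam).2.1 : ℕ))
        (fun lam => ((f lam).2.2 : ℕ)) (fun lam => a (pt (f lam))) (fun lam => b (pt (f lam)))
        (fun lam => y (pt (f lam))) 1 := by
      ext j lam
      rw [matS_one]
      rfl
    rw [e]
    exact h
  obtain ⟨v, hv0, hv⟩ := exists_kernel M hdet
  let P : R4 := ∑ lam : LamS (N ^ 34) (N ^ 20), monomial (expoS lam) (v lam)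
  have hcoeff : ∀ lam, P.coeff (expoS lam) = v lam := by
    intro lam
    simp only [P, coeff_sum, coeff_monomial]
    rw [Finset.sum_eq_single lam]
    · simp
    · intro b _ hb
      rw [if_neg]
      intro h
      exact hb (expoS_injective h)
    · intro h
      exact absurd (Finset.mem_univ _) h
  refine ⟨P, ?_, ?_, ?_⟩
  · intro h0
    apply hv0
    funext lam
    rw [← hcoeff lam, h0]
    simp
  · refine Submodule.sum_mem _ fun lam _ => monomial_mem_box (fun i => ?_) _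
    rw [expoS_apply]
    rcases i with i | i
    · fin_cases i
      · exact lam.1.1.2
      · exact lam.1.2.2
    · fin_cases i
      · exact lam.2.1.2
      · exact lam.2.2.2
  · intro t₁ ht₁ t₂ ht₂ s hs
    have h := hv (fun j => ⟨s j, hs j⟩, ⟨t₁, ht₁⟩, ⟨t₂, ht₂⟩)
    have hlin : (DD 0)^[t₁] ((DD 1)^[t₂] P) =
        ∑ lam : LamS (N ^ 34) (N ^ 20), v lam •
          (DD 0)^[t₁] ((DD 1)^[t₂]
            (((X (Sum.inl 0) : R4) ^ (lam.1.1 : ℕ) * X (Sum.inr 0) ^ (lam.2.1 : ℕ)) *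
              (X (Sum.inl 1) ^ (lam.1.2 : ℕ) * X (Sum.inr 1) ^ (lam.2.2 : ℕ)))) := by
      have e : ∀ (i : Fin 2) (t : ℕ) (q : R4), (DD i)^[t] q =
          ((DD i : R4 →ₗ[ℂ] R4) ^ t) q := by
        intro i t q
        rw [Module.End.pow_apply]
        rfl
      simp only [e, P, map_sum, monomial_expoS, map_smul]
    rw [hlin, map_sum]
    rw [dotProduct] at h
    rw [← h]
    refine Finset.sum_congr rfl fun lam _ => ?_
    rw [smul_eval, DD_monomial]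
    have e1 : ∀ (j : Fin 2) (q : Fin 2 ⊕ Fin 2 → ℂ) (p : Polynomial ℂ),
        eval q (Polynomial.aeval (X (Sum.inl j) : R4) p) = p.eval (q (Sum.inl j)) := by
      intro j q p
      rw [← Polynomial.coe_aeval_eq_eval]
      have := Polynomial.aeval_algHom_apply (MvPolynomial.aeval q : R4 →ₐ[ℂ] ℂ)
        (X (Sum.inl j)) p
      simpa [MvPolynomial.aeval_eq_eval] using this.symm
    simp only [map_mul, map_pow, eval_X, e1, Sum.elim_inl, Sum.elim_inr, Matrix.cons_val_zero,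
      Matrix.cons_val_one]
    simp only [M, Matrix.of_apply]
    change _ = (wC lam.1.1 lam.2.1 t₁).eval (a s) *
      (wC lam.1.2 lam.2.2 t₂).eval (b s) *
        (Complex.exp (y s - a s) ^ (lam.2.1 : ℕ) *
          Complex.exp (x * y s - b s) ^ (lam.2.2 : ℕ)) * v lam
    ring

end SharpSix
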