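import Pool.Agent.SharpSix.ZHilb

/-!
# Lower bounds for Hilbert functions of primes, comparison
-/

set_option linter.unusedSectionVars false

open MvPolynomial

namespace SharpSix

variable {σ : Type} [Fintype σ]

/-- Lower bound from algebraically independent coordinates. -/
theorem hilb_indep (d : σ → ℕ) (hd : ∀ i, 0 < d i) (p : Ideal (MvPolynomial σ ℂ)) (s : Finset σ)
    (h : Indep p (s : Set σ)) (t : ℕ) (ht : 0 < t) :
    t ^ s.card * ∏ i ∈ s, d i ≤ hilb d p t := by
  classical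
  set e : σ → ℕ := fun i => if i ∈ s then t * d i else 1 with he
  have h1 : Module.finrank ℂ (box e) = t ^ s.card * ∏ i ∈ s, d i := by
    rw [finrank_box, he, Finset.prod_ite]
    simp [Finset.prod_mul_distrib]
  have h2 : box e ≤ box (t • d) := by
    refine box_mono fun i => ?_
    simp only [he, Pi.smul_apply, smul_eq_mul]
    split_ifs
    · exact le_rfl
    · exact Nat.mul_pos ht (hd i)
  have h3 : ∀ f ∈ box e, f ∈ supported ℂ (s : Set σ) := by
    intro f hf
    rw [mem_box] at hf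
    rw [mem_supported]
    intro i hi
    rw [Finset.mem_coe, mem_vars_iff_mem_support] at hi
    obtain ⟨m, hm, hi⟩ := hi
    by_contra his
    have := hf m hm i
    simp only [he] at this
    rw [if_neg (by simpa using his)] at this
    rw [Finsupp.mem_support_iff] at hi
    omega
  have h4 : SharpSix.hd (box e) p = Module.finrank ℂ (box e) := by
    unfold SharpSix.hd
    have hinj : Function.Injective
        ((Ideal.Quotient.mkₐ ℂ p).toLinearMap.domRestrict (box e)) := by
      rw [← LinearMap.ker_eq_bot, LinearMap.ker_eq_bot']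
      rintro ⟨f, hf⟩ hfz
      have h5 : Ideal.Quotient.mk p f = 0 := hfz
      rw [Ideal.Quotient.eq_zero_iff_mem] at h5
      exact Subtype.ext (h f h5 (h3 f hf))
    rw [← LinearMap.range_domRestrict]
    exact LinearMap.finrank_range_of_inj hinj
  rw [← h1, ← h4]
  exact hd_mono h2 p

/-- Comparison of leading terms. -/
theorem compare_lead {M E K c r : ℕ} {a b : ℕ → ℕ} (h1 : ∀ t, 0 < t → t ^ r * E ≤ a t)
    (h2 : ∀ t, 0 < t → b t ≤ K * t ^ r) (h3 : ∀ t, M * a t ≤ b (t + c)) :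
    M * E ≤ 2 ^ r * K := by
  have hpos : 0 < c + 1 := Nat.succ_pos c
  have h4 := h1 (c + 1) hpos
  have h5 := h3 (c + 1)
  have h6 := h2 (c + 1 + c) (by omega)
  have h7 : (c + 1 + c) ^ r ≤ (2 * (c + 1)) ^ r := Nat.pow_le_pow_left (by omega) r
  rw [mul_pow] at h7
  have h8 : (c + 1) ^ r * (M * E) ≤ (c + 1) ^ r * (2 ^ r * K) := by
    calc (c + 1) ^ r * (M * E) = M * ((c + 1) ^ r * E) := by ring
      _ ≤ M * a (c + 1) := Nat.mul_le_mul_left _ h4
      _ ≤ b (c + 1 + c) := h5
      _ ≤ K * (c + 1 + c) ^ r := h6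
      _ ≤ K * (2 ^ r * (c + 1) ^ r) := Nat.mul_le_mul_left _ h7
      _ = (c + 1) ^ r * (2 ^ r * K) := by ring
  exact Nat.le_of_mul_le_mul_left h8 (pow_pos hpos r)

/-- If `hilb` grows at most like `t ^ r`, then `r + 1` coordinates are dependent. -/
theorem not_indep_of_le (d : σ → ℕ) (hd : ∀ i, 0 < d i) (p : Ideal (MvPolynomial σ ℂ))
    (K r : ℕ) (hK : ∀ t, 0 < t → hilb d p t ≤ K * t ^ r) (s : Finset σ) (hs : r < s.card) :
    ¬ Indep p (s : Set σ) := by
  intro h
  have h1 := hilb_indep d hd p s h (K + 1) (Nat.succ_pos K)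
  have h2 := hK (K + 1) (Nat.succ_pos K)
  have h3 : 1 ≤ ∏ i ∈ s, d i := Finset.prod_pos fun i _ => hd i
  have h4 : (K + 1) ^ (r + 1) ≤ (K + 1) ^ s.card := Nat.pow_le_pow_right (Nat.succ_pos K) hs
  have h5 : (K + 1) ^ (r + 1) ≤ K * (K + 1) ^ r := by
    calc (K + 1) ^ (r + 1) ≤ (K + 1) ^ s.card * 1 := by rw [mul_one]; exact h4
      _ ≤ (K + 1) ^ s.card * ∏ i ∈ s, d i := Nat.mul_le_mul_left _ h3
      _ ≤ hilb d p (K + 1) := h1
      _ ≤ K * (K + 1) ^ r := h2
  have h6 : 0 < (K + 1) ^ r := pow_pos (Nat.succ_pos K) r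
  rw [pow_succ] at h5
  nlinarith

/-- If a nonzero polynomial in `g` lies in a prime, then so does some `g - c`. -/
theorem exists_root_of_mem (p : Ideal (MvPolynomial σ ℂ)) (hp : p.IsPrime)
    (g : MvPolynomial σ ℂ) {q : Polynomial ℂ} (hq : q ≠ 0) (h : Polynomial.aeval g q ∈ p) :
    ∃ c : ℂ, g - C c ∈ p := by
  have h1 : q = Polynomial.C q.leadingCoeff * (q.roots.map fun a => Polynomial.X - Polynomial.C a).prod :=
    (IsAlgClosed.splits q).eq_prod_roots
  rw [h1, map_mul, Polynomial.aeval_C] at h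
  rcases hp.mem_or_mem h with h | h
  · exfalso
    refine hp.ne_top ((Ideal.eq_top_iff_one p).2 ?_)
    have h2 : q.leadingCoeff ≠ 0 := Polynomial.leadingCoeff_ne_zero.2 hq
    have h3 : (1 : MvPolynomial σ ℂ) = C (q.leadingCoeff)⁻¹ * algebraMap ℂ (MvPolynomial σ ℂ) q.leadingCoeff := by
      rw [MvPolynomial.algebraMap_eq, ← C_mul, inv_mul_cancel₀ h2, C_1]
    rw [h3]
    exact p.mul_mem_left _ h
  · rw [map_multiset_prod, Multiset.map_map] at h
    have h2 := (hp.multiset_prod_mem_iff_exists_mem _).1 h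
    obtain ⟨x, hx, hxp⟩ := h2
    rw [Multiset.mem_map] at hx
    obtain ⟨c, _, rfl⟩ := hx
    refine ⟨c, ?_⟩
    simpa using hxp

/-- One coordinate: dependent means constant. -/
theorem not_indep_singleton (p : Ideal (MvPolynomial σ ℂ)) (hp : p.IsPrime) (i : σ) :
    ¬ Indep p {i} ↔ ∃ c : ℂ, (X i - C c : MvPolynomial σ ℂ) ∈ p := by
  constructor
  · intro h
    unfold Indep at h
    push Not at h
    obtain ⟨f, hfp, hfs, hf0⟩ := h
    rw [supported_eq_adjoin_X, Set.image_singleton, Algebra.adjoin_singleton_eq_range_aeval] at hfs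
    obtain ⟨q, rfl⟩ := hfs
    refine exists_root_of_mem p hp (X i) (q := q) ?_ hfp
    rintro rfl
    exact hf0 (by simp)
  · rintro ⟨c, hc⟩ h
    have h1 : (X i - C c : MvPolynomial σ ℂ) ∈ supported ℂ ({i} : Set σ) := by
      refine sub_mem ?_ ?_
      · exact (X_mem_supported (R := ℂ)).2 rfl
      · rw [← MvPolynomial.algebraMap_eq]
        exact Subalgebra.algebraMap_mem _ c
    have h2 := h _ hc h1
    have h3 := congrArg (eval fun _ => c + 1) h2
    simp at h3

end SharpSix
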