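import Pool.Agent.SharpSix.ZCfg
import Pool.Agent.SharpSix.ZLower

/-!
# Zero estimate: dimension two, the cases Q0 and AB

* `case_two_Q`: the additive coordinates are independent mod `p`;
* `case_two_AB`: both pairs `z_i, Y_i` are dependent mod `p`.
-/

set_option linter.unusedSectionVars false
set_option linter.unusedVariables false

open MvPolynomial

namespace SharpSix

namespace C2Q

theorem addp_single (a : Fin 3 → Fin 2 → ℂ) (k : Fin 3) (m : ℕ) (i : Fin 2) :
    addp a (Pi.single k m) i = (m : ℂ) * a k i := by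
  unfold addp
  rw [Finset.sum_eq_single k]
  · rw [Pi.single_eq_same]
  · intro j _ hj
    rw [Pi.single_eq_of_ne hj, Nat.cast_zero, zero_mul]
  · intro h
    exact absurd (Finset.mem_univ _) h

theorem mulp_single (y : Fin 3 → Fin 2 → ℂ) (k : Fin 3) (m : ℕ) (i : Fin 2) :
    mulp y (Pi.single k m) i = y k i ^ m := by
  unfold mulp
  rw [Finset.prod_eq_single k]
  · rw [Pi.single_eq_same]
  · intro j _ hj
    rw [Pi.single_eq_of_ne hj, pow_zero]
  · intro h
    exact absurd (Finset.mem_univ _) h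

theorem single_lt {S : ℕ} (k : Fin 3) (x : Fin S) (j : Fin 3) :
    (Pi.single k (x : ℕ) : Fin 3 → ℕ) j < S := by
  by_cases h : j = k
  · subst h
    rw [Pi.single_eq_same]
    exact x.2
  · rw [Pi.single_eq_of_ne h]
    exact lt_of_le_of_lt (Nat.zero_le _) x.2

/-- Any of the two derivations is contained in `JetsIn`. -/
theorem jets_iter {G : Cfg} {T S : ℕ} {I p : Ideal R4} (hI : JetsIn G T S I p) (i : Fin 2) :
    ∀ f ∈ I, ∀ n < T, ∀ s : Fin 3 → ℕ, (∀ j, s j < S) → (DD i)^[n] (tau G.a G.y s f) ∈ p := by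
  intro f hf n hn s hs
  have hT : 0 < T := lt_of_le_of_lt (Nat.zero_le _) hn
  have hi : i = 0 ∨ i = 1 := by revert i; decide
  rcases hi with rfl | rfl
  · have h := hI f hf n hn 0 hT s hs
    rwa [Function.iterate_zero_apply] at h
  · have h := hI f hf 0 hT n hn s hs
    rwa [Function.iterate_zero_apply] at h

theorem torsion_aux {η : ℂ} (hη : η ≠ 0) (h : ∀ m n : ℕ, η ^ m = η ^ n → m = n) {x x' : ℕ}
    (hx : x ≠ x') (m n : ℕ) (he : (η ^ x / η ^ x') ^ m = (η ^ x / η ^ x') ^ n) : m = n := by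
  have h1 : η ^ x' ≠ 0 := pow_ne_zero _ hη
  rw [div_pow, div_pow, div_eq_div_iff (pow_ne_zero _ h1) (pow_ne_zero _ h1), ← pow_mul, ← pow_mul,
    ← pow_mul, ← pow_mul, ← pow_add, ← pow_add] at he
  have h2 := h _ _ he
  rcases lt_trichotomy m n with h3 | h3 | h3
  · exfalso
    obtain ⟨d, rfl⟩ := Nat.exists_eq_add_of_lt h3
    apply hx
    have h4 : (d + 1) * x' = (d + 1) * x := by nlinarith
    exact (Nat.eq_of_mul_eq_mul_left (Nat.succ_pos d) h4).symm
  · exact h3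
  · exfalso
    obtain ⟨d, rfl⟩ := Nat.exists_eq_add_of_lt h3
    apply hx
    have h4 : (d + 1) * x = (d + 1) * x' := by nlinarith
    exact Nat.eq_of_mul_eq_mul_left (Nat.succ_pos d) h4

end C2Q

theorem case_two_Q (G : Cfg) (D₀ D₁ T S K : ℕ) (hD₀ : 0 < D₀) (hD₁ : 0 < D₁)
    (p : Ideal R4) (hp : p.IsPrime) (hU : UU (Fin 2) (Fin 2) ∉ p) (I : Ideal R4) (hIp : I ≤ p)
    (hI : JetsIn G T S I p) (hK : ∀ t, 0 < t → hilb (dd D₀ D₁) I t ≤ K * t ^ 2)
    (h01 : Indep p {Sum.inl 0, Sum.inl 1})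
    (n1 : 4 * K < T * S * D₀ ^ 2) : False := by
  classical
  have hdep : ¬ Indep p (insert (Sum.inr 0) (Sum.inl '' Set.univ) : Set (Fin 2 ⊕ Fin 2)) := by
    have h1 := not_indep_of_le (dd D₀ D₁) (dd_pos hD₀ hD₁) p K 2
      (fun t ht => (hd_anti hIp).trans (hK t ht)) {Sum.inr 0, Sum.inl 0, Sum.inl 1}
      (by rw [Finset.card_insert_of_notMem (by simp), Finset.card_pair (by simp)]; norm_num)
    have h2 : (insert (Sum.inr 0) (Sum.inl '' Set.univ) : Set (Fin 2 ⊕ Fin 2)) =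
        (({Sum.inr 0, Sum.inl 0, Sum.inl 1} : Finset (Fin 2 ⊕ Fin 2)) : Set (Fin 2 ⊕ Fin 2)) := by
      ext z
      rcases z with z | z
      · fin_cases z <;> simp
      · fin_cases z <;> simp
    rw [h2]
    exact h1
  have hp0 : p ≠ ⊥ := by
    rintro rfl
    exact hdep fun f hf _ => hf
  obtain ⟨i', g, hg, hDg⟩ := exists_unstable p hp hp0 hU
  by_cases hinc : ∀ x x' : Fin S, x ≠ x' →
      ¬ p.comap (tau G.a G.y (Pi.single G.j3 (x' : ℕ))) ≤
        p.comap (tau G.a G.y (Pi.single G.j3 (x : ℕ)))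
  · obtain ⟨c, hc⟩ := grow1 (α := Fin S) (dd D₀ D₁) (dd_pos hD₀ hD₁) (Pi.single i' (-1))
      (Pi.single i' 1) p hp (fun x => addp G.a (Pi.single G.j3 (x : ℕ)))
      (fun x => mulp G.y (Pi.single G.j3 (x : ℕ)))
      (fun x k => mulp_ne_zero G.y G.hy _ k) hinc g hg hDg T I
      (fun x f hf n hn => C2Q.jets_iter hI i' f hf n hn _ (C2Q.single_lt _ x))
    have hlow : ∀ t, 0 < t → t ^ 2 * (D₀ * D₀) ≤ hilb (dd D₀ D₁) p t := by
      intro t ht
      have h1 := hilb_indep (dd D₀ D₁) (dd_pos hD₀ hD₁) p {Sum.inl 0, Sum.inl 1}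
        (by simpa using h01) t ht
      rw [Finset.card_pair (by simp), Finset.prod_pair (by simp)] at h1
      exact h1
    have h1 := compare_lead (M := T * Fintype.card (Fin S)) (E := D₀ * D₀) (K := K) (c := c)
      (r := 2) hlow hK hc
    rw [Fintype.card_fin] at h1
    have h2 : T * S * D₀ ^ 2 = T * S * (D₀ * D₀) := by ring
    omega
  · push Not at hinc
    obtain ⟨x, x', hxx, hle⟩ := hinc
    have hst := stable_of_comap_le p (addp G.a (Pi.single G.j3 (x' : ℕ)))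
      (addp G.a (Pi.single G.j3 (x : ℕ))) (mulp G.y (Pi.single G.j3 (x' : ℕ)))
      (mulp G.y (Pi.single G.j3 (x : ℕ))) (fun k => mulp_ne_zero G.y G.hy _ k) hle
    apply hdep
    refine indep_insert_of_tr p hp _ _ (fun k => div_ne_zero (mulp_ne_zero G.y G.hy _ k)
      (mulp_ne_zero G.y G.hy _ k)) hst 0 (X_inr_notMem hU 0) ?_ Set.univ ?_
    · intro m n hmn
      rw [C2Q.mulp_single, C2Q.mulp_single] at hmn
      exact C2Q.torsion_aux (G.hy _ _) G.tors (fun h => hxx (Fin.ext h)) m n hmn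
    · have h2 : (Sum.inl '' Set.univ : Set (Fin 2 ⊕ Fin 2)) = {Sum.inl 0, Sum.inl 1} := by
        ext z
        rcases z with z | z
        · fin_cases z <;> simp
        · fin_cases z <;> simp
      rw [h2]
      exact h01

theorem case_two_AB (G : Cfg) (D₀ D₁ T S K : ℕ) (hD₀ : 0 < D₀) (hD₁ : 0 < D₁) (hDD : D₁ ≤ D₀)
    (p : Ideal R4) (hp : p.IsPrime) (hU : UU (Fin 2) (Fin 2) ∉ p) (I : Ideal R4) (hIp : I ≤ p)
    (hI : JetsIn G T S I p) (hS : 0 < S) (hK : ∀ t, 0 < t → hilb (dd D₀ D₁) I t ≤ K * t ^ 2)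
    (hind : ∃ i j, i ≠ j ∧ Indep p {i, j})
    (h : ∀ i, ¬ Indep p {Sum.inl i, Sum.inr i})
    (n2 : 4 * K < T ^ 2 * D₁ ^ 2) : False := by
  classical
  obtain ⟨i, j, hij, hind⟩ := hind
  obtain ⟨f₀, hf₀, hs₀, hD0⟩ := exists_transversal p hp 0 (X_inr_notMem hU 0) (h 0)
  obtain ⟨f₁, hf₁, hs₁, hD1⟩ := exists_transversal p hp 1 (X_inr_notMem hU 1) (h 1)
  have hz : DD 0 f₁ = 0 := by
    refine der_eq_zero_of_supported _ _ ?_ ?_ hs₁
    · intro k hk
      have hk' : k = 1 := by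
        rcases hk with hk | hk
        · exact Sum.inl_injective hk
        · simp at hk
      subst hk'
      simp
    · intro k hk
      have hk' : k = 1 := by
        rcases hk with hk | hk
        · simp at hk
        · exact Sum.inr_injective hk
      subst hk'
      simp
  have hlow : ∀ t, 0 < t → t ^ 2 * D₁ ^ 2 ≤ hilb (dd D₀ D₁) p t := by
    intro t ht
    have h1 := hilb_indep (dd D₀ D₁) (dd_pos hD₀ hD₁) p {i, j}
      (by simpa using hind) t ht
    rw [Finset.card_pair hij, Finset.prod_pair hij] at h1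
    have h2 : ∀ k, D₁ ≤ dd D₀ D₁ k := by
      rintro (k | k)
      · exact hDD
      · exact le_rfl
    have h3 : D₁ ^ 2 ≤ dd D₀ D₁ i * dd D₀ D₁ j := by
      rw [pow_two]
      exact Nat.mul_le_mul (h2 i) (h2 j)
    exact (Nat.mul_le_mul_left _ h3).trans h1
  obtain ⟨c, hc⟩ := grow2 (α := Unit) (dd D₀ D₁) (dd_pos hD₀ hD₁) (Pi.single 0 (-1))
    (Pi.single 1 (-1)) (Pi.single 0 1) (Pi.single 1 1) p hp
    (fun _ => 0) (fun _ => 1) (fun _ _ => one_ne_zero)
    (fun x x' hxx => absurd (Subsingleton.elim x x') hxx) f₁ f₀ hf₁ hf₀ hz hD1 hD0 T I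
    (fun _ f hf m hm n hn => by
      rw [tr_zero]
      have h4 := hI f hf m hm n hn (0 : Fin 3 → ℕ) (fun _ => hS)
      rw [tau_zero] at h4
      exact h4)
  have h4 := compare_lead (M := T ^ 2 * Fintype.card Unit) (E := D₁ ^ 2) (K := K) (c := c)
    (r := 2) hlow hK hc
  rw [Fintype.card_unit, mul_one] at h4
  omega

end SharpSix
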