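import Pool.Agent.SharpSix.ZC2A
import Pool.Agent.SharpSix.ZC2Q

/-!
# Zero estimate: dimension two

Let `p` have dimension two: some pair of coordinates is independent mod `p`. Cases: `z_0, z_1`
independent (`case_two_Q`), no pair `z_i, Y_i` independent (`case_two_AB`), some pair `z_i, Y_i`
independent but `z_0, z_1` dependent (`case_two_A`).
-/

set_option linter.unusedSectionVars false

open MvPolynomial

namespace SharpSix

theorem case_two (G : Cfg) (D₀ D₁ T S K : ℕ) (hD₀ : 0 < D₀) (hD₁ : 0 < D₁) (hDD : D₁ ≤ D₀)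
    (p : Ideal R4) (hp : p.IsPrime) (hU : UU (Fin 2) (Fin 2) ∉ p) (I : Ideal R4) (hIp : I ≤ p)
    (hI : JetsIn G T S I p) (hS : 0 < S) (hK : ∀ t, 0 < t → hilb (dd D₀ D₁) I t ≤ K * t ^ 2)
    (hind : ∃ i j, i ≠ j ∧ Indep p {i, j})
    (n1 : 4 * K < T * S * D₀ ^ 2) (n2 : 4 * K < T ^ 2 * D₁ ^ 2)
    (n3 : 4 * K < T * S ^ 2 * (D₀ * D₁)) (n4 : 4 * K < (T / 2) ^ 2 * (D₀ * D₁)) : False := by
  by_cases h01 : Indep p {Sum.inl 0, Sum.inl 1}
  · exact case_two_Q G D₀ D₁ T S K hD₀ hD₁ p hp hU I hIp hI hK h01 n1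
  · by_cases h : ∀ i, ¬ Indep p {Sum.inl i, Sum.inr i}
    · exact case_two_AB G D₀ D₁ T S K hD₀ hD₁ hDD p hp hU I hIp hI hS hK hind h n2
    · push Not at h
      obtain ⟨i, hi⟩ := h
      exact case_two_A G D₀ D₁ T S K hD₀ hD₁ p hp hU I hIp hI hS hK h01 i hi n3 n4

end SharpSix
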