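import Pool.Agent.SharpSix.ZDefs

/-!
# Primes associated to a principal ideal
-/

open MvPolynomial

namespace SharpSix

theorem mem_satI_singleton {R : Type} [CommRing R] {U P f : R} :
    f ∈ satI U [P] ↔ ∃ n : ℕ, P ∣ U ^ n * f := by
  rw [mem_satI]
  simp only [Ideal.ofList_singleton, Ideal.mem_span_singleton]

/-- A prime associated to the principal ideal `(P)` outside `U = 0` is contained in `(f)` for some
irreducible factor `f` of `P` not dividing any power of `U`. -/
theorem principal_ass {R : Type} [CommRing R] [IsDomain R] [UniqueFactorizationMonoid R]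
    (U P : R) (hU0 : U ≠ 0) (hP : P ≠ 0) (p : Ideal R) (hU : U ∉ p) (x : R)
    (hx : x ∉ satI U [P]) (h : ∀ f ∈ p, f * x ∈ satI U [P]) :
    ∃ f : R, Irreducible f ∧ f ∣ P ∧ ¬ f ∣ U ∧ ∀ g ∈ p, f ∣ g := by
  revert hP hx h
  induction P using UniqueFactorizationMonoid.induction_on_prime with
  | h₁ => intro hP; exact absurd rfl hP
  | h₂ P hPu =>
    intro _ hx _
    exact absurd (mem_satI_singleton.2 ⟨0, hPu.dvd⟩) hx
  | h₃ P q hP0 hq ih =>
    intro _ hx h
    by_cases hqU : q ∣ U
    · have hsat : ∀ g, g ∈ satI U [P] → g ∈ satI U [q * P] := by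
        intro g hg
        obtain ⟨n, hn⟩ := mem_satI_singleton.1 hg
        refine mem_satI_singleton.2 ⟨n + 1, ?_⟩
        have : U ^ (n + 1) * g = U * (U ^ n * g) := by ring
        rw [this]
        exact mul_dvd_mul hqU hn
      have hsat' : ∀ g, g ∈ satI U [q * P] → g ∈ satI U [P] := by
        intro g hg
        obtain ⟨n, hn⟩ := mem_satI_singleton.1 hg
        exact mem_satI_singleton.2 ⟨n, (Dvd.intro_left q rfl).trans hn⟩
      obtain ⟨f, h1, h2, h3, h4⟩ := ih hP0 (fun hx' => hx (hsat _ hx')) (fun f hf => hsat' _ (h f hf))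
      exact ⟨f, h1, h2.trans (Dvd.intro_left q rfl), h3, h4⟩
    · by_cases hxP : x ∈ satI U [P]
      · obtain ⟨n, y, hy⟩ := mem_satI_singleton.1 hxP
        refine ⟨q, hq.irreducible, Dvd.intro P rfl, hqU, ?_⟩
        intro g hg
        obtain ⟨m, z, hz⟩ := mem_satI_singleton.1 (h g hg)
        -- `U ^ m * (g * x) = q * P * z`, `U ^ n * x = P * y`
        have h1 : P * (U ^ m * (g * y)) = P * (q * (U ^ n * z)) := by
          calc P * (U ^ m * (g * y)) = U ^ m * g * (P * y) := by ring
            _ = U ^ m * g * (U ^ n * x) := by rw [hy]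
            _ = U ^ n * (U ^ m * (g * x)) := by ring
            _ = U ^ n * (q * P * z) := by rw [hz]
            _ = P * (q * (U ^ n * z)) := by ring
        have h2 := mul_left_cancel₀ hP0 h1
        have h3 : q ∣ U ^ m * (g * y) := ⟨_, h2⟩
        rcases hq.dvd_or_dvd h3 with h4 | h4
        · exact absurd (hq.dvd_of_dvd_pow h4) hqU
        · rcases hq.dvd_or_dvd h4 with h5 | h5
          · exact h5
          · exfalso
            apply hx
            obtain ⟨w, rfl⟩ := h5
            refine mem_satI_singleton.2 ⟨n, w, ?_⟩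
            rw [hy]
            ring
      · obtain ⟨f, h1, h2, h3, h4⟩ := ih hP0 hxP (fun f hf => by
          obtain ⟨n, hn⟩ := mem_satI_singleton.1 (h f hf)
          exact mem_satI_singleton.2 ⟨n, (Dvd.intro_left q rfl).trans hn⟩)
        exact ⟨f, h1, h2.trans (Dvd.intro_left q rfl), h3, h4⟩

end SharpSix
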