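import Pool.Agent.SharpSix.ZCfg
import Pool.Agent.SharpSix.ZPrin

/-!
# Zero estimate: hypersurfaces

`principal_ass` gives an irreducible `f ∣ P`, `¬ f ∣ U`, `p ≤ (f)`. If `(f)` is stable under both
derivations, `exists_unstable` gives a contradiction. Otherwise `¬ f ∣ DD i f` for some `i`, and then
`(DD i)^[t] P ∈ (f)` for `t < T` implies `f ^ T ∣ P` (write `P = f ^ k * r` with `¬ f ∣ r`; cf.
`exists_coprime` in Pool/Agent/FiveNum/ZeFactor.lean and `jetI_triangular`), so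
`T ≤ totalDegree P < 2 * D₀ + 2 * D₁`.
-/

set_option linter.unusedSectionVars false

open MvPolynomial

namespace SharpSix

/-- If `q * g ∈ jetI D m (q)` repeatedly, then `q ^ m` divides. -/
theorem pow_dvd_of_jetI {R : Type} [CommRing R] [Algebra ℂ R] {D : Derivation ℂ R R} {q : R}
    (hDq : ∀ g, D q * g ∈ Ideal.span {q} → g ∈ Ideal.span {q}) (m : ℕ) {g : R}
    (hg : g ∈ jetI D m (Ideal.span {q})) : q ^ m ∣ g := by
  induction m generalizing g with
  | zero => simp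
  | succ m ih =>
    have h1 : g ∈ Ideal.span {q} := (mem_jetI_succ.1 hg).1
    obtain ⟨r, rfl⟩ := Ideal.mem_span_singleton.1 h1
    have h2 : r ∈ jetI D m (Ideal.span {q}) :=
      jetI_div m (Ideal.mem_span_singleton_self q) hDq hg
    rw [pow_succ']
    exact mul_dvd_mul_left q (ih h2)

theorem totalDegree_of_box {D₀ D₁ : ℕ} {P : R4} (hP0 : P ≠ 0) (hP : P ∈ box (dd D₀ D₁)) :
    P.totalDegree < 2 * D₀ + 2 * D₁ := by
  classical
  have h1 : ∀ m ∈ P.support, ∀ i, m i < dd D₀ D₁ i := by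
    intro m hm i
    have h2 : (P.support : Set _) ⊆ {m : Fin 2 ⊕ Fin 2 →₀ ℕ | ∀ i, m i < dd D₀ D₁ i} :=
      (mem_restrictSupport_iff ℂ).1 hP
    exact h2 (Finset.mem_coe.2 hm) i
  obtain ⟨m₀, hm₀⟩ := Finset.nonempty_iff_ne_empty.2 (fun h0 => hP0 (support_eq_empty.1 h0))
  have h3 := h1 m₀ hm₀ (Sum.inl 0)
  have h4 := h1 m₀ hm₀ (Sum.inr 0)
  simp only [dd, Sum.elim_inl, Sum.elim_inr] at h3 h4
  refine (Finset.sup_lt_iff (show (⊥ : ℕ) < 2 * D₀ + 2 * D₁ by simp; omega)).2 ?_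
  intro m hm
  have h5 : (m.sum fun _ e => e) = ∑ i, m i := by
    rw [Finsupp.sum_fintype _ _ (fun _ => rfl)]
  rw [h5, Fintype.sum_sum_type, Fin.sum_univ_two, Fin.sum_univ_two]
  have a1 := h1 m hm (Sum.inl 0)
  have a2 := h1 m hm (Sum.inl 1)
  have a3 := h1 m hm (Sum.inr 0)
  have a4 := h1 m hm (Sum.inr 1)
  simp only [dd, Sum.elim_inl, Sum.elim_inr] at a1 a2 a3 a4
  omega

theorem totalDegree_pow_eq {f : R4} (hf : f ≠ 0) (n : ℕ) :
    (f ^ n).totalDegree = n * f.totalDegree := by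
  induction n with
  | zero => simp
  | succ n ih =>
    rw [pow_succ, totalDegree_mul_of_isDomain (pow_ne_zero _ hf) hf, ih]
    ring

theorem case_three (D₀ D₁ T : ℕ) (P : R4) (hP0 : P ≠ 0) (hP : P ∈ box (dd D₀ D₁))
    (p : Ideal R4) (hp : p.IsPrime) (hU : UU (Fin 2) (Fin 2) ∉ p) (x : R4)
    (hx : ∀ f, f ∈ p ↔ f * x ∈ satI (UU (Fin 2) (Fin 2)) [P])
    (hW : ∀ t₁ < T, ∀ t₂ < T, (DD 0)^[t₁] ((DD 1)^[t₂] P) ∈ p)
    (hT : 2 * D₀ + 2 * D₁ ≤ T) : False := by
  classical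
  have hdeg := totalDegree_of_box hP0 hP
  have hU0 : UU (Fin 2) (Fin 2) ≠ 0 := by
    intro h
    rw [h] at hU
    exact hU p.zero_mem
  have hx1 : x ∉ satI (UU (Fin 2) (Fin 2)) [P] := by
    intro h
    apply hp.ne_top
    rw [Ideal.eq_top_iff_one, hx, one_mul]
    exact h
  obtain ⟨f, hf, hfP, hfU, hpf⟩ := principal_ass (UU (Fin 2) (Fin 2)) P hU0 hP0 p hU x hx1
    (fun g hg => (hx g).1 hg)
  have hfp : Prime f := hf.prime
  have hQ : (Ideal.span {f}).IsPrime := (Ideal.span_singleton_prime hfp.ne_zero).2 hfp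
  have hQ0 : (Ideal.span {f}) ≠ ⊥ := by
    intro h
    rw [Ideal.span_singleton_eq_bot] at h
    exact hfp.ne_zero h
  have hQU : UU (Fin 2) (Fin 2) ∉ Ideal.span {f} := by
    rw [Ideal.mem_span_singleton]
    exact hfU
  obtain ⟨i, g, hg, hDg⟩ := exists_unstable _ hQ hQ0 hQU
  have hDf : DD i f ∉ Ideal.span {f} := by
    intro h
    apply hDg
    obtain ⟨r, rfl⟩ := Ideal.mem_span_singleton.1 hg
    rw [Derivation.leibniz, smul_eq_mul, smul_eq_mul]
    exact Ideal.add_mem _ (Ideal.mul_mem_right _ _ (Ideal.mem_span_singleton_self f))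
      (Ideal.mul_mem_left _ _ h)
  have hDq : ∀ g, DD i f * g ∈ Ideal.span {f} → g ∈ Ideal.span {f} :=
    fun g hg => (hQ.mem_or_mem hg).resolve_left hDf
  have hT0 : 0 < T := by omega
  have hjet : P ∈ jetI (DD i) T (Ideal.span {f}) := by
    rw [mem_jetI]
    intro n hn
    rw [Ideal.mem_span_singleton]
    apply hpf
    have hi : i = 0 ∨ i = 1 := by fin_cases i <;> simp
    rcases hi with rfl | rfl
    · have h2 := hW n hn 0 hT0
      rw [Function.iterate_zero, id_eq] at h2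
      exact h2
    · have h2 := hW 0 hT0 n hn
      rw [Function.iterate_zero, id_eq] at h2
      exact h2
  obtain ⟨r, hr⟩ := pow_dvd_of_jetI hDq T hjet
  have hr0 : r ≠ 0 := by
    rintro rfl
    rw [mul_zero] at hr
    exact hP0 hr
  have hf1 : 1 ≤ f.totalDegree := by
    by_contra hcon
    have h0 : f.totalDegree = 0 := by omega
    rw [totalDegree_eq_zero_iff_eq_C] at h0
    apply hf.not_isUnit
    rw [h0]
    have hc : coeff 0 f ≠ 0 := by
      intro hc
      rw [hc, C_0] at h0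
      exact hfp.ne_zero h0
    exact (isUnit_iff_ne_zero.2 hc).map C
  have h1 : P.totalDegree = T * f.totalDegree + r.totalDegree := by
    rw [hr, totalDegree_mul_of_isDomain (pow_ne_zero _ hfp.ne_zero) hr0,
      totalDegree_pow_eq hfp.ne_zero]
  have h2 : T * 1 ≤ T * f.totalDegree := Nat.mul_le_mul_left T hf1
  omega

end SharpSix
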