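import Pool.Agent.SharpSix.ZDefs

/-!
# Explicit regular sequences inside primes of small dimension
-/

open MvPolynomial

namespace SharpSix

section McCoy

/-- Elementary criterion for weakly regular sequences of ring elements. -/
theorem isWeaklyRegular_of {R : Type} [CommRing R] (xs : List R)
    (h : ∀ i (hi : i < xs.length), ∀ g, xs[i] * g ∈ Ideal.ofList (xs.take i) →
      g ∈ Ideal.ofList (xs.take i)) :
    RingTheory.Sequence.IsWeaklyRegular R xs := by
  constructor
  intro i hi
  rw [isSMulRegular_quotient_iff_mem_of_smul_mem]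
  intro g hg
  simp only [smul_eq_mul, Ideal.mul_top] at hg ⊢
  exact h i hi g hg

/-- Transport along a ring isomorphism. -/
theorem isWeaklyRegular_map_equiv {R S : Type} [CommRing R] [CommRing S] (e : R ≃+* S)
    {xs : List R} (h : RingTheory.Sequence.IsWeaklyRegular R xs) :
    RingTheory.Sequence.IsWeaklyRegular S (xs.map e) := by
  refine (AddEquiv.isWeaklyRegular_congr (e := e.toAddEquiv) ?_).1 h
  rw [List.forall₂_map_right_iff, List.forall₂_same]
  intro r _ x
  exact map_mul e r x

variable {B τ : Type} [CommRing B]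

open Classical in
/-- One variable split off. -/
noncomputable def splitOff (B : Type) [CommRing B] {τ : Type} (k : τ) :
    MvPolynomial τ B ≃ₐ[B] Polynomial (MvPolynomial {j // j ≠ k} B) :=
  (renameEquiv B (Equiv.optionSubtypeNe k).symm).trans (optionEquivLeft B _)

theorem splitOff_self (k : τ) : splitOff B k (X k) = Polynomial.X := by
  classical
  simp [splitOff, optionEquivLeft_X_none]

theorem splitOff_ne (k j : τ) (hj : j ≠ k) :
    splitOff B k (X j) = Polynomial.C (X ⟨j, hj⟩) := by
  classical
  simp [splitOff, hj, optionEquivLeft_X_some]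

/-- McCoy's theorem modulo an ideal of coefficients. -/
theorem mccoy_core {S A B : Type} [CommRing S] [CommRing A] [CommRing B] (e : S ≃+* Polynomial A)
    (ψ : B →+* A) (f : S) (F : Polynomial B) (hF : Ideal.span (Set.range F.coeff) = ⊤)
    (hf : e f = F.map ψ) (I₀ : Ideal S) (I : Ideal A)
    (hI : Ideal.map (e : S →+* Polynomial A) I₀ = Ideal.map Polynomial.C I) (g : S)
    (h : f * g ∈ I₀) : g ∈ I₀ := by
  have h6 : F.map ψ * e g ∈ Ideal.map Polynomial.C I := by
    rw [← hI, ← hf, ← map_mul]
    exact Ideal.mem_map_of_mem (e : S →+* Polynomial A) h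
  have hmap : ∀ f : Polynomial A,
      f ∈ Ideal.map Polynomial.C I ↔ f.map (Ideal.Quotient.mk I) = 0 := by
    intro f
    rw [Ideal.mem_map_C_iff, Polynomial.ext_iff]
    apply forall_congr'
    intro n
    rw [Polynomial.coeff_map, Polynomial.coeff_zero, Ideal.Quotient.eq_zero_iff_mem]
  rw [hmap, Polynomial.map_mul, Polynomial.map_map] at h6
  have h7 : F.map ((Ideal.Quotient.mk I).comp ψ) ∈ nonZeroDivisors (Polynomial (A ⧸ I)) := by
    rw [Polynomial.mem_nonZeroDivisors_iff]
    intro a ha
    have h8 : ∀ b ∈ Ideal.span (Set.range F.coeff), a * ((Ideal.Quotient.mk I).comp ψ) b = 0 := by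
      intro b hb
      induction hb using Submodule.span_induction with
      | mem b hb =>
        obtain ⟨n, rfl⟩ := hb
        have h9 := congrArg (fun P => Polynomial.coeff P n) ha
        simpa only [Polynomial.coeff_smul, Polynomial.coeff_map, Polynomial.coeff_zero,
          smul_eq_mul] using h9
      | zero => rw [map_zero, mul_zero]
      | add b c _ _ hb hc => rw [map_add, mul_add, hb, hc, add_zero]
      | smul r b _ hb => rw [smul_eq_mul, map_mul, mul_left_comm, hb, mul_zero]
    have h10 := h8 1 (by rw [hF]; trivial)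
    rwa [map_one, mul_one] at h10
  have h11 : (e g).map (Ideal.Quotient.mk I) = 0 := by
    rw [mul_comm] at h6
    exact (mem_nonZeroDivisors_iff_right.1 h7) _ h6
  rw [← hmap, ← hI] at h11
  obtain ⟨g', hg', hgg⟩ := (Ideal.mem_map_of_equiv e (e g)).1 h11
  have h12 : g' = g := e.injective hgg
  rwa [← h12]

/-- Multiplication by a polynomial in a new variable with coefficients generating the unit ideal. -/
theorem mem_of_mul_mem_prim (J : List τ) (F : τ → Polynomial B) (k : τ) (hk : k ∉ J)
    (hF : Ideal.span (Set.range (F k).coeff) = ⊤) (g : MvPolynomial τ B)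
    (h : Polynomial.aeval (X k) (F k) * g ∈
      Ideal.ofList (J.map fun j => Polynomial.aeval (X j : MvPolynomial τ B) (F j))) :
    g ∈ Ideal.ofList (J.map fun j => Polynomial.aeval (X j : MvPolynomial τ B) (F j)) := by
  classical
  refine mccoy_core (splitOff B k).toRingEquiv (algebraMap B (MvPolynomial {j // j ≠ k} B))
    (Polynomial.aeval (X k) (F k)) (F k) hF ?_ _
    (Ideal.ofList (J.map fun j => if hj : j ≠ k then
      Polynomial.aeval (X ⟨j, hj⟩ : MvPolynomial {j // j ≠ k} B) (F j) else 0)) ?_ g h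
  · have h2 := (Polynomial.aeval_algHom_apply (splitOff B k).toAlgHom (X k) (F k)).symm
    have h4 : (splitOff B k).toAlgHom (X k) = Polynomial.X := splitOff_self k
    rw [h4, Polynomial.aeval_X_left_eq_map] at h2
    exact h2
  · rw [Ideal.map_ofList, Ideal.map_ofList, List.map_map, List.map_map]
    congr 1
    apply List.map_congr_left
    intro j hj
    have hjk : j ≠ k := by
      rintro rfl
      exact hk hj
    simp only [Function.comp_apply, dif_pos hjk]
    have h2 := (Polynomial.aeval_algHom_apply (splitOff B k).toAlgHom (X j) (F j)).symm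
    have h3 := (Polynomial.aeval_algHom_apply
      (Polynomial.CAlgHom : MvPolynomial {j // j ≠ k} B →ₐ[B] _) (X ⟨j, hjk⟩) (F j)).symm
    have h4 : (splitOff B k).toAlgHom (X j) =
        (Polynomial.CAlgHom : MvPolynomial {j // j ≠ k} B →ₐ[B] _) (X ⟨j, hjk⟩) :=
      splitOff_ne k j hjk
    rw [h4, ← h3] at h2
    exact h2

theorem isWeaklyRegular_prim (l : List τ) (hl : l.Nodup) (F : τ → Polynomial B)
    (hF : ∀ k, Ideal.span (Set.range (F k).coeff) = ⊤) :
    RingTheory.Sequence.IsWeaklyRegular (MvPolynomial τ B)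
      (l.map fun j => Polynomial.aeval (X j : MvPolynomial τ B) (F j)) := by
  apply isWeaklyRegular_of
  intro i hi g hg
  rw [List.length_map] at hi
  rw [← List.map_take] at hg ⊢
  rw [List.getElem_map] at hg
  refine mem_of_mul_mem_prim _ F l[i] ?_ (hF _) g hg
  intro hmem
  rw [List.mem_take_iff_getElem] at hmem
  obtain ⟨j, hj, hjj⟩ := hmem
  have := (hl.getElem_inj_iff).1 hjj
  omega

end McCoy

variable {σ : Type} [Fintype σ]

/-- The maximal ideal of a point contains a regular sequence of length `card σ`. -/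
theorem exists_regular_point (p : Ideal (MvPolynomial σ ℂ))
    (h : ∀ i, ∃ c : ℂ, (X i - C c : MvPolynomial σ ℂ) ∈ p) :
    ∃ xs : List (MvPolynomial σ ℂ),
      RingTheory.Sequence.IsWeaklyRegular (MvPolynomial σ ℂ) xs ∧ (∀ f ∈ xs, f ∈ p) ∧
        xs.length = Fintype.card σ := by
  classical
  choose c hc using h
  refine ⟨(Finset.univ.toList).map fun j =>
    Polynomial.aeval (X j : MvPolynomial σ ℂ) (Polynomial.X - Polynomial.C (c j)), ?_, ?_, ?_⟩
  · apply isWeaklyRegular_prim _ (Finset.nodup_toList _)
    intro k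
    rw [Ideal.eq_top_iff_one]
    apply Ideal.subset_span
    exact ⟨1, by simp⟩
  · intro f hf
    rw [List.mem_map] at hf
    obtain ⟨j, _, rfl⟩ := hf
    simpa using hc j
  · simp

/-- If any two coordinates are algebraically dependent modulo the prime `p`, then `p` contains a
regular sequence of length `card σ - 1`. Proof: if all coordinates are constant mod `p`, use the
sequence of all `X i - C (c i)`. Otherwise fix `i` with `X i` transcendental mod `p`; for `j ≠ i`
choose an irreducible `f_j(X i, X j) ∈ p`; it is primitive in `X j` over `ℂ[X i]`, so its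
coefficients generate the unit ideal of `ℂ[X i]`; hence it is a nonzerodivisor of `B[X j]` for every
`ℂ[X i]`-algebra `B` (McCoy: `Polynomial.mem_nonZeroDivisors_iff`). -/
theorem exists_regular_curve [Nonempty σ] (p : Ideal (MvPolynomial σ ℂ)) (hp : p.IsPrime)
    (h : ∀ i j, i ≠ j → ¬ Indep p {i, j}) :
    ∃ xs : List (MvPolynomial σ ℂ),
      RingTheory.Sequence.IsWeaklyRegular (MvPolynomial σ ℂ) xs ∧ (∀ f ∈ xs, f ∈ p) ∧
        Fintype.card σ ≤ xs.length + 1 := by
  classical
  by_cases hall : ∀ i, ∃ c : ℂ, (X i - C c : MvPolynomial σ ℂ) ∈ p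
  · obtain ⟨xs, h1, h2, h3⟩ := exists_regular_point p hall
    exact ⟨xs, h1, h2, by omega⟩
  push Not at hall
  obtain ⟨i, hi⟩ := hall
  -- `X i` is transcendental modulo `p`
  have htr : ∀ a : Polynomial ℂ, a ≠ 0 → Polynomial.aeval (X i : MvPolynomial σ ℂ) a ∉ p := by
    intro a ha hmem
    have h1 := (IsAlgClosed.splits a).eq_prod_roots
    rw [h1, map_mul, Polynomial.aeval_C] at hmem
    rcases hp.mem_or_mem hmem with h2 | h2
    · apply hp.ne_top
      rw [Ideal.eq_top_iff_one]
      have h3 := p.mul_mem_left (C (a.leadingCoeff)⁻¹) h2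
      rw [MvPolynomial.algebraMap_eq, ← C_mul,
        inv_mul_cancel₀ (Polynomial.leadingCoeff_ne_zero.2 ha), C_1] at h3
      exact h3
    · rw [map_multiset_prod, hp.multiset_prod_mem_iff_exists_mem] at h2
      obtain ⟨f, hf, hfp⟩ := h2
      rw [Multiset.map_map, Multiset.mem_map] at hf
      obtain ⟨c, _, rfl⟩ := hf
      apply hi c
      simpa using hfp
  -- the isomorphism
  set E : MvPolynomial σ ℂ ≃ₐ[ℂ] MvPolynomial {j // j ≠ i} (Polynomial ℂ) :=
    (renameEquiv ℂ (Equiv.optionSubtypeNe i).symm).trans (optionEquivRight ℂ _) with hE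
  have hEi : E (X i) = C Polynomial.X := by
    simp [hE]
  have hEj : ∀ j (hj : j ≠ i), E (X j) = X ⟨j, hj⟩ := by
    intro j hj
    simp [hE, hj]
  -- the two variable polynomials
  have hpoly : ∀ j : {j // j ≠ i}, ∃ F : Polynomial (Polynomial ℂ),
      Ideal.span (Set.range F.coeff) = ⊤ ∧
      E.symm (Polynomial.aeval (X j : MvPolynomial {j // j ≠ i} (Polynomial ℂ)) F) ∈ p := by
    rintro ⟨j, hj⟩
    have h1 := h i j hj.symm
    unfold Indep at h1
    push Not at h1
    obtain ⟨f, hfp, hfs, hf0⟩ := h1
    have hCa : ∀ a : Polynomial ℂ, E.symm (C a) = Polynomial.aeval (X i) a := by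
      have h2 : (IsScalarTower.toAlgHom ℂ (Polynomial ℂ)
          (MvPolynomial {j // j ≠ i} (Polynomial ℂ))) =
          (E.toAlgHom).comp (Polynomial.aeval (X i : MvPolynomial σ ℂ)) := by
        apply Polynomial.algHom_ext
        rw [AlgHom.comp_apply, Polynomial.aeval_X]
        exact hEi.symm
      intro a
      rw [AlgEquiv.symm_apply_eq]
      exact congrArg (fun φ => φ a) h2
    set Φ : Polynomial (Polynomial ℂ) →ₐ[ℂ] MvPolynomial σ ℂ :=
      E.symm.toAlgHom.comp ((Polynomial.aeval (X ⟨j, hj⟩ :
        MvPolynomial {j // j ≠ i} (Polynomial ℂ)) :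
        Polynomial (Polynomial ℂ) →ₐ[Polynomial ℂ] _).restrictScalars ℂ) with hΦ
    have hΦa : ∀ F, Φ F = E.symm (Polynomial.aeval (X ⟨j, hj⟩) F) := fun F => rfl
    have hΦX : Φ Polynomial.X = X j := by
      rw [hΦa, Polynomial.aeval_X, AlgEquiv.symm_apply_eq, hEj j hj]
    have hΦC : ∀ a, Φ (Polynomial.C a) = Polynomial.aeval (X i) a := by
      intro a
      rw [hΦa, Polynomial.aeval_C]
      exact hCa a
    have hrange : supported ℂ ({i, j} : Set σ) ≤ Φ.range := by
      rw [supported]
      apply Algebra.adjoin_le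
      rintro _ ⟨k, hk, rfl⟩
      simp only [Set.mem_insert_iff, Set.mem_singleton_iff] at hk
      rcases hk with rfl | rfl
      · refine ⟨Polynomial.C Polynomial.X, ?_⟩
        have := hΦC Polynomial.X
        rw [Polynomial.aeval_X] at this
        exact this
      · exact ⟨Polynomial.X, hΦX⟩
    obtain ⟨F₀, hF₀⟩ := hrange hfs
    have hF₀' : Φ F₀ = f := hF₀
    have hF₀0 : F₀ ≠ 0 := by
      rintro rfl
      rw [map_zero] at hF₀'
      exact hf0 hF₀'.symm
    obtain ⟨g, hg⟩ := IsPrincipalIdealRing.principal (Ideal.span (Set.range F₀.coeff))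
    have hg' : Ideal.span (Set.range F₀.coeff) = Ideal.span {g} := hg
    have hdvd : Polynomial.C g ∣ F₀ := by
      rw [Polynomial.C_dvd_iff_dvd_coeff]
      intro n
      rw [← Ideal.mem_span_singleton, ← hg']
      exact Ideal.subset_span ⟨n, rfl⟩
    obtain ⟨F, hF⟩ := hdvd
    have hg0 : g ≠ 0 := by
      rintro rfl
      rw [map_zero, zero_mul] at hF
      exact hF₀0 hF
    refine ⟨F, ?_, ?_⟩
    · have key : ∀ b ∈ Ideal.span (Set.range F₀.coeff),
          ∃ k ∈ Ideal.span (Set.range F.coeff), b = g * k := by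
        intro b hb
        induction hb using Submodule.span_induction with
        | mem b hb =>
          obtain ⟨n, rfl⟩ := hb
          exact ⟨F.coeff n, Ideal.subset_span ⟨n, rfl⟩, by rw [hF, Polynomial.coeff_C_mul]⟩
        | zero => exact ⟨0, Ideal.zero_mem _, by rw [mul_zero]⟩
        | add b c _ _ hb hc =>
          obtain ⟨k, hk, rfl⟩ := hb
          obtain ⟨l, hl, rfl⟩ := hc
          exact ⟨k + l, Ideal.add_mem _ hk hl, by ring⟩
        | smul r b _ hb =>
          obtain ⟨k, hk, rfl⟩ := hb
          exact ⟨r * k, Ideal.mul_mem_left _ _ hk, by rw [smul_eq_mul]; ring⟩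
      obtain ⟨k, hk, hgk⟩ := key g (by rw [hg']; exact Ideal.mem_span_singleton_self g)
      have hk1 : k = 1 := by
        apply mul_left_cancel₀ hg0
        rw [mul_one]
        exact hgk.symm
      rw [Ideal.eq_top_iff_one, ← hk1]
      exact hk
    · have h3 : Φ (Polynomial.C g) * Φ F ∈ p := by
        rw [← map_mul, ← hF, hF₀']
        exact hfp
      rcases hp.mem_or_mem h3 with h4 | h4
      · rw [hΦC] at h4
        exact absurd h4 (htr g hg0)
      · exact h4
  choose F hF1 hF2 using hpoly
  refine ⟨((Finset.univ.toList).map fun j : {j // j ≠ i} =>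
    Polynomial.aeval (X j : MvPolynomial {j // j ≠ i} (Polynomial ℂ)) (F j)).map
      E.symm.toRingEquiv, ?_, ?_, ?_⟩
  · apply isWeaklyRegular_map_equiv
    exact isWeaklyRegular_prim _ (Finset.nodup_toList _) F hF1
  · intro f hf
    rw [List.map_map, List.mem_map] at hf
    obtain ⟨j, _, rfl⟩ := hf
    exact hF2 j
  · simp only [List.length_map, Finset.length_toList, Finset.card_univ]
    rw [Fintype.card_subtype_compl, Fintype.card_subtype_eq]
    omega

end SharpSix
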