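import Pool.Agent.SharpSix.ZDefs

/-!
# Primes associated to an ideal generated by a regular sequence contain no longer one
-/

open MvPolynomial CategoryTheory Abelian Limits Pointwise

namespace SharpSix

/-- Vanishing of `Ext` passes to the quotient by a regular element. -/
theorem ext_quot {S : Type} [CommRing S] (N M : ModuleCat.{0} S) (a : S) (ha : IsSMulRegular M a)
    (n : ℕ) (h : ∀ i < n + 1, Subsingleton (Ext N M i)) :
    ∀ i < n, Subsingleton (Ext N (ModuleCat.of S (QuotSMulTop a M)) i) := by
  intro i hi
  have zero1 := AddCommGrpCat.isZero_of_iff_subsingleton.mpr (h i (by omega))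
  have zero2 := AddCommGrpCat.isZero_of_iff_subsingleton.mpr (h (i + 1) (by omega))
  exact AddCommGrpCat.subsingleton_of_isZero <| ShortComplex.Exact.isZero_of_both_zeros
    ((Ext.covariant_sequence_exact₃' N ha.smulShortComplex_shortExact) i (i + 1) rfl)
    (zero1.eq_zero_of_src _) (zero2.eq_zero_of_tgt _)

/-- If the first `Ext` groups of `S / I` in `M` vanish then `(ps) M : I = (ps) M` for a short
regular sequence `ps`. -/
theorem colon_aux {S : Type} [CommRing S] (I : Ideal S) (ps : List S) :
    ∀ (M : Type) [AddCommGroup M] [Module S M],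
      RingTheory.Sequence.IsWeaklyRegular M ps →
      (∀ i < ps.length + 1, Subsingleton (Ext (ModuleCat.of S (S ⧸ I)) (ModuleCat.of S M) i)) →
      ∀ x : M, (∀ f ∈ I, f • x ∈ (Ideal.ofList ps • ⊤ : Submodule S M)) →
        x ∈ (Ideal.ofList ps • ⊤ : Submodule S M) := by
  induction ps with
  | nil =>
    intro M _ _ _ h x hx
    have h0 := h 0 (by simp)
    have h1 : Subsingleton ((ModuleCat.of S (S ⧸ I)) ⟶ (ModuleCat.of S M)) :=
      Ext.addEquiv₀.symm.subsingleton
    have h2 : Subsingleton ((S ⧸ I) →ₗ[S] M) :=
      (ModuleCat.homAddEquiv (M := ModuleCat.of S (S ⧸ I)) (N := ModuleCat.of S M)).symm.subsingleton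
    have hx' : ∀ f ∈ I, f • x = 0 := by
      intro f hf
      have := hx f hf
      simpa using this
    let φ : (S ⧸ I) →ₗ[S] M := Submodule.liftQ I (LinearMap.toSpanSingleton S M x)
      (fun f hf => by simpa using hx' f hf)
    have h3 : φ = 0 := Subsingleton.elim _ _
    have h4 : φ (Submodule.Quotient.mk 1) = x := by
      change Submodule.liftQ I _ _ (Submodule.Quotient.mk 1) = x
      rw [Submodule.liftQ_apply, LinearMap.toSpanSingleton_apply, one_smul]
    rw [h3] at h4
    simp only [LinearMap.zero_apply] at h4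
    rw [← h4]
    exact Submodule.zero_mem _
  | cons a ps ih =>
    intro M _ _ hreg h x hx
    rw [RingTheory.Sequence.isWeaklyRegular_cons_iff] at hreg
    have hE : ∀ i < ps.length + 1, Subsingleton (Ext (ModuleCat.of S (S ⧸ I))
        (ModuleCat.of S (QuotSMulTop a M)) i) :=
      ext_quot (ModuleCat.of S (S ⧸ I)) (ModuleCat.of S M) a hreg.1 _ (by simpa using h)
    have hmap : (Ideal.ofList (a :: ps) • ⊤ : Submodule S M) =
        Submodule.comap (Submodule.mkQ (a • (⊤ : Submodule S M)))
          (Ideal.ofList ps • ⊤ : Submodule S (QuotSMulTop a M)) := by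
      rw [Ideal.ofList_cons_smul, Submodule.comap_smul_top_of_surjective _ _
        (Submodule.mkQ_surjective _), Submodule.ker_mkQ, sup_comm]
    rw [hmap] at hx ⊢
    rw [Submodule.mem_comap]
    apply ih (QuotSMulTop a M) hreg.2 hE
    intro f hf
    have := hx f hf
    rw [Submodule.mem_comap, map_smul] at this
    exact this

/-- Grade lemma. Proof: `Ext^i(S/I, S) = 0` for `i < xs.length` (Rees theorem in
Mathlib.RingTheory.Depth.Rees), then the long exact sequence of `Ext^i(S/I, -)` along `ps`. -/
theorem grade_lemma {S : Type} [CommRing S] [IsNoetherianRing S] (I : Ideal S) (xs ps : List S)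
    (hxs : RingTheory.Sequence.IsWeaklyRegular S xs) (hI : ∀ f ∈ xs, f ∈ I)
    (hps : RingTheory.Sequence.IsWeaklyRegular S ps) (hlen : ps.length < xs.length) (x : S)
    (hx : ∀ f ∈ I, f * x ∈ Ideal.ofList ps) : x ∈ Ideal.ofList ps := by
  by_cases hI1 : I = ⊤
  · have := hx 1 (by rw [hI1]; trivial)
    rwa [one_mul] at this
  have hlt : I • (⊤ : Submodule S S) < ⊤ := by
    rw [lt_top_iff_ne_top]
    intro h
    apply hI1
    rw [← h]
    simp
  have hreg : RingTheory.Sequence.IsRegular S xs := by
    refine ⟨hxs, ?_⟩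
    intro h
    apply hI1
    rw [eq_top_iff]
    have h2 : (Ideal.ofList xs • ⊤ : Submodule S S) ≤ I := by
      have h3 : Ideal.ofList xs ≤ I := by
        rw [Ideal.ofList, Ideal.span_le]
        intro f hf
        exact hI f hf
      simpa using h3
    rw [← h] at h2
    exact h2
  have hE := ModuleCat.subsingleton_ext_of_exists_isRegular I (ModuleCat.of S (S ⧸ I))
    (by rw [Module.support_eq_zeroLocus, Ideal.annihilator_quotient]) (ModuleCat.of S S) hlt xs hI
    hreg
  have key := colon_aux I ps S hps (fun i hi => hE i (by omega)) x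
    (fun f hf => by simpa using hx f hf)
  simpa using key

/-- `RegU` sequences become weakly regular in the localisation at a prime not containing `U`. -/
theorem weaklyRegular_of_regU {R : Type} [CommRing R] (U : R) (p : Ideal R) [hp : p.IsPrime]
    (hU : U ∉ p) (ps : List R) (h : RegU U ps) :
    RingTheory.Sequence.IsWeaklyRegular (Localization.AtPrime p)
      (ps.map (algebraMap R (Localization.AtPrime p))) := by
  induction h with
  | nil => simp
  | snoc ps w hps hw ih =>
    rw [List.map_append, RingTheory.Sequence.isWeaklyRegular_append_iff]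
    refine ⟨ih, ?_⟩
    rw [List.map_singleton, RingTheory.Sequence.isWeaklyRegular_singleton_iff]
    rw [isSMulRegular_iff_right_eq_zero_of_smul]
    intro y hy
    obtain ⟨y, rfl⟩ := Submodule.mkQ_surjective _ y
    rw [Submodule.mkQ_apply, ← Submodule.Quotient.mk_smul, Submodule.Quotient.mk_eq_zero] at hy
    rw [Submodule.mkQ_apply, Submodule.Quotient.mk_eq_zero]
    have e1 : (Ideal.ofList (ps.map (algebraMap R (Localization.AtPrime p))) •
        (⊤ : Submodule (Localization.AtPrime p) (Localization.AtPrime p))) =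
        (Ideal.ofList ps).map (algebraMap R (Localization.AtPrime p)) := by
      rw [Ideal.map_ofList]
      simp
    rw [e1] at hy ⊢
    rw [smul_eq_mul] at hy
    obtain ⟨g, s, rfl⟩ := IsLocalization.exists_mk'_eq p.primeCompl y
    rw [← IsLocalization.mk'_one (M := p.primeCompl) (Localization.AtPrime p) w,
      ← IsLocalization.mk'_mul, one_mul, IsLocalization.mk'_mem_map_algebraMap_iff] at hy
    rw [IsLocalization.mk'_mem_map_algebraMap_iff]
    obtain ⟨u, hu, hu'⟩ := hy
    have h1 : w * (u * g) ∈ satI U ps := by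
      refine ⟨0, ?_⟩
      rw [pow_zero, one_mul]
      convert hu' using 1
      ring
    obtain ⟨n, hn⟩ := hw _ h1
    refine ⟨U ^ n * u, ?_, ?_⟩
    · exact mul_mem (pow_mem (show U ∈ p.primeCompl from hU) n) hu
    · convert hn using 1
      ring

/-- Unmixedness. Proof: localise at `p` and use `grade_lemma`. -/
theorem unmixed {R : Type} [CommRing R] [IsNoetherianRing R] (U : R) (ps : List R)
    (hps : RegU U ps) (p : Ideal R) (hp : p.IsPrime) (hU : U ∉ p) (x : R)
    (h : ∀ f, f ∈ p ↔ f * x ∈ satI U ps) (xs : List R)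
    (hxs : RingTheory.Sequence.IsWeaklyRegular R xs) (hmem : ∀ f ∈ xs, f ∈ p) :
    xs.length ≤ ps.length := by
  by_contra hlen
  push Not at hlen
  have hN : IsNoetherianRing (Localization.AtPrime p) :=
    IsLocalization.isNoetherianRing p.primeCompl _ inferInstance
  have hps' := weaklyRegular_of_regU U p hU ps hps
  have hxs' : RingTheory.Sequence.IsWeaklyRegular (Localization.AtPrime p)
      (xs.map (algebraMap R (Localization.AtPrime p))) :=
    hxs.of_isLocalization (Localization.AtPrime p) p.primeCompl
  have key := grade_lemma (p.map (algebraMap R (Localization.AtPrime p)))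
    (xs.map (algebraMap R (Localization.AtPrime p)))
    (ps.map (algebraMap R (Localization.AtPrime p))) hxs' ?_ hps' (by simpa using hlen)
    (algebraMap R (Localization.AtPrime p) x) ?_
  · rw [← Ideal.map_ofList, IsLocalization.algebraMap_mem_map_algebraMap_iff p.primeCompl] at key
    obtain ⟨m, hm, hm'⟩ := key
    have : m ∈ p := by
      rw [h]
      exact ⟨0, by rwa [pow_zero, one_mul]⟩
    exact hm this
  · intro f hf
    rw [List.mem_map] at hf
    obtain ⟨g, hg, rfl⟩ := hf
    exact Ideal.mem_map_of_mem _ (hmem g hg)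
  · intro f hf
    rw [← Ideal.map_ofList]
    obtain ⟨g, s, rfl⟩ := IsLocalization.exists_mk'_eq p.primeCompl f
    rw [IsLocalization.mk'_mem_map_algebraMap_iff] at hf
    rw [← IsLocalization.mk'_one (M := p.primeCompl) (Localization.AtPrime p) x,
      ← IsLocalization.mk'_mul, mul_one, IsLocalization.mk'_mem_map_algebraMap_iff]
    obtain ⟨u, hu, hu'⟩ := hf
    obtain ⟨n, hn⟩ := (h _).1 hu'
    refine ⟨U ^ n * u, ?_, ?_⟩
    · exact mul_mem (pow_mem (show U ∈ p.primeCompl from hU) n) hu
    · convert hn using 1
      ring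

end SharpSix
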