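import Pool.Agent.SharpSix.ZC1
import Pool.Agent.SharpSix.ZC2
import Pool.Agent.SharpSix.ZC3
import Pool.Agent.SharpSix.ZRees
import Pool.Agent.SharpSix.ZMcCoy

/-!
# The zero estimate

Suppose `P ≠ 0`. Let `W k = derivs (DD 0) (DD 1) a y P (k * T) (k * S)`; `[P]` is `RegU`. By `snoc_or`
choose successively `g₂ ∈ W 1`, `g₃ ∈ W 2`, `g₄ ∈ W 3` extending the regular sequence; if this fails at
some step, the prime `p` of `snoc_or` contradicts `case_three`, `case_two` (a pair of coordinates is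
independent by `unmixed` and `exists_regular_curve`), `case_one` (some coordinate is not constant by
`unmixed` and `exists_regular_point`) respectively; `JetsIn` comes from `derivs_satI`, `hilb_regU`
gives `K = 2 ^ 8 Λ`, `2 ^ 12 Λ` with `Λ = D₀ ^ 2 * D₁ ^ 2`. Finally `case_zero` with `K = 2 ^ 16 Λ`.
-/

set_option linter.unusedSectionVars false

open MvPolynomial

namespace SharpSix

theorem derivs_mono {ι κ l : Type} [Fintype ι] [Fintype κ] [Fintype l]
    (D₁ D₂ : Derivation ℂ (MvPolynomial (ι ⊕ κ) ℂ) (MvPolynomial (ι ⊕ κ) ℂ))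
    (a : l → ι → ℂ) (y : l → κ → ℂ) (P : MvPolynomial (ι ⊕ κ) ℂ) {T S T' S' : ℕ}
    (hT : T ≤ T') (hS : S ≤ S') : derivs D₁ D₂ a y P T S ≤ derivs D₁ D₂ a y P T' S' := by
  refine Submodule.span_mono ?_
  rintro _ ⟨t₁, h1, t₂, h2, s, hs, rfl⟩
  exact ⟨t₁, h1.trans_le hT, t₂, h2.trans_le hT, s, fun j => (hs j).trans_le hS, rfl⟩

theorem regU_singleton (U P : R4) (hU : U ≠ 0) (hP : P ≠ 0) : RegU U [P] := by
  have h := RegU.snoc (U := U) [] P RegU.nil (by
    intro g hg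
    obtain ⟨n, hn⟩ := mem_satI.1 hg
    refine mem_satI.2 ⟨0, ?_⟩
    have h0 : Ideal.ofList ([] : List R4) = ⊥ := Ideal.ofList_nil
    rw [h0, Submodule.mem_bot] at hn
    have h1 := (mul_eq_zero.1 hn).resolve_left (pow_ne_zero n hU)
    have h2 := (mul_eq_zero.1 h1).resolve_left hP
    rw [h2, mul_zero]
    exact Ideal.zero_mem _)
  simpa using h

theorem zero_estimate (G : Cfg) (D₀ D₁ T S : ℕ) (hD₀ : 0 < D₀) (hD₁ : 0 < D₁) (hDD : D₁ ≤ D₀)
    (hT : 0 < T) (hS : 0 < S) (hdeg : 2 * D₀ + 2 * D₁ ≤ T)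
    (n1 : 2 ^ 10 * (D₀ ^ 2 * D₁ ^ 2) < T * S * D₀ ^ 2)
    (n2 : 2 ^ 10 * (D₀ ^ 2 * D₁ ^ 2) < T ^ 2 * D₁ ^ 2)
    (n3 : 2 ^ 10 * (D₀ ^ 2 * D₁ ^ 2) < T * S ^ 2 * (D₀ * D₁))
    (n4 : 2 ^ 10 * (D₀ ^ 2 * D₁ ^ 2) < (T / 2) ^ 2 * (D₀ * D₁))
    (n5 : 2 ^ 13 * (D₀ ^ 2 * D₁ ^ 2) < T ^ 2 * S * D₀)
    (n6 : 2 ^ 13 * (D₀ ^ 2 * D₁ ^ 2) < T ^ 2 * S ^ 2 * D₁)
    (n7 : 2 ^ 16 * (D₀ ^ 2 * D₁ ^ 2) < T ^ 2 * S ^ 3)
    (P : R4) (hP : P ∈ box (dd D₀ D₁))
    (h : ∀ t₁ < 4 * T, ∀ t₂ < 4 * T, ∀ s : Fin 3 → ℕ, (∀ j, s j < 4 * S) →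
      eval (origin (Fin 2) (Fin 2)) ((DD 0)^[t₁] ((DD 1)^[t₂] (tau G.a G.y s P))) = 0) :
    P = 0 := by
  by_contra hP0
  set U : R4 := UU (Fin 2) (Fin 2) with hUdef
  have hU0 : U ≠ 0 := by
    intro h0
    exact UU_notMem_mm (by rw [← hUdef, h0]; exact Ideal.zero_mem _)
  have hcard : Fintype.card (Fin 2 ⊕ Fin 2) = 4 := by simp
  set Lam := D₀ ^ 2 * D₁ ^ 2 with hLam
  -- the spaces of derivatives
  let W : ℕ → Submodule ℂ R4 := fun k => derivs (DD 0) (DD 1) G.a G.y P (k * T) (k * S)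
  have hWmono : ∀ {k k' : ℕ}, k ≤ k' → W k ≤ W k' := fun hk =>
    derivs_mono _ _ _ _ _ (Nat.mul_le_mul_right _ hk) (Nat.mul_le_mul_right _ hk)
  have hWbox : ∀ k, W k ≤ box (dd D₀ D₁) := fun k => derivs_le_box _ _ _ _ _ _ hP _ _
  have hPW : ∀ k, 0 < k → P ∈ W k := fun k hk =>
    self_mem_derivs _ _ _ _ _ _ _ (Nat.mul_pos hk hT) (Nat.mul_pos hk hS)
  have hjets : ∀ (k : ℕ) (ps : List R4) (p : Ideal R4), p.IsPrime → U ∉ p →
      (∀ f ∈ ps, f ∈ W k) → (∀ f ∈ W (k + 1), f ∈ p) → JetsIn G T S (satI U ps) p := by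
    intro k ps p hp hU hps hW f hf t₁ ht₁ t₂ ht₂ s hs
    refine derivs_satI (T := k * T) (S := k * S) _ _ _ _ G.a G.y G.hy p hp hU ?_ ps hps hf
      ht₁ ht₂ hs
    have e1 : k * T + T = (k + 1) * T := by ring
    have e2 : k * S + S = (k + 1) * S := by ring
    rw [e1, e2]
    exact hW
  have hWorigin : ∀ f ∈ W 4, f ∈ mm := by
    intro f hf
    have h1 : W 4 ≤ mm.restrictScalars ℂ := by
      refine Submodule.span_le.2 ?_
      rintro _ ⟨t₁, h1, t₂, h2, s, hs, rfl⟩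
      exact mem_mm.2 (h t₁ h1 t₂ h2 s hs)
    exact h1 hf
  have hprod := prod_dd D₀ D₁
  have hreg1 : RegU U [P] := regU_singleton U P hU0 hP0
  -- step 1
  rcases snoc_or U [P] hreg1 (W 1) with ⟨g₂, hg₂, hreg2⟩ | ⟨p, hp, hUp, hle, ⟨x, hx⟩, hWp⟩
  swap
  · refine case_three D₀ D₁ T P hP0 hP p hp hUp x hx ?_ hdeg
    intro t₁ ht₁ t₂ ht₂
    refine hWp _ (Submodule.subset_span ⟨t₁, by omega, t₂, by omega, 0, fun j => by
      simp only [Pi.zero_apply]; omega, ?_⟩)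
    rw [tau_zero]
  -- step 2
  rcases snoc_or U ([P] ++ [g₂]) hreg2 (W 2) with ⟨g₃, hg₃, hreg3⟩ | ⟨p, hp, hUp, hle, ⟨x, hx⟩, hWp⟩
  swap
  · have hps : ∀ f ∈ [P] ++ [g₂], f ∈ W 1 := by
      intro f hf
      simp only [List.cons_append, List.nil_append, List.mem_cons, List.not_mem_nil,
        or_false] at hf
      rcases hf with rfl | rfl
      · exact hPW 1 one_pos
      · exact hg₂
    refine case_two G D₀ D₁ T S (2 ^ 8 * Lam) hD₀ hD₁ hDD p hp hUp (satI U ([P] ++ [g₂])) hle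
      (hjets 1 _ p hp hUp hps hWp) hS ?_ ?_ (by omega) (by omega) (by omega) (by omega)
    · intro t ht
      have h1 := hilb_regU (dd D₀ D₁) U ([P] ++ [g₂]) hreg2
        (fun f hf => hWbox 1 (hps f hf)) (by rw [hcard]; simp) t ht
      rw [hcard, hprod] at h1
      refine h1.trans (le_of_eq ?_)
      simp only [List.cons_append, List.nil_append, List.length_cons, List.length_nil]
      ring
    · by_contra hcon
      push Not at hcon
      obtain ⟨xs, hxs, hmem, hlen⟩ := exists_regular_curve p hp hcon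
      have h1 := unmixed U ([P] ++ [g₂]) hreg2 p hp hUp x hx xs hxs hmem
      rw [hcard] at hlen
      simp only [List.cons_append, List.nil_append, List.length_cons, List.length_nil] at h1
      omega
  -- step 3
  rcases snoc_or U ([P] ++ [g₂] ++ [g₃]) hreg3 (W 3) with
    ⟨g₄, hg₄, hreg4⟩ | ⟨p, hp, hUp, hle, ⟨x, hx⟩, hWp⟩
  swap
  · have hps : ∀ f ∈ [P] ++ [g₂] ++ [g₃], f ∈ W 2 := by
      intro f hf
      simp only [List.cons_append, List.nil_append, List.mem_cons, List.not_mem_nil,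
        or_false] at hf
      rcases hf with rfl | rfl | rfl
      · exact hPW 2 two_pos
      · exact hWmono (by norm_num) hg₂
      · exact hg₃
    refine case_one G D₀ D₁ T S (2 ^ 12 * Lam) hD₀ hD₁ p hp hUp (satI U ([P] ++ [g₂] ++ [g₃])) hle
      (hjets 2 _ p hp hUp hps hWp) ?_ ?_ (by omega) (by omega)
    · intro t ht
      have h1 := hilb_regU (dd D₀ D₁) U ([P] ++ [g₂] ++ [g₃]) hreg3
        (fun f hf => hWbox 2 (hps f hf)) (by rw [hcard]; simp) t ht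
      rw [hcard, hprod] at h1
      refine h1.trans (le_of_eq ?_)
      simp only [List.cons_append, List.nil_append, List.length_cons, List.length_nil]
      ring
    · by_contra hcon
      push Not at hcon
      obtain ⟨xs, hxs, hmem, hlen⟩ := exists_regular_point p hcon
      have h1 := unmixed U ([P] ++ [g₂] ++ [g₃]) hreg3 p hp hUp x hx xs hxs hmem
      rw [hcard] at hlen
      simp only [List.cons_append, List.nil_append, List.length_cons, List.length_nil] at h1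
      omega
  -- step 4
  have hps : ∀ f ∈ [P] ++ [g₂] ++ [g₃] ++ [g₄], f ∈ W 3 := by
    intro f hf
    simp only [List.cons_append, List.nil_append, List.mem_cons, List.not_mem_nil,
      or_false] at hf
    rcases hf with rfl | rfl | rfl | rfl
    · exact hPW 3 three_pos
    · exact hWmono (by norm_num) hg₂
    · exact hWmono (by norm_num) hg₃
    · exact hg₄
  refine case_zero G D₀ D₁ T S (2 ^ 16 * Lam) hD₀ hD₁ hT hS
    (satI U ([P] ++ [g₂] ++ [g₃] ++ [g₄])) (hjets 3 _ mm mm_prime UU_notMem_mm hps hWorigin)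
    ?_ n7
  intro t ht
  have h1 := hilb_regU (dd D₀ D₁) U ([P] ++ [g₂] ++ [g₃] ++ [g₄]) hreg4
    (fun f hf => hWbox 3 (hps f hf)) (by rw [hcard]; simp) t ht
  rw [hcard, hprod] at h1
  refine h1.trans (le_of_eq ?_)
  simp only [List.cons_append, List.nil_append, List.length_cons, List.length_nil]
  ring

end SharpSix
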