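import Pool.Agent.SharpSix.An4
import Pool.Agent.SharpSix.ZMain

/-!
# The sharp six exponentials theorem over `ℚ(i)` for a configuration
-/

open MvPolynomial

namespace SharpSix

open FiveNum

theorem numericZ (N : ℕ) (hN : 2 ^ 16 < N) :
    2 * N ^ 34 + 2 * N ^ 20 ≤ N ^ 35 ∧
    2 ^ 10 * ((N ^ 34) ^ 2 * (N ^ 20) ^ 2) < N ^ 35 * N ^ 15 * (N ^ 34) ^ 2 ∧
    2 ^ 10 * ((N ^ 34) ^ 2 * (N ^ 20) ^ 2) < (N ^ 35) ^ 2 * (N ^ 20) ^ 2 ∧
    2 ^ 10 * ((N ^ 34) ^ 2 * (N ^ 20) ^ 2) < N ^ 35 * (N ^ 15) ^ 2 * (N ^ 34 * N ^ 20) ∧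
    2 ^ 10 * ((N ^ 34) ^ 2 * (N ^ 20) ^ 2) < (N ^ 35 / 2) ^ 2 * (N ^ 34 * N ^ 20) ∧
    2 ^ 13 * ((N ^ 34) ^ 2 * (N ^ 20) ^ 2) < (N ^ 35) ^ 2 * N ^ 15 * N ^ 34 ∧
    2 ^ 13 * ((N ^ 34) ^ 2 * (N ^ 20) ^ 2) < (N ^ 35) ^ 2 * (N ^ 15) ^ 2 * N ^ 20 ∧
    2 ^ 16 * ((N ^ 34) ^ 2 * (N ^ 20) ^ 2) < (N ^ 35) ^ 2 * (N ^ 15) ^ 3 := by
  have hN1 : 1 ≤ N := by omega
  have key : ∀ c e : ℕ, c ≤ 2 ^ 16 → 109 ≤ e → c * ((N ^ 34) ^ 2 * (N ^ 20) ^ 2) < N ^ e := by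
    intro c e hc he
    have h1 : (N ^ 34) ^ 2 * (N ^ 20) ^ 2 = N ^ 108 := by ring
    have h2 : 0 < N ^ 108 := by positivity
    calc c * ((N ^ 34) ^ 2 * (N ^ 20) ^ 2) = c * N ^ 108 := by rw [h1]
      _ < N * N ^ 108 := (Nat.mul_lt_mul_right h2).2 (by omega)
      _ = N ^ 109 := by ring
      _ ≤ N ^ e := Nat.pow_le_pow_right hN1 he
  have h2 : N ^ 34 ≤ N ^ 35 / 2 := by
    rw [Nat.le_div_iff_mul_le (by norm_num)]
    calc N ^ 34 * 2 ≤ N ^ 34 * N := Nat.mul_le_mul_left _ (by omega)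
      _ = N ^ 35 := by ring
  refine ⟨?_, ?_, ?_, ?_, ?_, ?_, ?_, ?_⟩
  · have h3 : N ^ 20 ≤ N ^ 34 := Nat.pow_le_pow_right hN1 (by norm_num)
    calc 2 * N ^ 34 + 2 * N ^ 20 ≤ 2 * N ^ 34 + 2 * N ^ 34 := by omega
      _ = 4 * N ^ 34 := by ring
      _ ≤ N * N ^ 34 := Nat.mul_le_mul_right _ (by omega)
      _ = N ^ 35 := by ring
  · refine (key (2 ^ 10) 118 (by norm_num) (by norm_num)).trans_le (le_of_eq ?_)
    ring
  · refine (key (2 ^ 10) 110 (by norm_num) (by norm_num)).trans_le (le_of_eq ?_)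
    ring
  · refine (key (2 ^ 10) 119 (by norm_num) (by norm_num)).trans_le (le_of_eq ?_)
    ring
  · refine (key (2 ^ 10) 122 (by norm_num) (by norm_num)).trans_le ?_
    calc N ^ 122 = (N ^ 34) ^ 2 * (N ^ 34 * N ^ 20) := by ring
      _ ≤ (N ^ 35 / 2) ^ 2 * (N ^ 34 * N ^ 20) :=
        Nat.mul_le_mul_right _ (Nat.pow_le_pow_left h2 2)
  · refine (key (2 ^ 13) 119 (by norm_num) (by norm_num)).trans_le (le_of_eq ?_)
    ring
  · refine (key (2 ^ 13) 120 (by norm_num) (by norm_num)).trans_le (le_of_eq ?_)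
    ring
  · refine (key (2 ^ 16) 115 (by norm_num) (by norm_num)).trans_le (le_of_eq ?_)
    ring

theorem mulp_mem_GInt {Q : ℕ} (y : Fin 3 → Fin 2 → ℂ) (i : Fin 2)
    (hQy : ∀ j, (Q : ℂ) * y j i ∈ GInt) (S : ℕ) (s : Fin 3 → ℕ) (hs : ∀ j, s j < S) :
    (Q : ℂ) ^ (3 * S) * mulp y s i ∈ GInt := by
  have h : ∀ j, (Q : ℂ) ^ (s j) * y j i ^ (s j) ∈ GInt := fun j => by
    rw [← mul_pow]
    exact GInt.pow_mem (hQy j) _
  have h1 : (Q : ℂ) ^ (s 0 + s 1 + s 2) * mulp y s i ∈ GInt := by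
    have e : (Q : ℂ) ^ (s 0 + s 1 + s 2) * mulp y s i =
        ((Q : ℂ) ^ (s 0) * y 0 i ^ (s 0)) * ((Q : ℂ) ^ (s 1) * y 1 i ^ (s 1)) *
          ((Q : ℂ) ^ (s 2) * y 2 i ^ (s 2)) := by
      rw [mulp, Fin.prod_univ_three]
      ring
    rw [e]
    exact GInt.mul_mem (GInt.mul_mem (h 0) (h 1)) (h 2)
  refine mem_GInt_pow_mono h1 ?_
  have := hs 0
  have := hs 1
  have := hs 2
  omega

theorem norm_sum_le_of (u : Fin 3 → ℂ) (S : ℕ) (s : Fin 3 → ℕ) (hs : ∀ j, s j < S) :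
    ‖∑ j, (s j : ℂ) * u j‖ ≤ (∑ j, ‖u j‖) * S := by
  refine (norm_sum_le _ _).trans ?_
  rw [Finset.sum_mul]
  refine Finset.sum_le_sum fun j _ => ?_
  rw [norm_mul, Complex.norm_natCast, mul_comm]
  refine mul_le_mul_of_nonneg_left ?_ (norm_nonneg _)
  exact_mod_cast (hs j).le

theorem sharp_six (G : Cfg) (x : ℂ) (η : Fin 3 → ℂ) (Q : ℕ) (hQ : 0 < Q)
    (hY : ∀ j, Complex.exp (η j - G.a j 0) = G.y j 0)
    (hZ : ∀ j, Complex.exp (x * η j - G.a j 1) = G.y j 1)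
    (hQa : ∀ j i, (Q : ℂ) * G.a j i ∈ GInt) (hQy : ∀ j i, (Q : ℂ) * G.y j i ∈ GInt) : False := by
  have hYs : ∀ s : Fin 3 → ℕ,
      Complex.exp ((∑ j, (s j : ℂ) * η j) - addp G.a s 0) = mulp G.y s 0 := by
    intro s
    have e : (∑ j, (s j : ℂ) * η j) - addp G.a s 0 = ∑ j, (s j : ℂ) * (η j - G.a j 0) := by
      rw [addp, ← Finset.sum_sub_distrib]
      exact Finset.sum_congr rfl fun j _ => by ring
    rw [e, Complex.exp_sum, mulp]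
    exact Finset.prod_congr rfl fun j _ => by rw [Complex.exp_nat_mul, hY]
  have hZs : ∀ s : Fin 3 → ℕ,
      Complex.exp (x * (∑ j, (s j : ℂ) * η j) - addp G.a s 1) = mulp G.y s 1 := by
    intro s
    have e : x * (∑ j, (s j : ℂ) * η j) - addp G.a s 1 =
        ∑ j, (s j : ℂ) * (x * η j - G.a j 1) := by
      rw [addp, Finset.mul_sum, ← Finset.sum_sub_distrib]
      exact Finset.sum_congr rfl fun j _ => by ring
    rw [e, Complex.exp_sum, mulp]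
    exact Finset.prod_congr rfl fun j _ => by rw [Complex.exp_nat_mul, hZ]
  set C : ℝ := 1 + ((∑ j, ‖G.a j 0‖) + (∑ j, ‖G.a j 1‖) + ∑ j, ‖η j‖) with hC
  have hp0 : 0 ≤ ∑ j, ‖G.a j 0‖ := Finset.sum_nonneg fun _ _ => norm_nonneg _
  have hp1 : 0 ≤ ∑ j, ‖G.a j 1‖ := Finset.sum_nonneg fun _ _ => norm_nonneg _
  have hp2 : 0 ≤ ∑ j, ‖η j‖ := Finset.sum_nonneg fun _ _ => norm_nonneg _
  obtain ⟨N₀, hN₀⟩ := exists_auxS x (fun s => addp G.a s 0) (fun s => addp G.a s 1)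
    (fun s => ∑ j, (s j : ℂ) * η j) Q hQ C ‖x‖ (by linarith) le_rfl
    (fun S s hs => (norm_sum_le_of (fun j => G.a j 0) S s hs).trans
      (mul_le_mul_of_nonneg_right (by linarith) (by positivity)))
    (fun S s hs => (norm_sum_le_of (fun j => G.a j 1) S s hs).trans
      (mul_le_mul_of_nonneg_right (by linarith) (by positivity)))
    (fun S s hs => (norm_sum_le_of η S s hs).trans
      (mul_le_mul_of_nonneg_right (by linarith) (by positivity)))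
    (fun s => by
      rw [addp, Finset.mul_sum]
      refine GInt.sum_mem fun j _ => ?_
      rw [mul_left_comm]
      exact GInt.mul_mem (natCast_mem_GInt _) (hQa j 0))
    (fun s => by
      rw [addp, Finset.mul_sum]
      refine GInt.sum_mem fun j _ => ?_
      rw [mul_left_comm]
      exact GInt.mul_mem (natCast_mem_GInt _) (hQa j 1))
    (fun S s hs => by
      rw [hYs]
      exact mulp_mem_GInt G.y 0 (fun j => hQy j 0) S s hs)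
    (fun S s hs => by
      rw [hZs]
      exact mulp_mem_GInt G.y 1 (fun j => hQy j 1) S s hs)
  obtain ⟨N, hN, hN'⟩ : ∃ N, N₀ ≤ N ∧ 2 ^ 16 < N := ⟨N₀ + (2 ^ 16 + 1), by omega, by omega⟩
  obtain ⟨P, hP0, hPbox, hP⟩ := hN₀ N hN
  obtain ⟨m0, m1, m2, m3, m4, m5, m6, m7⟩ := numericZ N hN'
  have hNpos : 0 < N := by omega
  refine hP0 (zero_estimate G (N ^ 34) (N ^ 20) (N ^ 35) (N ^ 15) (by positivity) (by positivity)
    (Nat.pow_le_pow_right hNpos (by norm_num)) (by positivity) (by positivity)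
    m0 m1 m2 m3 m4 m5 m6 m7 P hPbox ?_)
  intro t₁ ht₁ t₂ ht₂ s hs
  have h := hP t₁ ht₁ t₂ ht₂ s hs
  have e1 : (DD 0)^[t₁] ((DD 1)^[t₂] (tau G.a G.y s P)) =
      tau G.a G.y s ((DD 0)^[t₁] ((DD 1)^[t₂] P)) := by
    rw [tau, DD, DD, tr_der_iterate, tr_der_iterate]
  rw [e1, tau, eval_tr]
  rw [hYs, hZs] at h
  have e2 : (Sum.elim (fun i => origin (Fin 2) (Fin 2) (Sum.inl i) + addp G.a s i)
      (fun k => mulp G.y s k * origin (Fin 2) (Fin 2) (Sum.inr k)) : Fin 2 ⊕ Fin 2 → ℂ) =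
      Sum.elim ![addp G.a s 0, addp G.a s 1] ![mulp G.y s 0, mulp G.y s 1] := by
    funext i
    rcases i with i | i
    · fin_cases i <;> simp [origin]
    · fin_cases i <;> simp [origin]
  rw [e2]
  exact h

end SharpSix
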