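import Pool.Agent.SharpSix.An4

/-!
# Arithmetic in number fields
-/

open Matrix

namespace SharpSix

open FiveNum

/-- Liouville's inequality. -/
theorem liouville {K : Type} [Field K] [NumberField K] (φ : K →ₐ[ℚ] ℂ) (α : K) (h0 : α ≠ 0)
    (hint : IsIntegral ℤ α) (B : ℝ) (hσ : ∀ σ : K →ₐ[ℚ] ℂ, ‖σ α‖ ≤ B) :
    1 ≤ ‖φ α‖ * B ^ (Module.finrank ℚ K - 1) := by
  classical
  obtain ⟨z, hz⟩ := IsIntegrallyClosed.isIntegral_iff.1 (Algebra.isIntegral_norm ℚ hint)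
  have hz0 : z ≠ 0 := by
    rintro rfl
    rw [map_zero] at hz
    exact (Algebra.norm_ne_zero_iff.2 h0) hz.symm
  have h1 : (1 : ℝ) ≤ ‖((z : ℤ) : ℂ)‖ := by
    rw [Complex.norm_intCast]
    exact_mod_cast Int.one_le_abs hz0
  have h2 := Algebra.norm_eq_prod_embeddings ℚ ℂ α
  rw [← hz] at h2
  have h3 : ((z : ℤ) : ℂ) = ∏ σ : K →ₐ[ℚ] ℂ, σ α := by
    rw [← h2]
    simp
  rw [h3, norm_prod, ← Finset.mul_prod_erase _ _ (Finset.mem_univ φ)] at h1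
  refine h1.trans (mul_le_mul_of_nonneg_left ?_ (norm_nonneg _))
  have h4 : (Finset.univ.erase φ).card = Module.finrank ℚ K - 1 := by
    rw [Finset.card_erase_of_mem (Finset.mem_univ φ), Finset.card_univ, AlgHom.card]
  rw [← h4, ← Finset.prod_const]
  exact Finset.prod_le_prod (fun _ _ => norm_nonneg _) fun σ _ => hσ σ

section ring

variable {A : Type} [CommRing A] (O : Subring A)

theorem memO_pow_mono {w : A} {Q m n : ℕ} (h : (Q : A) ^ m * w ∈ O) (hmn : m ≤ n) :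
    (Q : A) ^ n * w ∈ O := by
  obtain ⟨e, rfl⟩ := Nat.exists_eq_add_of_le hmn
  have : (Q : A) ^ (m + e) * w = (Q : A) ^ e * ((Q : A) ^ m * w) := by
    rw [pow_add]; ring
  rw [this]
  exact O.mul_mem (O.pow_mem (natCast_mem O Q) e) h

theorem memO_mul {w v : A} {Q m n : ℕ} (h : (Q : A) ^ m * w ∈ O)
    (h' : (Q : A) ^ n * v ∈ O) : (Q : A) ^ (m + n) * (w * v) ∈ O := by
  have : (Q : A) ^ (m + n) * (w * v) = ((Q : A) ^ m * w) * ((Q : A) ^ n * v) := by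
    rw [pow_add]; ring
  rw [this]
  exact O.mul_mem h h'

theorem memO_pow {w : A} {Q m : ℕ} (h : (Q : A) ^ m * w ∈ O) (n : ℕ) :
    (Q : A) ^ (m * n) * w ^ n ∈ O := by
  have : (Q : A) ^ (m * n) * w ^ n = ((Q : A) ^ m * w) ^ n := by
    rw [mul_pow, pow_mul]
  rw [this]
  exact O.pow_mem h n

/-- the polynomials `wpoly` over a ring -/
noncomputable def wA (A : Type) [CommRing A] (i l τ : ℕ) : Polynomial A :=
  (wpoly i l τ).map (Int.castRingHom A)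

theorem wA_complex (i l τ : ℕ) : wA ℂ i l τ = wC i l τ := rfl

theorem map_wA_eval {B : Type} [CommRing B] (f : A →+* B) (i l τ : ℕ) (a : A) :
    f ((wA A i l τ).eval a) = (wA B i l τ).eval (f a) := by
  rw [wA, wA, Polynomial.eval_map, Polynomial.eval_map, Polynomial.hom_eval₂]
  congr 1
  exact RingHom.ext_int _ _

theorem wA_eval_mem {i l τ Q : ℕ} {a : A} (ha : (Q : A) * a ∈ O) :
    (Q : A) ^ i * (wA A i l τ).eval a ∈ O := by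
  have hdeg : (wA A i l τ).natDegree ≤ i :=
    (Polynomial.natDegree_map_le).trans (natDegree_wpoly i l τ)
  rw [Polynomial.eval_eq_sum_range' (n := i + 1) (Nat.lt_succ_of_le hdeg), Finset.mul_sum]
  refine O.sum_mem fun n hn => ?_
  have hn' : n ≤ i := by
    have := Finset.mem_range.1 hn
    omega
  obtain ⟨e, rfl⟩ := Nat.exists_eq_add_of_le hn'
  have hc : (wA A (n + e) l τ).coeff n = (((wpoly (n + e) l τ).coeff n : ℤ) : A) := by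
    simp [wA]
  have : (Q : A) ^ (n + e) * ((wA A (n + e) l τ).coeff n * a ^ n) =
      (((wpoly (n + e) l τ).coeff n : ℤ) : A) * (((Q : A) * a) ^ n * (Q : A) ^ e) := by
    rw [hc, pow_add, mul_pow]; ring
  rw [this]
  exact O.mul_mem (intCast_mem O _)
    (O.mul_mem (O.pow_mem ha n) (O.pow_mem (natCast_mem O Q) e))

theorem det_memO {ι : Type} [Fintype ι] [DecidableEq ι] {M : Matrix ι ι A} {Q m : ℕ}
    (h : ∀ j lam, (Q : A) ^ m * M j lam ∈ O) :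
    (Q : A) ^ (m * Fintype.card ι) * M.det ∈ O := by
  have h1 : (Q : A) ^ (m * Fintype.card ι) * M.det = ((Q : A) ^ m • M).det := by
    rw [Matrix.det_smul, pow_mul]
  rw [h1, Matrix.det_apply']
  refine O.sum_mem fun σ _ => ?_
  refine O.mul_mem (intCast_mem O _) (O.prod_mem fun μ _ => ?_)
  rw [Matrix.smul_apply, smul_eq_mul]
  exact h _ _

end ring

section conj

/-- The matrix over the number field. -/
noncomputable def matK {K : Type} [CommRing K] (D₀ D₁ : ℕ) (t₁ t₂ : LamS D₀ D₁ → ℕ)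
    (a b Y Z : LamS D₀ D₁ → K) : Matrix (LamS D₀ D₁) (LamS D₀ D₁) K :=
  Matrix.of fun j lam => (wA K lam.1.1 lam.2.1 (t₁ j)).eval (a j) *
    (wA K lam.1.2 lam.2.2 (t₂ j)).eval (b j) * (Y j ^ (lam.2.1 : ℕ) * Z j ^ (lam.2.2 : ℕ))

theorem map_det_matK {K L : Type} [CommRing K] [CommRing L] (f : K →+* L) (D₀ D₁ : ℕ)
    (t₁ t₂ : LamS D₀ D₁ → ℕ) (a b Y Z : LamS D₀ D₁ → K) :
    f (matK D₀ D₁ t₁ t₂ a b Y Z).det =
      (matK D₀ D₁ t₁ t₂ (f ∘ a) (f ∘ b) (f ∘ Y) (f ∘ Z)).det := by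
  rw [RingHom.map_det]
  congr 1
  ext j lam
  rw [RingHom.mapMatrix_apply, Matrix.map_apply, matK, matK, Matrix.of_apply, Matrix.of_apply]
  simp only [map_mul, map_pow, map_wA_eval, Function.comp_apply]

theorem norm_matK_le {D₀ D₁ T : ℕ} {t₁ t₂ : LamS D₀ D₁ → ℕ} {a b Y Z : LamS D₀ D₁ → ℂ}
    {H ρ Xb : ℝ} (h1 : ∀ j, t₁ j ≤ T) (h2 : ∀ j, t₂ j ≤ T) (hH : 1 ≤ H) (hρ : 1 ≤ ρ)
    (hXb : 0 ≤ Xb)
    (ha : ∀ j, ‖a j‖ ≤ H) (hb : ∀ j, ‖b j‖ ≤ H) (hY : ∀ j, ‖Y j‖ ≤ Real.exp H)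
    (hZ : ∀ j, ‖Z j‖ ≤ Real.exp H) (j lam : LamS D₀ D₁) :
    ‖matK D₀ D₁ t₁ t₂ a b Y Z j lam‖ ≤ bndS D₀ D₁ T H ρ Xb := by
  have hH0 : 0 ≤ H := by linarith
  have hρ0 : 0 ≤ ρ := by linarith
  have hρH : H ≤ ρ * H := by nlinarith
  have hρH1 : 1 ≤ ρ * H := by linarith
  have hD₀ : 0 < D₀ := lt_of_le_of_lt (Nat.zero_le _) lam.1.1.2
  have hbase : (1 : ℝ) ≤ (D₀ : ℝ) + D₁ := by
    have : (1 : ℝ) ≤ (D₀ : ℝ) := by exact_mod_cast hD₀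
    have : (0 : ℝ) ≤ (D₁ : ℝ) := by positivity
    linarith
  have key : ∀ (i : Fin D₀) (k : Fin D₁) (τ : ℕ) (c : ℂ), τ ≤ T → ‖c‖ ≤ H →
      ‖(wC i k τ).eval c‖ ≤ ((D₀ : ℝ) + D₁) ^ T * (ρ * H) ^ D₀ := by
    intro i k τ c hτ hc
    have hw := norm_wC_le i k τ c (ρ * H) hρH1 (hc.trans hρH)
    have h1 : (((i : ℕ) : ℝ) + (k : ℕ)) ≤ (D₀ : ℝ) + D₁ := by
      have h2 : ((i : ℕ) : ℝ) ≤ D₀ := by exact_mod_cast i.2.le
      have h3 : ((k : ℕ) : ℝ) ≤ D₁ := by exact_mod_cast k.2.le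
      linarith
    have hil : ((((i : ℕ) : ℝ) + (k : ℕ))) ^ τ ≤ ((D₀ : ℝ) + D₁) ^ T :=
      (pow_le_pow_left₀ (by positivity) h1 τ).trans (pow_le_pow_right₀ hbase hτ)
    have hMi : (ρ * H) ^ (i : ℕ) ≤ (ρ * H) ^ D₀ := pow_le_pow_right₀ hρH1 i.2.le
    exact hw.trans (mul_le_mul hil hMi (by positivity) (by positivity))
  have key2 : ∀ (k : Fin D₁) (c : ℂ), ‖c‖ ≤ Real.exp H → ‖c ^ (k : ℕ)‖ ≤ Real.exp (ρ * H * D₁) := by
    intro k c hc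
    rw [norm_pow]
    calc ‖c‖ ^ (k : ℕ) ≤ (Real.exp H) ^ (k : ℕ) := pow_le_pow_left₀ (norm_nonneg _) hc _
      _ = Real.exp ((k : ℕ) * H) := by rw [Real.exp_nat_mul]
      _ ≤ Real.exp (ρ * H * D₁) := by
          refine Real.exp_le_exp.2 ?_
          have h3 : ((k : ℕ) : ℝ) ≤ D₁ := by exact_mod_cast k.2.le
          calc ((k : ℕ) : ℝ) * H ≤ D₁ * (ρ * H) := mul_le_mul h3 hρH hH0 (by positivity)
            _ = ρ * H * D₁ := by ring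
  have hρT : (1 : ℝ) ≤ ρ ^ T := one_le_pow₀ hρ
  have hlast : (1 : ℝ) ≤ Real.exp (ρ * H * D₁ * (1 + Xb)) := Real.one_le_exp (by positivity)
  rw [matK, Matrix.of_apply, norm_mul, norm_mul, norm_mul, bndS, sq]
  have k1 := key lam.1.1 lam.2.1 (t₁ j) (a j) (h1 j) (ha j)
  have k2 := key lam.1.2 lam.2.2 (t₂ j) (b j) (h2 j) (hb j)
  have k3 := key2 lam.2.1 (Y j) (hY j)
  have k4 := key2 lam.2.2 (Z j) (hZ j)
  rw [wA_complex, wA_complex]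
  set W := ((D₀ : ℝ) + D₁) ^ T * (ρ * H) ^ D₀ with hW
  set E := Real.exp (ρ * H * D₁) with hE
  have hW0 : 0 ≤ W := by positivity
  have hE0 : 0 ≤ E := by positivity
  calc ‖(wC lam.1.1 lam.2.1 (t₁ j)).eval (a j)‖ * ‖(wC lam.1.2 lam.2.2 (t₂ j)).eval (b j)‖ *
        (‖Y j ^ (lam.2.1 : ℕ)‖ * ‖Z j ^ (lam.2.2 : ℕ)‖)
      ≤ W * W * (E * E) := by gcongr
    _ = (1 * (W * E)) * (1 * (W * E)) * 1 := by ring
    _ ≤ (ρ ^ T * (W * E)) * (ρ ^ T * (W * E)) * Real.exp (ρ * H * D₁ * (1 + Xb)) := by gcongr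

/-- The interpolation determinant vanishes (number field version). -/
theorem det_matK_eq_zero {K : Type} [Field K] [NumberField K] (φ : K →ₐ[ℚ] ℂ) {x : ℂ}
    {D₀ D₁ T δ κ Q : ℕ} {t₁ t₂ : LamS D₀ D₁ → ℕ} {a b Y Z : LamS D₀ D₁ → K}
    {y : LamS D₀ D₁ → ℂ}
    {H ρ Xb : ℝ} (h1 : ∀ j, t₁ j ≤ T) (h2 : ∀ j, t₂ j ≤ T) (hH : 1 ≤ H) (hρ : 1 ≤ ρ)
    (ha : ∀ j, ∀ σ : K →ₐ[ℚ] ℂ, ‖σ (a j)‖ ≤ H) (hb : ∀ j, ∀ σ : K →ₐ[ℚ] ℂ, ‖σ (b j)‖ ≤ H)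
    (hY : ∀ j, ∀ σ : K →ₐ[ℚ] ℂ, ‖σ (Y j)‖ ≤ Real.exp H)
    (hZ : ∀ j, ∀ σ : K →ₐ[ℚ] ℂ, ‖σ (Z j)‖ ≤ Real.exp H)
    (hy : ∀ j, ‖y j‖ ≤ H) (hx : ‖x‖ ≤ Xb)
    (hYe : ∀ j, Complex.exp (y j - φ (a j)) = φ (Y j))
    (hZe : ∀ j, Complex.exp (x * y j - φ (b j)) = φ (Z j))
    (hQa : ∀ j, IsIntegral ℤ ((Q : K) * a j)) (hQb : ∀ j, IsIntegral ℤ ((Q : K) * b j))
    (hQY : ∀ j, IsIntegral ℤ ((Q : K) ^ κ * Y j))
    (hQZ : ∀ j, IsIntegral ℤ ((Q : K) ^ κ * Z j)) (hQ : 0 < Q)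
    (hnum : ((Q : ℝ) ^ ((2 * D₀ + 2 * κ * D₁) * (D₀ * D₀ * (D₁ * D₁))) *
      ((D₀ * D₀ * (D₁ * D₁)).factorial *
        (bndS D₀ D₁ T H ρ Xb) ^ (D₀ * D₀ * (D₁ * D₁)))) ^ (Module.finrank ℚ K) <
        ρ ^ (δ * (D₀ * D₀ * (D₁ * D₁) - δ ^ 3))) :
    (matK D₀ D₁ t₁ t₂ a b Y Z).det = 0 := by
  by_contra hne
  set L := D₀ * D₀ * (D₁ * D₁) with hL
  set M := 2 * D₀ + 2 * κ * D₁ with hM
  set U := bndS D₀ D₁ T H ρ Xb with hU
  have hXb : 0 ≤ Xb := (norm_nonneg x).trans hx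
  have hρ0 : 0 < ρ := by linarith
  have hH0 : 0 ≤ H := by linarith
  have hU0 : 0 ≤ U := by
    rw [hU]
    unfold bndS
    positivity
  have hQr : (1 : ℝ) ≤ (Q : ℝ) := by exact_mod_cast hQ
  -- integrality
  let O : Subring K := (integralClosure ℤ K).toSubring
  have hmemO : ∀ z : K, z ∈ O ↔ IsIntegral ℤ z := fun z => Iff.rfl
  have hint : (Q : K) ^ (M * Fintype.card (LamS D₀ D₁)) * (matK D₀ D₁ t₁ t₂ a b Y Z).det ∈ O :=
    det_memO O fun j lam => by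
      rw [matK, Matrix.of_apply]
      have e1 := memO_mul O (wA_eval_mem O (i := lam.1.1) (l := lam.2.1) (τ := t₁ j)
        ((hmemO _).2 (hQa j)))
        (wA_eval_mem O (i := lam.1.2) (l := lam.2.2) (τ := t₂ j) ((hmemO _).2 (hQb j)))
      have e2 := memO_mul O (memO_pow O ((hmemO _).2 (hQY j)) (lam.2.1 : ℕ))
        (memO_pow O ((hmemO _).2 (hQZ j)) (lam.2.2 : ℕ))
      refine memO_pow_mono O (memO_mul O e1 e2) ?_
      have h1 : κ * (lam.2.1 : ℕ) ≤ κ * D₁ := Nat.mul_le_mul_left _ lam.2.1.2.le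
      have h2 : κ * (lam.2.2 : ℕ) ≤ κ * D₁ := Nat.mul_le_mul_left _ lam.2.2.2.le
      have h3 : (lam.1.1 : ℕ) < D₀ := lam.1.1.2
      have h4 : (lam.1.2 : ℕ) < D₀ := lam.1.2.2
      have : 2 * κ * D₁ = κ * D₁ + κ * D₁ := by ring
      omega
  rw [card_LamS, ← hL] at hint
  have hQ0 : (Q : K) ≠ 0 := by exact_mod_cast hQ.ne'
  have hα0 : (Q : K) ^ (M * L) * (matK D₀ D₁ t₁ t₂ a b Y Z).det ≠ 0 :=
    mul_ne_zero (pow_ne_zero _ hQ0) hne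
  -- bound for the conjugates
  have hconj : ∀ σ : K →ₐ[ℚ] ℂ,
      ‖σ ((Q : K) ^ (M * L) * (matK D₀ D₁ t₁ t₂ a b Y Z).det)‖ ≤
        (Q : ℝ) ^ (M * L) * (L.factorial * U ^ L) := by
    intro σ
    rw [map_mul, map_pow, map_natCast, norm_mul, norm_pow, Complex.norm_natCast]
    refine mul_le_mul_of_nonneg_left ?_ (by positivity)
    have e := map_det_matK (σ : K →+* ℂ) D₀ D₁ t₁ t₂ a b Y Z
    rw [show σ (matK D₀ D₁ t₁ t₂ a b Y Z).det =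
      (σ : K →+* ℂ) (matK D₀ D₁ t₁ t₂ a b Y Z).det from rfl, e]
    have h := Matrix.det_le (A := matK D₀ D₁ t₁ t₂ ((σ : K →+* ℂ) ∘ a) ((σ : K →+* ℂ) ∘ b)
      ((σ : K →+* ℂ) ∘ Y) ((σ : K →+* ℂ) ∘ Z))
      (abv := NormedField.toAbsoluteValue ℂ) (x := U) (by
        intro j lam
        exact norm_matK_le h1 h2 hH hρ hXb (fun j => ha j σ) (fun j => hb j σ)
          (fun j => hY j σ) (fun j => hZ j σ) j lam)
    rw [card_LamS, nsmul_eq_mul] at h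
    exact h
  have hliou := liouville φ _ hα0 hint _ hconj
  -- analytic bound
  have k1 := norm_det_matS_le (δ := δ) (x := x) (y := y) (a := fun j => φ (a j))
    (b := fun j => φ (b j)) h1 h2 hH hρ (fun j => ha j φ) (fun j => hb j φ) hy hx
  have e3 : φ (matK D₀ D₁ t₁ t₂ a b Y Z).det =
      (matS x D₀ D₁ t₁ t₂ (fun j => φ (a j)) (fun j => φ (b j)) y 1).det := by
    have e := map_det_matK (φ : K →+* ℂ) D₀ D₁ t₁ t₂ a b Y Z
    rw [show φ (matK D₀ D₁ t₁ t₂ a b Y Z).det =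
      (φ : K →+* ℂ) (matK D₀ D₁ t₁ t₂ a b Y Z).det from rfl, e]
    congr 1
    ext j lam
    rw [matS_one, matK, Matrix.of_apply, hYe, hZe]
    rfl
  rw [map_mul, map_pow, map_natCast, norm_mul, norm_pow, Complex.norm_natCast, e3] at hliou
  rw [← hL, ← hU] at k1
  set V := (Q : ℝ) ^ (M * L) * (L.factorial * U ^ L) with hV
  have hV0 : 0 ≤ V := by positivity
  set R := ρ ^ (δ * (L - δ ^ 3)) with hR
  have hR0 : 0 < R := by positivity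
  have hn : 0 < Module.finrank ℚ K := Module.finrank_pos
  have k2 : 1 ≤ V / R * V ^ (Module.finrank ℚ K - 1) := by
    refine hliou.trans (mul_le_mul_of_nonneg_right ?_ (by positivity))
    calc (Q : ℝ) ^ (M * L) *
          ‖(matS x D₀ D₁ t₁ t₂ (fun j => φ (a j)) (fun j => φ (b j)) y 1).det‖
        ≤ (Q : ℝ) ^ (M * L) * ((L.factorial * U ^ L) / R) :=
          mul_le_mul_of_nonneg_left k1 (by positivity)
      _ = V / R := by rw [hV]; ring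
  have k3 : V / R * V ^ (Module.finrank ℚ K - 1) = V ^ (Module.finrank ℚ K) / R := by
    rw [div_mul_eq_mul_div, ← pow_succ']
    congr 2
    omega
  rw [k3, le_div_iff₀ hR0, one_mul] at k2
  linarith

end conj

end SharpSix
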