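import Pool.Agent.SharpSix.An3

/-!
# The numerical inequality, number field version
-/

open Filter Topology

namespace SharpSix

open FiveNum

theorem numericK (n : ℕ) (hn : 0 < n) (Q : ℕ) (hQ : 0 < Q) (C Xb : ℝ) (hC : 1 ≤ C)
    (hXb : 0 ≤ Xb) :
    ∃ N₀ : ℕ, 2 ≤ N₀ ∧ ∀ N ≥ N₀,
      ((Q : ℝ) ^ ((2 * N ^ 34 + 2 * (12 * N ^ 15) * N ^ 20) *
        (N ^ 34 * N ^ 34 * (N ^ 20 * N ^ 20))) *
      ((N ^ 34 * N ^ 34 * (N ^ 20 * N ^ 20)).factorial *
        (bndS (N ^ 34) (N ^ 20) (4 * N ^ 35) (C * (4 * (N : ℝ) ^ 15)) (Real.exp 1) Xb) ^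
          (N ^ 34 * N ^ 34 * (N ^ 20 * N ^ 20)))) ^ n <
        (Real.exp 1) ^ ((N ^ 36 / 2) * (N ^ 34 * N ^ 34 * (N ^ 20 * N ^ 20) -
          (N ^ 36 / 2) ^ 3)) := by
  set K : ℝ := 26 * Real.log Q + 2 * (4 + Real.log (4 * Real.exp 1 * C) + 4 * Real.exp 1 * C) +
    4 * Real.exp 1 * C * (1 + Xb) with hK
  obtain ⟨N₀, hN₀2, hN₀⟩ := eventually_log_small (n * K) (n * 500) (by positivity)
  refine ⟨N₀, hN₀2, fun N hN => ?_⟩
  have hkey := hN₀ N hN
  have hN2 : 2 ≤ N := le_trans hN₀2 hN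
  have hQr : (1 : ℝ) ≤ Q := by exact_mod_cast hQ
  have hlogQ : 0 ≤ Real.log Q := Real.log_nonneg hQr
  set x : ℝ := (N : ℝ) with hx
  have hx2 : (2 : ℝ) ≤ x := by
    rw [hx]
    exact_mod_cast hN2
  have hx1 : (1 : ℝ) ≤ x := by linarith
  have hx0 : (0 : ℝ) < x := by linarith
  set lg := Real.log x with hlg
  have hlg0 : 0 ≤ lg := Real.log_nonneg hx1
  have hxexp : ∀ n : ℕ, x ^ n = Real.exp (n * lg) := by
    intro n
    rw [hlg, Real.exp_nat_mul, Real.exp_log hx0]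
  have he1 : (1 : ℝ) ≤ Real.exp 1 := by
    have := Real.add_one_le_exp (1 : ℝ)
    linarith
  have heC : (1 : ℝ) ≤ Real.exp 1 * C := by nlinarith
  have heC4 : (1 : ℝ) ≤ 4 * Real.exp 1 * C := by nlinarith
  have hlogeC : 0 ≤ Real.log (4 * Real.exp 1 * C) := Real.log_nonneg heC4
  have h3435 : x ^ 34 ≤ x ^ 35 := pow_le_pow_right₀ hx1 (by norm_num)
  have hx35 : 1 ≤ x ^ 35 := one_le_pow₀ hx1
  set U := bndS (N ^ 34) (N ^ 20) (4 * N ^ 35) (C * (4 * x ^ 15)) (Real.exp 1) Xb with hU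
  have hU0 : 0 ≤ U := by
    rw [hU]
    unfold bndS
    positivity
  have hUle : U ≤ Real.exp (x ^ 35 * (2 * (4 + 140 * lg + (Real.log (4 * Real.exp 1 * C) + 15 * lg) +
      4 * Real.exp 1 * C) + 4 * Real.exp 1 * C * (1 + Xb))) := by
    have t1 : (Real.exp 1) ^ (4 * N ^ 35) = Real.exp (x ^ 35 * 4) := by
      rw [← Real.exp_nat_mul]
      push_cast
      congr 1
      ring
    have t2 : (((N ^ 34 : ℕ) : ℝ) + ((N ^ 20 : ℕ) : ℝ)) ^ (4 * N ^ 35) ≤
        Real.exp (x ^ 35 * (140 * lg)) := by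
      have h1 : ((N ^ 34 : ℕ) : ℝ) + ((N ^ 20 : ℕ) : ℝ) ≤ x ^ 35 := by
        push_cast
        have h2 : x ^ 20 ≤ x ^ 34 := pow_le_pow_right₀ hx1 (by norm_num)
        have h3 : x ^ 35 = x * x ^ 34 := by ring
        rw [h3]
        nlinarith [pow_pos hx0 34]
      have h2 : x ^ 35 = Real.exp (35 * lg) := by exact_mod_cast hxexp 35
      calc (((N ^ 34 : ℕ) : ℝ) + ((N ^ 20 : ℕ) : ℝ)) ^ (4 * N ^ 35) ≤ (x ^ 35) ^ (4 * N ^ 35) :=
            pow_le_pow_left₀ (by positivity) h1 _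
        _ = (Real.exp (35 * lg)) ^ (4 * N ^ 35) := by rw [h2]
        _ = Real.exp (x ^ 35 * (140 * lg)) := by
            rw [← Real.exp_nat_mul]
            push_cast
            congr 1
            ring
    have t3 : (Real.exp 1 * (C * (4 * x ^ 15))) ^ (N ^ 34) ≤
        Real.exp (x ^ 35 * (Real.log (4 * Real.exp 1 * C) + 15 * lg)) := by
      have h1 : Real.exp 1 * (C * (4 * x ^ 15)) =
          Real.exp (Real.log (4 * Real.exp 1 * C) + 15 * lg) := by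
        rw [Real.exp_add, Real.exp_log (by linarith)]
        have h2 : x ^ 15 = Real.exp (15 * lg) := by exact_mod_cast hxexp 15
        rw [← h2]; ring
      rw [h1, ← Real.exp_nat_mul]
      refine Real.exp_le_exp.2 ?_
      push_cast
      exact mul_le_mul_of_nonneg_right h3435 (by positivity)
    have t4 : Real.exp 1 * (C * (4 * x ^ 15)) * ((N ^ 20 : ℕ) : ℝ) =
        x ^ 35 * (4 * Real.exp 1 * C) := by
      push_cast
      ring
    rw [hU]
    unfold bndS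
    rw [t4, t1]
    calc (Real.exp (x ^ 35 * 4) * ((((N ^ 34 : ℕ) : ℝ) + ((N ^ 20 : ℕ) : ℝ)) ^ (4 * N ^ 35) *
          (Real.exp 1 * (C * (4 * x ^ 15))) ^ (N ^ 34) *
          Real.exp (x ^ 35 * (4 * Real.exp 1 * C)))) ^ 2 *
          Real.exp (x ^ 35 * (4 * Real.exp 1 * C) * (1 + Xb))
        ≤ (Real.exp (x ^ 35 * 4) * (Real.exp (x ^ 35 * (140 * lg)) *
          Real.exp (x ^ 35 * (Real.log (4 * Real.exp 1 * C) + 15 * lg)) *
          Real.exp (x ^ 35 * (4 * Real.exp 1 * C)))) ^ 2 *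
          Real.exp (x ^ 35 * (4 * Real.exp 1 * C) * (1 + Xb)) := by
          gcongr
      _ = _ := by
          rw [← Real.exp_add, ← Real.exp_add, ← Real.exp_add, ← Real.exp_nat_mul,
            ← Real.exp_add]
          congr 1
          push_cast
          ring
  have hQle : (Q : ℝ) ^ (2 * N ^ 34 + 2 * (12 * N ^ 15) * N ^ 20) ≤
      Real.exp (x ^ 35 * (26 * Real.log Q)) := by
    have hQe : (Q : ℝ) = Real.exp (Real.log Q) := (Real.exp_log (by linarith)).symm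
    calc (Q : ℝ) ^ (2 * N ^ 34 + 2 * (12 * N ^ 15) * N ^ 20)
        = (Real.exp (Real.log Q)) ^ (2 * N ^ 34 + 2 * (12 * N ^ 15) * N ^ 20) := by rw [← hQe]
      _ = Real.exp (((2 * N ^ 34 + 2 * (12 * N ^ 15) * N ^ 20 : ℕ) : ℝ) * Real.log Q) := by
          rw [← Real.exp_nat_mul]
      _ ≤ Real.exp (x ^ 35 * (26 * Real.log Q)) := by
          refine Real.exp_le_exp.2 ?_
          push_cast
          have : 2 * x ^ 34 + 2 * (12 * x ^ 15) * x ^ 20 ≤ x ^ 35 * 26 := by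
            have : 2 * (12 * x ^ 15) * x ^ 20 = 24 * x ^ 35 := by ring
            linarith
          calc (2 * x ^ 34 + 2 * (12 * x ^ 15) * x ^ 20) * Real.log Q
              ≤ (x ^ 35 * 26) * Real.log Q := mul_le_mul_of_nonneg_right this hlogQ
            _ = _ := by ring
  set L := N ^ 34 * N ^ 34 * (N ^ 20 * N ^ 20) with hL
  have hLx : (L : ℝ) = x ^ 108 := by
    rw [hL]
    push_cast
    ring
  have hLle : (L : ℝ) ≤ Real.exp (x ^ 35 * (108 * lg)) := by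
    rw [hLx]
    have h2 : x ^ 108 = Real.exp (108 * lg) := by exact_mod_cast hxexp 108
    rw [h2]
    refine Real.exp_le_exp.2 ?_
    nlinarith
  have hbase0 : (Q : ℝ) ^ (2 * N ^ 34 + 2 * (12 * N ^ 15) * N ^ 20) * ((L : ℝ) * U) ≤
      Real.exp (x ^ 35 * (K + 418 * lg)) := by
    calc (Q : ℝ) ^ (2 * N ^ 34 + 2 * (12 * N ^ 15) * N ^ 20) * ((L : ℝ) * U)
        ≤ Real.exp (x ^ 35 * (26 * Real.log Q)) * (Real.exp (x ^ 35 * (108 * lg)) *
          Real.exp (x ^ 35 * (2 * (4 + 140 * lg + (Real.log (4 * Real.exp 1 * C) + 15 * lg) +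
      4 * Real.exp 1 * C) + 4 * Real.exp 1 * C * (1 + Xb)))) := by
          refine mul_le_mul hQle (mul_le_mul hLle hUle hU0 (by positivity)) (by positivity)
            (by positivity)
      _ = Real.exp (x ^ 35 * (K + 418 * lg)) := by
          rw [← Real.exp_add, ← Real.exp_add]
          congr 1
          rw [hK]
          ring
  have hbase : ((Q : ℝ) ^ (2 * N ^ 34 + 2 * (12 * N ^ 15) * N ^ 20) * ((L : ℝ) * U)) ^ n <
      Real.exp (x ^ 36 / 4) := by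
    calc ((Q : ℝ) ^ (2 * N ^ 34 + 2 * (12 * N ^ 15) * N ^ 20) * ((L : ℝ) * U)) ^ n
        ≤ (Real.exp (x ^ 35 * (K + 418 * lg))) ^ n :=
          pow_le_pow_left₀ (by positivity) hbase0 n
      _ = Real.exp (n * (x ^ 35 * (K + 418 * lg))) := by rw [Real.exp_nat_mul]
      _ < Real.exp (x ^ 36 / 4) := by
          refine Real.exp_lt_exp.2 ?_
          have h1 : x ^ 36 / 4 = x ^ 35 * (x / 4) := by ring
          have h2 : (n : ℝ) * (x ^ 35 * (K + 418 * lg)) = x ^ 35 * (n * K + n * 418 * lg) := by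
            ring
          rw [h1, h2]
          refine mul_lt_mul_of_pos_left ?_ (by positivity)
          have h3 : (n : ℝ) * 418 * lg ≤ n * 500 * lg := by
            have : (0 : ℝ) ≤ n := by positivity
            nlinarith [mul_nonneg this hlg0]
          linarith
  set d := N ^ 36 / 2 with hd
  have hL36 : L = (N ^ 36) ^ 3 := by
    rw [hL]; ring
  have hdle : 2 * d ≤ N ^ 36 := by omega
  have hdge : N ^ 36 ≤ 2 * d + 1 := by omega
  have h8 : 8 * d ^ 3 ≤ L := by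
    rw [hL36]
    calc 8 * d ^ 3 = (2 * d) ^ 3 := by ring
      _ ≤ (N ^ 36) ^ 3 := Nat.pow_le_pow_left hdle 3
  have hdd : d ^ 3 ≤ L := by omega
  have hexp : (x ^ 36 / 4) * L ≤ ((d * (L - d ^ 3) : ℕ) : ℝ) := by
    rw [Nat.cast_mul d, Nat.cast_sub hdd]
    have h5 : (8 : ℝ) * ((d ^ 3 : ℕ) : ℝ) ≤ (L : ℝ) := by exact_mod_cast h8
    have h6 : x ^ 36 ≤ 2 * (d : ℝ) + 1 := by
      have : ((N ^ 36 : ℕ) : ℝ) ≤ ((2 * d + 1 : ℕ) : ℝ) := by exact_mod_cast hdge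
      push_cast at this
      exact this
    have h7 : (4 : ℝ) ≤ x ^ 36 := by
      have : (2 : ℝ) ^ 36 ≤ x ^ 36 := pow_le_pow_left₀ (by norm_num) hx2 36
      norm_num at this
      linarith
    have h8 : (3 / 4 : ℝ) * L ≤ (L : ℝ) - ((d ^ 3 : ℕ) : ℝ) := by
      have : (0 : ℝ) ≤ (L : ℝ) := by positivity
      linarith
    have h9 : (0 : ℝ) ≤ (d : ℝ) := by positivity
    have h10 : (0 : ℝ) ≤ (L : ℝ) := by positivity
    calc (x ^ 36 / 4) * L ≤ (d * (3 / 4)) * L := by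
          refine mul_le_mul_of_nonneg_right ?_ h10
          linarith
      _ = d * ((3 / 4 : ℝ) * L) := by ring
      _ ≤ d * ((L : ℝ) - ((d ^ 3 : ℕ) : ℝ)) := mul_le_mul_of_nonneg_left h8 h9
  have hLpos : L ≠ 0 := by
    rw [hL]
    positivity
  have hfac : ((L.factorial : ℕ) : ℝ) ≤ (L : ℝ) ^ L := by
    exact_mod_cast Nat.factorial_le_pow L
  have hfirst : (Q : ℝ) ^ ((2 * N ^ 34 + 2 * (12 * N ^ 15) * N ^ 20) * L) *
      ((L.factorial : ℝ) * U ^ L) ≤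
      ((Q : ℝ) ^ (2 * N ^ 34 + 2 * (12 * N ^ 15) * N ^ 20) * ((L : ℝ) * U)) ^ L := by
    calc (Q : ℝ) ^ ((2 * N ^ 34 + 2 * (12 * N ^ 15) * N ^ 20) * L) * ((L.factorial : ℝ) * U ^ L)
        ≤ ((Q : ℝ) ^ (2 * N ^ 34 + 2 * (12 * N ^ 15) * N ^ 20)) ^ L * ((L : ℝ) ^ L * U ^ L) := by
          rw [pow_mul]
          gcongr
      _ = _ := by simp only [mul_pow]
  calc ((Q : ℝ) ^ ((2 * N ^ 34 + 2 * (12 * N ^ 15) * N ^ 20) * L) *
        ((L.factorial : ℝ) * U ^ L)) ^ n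
      ≤ (((Q : ℝ) ^ (2 * N ^ 34 + 2 * (12 * N ^ 15) * N ^ 20) * ((L : ℝ) * U)) ^ L) ^ n :=
        pow_le_pow_left₀ (by positivity) hfirst n
    _ = (((Q : ℝ) ^ (2 * N ^ 34 + 2 * (12 * N ^ 15) * N ^ 20) * ((L : ℝ) * U)) ^ n) ^ L := by
        exact pow_right_comm _ _ _
    _ < (Real.exp (x ^ 36 / 4)) ^ L := pow_lt_pow_left₀ hbase (by positivity) hLpos
    _ = Real.exp ((x ^ 36 / 4) * L) := by
        rw [← Real.exp_nat_mul, mul_comm]
    _ ≤ Real.exp ((d * (L - d ^ 3) : ℕ) : ℝ) := Real.exp_le_exp.2 hexp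
    _ = (Real.exp 1) ^ (d * (L - d ^ 3)) := by
        rw [← Real.exp_nat_mul, mul_one]

end SharpSix
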