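import Pool.Agent.SharpSix.Kn1
import Pool.Agent.SharpSix.Kn2
import Pool.Agent.SharpSix.ZMain
import Pool.Agent.SharpSix.An5

/-!
# The sharp six exponentials theorem for a configuration over a number field
-/

open Matrix MvPolynomial

namespace SharpSix

open FiveNum

/-- Existence of the auxiliary polynomial (number field version). -/
theorem exists_auxK {K : Type} [Field K] [NumberField K] (φ : K →ₐ[ℚ] ℂ) (x : ℂ)
    (a b Y Z : (Fin 3 → ℕ) → K) (y : (Fin 3 → ℕ) → ℂ) (Q : ℕ) (hQ : 0 < Q) (C Xb : ℝ)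
    (hC : 1 ≤ C) (hx : ‖x‖ ≤ Xb)
    (ha : ∀ (S : ℕ) (s : Fin 3 → ℕ), (∀ j, s j < S) → ∀ σ : K →ₐ[ℚ] ℂ, ‖σ (a s)‖ ≤ C * S)
    (hb : ∀ (S : ℕ) (s : Fin 3 → ℕ), (∀ j, s j < S) → ∀ σ : K →ₐ[ℚ] ℂ, ‖σ (b s)‖ ≤ C * S)
    (hY : ∀ (S : ℕ) (s : Fin 3 → ℕ), (∀ j, s j < S) → ∀ σ : K →ₐ[ℚ] ℂ,
      ‖σ (Y s)‖ ≤ Real.exp (C * S))
    (hZ : ∀ (S : ℕ) (s : Fin 3 → ℕ), (∀ j, s j < S) → ∀ σ : K →ₐ[ℚ] ℂ,
      ‖σ (Z s)‖ ≤ Real.exp (C * S))
    (hy : ∀ (S : ℕ) (s : Fin 3 → ℕ), (∀ j, s j < S) → ‖y s‖ ≤ C * S)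
    (hYe : ∀ s, Complex.exp (y s - φ (a s)) = φ (Y s))
    (hZe : ∀ s, Complex.exp (x * y s - φ (b s)) = φ (Z s))
    (hQa : ∀ s, IsIntegral ℤ ((Q : K) * a s)) (hQb : ∀ s, IsIntegral ℤ ((Q : K) * b s))
    (hQY : ∀ (S : ℕ) (s : Fin 3 → ℕ), (∀ j, s j < S) → IsIntegral ℤ ((Q : K) ^ (3 * S) * Y s))
    (hQZ : ∀ (S : ℕ) (s : Fin 3 → ℕ), (∀ j, s j < S) → IsIntegral ℤ ((Q : K) ^ (3 * S) * Z s)) :
    ∃ N₀ : ℕ, ∀ N ≥ N₀, ∃ P : R4, P ≠ 0 ∧ P ∈ box (dd (N ^ 34) (N ^ 20)) ∧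
      ∀ t₁ < 4 * N ^ 35, ∀ t₂ < 4 * N ^ 35, ∀ s : Fin 3 → ℕ, (∀ j, s j < 4 * N ^ 15) →
        eval (Sum.elim ![φ (a s), φ (b s)] ![φ (Y s), φ (Z s)])
          ((DD 0)^[t₁] ((DD 1)^[t₂] P)) = 0 := by
  have hXb : 0 ≤ Xb := (norm_nonneg _).trans hx
  obtain ⟨N₀, hN₀2, hN₀⟩ := numericK (Module.finrank ℚ K) Module.finrank_pos Q hQ C Xb hC hXb
  refine ⟨N₀, fun N hN => ?_⟩
  have hnum := hN₀ N hN
  have hN2 : 2 ≤ N := le_trans hN₀2 hN
  have hN0 : 0 < N := by omega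
  -- the matrix
  let J := (Fin 3 → Fin (4 * N ^ 15)) × (Fin (4 * N ^ 35) × Fin (4 * N ^ 35))
  let pt : J → (Fin 3 → ℕ) := fun j i => (j.1 i : ℕ)
  have hpt : ∀ j i, pt j i < 4 * N ^ 15 := fun j i => (j.1 i).2
  let M : Matrix J (LamS (N ^ 34) (N ^ 20)) ℂ := Matrix.of fun j lam =>
    (wC lam.1.1 lam.2.1 (j.2.1 : ℕ)).eval (φ (a (pt j))) *
      (wC lam.1.2 lam.2.2 (j.2.2 : ℕ)).eval (φ (b (pt j))) *
        (φ (Y (pt j)) ^ (lam.2.1 : ℕ) * φ (Z (pt j)) ^ (lam.2.2 : ℕ))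
  have hCS : ((4 * N ^ 15 : ℕ) : ℝ) = 4 * (N : ℝ) ^ 15 := by push_cast; rfl
  have hN15 : (1 : ℝ) ≤ 4 * (N : ℝ) ^ 15 := by
    have h1 : (1 : ℝ) ≤ (N : ℝ) := by exact_mod_cast hN0
    have h2 : (1 : ℝ) ≤ (N : ℝ) ^ 15 := one_le_pow₀ h1
    linarith
  have e12 : 3 * (4 * N ^ 15) = 12 * N ^ 15 := by ring
  have hdet : ∀ f : LamS (N ^ 34) (N ^ 20) → J, (M.submatrix f id).det = 0 := by
    intro f
    have h := det_matK_eq_zero φ (x := x) (D₀ := N ^ 34) (D₁ := N ^ 20) (T := 4 * N ^ 35)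
      (δ := N ^ 36 / 2) (κ := 12 * N ^ 15) (Q := Q) (t₁ := fun lam => ((f lam).2.1 : ℕ))
      (t₂ := fun lam => ((f lam).2.2 : ℕ))
      (a := fun lam => a (pt (f lam))) (b := fun lam => b (pt (f lam)))
      (Y := fun lam => Y (pt (f lam))) (Z := fun lam => Z (pt (f lam)))
      (y := fun lam => y (pt (f lam)))
      (H := C * (4 * (N : ℝ) ^ 15)) (ρ := Real.exp 1) (Xb := Xb)
      (fun lam => (f lam).2.1.2.le) (fun lam => (f lam).2.2.2.le) (by nlinarith) (by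
        have := Real.add_one_le_exp (1 : ℝ)
        linarith)
      (fun lam => by rw [← hCS]; exact ha _ _ (hpt _))
      (fun lam => by rw [← hCS]; exact hb _ _ (hpt _))
      (fun lam => by rw [← hCS]; exact hY _ _ (hpt _))
      (fun lam => by rw [← hCS]; exact hZ _ _ (hpt _))
      (fun lam => by rw [← hCS]; exact hy _ _ (hpt _))
      hx (fun lam => hYe _) (fun lam => hZe _) (fun lam => hQa _) (fun lam => hQb _)
      (fun lam => by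
        have h := hQY (4 * N ^ 15) _ (hpt (f lam))
        rwa [e12] at h)
      (fun lam => by
        have h := hQZ (4 * N ^ 15) _ (hpt (f lam))
        rwa [e12] at h) hQ hnum
    have h' := congrArg (φ : K →+* ℂ) h
    rw [map_det_matK, map_zero] at h'
    exact h'
  obtain ⟨v, hv0, hv⟩ := exists_kernel M hdet
  let P : R4 := ∑ lam : LamS (N ^ 34) (N ^ 20), monomial (expoS lam) (v lam)
  have hcoeff : ∀ lam, P.coeff (expoS lam) = v lam := by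
    intro lam
    simp only [P, coeff_sum, coeff_monomial]
    rw [Finset.sum_eq_single lam]
    · simp
    · intro b _ hb
      rw [if_neg]
      intro h
      exact hb (expoS_injective h)
    · intro h
      exact absurd (Finset.mem_univ _) h
  refine ⟨P, ?_, ?_, ?_⟩
  · intro h0
    apply hv0
    funext lam
    rw [← hcoeff lam, h0]
    simp
  · refine Submodule.sum_mem _ fun lam _ => monomial_mem_box (fun i => ?_) _
    rw [expoS_apply]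
    rcases i with i | i
    · fin_cases i
      · exact lam.1.1.2
      · exact lam.1.2.2
    · fin_cases i
      · exact lam.2.1.2
      · exact lam.2.2.2
  · intro t₁ ht₁ t₂ ht₂ s hs
    have h := hv (fun j => ⟨s j, hs j⟩, ⟨t₁, ht₁⟩, ⟨t₂, ht₂⟩)
    have hlin : (DD 0)^[t₁] ((DD 1)^[t₂] P) =
        ∑ lam : LamS (N ^ 34) (N ^ 20), v lam •
          (DD 0)^[t₁] ((DD 1)^[t₂]
            (((X (Sum.inl 0) : R4) ^ (lam.1.1 : ℕ) * X (Sum.inr 0) ^ (lam.2.1 : ℕ)) *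
              (X (Sum.inl 1) ^ (lam.1.2 : ℕ) * X (Sum.inr 1) ^ (lam.2.2 : ℕ)))) := by
      have e : ∀ (i : Fin 2) (t : ℕ) (q : R4), (DD i)^[t] q =
          ((DD i : R4 →ₗ[ℂ] R4) ^ t) q := by
        intro i t q
        rw [Module.End.pow_apply]
        rfl
      simp only [e, P, map_sum, monomial_expoS, map_smul]
    rw [hlin, map_sum]
    rw [dotProduct] at h
    rw [← h]
    refine Finset.sum_congr rfl fun lam _ => ?_
    rw [smul_eval, DD_monomial]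
    have e1 : ∀ (j : Fin 2) (q : Fin 2 ⊕ Fin 2 → ℂ) (p : Polynomial ℂ),
        eval q (Polynomial.aeval (X (Sum.inl j) : R4) p) = p.eval (q (Sum.inl j)) := by
      intro j q p
      rw [← Polynomial.coe_aeval_eq_eval]
      have := Polynomial.aeval_algHom_apply (MvPolynomial.aeval q : R4 →ₐ[ℂ] ℂ)
        (X (Sum.inl j)) p
      simpa [MvPolynomial.aeval_eq_eval] using this.symm
    simp only [map_mul, map_pow, eval_X, e1, Sum.elim_inl, Sum.elim_inr, Matrix.cons_val_zero,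
      Matrix.cons_val_one]
    simp only [M, Matrix.of_apply]
    change _ = (wC lam.1.1 lam.2.1 t₁).eval (φ (a s)) *
      (wC lam.1.2 lam.2.2 t₂).eval (φ (b s)) *
        (φ (Y s) ^ (lam.2.1 : ℕ) * φ (Z s) ^ (lam.2.2 : ℕ)) * v lam
    ring

end SharpSix
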