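import Pool.Agent.SharpSix.Kn3

/-!
# The sharp six exponentials theorem for a configuration with algebraic entries
-/

open MvPolynomial

namespace SharpSix

open FiveNum

theorem common_denominator_K {K : Type} [Field K] [NumberField K] {α : Type} [Finite α]
    (z : α → K) : ∃ Q : ℕ, 0 < Q ∧ ∀ i, IsIntegral ℤ ((Q : K) * z i) := by
  classical
  have := Fintype.ofFinite α
  have halg : Algebra.IsAlgebraic ℤ K :=
    (IsFractionRing.comap_isAlgebraic_iff (A := ℤ) (K := ℚ) (C := K)).2 inferInstance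
  obtain ⟨y, hy0, hy⟩ := Algebra.IsAlgebraic.exists_integral_multiples ℤ (Finset.univ.image z)
  refine ⟨y.natAbs, Int.natAbs_pos.2 hy0, fun i => ?_⟩
  have h := hy (z i) (Finset.mem_image_of_mem z (Finset.mem_univ i))
  rw [zsmul_eq_mul] at h
  rcases Int.natAbs_eq y with h1 | h1
  · have h2 : ((y : ℤ) : K) = ((y.natAbs : ℕ) : K) := by
      conv_lhs => rw [h1]
      simp
    rwa [h2] at h
  · have h2 : ((y : ℤ) : K) = -((y.natAbs : ℕ) : K) := by
      conv_lhs => rw [h1]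
      simp
    rw [h2, neg_mul] at h
    have := h.neg
    rwa [neg_neg] at this

theorem sharp_six_K {K : Type} [Field K] [NumberField K] (φ : K →ₐ[ℚ] ℂ) (G : Cfg) (x : ℂ)
    (η : Fin 3 → ℂ) (A Y : Fin 3 → Fin 2 → K) (hA : ∀ j i, φ (A j i) = G.a j i)
    (hYG : ∀ j i, φ (Y j i) = G.y j i)
    (hY : ∀ j, Complex.exp (η j - G.a j 0) = G.y j 0)
    (hZ : ∀ j, Complex.exp (x * η j - G.a j 1) = G.y j 1) : False := by
  classical
  obtain ⟨Q₁, hQ₁, h₁⟩ := common_denominator_K (fun p : Fin 3 × Fin 2 => A p.1 p.2)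
  obtain ⟨Q₂, hQ₂, h₂⟩ := common_denominator_K (fun p : Fin 3 × Fin 2 => Y p.1 p.2)
  set Q := Q₁ * Q₂ with hQdef
  have hQ : 0 < Q := Nat.mul_pos hQ₁ hQ₂
  let O : Subring K := (integralClosure ℤ K).toSubring
  have hmemO : ∀ z : K, z ∈ O ↔ IsIntegral ℤ z := fun z => Iff.rfl
  have hQa : ∀ j i, (Q : K) * A j i ∈ O := by
    intro j i
    have := O.mul_mem (natCast_mem O Q₂) ((hmemO _).2 (h₁ (j, i)))
    rw [hQdef]
    push_cast
    rw [mul_comm (Q₁ : K), mul_assoc]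
    exact this
  have hQy : ∀ j i, (Q : K) * Y j i ∈ O := by
    intro j i
    have := O.mul_mem (natCast_mem O Q₁) ((hmemO _).2 (h₂ (j, i)))
    rw [hQdef]
    push_cast
    rw [mul_assoc]
    exact this
  -- points
  let aK : Fin 2 → (Fin 3 → ℕ) → K := fun i s => ∑ j, (s j : K) * A j i
  let yK : Fin 2 → (Fin 3 → ℕ) → K := fun i s => ∏ j, Y j i ^ s j
  have haφ : ∀ i s, φ (aK i s) = addp G.a s i := by
    intro i s
    simp only [aK, map_sum, map_mul, map_natCast, hA, addp]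
  have hyφ : ∀ i s, φ (yK i s) = mulp G.y s i := by
    intro i s
    simp only [yK, map_prod, map_pow, hYG, mulp]
  have hYs : ∀ s : Fin 3 → ℕ,
      Complex.exp ((∑ j, (s j : ℂ) * η j) - φ (aK 0 s)) = φ (yK 0 s) := by
    intro s
    rw [haφ, hyφ]
    have e : (∑ j, (s j : ℂ) * η j) - addp G.a s 0 = ∑ j, (s j : ℂ) * (η j - G.a j 0) := by
      rw [addp, ← Finset.sum_sub_distrib]
      exact Finset.sum_congr rfl fun j _ => by ring
    rw [e, Complex.exp_sum, mulp]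
    exact Finset.prod_congr rfl fun j _ => by rw [Complex.exp_nat_mul, hY]
  have hZs : ∀ s : Fin 3 → ℕ,
      Complex.exp (x * (∑ j, (s j : ℂ) * η j) - φ (aK 1 s)) = φ (yK 1 s) := by
    intro s
    rw [haφ, hyφ]
    have e : x * (∑ j, (s j : ℂ) * η j) - addp G.a s 1 =
        ∑ j, (s j : ℂ) * (x * η j - G.a j 1) := by
      rw [addp, Finset.mul_sum, ← Finset.sum_sub_distrib]
      exact Finset.sum_congr rfl fun j _ => by ring
    rw [e, Complex.exp_sum, mulp]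
    exact Finset.prod_congr rfl fun j _ => by rw [Complex.exp_nat_mul, hZ]
  -- bounds for the conjugates
  obtain ⟨B, hB1, hBa, hBy⟩ : ∃ B : ℝ, 1 ≤ B ∧ (∀ j i, ∀ σ : K →ₐ[ℚ] ℂ, ‖σ (A j i)‖ ≤ B) ∧
      ∀ j i, ∀ σ : K →ₐ[ℚ] ℂ, ‖σ (Y j i)‖ ≤ Real.exp B := by
    let q : (Fin 3 × Fin 2) × (K →ₐ[ℚ] ℂ) → ℝ := fun p => ‖p.2 (A p.1.1 p.1.2)‖
    let r : (Fin 3 × Fin 2) × (K →ₐ[ℚ] ℂ) → ℝ := fun p => ‖p.2 (Y p.1.1 p.1.2)‖
    refine ⟨1 + ∑ p, q p + ∑ p, r p, ?_, ?_, ?_⟩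
    · have h1 : 0 ≤ ∑ p, q p := Finset.sum_nonneg fun _ _ => norm_nonneg _
      have h2 : 0 ≤ ∑ p, r p := Finset.sum_nonneg fun _ _ => norm_nonneg _
      linarith
    · intro j i σ
      have h1 : q ((j, i), σ) ≤ ∑ p, q p :=
        Finset.single_le_sum (f := q) (fun _ _ => norm_nonneg _) (Finset.mem_univ ((j, i), σ))
      have h2 : 0 ≤ ∑ p, r p := Finset.sum_nonneg fun _ _ => norm_nonneg _
      have h3 : ‖σ (A j i)‖ = q ((j, i), σ) := rfl
      linarith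
    · intro j i σ
      have h1 : r ((j, i), σ) ≤ ∑ p, r p :=
        Finset.single_le_sum (f := r) (fun _ _ => norm_nonneg _) (Finset.mem_univ ((j, i), σ))
      have h2 : 0 ≤ ∑ p, q p := Finset.sum_nonneg fun _ _ => norm_nonneg _
      have h3 : ‖σ (Y j i)‖ = r ((j, i), σ) := rfl
      have h4 := Real.add_one_le_exp (1 + ∑ p, q p + ∑ p, r p)
      linarith
  have hp2 : 0 ≤ ∑ j, ‖η j‖ := Finset.sum_nonneg fun _ _ => norm_nonneg _
  set C : ℝ := 3 * B + ∑ j, ‖η j‖ with hC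
  have hC1 : 1 ≤ C := by linarith
  have hCB : 3 * B ≤ C := by linarith
  have hbda : ∀ i, ∀ (S : ℕ) (s : Fin 3 → ℕ), (∀ j, s j < S) → ∀ σ : K →ₐ[ℚ] ℂ,
      ‖σ (aK i s)‖ ≤ C * S := by
    intro i S s hs σ
    have e : σ (aK i s) = ∑ j, (s j : ℂ) * σ (A j i) := by
      simp only [aK, map_sum, map_mul, map_natCast]
    rw [e]
    refine (norm_sum_le_of _ S s hs).trans (mul_le_mul_of_nonneg_right ?_ (by positivity))
    rw [Fin.sum_univ_three]
    have := hBa 0 i σ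
    have := hBa 1 i σ
    have := hBa 2 i σ
    linarith
  have hbdy : ∀ i, ∀ (S : ℕ) (s : Fin 3 → ℕ), (∀ j, s j < S) → ∀ σ : K →ₐ[ℚ] ℂ,
      ‖σ (yK i s)‖ ≤ Real.exp (C * S) := by
    intro i S s hs σ
    have e : σ (yK i s) = ∏ j, σ (Y j i) ^ s j := by
      simp only [yK, map_prod, map_pow]
    rw [e, norm_prod]
    have h1 : ∀ j, ‖σ (Y j i) ^ s j‖ ≤ Real.exp (B * S) := by
      intro j
      rw [norm_pow]
      calc ‖σ (Y j i)‖ ^ s j ≤ (Real.exp B) ^ s j :=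
            pow_le_pow_left₀ (norm_nonneg _) (hBy j i σ) _
        _ = Real.exp (s j * B) := by rw [Real.exp_nat_mul]
        _ ≤ Real.exp (B * S) := by
            refine Real.exp_le_exp.2 ?_
            rw [mul_comm]
            refine mul_le_mul_of_nonneg_left ?_ (by linarith)
            exact_mod_cast (hs j).le
    rw [Fin.prod_univ_three]
    calc ‖σ (Y 0 i) ^ s 0‖ * ‖σ (Y 1 i) ^ s 1‖ * ‖σ (Y 2 i) ^ s 2‖
        ≤ Real.exp (B * S) * Real.exp (B * S) * Real.exp (B * S) := by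
          gcongr
          · exact h1 0
          · exact h1 1
          · exact h1 2
      _ = Real.exp (3 * B * S) := by
          rw [← Real.exp_add, ← Real.exp_add]
          congr 1
          ring
      _ ≤ Real.exp (C * S) := Real.exp_le_exp.2
          (mul_le_mul_of_nonneg_right hCB (by positivity))
  have hintA : ∀ i s, IsIntegral ℤ ((Q : K) * aK i s) := by
    intro i s
    rw [← hmemO]
    simp only [aK]
    rw [Finset.mul_sum]
    refine O.sum_mem fun j _ => ?_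
    rw [mul_left_comm]
    exact O.mul_mem (natCast_mem O _) (hQa j i)
  have hintY : ∀ i, ∀ (S : ℕ) (s : Fin 3 → ℕ), (∀ j, s j < S) →
      IsIntegral ℤ ((Q : K) ^ (3 * S) * yK i s) := by
    intro i S s hs
    rw [← hmemO]
    have h : ∀ j, (Q : K) ^ (s j) * Y j i ^ (s j) ∈ O := fun j => by
      rw [← mul_pow]
      exact O.pow_mem (hQy j i) _
    have h1 : (Q : K) ^ (s 0 + s 1 + s 2) * yK i s ∈ O := by
      have e : (Q : K) ^ (s 0 + s 1 + s 2) * yK i s =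
          ((Q : K) ^ (s 0) * Y 0 i ^ (s 0)) * ((Q : K) ^ (s 1) * Y 1 i ^ (s 1)) *
            ((Q : K) ^ (s 2) * Y 2 i ^ (s 2)) := by
        simp only [yK]
        rw [Fin.prod_univ_three]
        ring
      rw [e]
      exact O.mul_mem (O.mul_mem (h 0) (h 1)) (h 2)
    refine memO_pow_mono O h1 ?_
    have := hs 0
    have := hs 1
    have := hs 2
    omega
  obtain ⟨N₀, hN₀⟩ := exists_auxK φ x (aK 0) (aK 1) (yK 0) (yK 1)
    (fun s => ∑ j, (s j : ℂ) * η j) Q hQ C ‖x‖ hC1 le_rfl (hbda 0) (hbda 1) (hbdy 0) (hbdy 1)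
    (fun S s hs => (norm_sum_le_of η S s hs).trans
      (mul_le_mul_of_nonneg_right (by linarith) (by positivity)))
    hYs hZs (hintA 0) (hintA 1) (hintY 0) (hintY 1)
  obtain ⟨N, hN, hN'⟩ : ∃ N, N₀ ≤ N ∧ 2 ^ 16 < N := ⟨N₀ + (2 ^ 16 + 1), by omega, by omega⟩
  obtain ⟨P, hP0, hPbox, hP⟩ := hN₀ N hN
  obtain ⟨m0, m1, m2, m3, m4, m5, m6, m7⟩ := numericZ N hN'
  have hNpos : 0 < N := by omega
  refine hP0 (zero_estimate G (N ^ 34) (N ^ 20) (N ^ 35) (N ^ 15) (by positivity) (by positivity)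
    (Nat.pow_le_pow_right hNpos (by norm_num)) (by positivity) (by positivity)
    m0 m1 m2 m3 m4 m5 m6 m7 P hPbox ?_)
  intro t₁ ht₁ t₂ ht₂ s hs
  have h := hP t₁ ht₁ t₂ ht₂ s hs
  have e1 : (DD 0)^[t₁] ((DD 1)^[t₂] (tau G.a G.y s P)) =
      tau G.a G.y s ((DD 0)^[t₁] ((DD 1)^[t₂] P)) := by
    rw [tau, DD, DD, tr_der_iterate, tr_der_iterate]
  rw [e1, tau, eval_tr]
  rw [haφ, haφ, hyφ, hyφ] at h
  have e2 : (Sum.elim (fun i => origin (Fin 2) (Fin 2) (Sum.inl i) + addp G.a s i)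
      (fun k => mulp G.y s k * origin (Fin 2) (Fin 2) (Sum.inr k)) : Fin 2 ⊕ Fin 2 → ℂ) =
      Sum.elim ![addp G.a s 0, addp G.a s 1] ![mulp G.y s 0, mulp G.y s 1] := by
    funext i
    rcases i with i | i
    · fin_cases i <;> simp [origin]
    · fin_cases i <;> simp [origin]
  rw [e2]
  exact h

theorem sharp_six_alg (G : Cfg) (x : ℂ) (η : Fin 3 → ℂ)
    (hY : ∀ j, Complex.exp (η j - G.a j 0) = G.y j 0)
    (hZ : ∀ j, Complex.exp (x * η j - G.a j 1) = G.y j 1)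
    (ha : ∀ j i, IsAlgebraic ℚ (G.a j i)) (hy : ∀ j i, IsAlgebraic ℚ (G.y j i)) : False := by
  let S : Set ℂ := Set.range (fun p : Fin 3 × Fin 2 => G.a p.1 p.2) ∪
    Set.range (fun p : Fin 3 × Fin 2 => G.y p.1 p.2)
  have hSint : ∀ z ∈ S, IsIntegral ℚ z := by
    rintro z (⟨p, rfl⟩ | ⟨p, rfl⟩)
    · exact (ha p.1 p.2).isIntegral
    · exact (hy p.1 p.2).isIntegral
  have hfin : FiniteDimensional ℚ (IntermediateField.adjoin ℚ S) :=
    IntermediateField.finiteDimensional_adjoin hSint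
  have hnf : NumberField (IntermediateField.adjoin ℚ S) := { }
  have hmemA : ∀ j i, G.a j i ∈ IntermediateField.adjoin ℚ S := fun j i =>
    IntermediateField.subset_adjoin ℚ S (Or.inl ⟨(j, i), rfl⟩)
  have hmemY : ∀ j i, G.y j i ∈ IntermediateField.adjoin ℚ S := fun j i =>
    IntermediateField.subset_adjoin ℚ S (Or.inr ⟨(j, i), rfl⟩)
  exact sharp_six_K (K := IntermediateField.adjoin ℚ S) (IntermediateField.adjoin ℚ S).val G x η
    (fun j i => ⟨G.a j i, hmemA j i⟩) (fun j i => ⟨G.y j i, hmemY j i⟩)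
    (fun j i => rfl) (fun j i => rfl) hY hZ

end SharpSix
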