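import Pool.Agent.SharpSix.ZCfg

/-!
# Zero estimate: dimensions one and zero

Dimension one: any two coordinates are dependent mod `p` (`not_indep_of_le`), so `exists_transversal`
gives `f, h ∈ p` with `DD 0 f ∉ p`, `DD 1 f = 0`, `DD 1 h ∉ p`, `DD 0 h = 0` (multiplicity `T ^ 2` by
`grow2`).
* Some `z_i` not constant mod `p` (`hilb p t ≥ t * D₀`): for `i' = 0, 1` consider the translates by
  `m * e_{jd i'}`, `m < S`. If for one `i'` they are pairwise incomparable, `n5`. Otherwise, for both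
  `i'`, `p` is stable under a translation with additive part `u ≠ 0` in the direction `i'`, and
  `linear_of_tr` shows that `z_{1 - i'}` is constant mod `p`: contradiction.
* `z_0 - c_0, z_1 - c_1 ∈ p` and some `Y_k` not constant (`hilb p t ≥ t * D₁`): the translates by
  `m e_{jd 0} + n e_{jd 1}`, `m, n < S`, are pairwise incomparable (compare `z_0 - c`, `z_1 - c`), `n6`.

Dimension zero: all translates by `s`, `s j < S`, of the maximal ideal of the origin are pairwise
incomparable by `G.inj`; transversal pair `z_0, z_1`; `hilb p t ≥ 1`.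
-/

set_option linter.unusedSectionVars false
set_option linter.unusedVariables false

open MvPolynomial

namespace SharpSix

namespace C1

/-- Additive coordinates of a multiple of a generator. -/
theorem addp_single (a : Fin 3 → Fin 2 → ℂ) (j : Fin 3) (m : ℕ) (i : Fin 2) :
    addp a (Pi.single j m) i = (m : ℂ) * a j i := by
  classical
  unfold addp
  rw [Finset.sum_eq_single j]
  · simp
  · intro k _ hk
    simp [hk]
  · simp

/-- The point `m e_j + n e_j'`. -/
def pt2 (j j' : Fin 3) (m n : ℕ) : Fin 3 → ℕ := Pi.single j m + Pi.single j' n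

theorem addp_pt2 (a : Fin 3 → Fin 2 → ℂ) (j j' : Fin 3) (m n : ℕ) (i : Fin 2) :
    addp a (pt2 j j' m n) i = (m : ℂ) * a j i + (n : ℂ) * a j' i := by
  rw [pt2, addp_add, Pi.add_apply, addp_single, addp_single]

theorem pt2_lt {S : ℕ} {j j' : Fin 3} (hj : j ≠ j') {m n : ℕ} (hm : m < S) (hn : n < S)
    (l : Fin 3) : pt2 j j' m n l < S := by
  rw [pt2, Pi.add_apply]
  by_cases hl : l = j
  · rw [hl, Pi.single_eq_same, Pi.single_eq_of_ne hj, add_zero]
    exact hm
  · rw [Pi.single_eq_of_ne hl, zero_add]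
    by_cases hl' : l = j'
    · rw [hl', Pi.single_eq_same]
      exact hn
    · rw [Pi.single_eq_of_ne hl']
      omega

/-- A nonzero constant is not in a prime. -/
theorem C_notMem {σ : Type} {p : Ideal (MvPolynomial σ ℂ)} (hp : p.IsPrime) {c : ℂ}
    (h : (C c : MvPolynomial σ ℂ) ∈ p) : c = 0 := by
  by_contra h0
  apply hp.ne_top
  rw [Ideal.eq_top_iff_one]
  have h3 := Ideal.mul_mem_left p (C c⁻¹) h
  rwa [← C_mul, inv_mul_cancel₀ h0, C_1] at h3

theorem alpha_ne (G : Cfg) : G.a (G.jd 0) 0 ≠ 0 := by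
  intro h
  have := G.irr 1 0 (by simp [h])
  simp at this

theorem beta_ne (G : Cfg) : G.a (G.jd 1) 1 ≠ 0 := by
  intro h
  have := G.irr 0 1 (by simp [h])
  simp at this

/-- In dimension one, there is a transversal pair. -/
theorem exists_pair (D₀ D₁ K : ℕ) (hD₀ : 0 < D₀) (hD₁ : 0 < D₁)
    (p : Ideal R4) (hp : p.IsPrime) (hU : UU (Fin 2) (Fin 2) ∉ p)
    (hKp : ∀ t, 0 < t → hilb (dd D₀ D₁) p t ≤ K * t) :
    (∀ s : Finset (Fin 2 ⊕ Fin 2), 1 < s.card → ¬ Indep p (s : Set (Fin 2 ⊕ Fin 2))) ∧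
    ∃ q g : R4, q ∈ p ∧ g ∈ p ∧ DD 0 q = 0 ∧ DD 1 q ∉ p ∧ DD 0 g ∉ p := by
  classical
  have h2 : ∀ s : Finset (Fin 2 ⊕ Fin 2), 1 < s.card → ¬ Indep p (s : Set (Fin 2 ⊕ Fin 2)) :=
    fun s hs => not_indep_of_le (dd D₀ D₁) (dd_pos hD₀ hD₁) p K 1
      (by simpa using hKp) s hs
  refine ⟨h2, ?_⟩
  have h3 : ∀ i : Fin 2, ¬ Indep p {Sum.inl i, Sum.inr i} := by
    intro i
    have := h2 {Sum.inl i, Sum.inr i} (by
      rw [Finset.card_pair (by simp)]
      norm_num)
    simpa using this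
  obtain ⟨g, hg, hgs, hDg⟩ := exists_transversal p hp 0 (X_inr_notMem hU 0) (h3 0)
  obtain ⟨q, hq, hqs, hDq⟩ := exists_transversal p hp 1 (X_inr_notMem hU 1) (h3 1)
  refine ⟨q, g, hq, hg, ?_, hDq, hDg⟩
  refine der_eq_zero_of_supported _ _ ?_ ?_ hqs
  · intro i hi
    have : i = 1 := by simpa using hi
    rw [this]
    simp
  · intro i hi
    have : i = 1 := by simpa using hi
    rw [this]
    simp

end C1

open C1

theorem case_one (G : Cfg) (D₀ D₁ T S K : ℕ) (hD₀ : 0 < D₀) (hD₁ : 0 < D₁)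
    (p : Ideal R4) (hp : p.IsPrime) (hU : UU (Fin 2) (Fin 2) ∉ p) (I : Ideal R4) (hIp : I ≤ p)
    (hI : JetsIn G T S I p) (hK : ∀ t, 0 < t → hilb (dd D₀ D₁) I t ≤ K * t)
    (hind : ∃ i, ∀ c : ℂ, (X i - C c : R4) ∉ p)
    (n5 : 2 * K < T ^ 2 * S * D₀) (n6 : 2 * K < T ^ 2 * S ^ 2 * D₁) : False := by
  classical
  have hKp : ∀ t, 0 < t → hilb (dd D₀ D₁) p t ≤ K * t := fun t ht =>
    (hd_anti hIp).trans (hK t ht)
  obtain ⟨h2, q, g, hq, hg, h0q, h1q, h0g⟩ := exists_pair D₀ D₁ K hD₀ hD₁ p hp hU hKp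
  have h01 : ¬ Indep p {Sum.inl 0, Sum.inl 1} := by
    have := h2 {Sum.inl 0, Sum.inl 1} (by
      rw [Finset.card_pair (by simp)]
      norm_num)
    simpa using this
  -- lower bound
  have hlow : ∀ i : Fin 2 ⊕ Fin 2, (∀ c : ℂ, (X i - C c : R4) ∉ p) → ∀ t, 0 < t →
      t ^ 1 * dd D₀ D₁ i ≤ hilb (dd D₀ D₁) p t := by
    intro i hi t ht
    have h3 : Indep p ((({i} : Finset (Fin 2 ⊕ Fin 2)) : Set (Fin 2 ⊕ Fin 2))) := by
      rw [Finset.coe_singleton]
      by_contra h4
      obtain ⟨c, hc⟩ := (not_indep_singleton p hp i).1 h4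
      exact hi c hc
    have := hilb_indep (dd D₀ D₁) (dd_pos hD₀ hD₁) p {i} h3 t ht
    simpa using this
  have hK1 : ∀ t, 0 < t → hilb (dd D₀ D₁) I t ≤ K * t ^ 1 := by simpa using hK
  by_cases hz : ∃ i : Fin 2, ∀ c : ℂ, (X (Sum.inl i) - C c : R4) ∉ p
  · obtain ⟨i, hi⟩ := hz
    -- both `z_j` are constant
    have key : ∀ j : Fin 2, ∃ m n : Fin S, m ≠ n ∧
        p.comap (tr (addp G.a (Pi.single (G.jd j) (n : ℕ))) (mulp G.y (Pi.single (G.jd j) (n : ℕ))))
          ≤ p.comap (tr (addp G.a (Pi.single (G.jd j) (m : ℕ)))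
            (mulp G.y (Pi.single (G.jd j) (m : ℕ)))) := by
      intro j
      by_contra hcon
      push Not at hcon
      obtain ⟨c, hc⟩ := grow2 (dd D₀ D₁) (dd_pos hD₀ hD₁) (Pi.single 0 (-1)) (Pi.single 1 (-1))
        (Pi.single 0 1) (Pi.single 1 1) p hp
        (fun m : Fin S => addp G.a (Pi.single (G.jd j) (m : ℕ)))
        (fun m : Fin S => mulp G.y (Pi.single (G.jd j) (m : ℕ)))
        (fun m k => mulp_ne_zero G.y G.hy _ k) (fun m n hmn => hcon m n hmn)
        q g hq hg h0q h1q h0g T I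
        (by
          intro m f hf t₁ ht₁ t₂ ht₂
          refine hI f hf t₁ ht₁ t₂ ht₂ _ fun l => ?_
          have hm := m.2
          by_cases hl : l = G.jd j
          · rw [hl, Pi.single_eq_same]
            exact hm
          · rw [Pi.single_eq_of_ne hl]
            omega)
      have h3 := compare_lead (hlow _ hi) hK1 hc
      rw [Fintype.card_fin] at h3
      simp only [dd, Sum.elim_inl, pow_one] at h3
      exact absurd (lt_of_lt_of_le n5 h3) (lt_irrefl _)
    have hlin : ∀ j : Fin 2, ∃ u : Fin 2 → ℂ, u j ≠ 0 ∧ (∀ j', j' ≠ j → u j' = 0) ∧ ∃ c : ℂ,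
        (C (u 1) * X (Sum.inl 0) - C (u 0) * X (Sum.inl 1) - C c : R4) ∈ p := by
      intro j
      obtain ⟨m, n, hmn, hle⟩ := key j
      have hst := stable_of_comap_le p _ _ _ _ (fun k => mulp_ne_zero G.y G.hy _ k) hle
      set u := addp G.a (Pi.single (G.jd j) (m : ℕ)) - addp G.a (Pi.single (G.jd j) (n : ℕ))
        with hu
      have hui : ∀ i, u i = ((m : ℕ) - (n : ℕ) : ℂ) * G.a (G.jd j) i := by
        intro i
        rw [hu, Pi.sub_apply, addp_single, addp_single]
        ring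
      have hmn' : ((m : ℕ) - (n : ℕ) : ℂ) ≠ 0 := by
        rw [sub_ne_zero]
        intro h
        exact hmn (Fin.ext (by exact_mod_cast h))
      have huj : u j ≠ 0 := by
        rw [hui]
        refine mul_ne_zero hmn' ?_
        fin_cases j
        · exact alpha_ne G
        · exact beta_ne G
      refine ⟨u, huj, ?_, ?_⟩
      · intro j' hj'
        rw [hui]
        have : G.a (G.jd j) j' = 0 := by
          fin_cases j
          · have : j' = 1 := by
              fin_cases j'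
              · exact absurd rfl hj'
              · rfl
            rw [this]
            exact G.a01
          · have : j' = 0 := by
              fin_cases j'
              · rfl
              · exact absurd rfl hj'
            rw [this]
            exact G.a10
        rw [this, mul_zero]
      · refine linear_of_tr p hp u (fun h => huj (by rw [h]; rfl)) _ ?_ hst h01
        intro k
        exact div_ne_zero (mulp_ne_zero G.y G.hy _ k) (mulp_ne_zero G.y G.hy _ k)
    have hconst : ∀ i : Fin 2, ∃ c : ℂ, (X (Sum.inl i) - C c : R4) ∈ p := by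
      intro i
      by_cases hi0 : i = 0
      · subst hi0
        obtain ⟨u, hu, hu', c, hc⟩ := hlin 1
        refine ⟨(u 1)⁻¹ * c, ?_⟩
        rw [hu' 0 (by decide), C_0, zero_mul, sub_zero] at hc
        have h3 := Ideal.mul_mem_left p (C (u 1)⁻¹) hc
        rwa [mul_sub, ← mul_assoc, ← C_mul, ← C_mul, inv_mul_cancel₀ hu, C_1, one_mul] at h3
      · have hi1 : i = 1 := by omega
        subst hi1
        obtain ⟨u, hu, hu', c, hc⟩ := hlin 0
        refine ⟨-((u 0)⁻¹ * c), ?_⟩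
        rw [hu' 1 (by decide), C_0, zero_mul, zero_sub] at hc
        have h3 := Ideal.mul_mem_left p (C (-(u 0)⁻¹)) hc
        have h4 : (C (-(u 0)⁻¹) * (-(C (u 0) * X (Sum.inl 1)) - C c) : R4) =
            X (Sum.inl 1) - C (-((u 0)⁻¹ * c)) := by
          rw [mul_sub, mul_neg, ← mul_assoc, ← C_mul, ← C_mul, neg_mul, inv_mul_cancel₀ hu,
            C_neg, C_1, neg_mul, one_mul, neg_neg, neg_mul]
        rwa [h4] at h3
    obtain ⟨c, hc⟩ := hconst i
    exact hi c hc
  · push Not at hz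
    choose cz hcz using hz
    obtain ⟨i, hi⟩ := hind
    rcases i with i | k
    · exact hi _ (hcz i)
    · have hinc : ∀ m n : Fin S × Fin S, m ≠ n →
          ¬ p.comap (tr (addp G.a (pt2 (G.jd 0) (G.jd 1) n.1 n.2))
            (mulp G.y (pt2 (G.jd 0) (G.jd 1) n.1 n.2)))
          ≤ p.comap (tr (addp G.a (pt2 (G.jd 0) (G.jd 1) m.1 m.2))
            (mulp G.y (pt2 (G.jd 0) (G.jd 1) m.1 m.2))) := by
        intro m n hmn hle
        apply hmn
        have hst := stable_of_comap_le p _ _ _ _ (fun k => mulp_ne_zero G.y G.hy _ k) hle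
        have hu : ∀ i, addp G.a (pt2 (G.jd 0) (G.jd 1) m.1 m.2) i
            - addp G.a (pt2 (G.jd 0) (G.jd 1) n.1 n.2) i = 0 := by
          intro i
          have h3 := hst _ (hcz i)
          rw [map_sub, tr_X_inl, tr_C] at h3
          have h4 := Ideal.sub_mem _ h3 (hcz i)
          have h5 : ∀ a b c : R4, a + b - c - (a - c) = b := fun a b c => by ring
          rw [h5] at h4
          exact C_notMem hp h4
        have h0 := hu 0
        have h1 := hu 1
        rw [addp_pt2, addp_pt2] at h0 h1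
        rw [G.a10] at h0
        rw [G.a01] at h1
        have h0' : ((m.1 : ℕ) : ℂ) = (n.1 : ℕ) := by
          have h3 : (((m.1 : ℕ) : ℂ) - (n.1 : ℕ)) * G.a (G.jd 0) 0 = 0 := by
            linear_combination h0
          exact sub_eq_zero.1 ((mul_eq_zero.1 h3).resolve_right (alpha_ne G))
        have h1' : ((m.2 : ℕ) : ℂ) = (n.2 : ℕ) := by
          have h3 : (((m.2 : ℕ) : ℂ) - (n.2 : ℕ)) * G.a (G.jd 1) 1 = 0 := by
            linear_combination h1
          exact sub_eq_zero.1 ((mul_eq_zero.1 h3).resolve_right (beta_ne G))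
        have e0 : (m.1 : ℕ) = (n.1 : ℕ) := Nat.cast_injective h0'
        have e1 : (m.2 : ℕ) = (n.2 : ℕ) := Nat.cast_injective h1'
        exact Prod.ext (Fin.ext e0) (Fin.ext e1)
      have hJ : ∀ m : Fin S × Fin S, ∀ f ∈ I, ∀ t₁ < T, ∀ t₂ < T,
          (DD 0)^[t₁] ((DD 1)^[t₂] (tr
            (addp G.a (pt2 (G.jd 0) (G.jd 1) m.1 m.2))
            (mulp G.y (pt2 (G.jd 0) (G.jd 1) m.1 m.2)) f)) ∈ p := by
        intro m f hf t₁ ht₁ t₂ ht₂
        exact hI f hf t₁ ht₁ t₂ ht₂ _ (pt2_lt G.jd_ne m.1.2 m.2.2)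
      obtain ⟨c, hc⟩ := grow2 (dd D₀ D₁) (dd_pos hD₀ hD₁) (Pi.single 0 (-1)) (Pi.single 1 (-1))
        (Pi.single 0 1) (Pi.single 1 1) p hp
        (fun m : Fin S × Fin S =>
          addp G.a (pt2 (G.jd 0) (G.jd 1) m.1 m.2))
        (fun m : Fin S × Fin S =>
          mulp G.y (pt2 (G.jd 0) (G.jd 1) m.1 m.2))
        (fun m k => mulp_ne_zero G.y G.hy _ k) hinc
        q g hq hg h0q h1q h0g T I hJ
      have h3 := compare_lead (hlow _ hi) hK1 hc
      rw [Fintype.card_prod, Fintype.card_fin] at h3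
      simp only [dd, Sum.elim_inr, pow_one] at h3
      rw [pow_two S] at n6
      exact absurd (lt_of_lt_of_le n6 h3) (lt_irrefl _)

/-- The maximal ideal of the origin. -/
noncomputable def mm : Ideal R4 := RingHom.ker (eval (origin (Fin 2) (Fin 2)))

theorem mem_mm {f : R4} : f ∈ mm ↔ eval (origin (Fin 2) (Fin 2)) f = 0 := RingHom.mem_ker

theorem mm_prime : mm.IsPrime := RingHom.ker_isPrime _

theorem UU_notMem_mm : UU (Fin 2) (Fin 2) ∉ mm := by
  rw [mem_mm, UU, map_prod]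
  simp [origin]

theorem case_zero (G : Cfg) (D₀ D₁ T S K : ℕ) (hD₀ : 0 < D₀) (hD₁ : 0 < D₁) (hT : 0 < T)
    (hS : 0 < S) (I : Ideal R4)
    (hI : JetsIn G T S I mm) (hK : ∀ t, 0 < t → hilb (dd D₀ D₁) I t ≤ K)
    (n7 : K < T ^ 2 * S ^ 3) : False := by
  classical
  have hp := mm_prime
  have hinc : ∀ s s' : Fin 3 → Fin S, s ≠ s' →
      ¬ mm.comap (tr (addp G.a (fun j => (s' j : ℕ))) (mulp G.y (fun j => (s' j : ℕ))))
        ≤ mm.comap (tr (addp G.a (fun j => (s j : ℕ))) (mulp G.y (fun j => (s j : ℕ)))) := by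
    intro s s' hss' hle
    apply hss'
    have hst := stable_of_comap_le mm _ _ _ _ (fun k => mulp_ne_zero G.y G.hy _ k) hle
    have h1 : addp G.a (fun j => (s j : ℕ)) = addp G.a (fun j => (s' j : ℕ)) := by
      funext i
      have h3 := hst (X (Sum.inl i)) (by rw [mem_mm, eval_X]; rfl)
      rw [tr_X_inl, mem_mm, map_add, eval_X, eval_C] at h3
      have h4 : origin (Fin 2) (Fin 2) (Sum.inl i) = 0 := rfl
      rw [h4, zero_add, Pi.sub_apply] at h3
      exact sub_eq_zero.1 h3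
    have h2 : mulp G.y (fun j => (s j : ℕ)) = mulp G.y (fun j => (s' j : ℕ)) := by
      funext k
      have h3 := hst (X (Sum.inr k) - C 1) (by
        rw [mem_mm, map_sub, eval_X, eval_C]
        have h4 : origin (Fin 2) (Fin 2) (Sum.inr k) = 1 := rfl
        rw [h4, sub_self])
      rw [map_sub, tr_X_inr, tr_C, mem_mm, map_sub, map_mul, eval_X, eval_C, eval_C] at h3
      have h4 : origin (Fin 2) (Fin 2) (Sum.inr k) = 1 := rfl
      rw [h4, mul_one, Pi.div_apply] at h3
      exact (div_eq_one_iff_eq (mulp_ne_zero G.y G.hy _ k)).1 (sub_eq_zero.1 h3)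
    have h3 := G.inj _ _ h1 h2
    funext j
    exact Fin.ext (congrFun h3 j)
  obtain ⟨c, hc⟩ := grow2 (dd D₀ D₁) (dd_pos hD₀ hD₁) (Pi.single 0 (-1)) (Pi.single 1 (-1))
    (Pi.single 0 1) (Pi.single 1 1) mm hp
    (fun s : Fin 3 → Fin S => addp G.a (fun j => (s j : ℕ)))
    (fun s : Fin 3 → Fin S => mulp G.y (fun j => (s j : ℕ)))
    (fun m k => mulp_ne_zero G.y G.hy _ k) hinc
    (X (Sum.inl 1)) (X (Sum.inl 0)) (by rw [mem_mm, eval_X]; rfl) (by rw [mem_mm, eval_X]; rfl)
    (by rw [der_X_inl]; simp)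
    (by rw [der_X_inl, mem_mm, eval_C]; simp)
    (by rw [der_X_inl, mem_mm, eval_C]; simp)
    T I
    (by
      intro m f hf t₁ ht₁ t₂ ht₂
      exact hI f hf t₁ ht₁ t₂ ht₂ _ fun l => (m l).2)
  have h1 := hc 1
  have h2 := hK (1 + c) (by omega)
  have h3 : 1 ≤ hilb (dd D₀ D₁) mm 1 := by
    have h4 : Indep mm (((∅ : Finset (Fin 2 ⊕ Fin 2))) : Set (Fin 2 ⊕ Fin 2)) := by
      intro f hf hfs
      rw [Finset.coe_empty, supported_empty, Algebra.mem_bot] at hfs
      obtain ⟨c, rfl⟩ := hfs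
      rw [algebraMap_eq] at hf ⊢
      rw [C_notMem hp hf, C_0]
    have := hilb_indep (dd D₀ D₁) (dd_pos hD₀ hD₁) mm ∅ h4 1 one_pos
    simpa using this
  have h5 : Fintype.card (Fin 3 → Fin S) = S ^ 3 := by simp
  rw [h5] at h1
  have h6 : T ^ 2 * S ^ 3 * 1 ≤ T ^ 2 * S ^ 3 * hilb (dd D₀ D₁) mm 1 := Nat.mul_le_mul_left _ h3
  omega

end SharpSix
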