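import Pool.Agent.SharpSix.ZCfg
import Pool.Agent.SharpSix.ZLower

/-!
# Zero estimate: dimension two, the case of independent `z_i, Y_i`
-/

set_option linter.unusedSectionVars false

open MvPolynomial

namespace SharpSix

namespace C2A

theorem C_notMem {σ : Type} (p : Ideal (MvPolynomial σ ℂ)) (hp : p.IsPrime) {c : ℂ} (hc : c ≠ 0) :
    (C c : MvPolynomial σ ℂ) ∉ p := by
  intro h
  apply hp.ne_top
  rw [Ideal.eq_top_iff_one]
  have h7 := p.mul_mem_left (C c⁻¹) h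
  rwa [← C_mul, inv_mul_cancel₀ hc, C_1] at h7

theorem eq_zero_of_C_mem {σ : Type} (p : Ideal (MvPolynomial σ ℂ)) (hp : p.IsPrime) {c : ℂ}
    (h : (C c : MvPolynomial σ ℂ) ∈ p) : c = 0 := by
  by_contra hc
  exact C_notMem p hp hc h

/-- The points of a two-dimensional family. -/
def sv (S : ℕ) (k₀ k₁ : Fin 3) (x : Fin S × Fin S) : Fin 3 → ℕ :=
  Pi.single k₀ (x.1 : ℕ) + Pi.single k₁ (x.2 : ℕ)

theorem sv_lt {S : ℕ} {k₀ k₁ : Fin 3} (hk : k₀ ≠ k₁) (x : Fin S × Fin S) (j : Fin 3) :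
    sv S k₀ k₁ x j < S := by
  unfold sv
  rw [Pi.add_apply]
  by_cases h0 : j = k₀
  · subst h0
    rw [Pi.single_eq_same, Pi.single_eq_of_ne hk, add_zero]
    exact x.1.2
  · by_cases h1 : j = k₁
    · subst h1
      rw [Pi.single_eq_same, Pi.single_eq_of_ne h0, zero_add]
      exact x.2.2
    · rw [Pi.single_eq_of_ne h0, Pi.single_eq_of_ne h1]
      exact lt_of_le_of_lt (Nat.zero_le _) x.1.2

theorem sv_fst {S : ℕ} {k₀ k₁ : Fin 3} (hk : k₀ ≠ k₁) (x : Fin S × Fin S) :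
    sv S k₀ k₁ x k₀ = x.1 := by
  unfold sv
  rw [Pi.add_apply, Pi.single_eq_same, Pi.single_eq_of_ne hk, add_zero]

theorem sv_snd {S : ℕ} {k₀ k₁ : Fin 3} (hk : k₀ ≠ k₁) (x : Fin S × Fin S) :
    sv S k₀ k₁ x k₁ = x.2 := by
  unfold sv
  rw [Pi.add_apply, Pi.single_eq_same, Pi.single_eq_of_ne (Ne.symm hk), zero_add]

theorem sv_other {S : ℕ} {k₀ k₁ : Fin 3} (x : Fin S × Fin S) {j : Fin 3} (h0 : j ≠ k₀)
    (h1 : j ≠ k₁) : sv S k₀ k₁ x j = 0 := by
  unfold sv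
  rw [Pi.add_apply, Pi.single_eq_of_ne h0, Pi.single_eq_of_ne h1, Nat.add_zero]

theorem addp_sv (a : Fin 3 → Fin 2 → ℂ) {S : ℕ} {k₀ k₁ : Fin 3} (x : Fin S × Fin S)
    (i : Fin 2) : addp a (sv S k₀ k₁ x) i = (x.1 : ℂ) * a k₀ i + (x.2 : ℂ) * a k₁ i := by
  have h : ∀ (k : Fin 3) (m : ℕ), addp a (Pi.single k m : Fin 3 → ℕ) i = (m : ℂ) * a k i := by
    intro k m
    unfold addp
    rw [Finset.sum_eq_single k]
    · rw [Pi.single_eq_same]
    · intro j _ hj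
      rw [Pi.single_eq_of_ne hj, Nat.cast_zero, zero_mul]
    · intro h; exact absurd (Finset.mem_univ _) h
  unfold sv
  rw [addp_add, Pi.add_apply, h, h]

/-- The lower bound for the Hilbert function. -/
theorem lower {D₀ D₁ : ℕ} (hD₀ : 0 < D₀) (hD₁ : 0 < D₁) (p : Ideal R4) (i : Fin 2)
    (hi : Indep p {Sum.inl i, Sum.inr i}) (t : ℕ) (ht : 0 < t) :
    t ^ 2 * (D₀ * D₁) ≤ hilb (dd D₀ D₁) p t := by
  have h1 := hilb_indep (dd D₀ D₁) (dd_pos hD₀ hD₁) p {Sum.inl i, Sum.inr i}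
    (by simpa using hi) t ht
  rw [Finset.card_pair (by simp), Finset.prod_pair (by simp)] at h1
  exact h1

theorem three_dep {D₀ D₁ K : ℕ} (hD₀ : 0 < D₀) (hD₁ : 0 < D₁) (p : Ideal R4)
    (I : Ideal R4) (hIp : I ≤ p) (hK : ∀ t, 0 < t → hilb (dd D₀ D₁) I t ≤ K * t ^ 2) (i : Fin 2) :
    ¬ Indep p {Sum.inl i, Sum.inr 0, Sum.inr 1} := by
  have h1 := not_indep_of_le (dd D₀ D₁) (dd_pos hD₀ hD₁) p K 2
    (fun t ht => (hd_anti hIp).trans (hK t ht)) {Sum.inl i, Sum.inr 0, Sum.inr 1}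
    (by rw [Finset.card_insert_of_notMem (by simp), Finset.card_pair (by simp)]; norm_num)
  simpa using h1

theorem DD_iter_comm (m n : ℕ) (f : R4) :
    (DD 1)^[m] ((DD 0)^[n] f) = (DD 0)^[n] ((DD 1)^[m] f) :=
  der_comm_iterate₂ _ _ _ _ m n f

theorem fin2_zero_or_one : ∀ i : Fin 2, i = 0 ∨ i = 1 := by decide

theorem fin2_cases : ∀ i j : Fin 2, i ≠ j → (i = 0 ∧ j = 1) ∨ (i = 1 ∧ j = 0) := by decide

/-- Any of the two derivations is contained in `JetsIn`. -/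
theorem jets_iter {G : Cfg} {T S : ℕ} {I p : Ideal R4} (hI : JetsIn G T S I p) (i : Fin 2) :
    ∀ f ∈ I, ∀ n < T, ∀ s : Fin 3 → ℕ, (∀ j, s j < S) → (DD i)^[n] (tau G.a G.y s f) ∈ p := by
  intro f hf n hn s hs
  have hT : 0 < T := lt_of_le_of_lt (Nat.zero_le _) hn
  rcases fin2_zero_or_one i with rfl | rfl
  · have h := hI f hf n hn 0 hT s hs
    rwa [Function.iterate_zero_apply] at h
  · have h := hI f hf 0 hT n hn s hs
    rwa [Function.iterate_zero_apply] at h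

/-- Growth over a two-dimensional family of translates. -/
theorem grow_family (G : Cfg) {D₀ D₁ T S K : ℕ} (hD₀ : 0 < D₀) (hD₁ : 0 < D₁)
    (p : Ideal R4) (hp : p.IsPrime) (I : Ideal R4)
    (hI : JetsIn G T S I p) (hK : ∀ t, 0 < t → hilb (dd D₀ D₁) I t ≤ K * t ^ 2)
    (i : Fin 2) (hi : Indep p {Sum.inl i, Sum.inr i}) (k₀ k₁ : Fin 3) (hk : k₀ ≠ k₁)
    (i' : Fin 2) (g : R4) (hg : g ∈ p) (hDg : DD i' g ∉ p)
    (hinc : ∀ x x' : Fin S × Fin S, x ≠ x' →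
      ¬ p.comap (tau G.a G.y (sv S k₀ k₁ x')) ≤ p.comap (tau G.a G.y (sv S k₀ k₁ x))) :
    T * S ^ 2 * (D₀ * D₁) ≤ 4 * K := by
  obtain ⟨c, hc⟩ := grow1 (α := Fin S × Fin S) (dd D₀ D₁) (dd_pos hD₀ hD₁) (Pi.single i' (-1))
    (Pi.single i' 1) p hp (fun x => addp G.a (sv S k₀ k₁ x)) (fun x => mulp G.y (sv S k₀ k₁ x))
    (fun x k => mulp_ne_zero G.y G.hy _ k) hinc g hg hDg T I
    (fun x f hf n hn => jets_iter hI i' f hf n hn _ (sv_lt hk x))
  have h1 := compare_lead (M := T * Fintype.card (Fin S × Fin S)) (E := D₀ * D₁) (K := K) (c := c)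
    (r := 2) (fun t ht => lower hD₀ hD₁ p i hi t ht) hK hc
  rw [Fintype.card_prod, Fintype.card_fin] at h1
  calc T * S ^ 2 * (D₀ * D₁) = T * (S * S) * (D₀ * D₁) := by ring
    _ ≤ 2 ^ 2 * K := h1
    _ = 4 * K := by ring

/-- Growth with two transversal directions, one translate. -/
theorem grow_two {D₀ D₁ T K : ℕ} (hD₀ : 0 < D₀) (hD₁ : 0 < D₁)
    (p : Ideal R4) (hp : p.IsPrime) (I : Ideal R4)
    (hK : ∀ t, 0 < t → hilb (dd D₀ D₁) I t ≤ K * t ^ 2)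
    (i : Fin 2) (hi : Indep p {Sum.inl i, Sum.inr i}) (v₁ v₂ w₁ w₂ : Fin 2 → ℂ)
    (q g : R4) (hq : q ∈ p) (hg : g ∈ p) (h1 : der v₁ w₁ q = 0)
    (h2 : der v₂ w₂ q ∉ p) (h3 : der v₁ w₁ g ∉ p)
    (hI : ∀ f ∈ I, ∀ m < T, ∀ n < T, (der v₁ w₁)^[m] ((der v₂ w₂)^[n] f) ∈ p) :
    T ^ 2 * (D₀ * D₁) ≤ 4 * K := by
  obtain ⟨c, hc⟩ := grow2 (α := Unit) (dd D₀ D₁) (dd_pos hD₀ hD₁) v₁ v₂ w₁ w₂ p hp
    (fun _ => 0) (fun _ => 1) (fun _ _ => one_ne_zero)
    (fun x x' hxx => absurd (Subsingleton.elim x x') hxx) q g hq hg h1 h2 h3 T I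
    (fun _ f hf m hm n hn => by rw [tr_zero]; exact hI f hf m hm n hn)
  have h4 := compare_lead (M := T ^ 2 * Fintype.card Unit) (E := D₀ * D₁) (K := K) (c := c)
    (r := 2) (fun t ht => lower hD₀ hD₁ p i hi t ht) hK hc
  rw [Fintype.card_unit, mul_one] at h4
  calc T ^ 2 * (D₀ * D₁) ≤ 2 ^ 2 * K := h4
    _ = 4 * K := by ring

/-- `z_j` and `Y_j` constant mod `p`. -/
theorem case_const (G : Cfg) {D₀ D₁ T S K : ℕ} (hD₀ : 0 < D₀) (hD₁ : 0 < D₁)
    (p : Ideal R4) (hp : p.IsPrime) (hU : UU (Fin 2) (Fin 2) ∉ p) (I : Ideal R4)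
    (hI : JetsIn G T S I p) (hK : ∀ t, 0 < t → hilb (dd D₀ D₁) I t ≤ K * t ^ 2)
    (i : Fin 2) (hi : Indep p {Sum.inl i, Sum.inr i}) (j : Fin 2) (c c' : ℂ)
    (hz : (X (Sum.inl j) - C c : R4) ∈ p) (hY : (X (Sum.inr j) - C c' : R4) ∈ p) :
    T * S ^ 2 * (D₀ * D₁) ≤ 4 * K := by
  have hc' : c' ≠ 0 := by
    rintro rfl
    rw [C_0, sub_zero] at hY
    exact X_inr_notMem hU j hY
  refine grow_family G hD₀ hD₁ p hp I hI hK i hi (G.kd j 0) (G.kd j 1) (G.kd_ne j) j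
    (X (Sum.inl j) - C c) hz ?_ ?_
  · have h1 : DD j (X (Sum.inl j) - C c : R4) = C (-1) := by
      unfold DD
      rw [map_sub, der_X_inl, der_C, sub_zero, Pi.single_eq_same]
    rw [h1]
    exact C_notMem p hp (by norm_num)
  · intro x x' hxx hle
    apply hxx
    have hst := stable_of_comap_le p (addp G.a (sv S (G.kd j 0) (G.kd j 1) x'))
      (addp G.a (sv S (G.kd j 0) (G.kd j 1) x)) (mulp G.y (sv S (G.kd j 0) (G.kd j 1) x'))
      (mulp G.y (sv S (G.kd j 0) (G.kd j 1) x)) (fun k => mulp_ne_zero G.y G.hy _ k) hle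
    have e1 : addp G.a (sv S (G.kd j 0) (G.kd j 1) x) j =
        addp G.a (sv S (G.kd j 0) (G.kd j 1) x') j := by
      have h1 := p.sub_mem (hst _ hz) hz
      rw [map_sub, tr_X_inl, tr_C] at h1
      have h2 : (X (Sum.inl j) + C ((addp G.a (sv S (G.kd j 0) (G.kd j 1) x) -
          addp G.a (sv S (G.kd j 0) (G.kd j 1) x')) j) - C c - (X (Sum.inl j) - C c) : R4) =
          C ((addp G.a (sv S (G.kd j 0) (G.kd j 1) x) -
          addp G.a (sv S (G.kd j 0) (G.kd j 1) x')) j) := by ring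
      rw [h2] at h1
      have h3 := eq_zero_of_C_mem p hp h1
      rw [Pi.sub_apply] at h3
      exact sub_eq_zero.1 h3
    have e2 : mulp G.y (sv S (G.kd j 0) (G.kd j 1) x) j =
        mulp G.y (sv S (G.kd j 0) (G.kd j 1) x') j := by
      set ρ := (mulp G.y (sv S (G.kd j 0) (G.kd j 1) x) /
        mulp G.y (sv S (G.kd j 0) (G.kd j 1) x')) j with hρ
      have h1 := p.sub_mem (hst _ hY) (p.mul_mem_left (C ρ) hY)
      rw [map_sub, tr_X_inr, tr_C, ← hρ] at h1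
      have h2 : (C ρ * X (Sum.inr j) - C c' - C ρ * (X (Sum.inr j) - C c') : R4) =
          C ((ρ - 1) * c') := by
        rw [C_mul, C_sub, C_1]; ring
      rw [h2] at h1
      have h3 := eq_zero_of_C_mem p hp h1
      have h4 : ρ = 1 := by
        rcases mul_eq_zero.1 h3 with h5 | h5
        · exact sub_eq_zero.1 h5
        · exact absurd h5 hc'
      rw [hρ, Pi.div_apply, div_eq_one_iff_eq (mulp_ne_zero G.y G.hy _ j)] at h4
      exact h4
    have h5 := G.kd_inj j _ _ (fun k h0 h1 => sv_other x h0 h1)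
      (fun k h0 h1 => sv_other x' h0 h1) e1 e2
    have h6 := congrFun h5 (G.kd j 0)
    have h7 := congrFun h5 (G.kd j 1)
    rw [sv_fst (G.kd_ne j), sv_fst (G.kd_ne j)] at h6
    rw [sv_snd (G.kd_ne j), sv_snd (G.kd_ne j)] at h7
    exact Prod.ext (Fin.ext h6) (Fin.ext h7)

/-- `z_j` constant mod `p`. -/
theorem case_zconst (G : Cfg) {D₀ D₁ T S K : ℕ} (hD₀ : 0 < D₀) (hD₁ : 0 < D₁)
    (p : Ideal R4) (hp : p.IsPrime) (hU : UU (Fin 2) (Fin 2) ∉ p) (I : Ideal R4) (hIp : I ≤ p)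
    (hI : JetsIn G T S I p) (hS : 0 < S) (hK : ∀ t, 0 < t → hilb (dd D₀ D₁) I t ≤ K * t ^ 2)
    (i j : Fin 2) (hij : i ≠ j) (hi : Indep p {Sum.inl i, Sum.inr i})
    (n3 : 4 * K < T * S ^ 2 * (D₀ * D₁)) (n4 : 4 * K < (T / 2) ^ 2 * (D₀ * D₁)) (c : ℂ)
    (hz : (X (Sum.inl j) - C c : R4) ∈ p) : False := by
  by_cases hst : ∀ f ∈ p, DD i f ∈ p
  · obtain ⟨c', hY⟩ := const_of_stable p hp i j hij (X_inr_notMem hU i) hst
      (three_dep hD₀ hD₁ p I hIp hK i)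
    have := case_const G hD₀ hD₁ p hp hU I hI hK i hi j c c' hz hY
    omega
  · push Not at hst
    obtain ⟨g, hg, hDg⟩ := hst
    have h1 : der (Pi.single i (-1)) (Pi.single i 1) (X (Sum.inl j) - C c : R4) = 0 := by
      rw [map_sub, der_X_inl, der_C, sub_zero, Pi.single_eq_of_ne (Ne.symm hij), C_0]
    have h2 : der (Pi.single j (-1)) (Pi.single j 1) (X (Sum.inl j) - C c : R4) ∉ p := by
      rw [map_sub, der_X_inl, der_C, sub_zero, Pi.single_eq_same]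
      exact C_notMem p hp (by norm_num)
    have h3 := grow_two (T := T) hD₀ hD₁ p hp I hK i hi (Pi.single i (-1)) (Pi.single j (-1))
      (Pi.single i 1) (Pi.single j 1) _ g hz hg h1 h2 hDg (by
        intro f hf m hm n hn
        have h4 := fun t₁ h₁ t₂ h₂ => hI f hf t₁ h₁ t₂ h₂ (0 : Fin 3 → ℕ) (fun _ => hS)
        simp only [tau_zero] at h4
        rcases fin2_cases i j hij with ⟨rfl, rfl⟩ | ⟨rfl, rfl⟩
        · exact h4 m hm n hn
        · have h6 := h4 n hn m hm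
          rw [← DD_iter_comm] at h6
          exact h6)
    have h4 : (T / 2) ^ 2 ≤ T ^ 2 := Nat.pow_le_pow_left (Nat.div_le_self _ _) 2
    have h5 := Nat.mul_le_mul_right (D₀ * D₁) h4
    omega

end C2A

theorem case_two_A (G : Cfg) (D₀ D₁ T S K : ℕ) (hD₀ : 0 < D₀) (hD₁ : 0 < D₁)
    (p : Ideal R4) (hp : p.IsPrime) (hU : UU (Fin 2) (Fin 2) ∉ p) (I : Ideal R4) (hIp : I ≤ p)
    (hI : JetsIn G T S I p) (hS : 0 < S) (hK : ∀ t, 0 < t → hilb (dd D₀ D₁) I t ≤ K * t ^ 2)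
    (h01 : ¬ Indep p {Sum.inl 0, Sum.inl 1}) (i : Fin 2) (hi : Indep p {Sum.inl i, Sum.inr i})
    (n3 : 4 * K < T * S ^ 2 * (D₀ * D₁)) (n4 : 4 * K < (T / 2) ^ 2 * (D₀ * D₁)) : False := by
  classical
  have hp0 : p ≠ ⊥ := by
    rintro rfl
    exact h01 fun f hf _ => hf
  obtain ⟨i', g, hg, hDg⟩ := exists_unstable p hp hp0 hU
  by_cases hinc : ∀ x x' : Fin S × Fin S, x ≠ x' →
      ¬ p.comap (tau G.a G.y (C2A.sv S (G.jd 0) (G.jd 1) x')) ≤
        p.comap (tau G.a G.y (C2A.sv S (G.jd 0) (G.jd 1) x))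
  · have := C2A.grow_family G hD₀ hD₁ p hp I hI hK i hi (G.jd 0) (G.jd 1) G.jd_ne i' g hg hDg hinc
    omega
  push Not at hinc
  obtain ⟨x, x', hxx, hle⟩ := hinc
  have hst := stable_of_comap_le p (addp G.a (C2A.sv S (G.jd 0) (G.jd 1) x'))
      (addp G.a (C2A.sv S (G.jd 0) (G.jd 1) x)) (mulp G.y (C2A.sv S (G.jd 0) (G.jd 1) x'))
      (mulp G.y (C2A.sv S (G.jd 0) (G.jd 1) x)) (fun k => mulp_ne_zero G.y G.hy _ k) hle
  set u : Fin 2 → ℂ := addp G.a (C2A.sv S (G.jd 0) (G.jd 1) x) -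
    addp G.a (C2A.sv S (G.jd 0) (G.jd 1) x') with hu
  set y : Fin 2 → ℂ := mulp G.y (C2A.sv S (G.jd 0) (G.jd 1) x) /
    mulp G.y (C2A.sv S (G.jd 0) (G.jd 1) x') with hy
  have hyne : ∀ k, y k ≠ 0 := fun k =>
    div_ne_zero (mulp_ne_zero G.y G.hy _ k) (mulp_ne_zero G.y G.hy _ k)
  set m : ℤ := (x.1 : ℤ) - (x'.1 : ℤ) with hm
  set n : ℤ := (x.2 : ℤ) - (x'.2 : ℤ) with hn
  have hu0 : u 0 = (m : ℂ) * G.a (G.jd 0) 0 := by
    rw [hu, Pi.sub_apply, C2A.addp_sv, C2A.addp_sv, G.a10, hm]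
    push_cast
    ring
  have hu1 : u 1 = (n : ℂ) * G.a (G.jd 1) 1 := by
    rw [hu, Pi.sub_apply, C2A.addp_sv, C2A.addp_sv, G.a01, hn]
    push_cast
    ring
  have hmn : m ≠ 0 ∨ n ≠ 0 := by
    by_contra hcon
    push Not at hcon
    apply hxx
    refine Prod.ext (Fin.ext ?_) (Fin.ext ?_)
    · have := hcon.1; omega
    · have := hcon.2; omega
  have hα : G.a (G.jd 0) 0 ≠ 0 := by
    intro h
    have := G.irr 1 0 (by rw [h]; simp)
    exact one_ne_zero this.1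
  have hβ : G.a (G.jd 1) 1 ≠ 0 := by
    intro h
    have := G.irr 0 1 (by rw [h]; simp)
    exact one_ne_zero this.2
  have hune : u ≠ 0 := by
    intro h
    rcases hmn with h1 | h1
    · have h2 := congrFun h 0
      rw [hu0, Pi.zero_apply] at h2
      rcases mul_eq_zero.1 h2 with h3 | h3
      · exact h1 (by exact_mod_cast h3)
      · exact hα h3
    · have h2 := congrFun h 1
      rw [hu1, Pi.zero_apply] at h2
      rcases mul_eq_zero.1 h2 with h3 | h3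
      · exact h1 (by exact_mod_cast h3)
      · exact hβ h3
  obtain ⟨c, hq⟩ := linear_of_tr p hp u hune y hyne hst h01
  -- a constant coordinate
  have hconst : ∀ j : Fin 2, (∃ c' : ℂ, (X (Sum.inl j) - C c' : R4) ∈ p) → False := by
    rintro j ⟨c', hc'⟩
    by_cases hij : i = j
    · subst hij
      have h1 := hi (X (Sum.inl i) - C c') hc' (by
        refine Subalgebra.sub_mem _ ?_ (Subalgebra.algebraMap_mem _ c')
        exact X_mem_supported.2 (Set.mem_insert _ _))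
      have h2 := congrArg (fun f => MvPolynomial.eval (fun _ => c' + 1) f) h1
      simp at h2
    · exact C2A.case_zconst G hD₀ hD₁ p hp hU I hIp hI hS hK i j hij hi n3 n4 c' hc'
  by_cases h0 : u 0 = 0
  · have h1 : u 1 ≠ 0 := by
      intro h1
      apply hune
      funext k
      fin_cases k
      · exact h0
      · exact h1
    apply hconst 0
    refine ⟨(u 1)⁻¹ * c, ?_⟩
    have h2 := p.mul_mem_left (C (u 1)⁻¹) hq
    have h3 : (C (u 1)⁻¹ * (C (u 1) * X (Sum.inl 0) - C (u 0) * X (Sum.inl 1) - C c) : R4) =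
        X (Sum.inl 0) - C ((u 1)⁻¹ * c) := by
      have h4 : (C (u 1)⁻¹ * C (u 1) : R4) = 1 := by
        rw [← C_mul, inv_mul_cancel₀ h1, C_1]
      rw [h0, C_0, zero_mul, sub_zero, mul_sub, ← mul_assoc, h4, one_mul, ← C_mul]
    rwa [h3] at h2
  by_cases h1 : u 1 = 0
  · apply hconst 1
    refine ⟨-((u 0)⁻¹ * c), ?_⟩
    have h2 := p.mul_mem_left (C (-(u 0)⁻¹)) hq
    have h3 : (C (-(u 0)⁻¹) * (C (u 1) * X (Sum.inl 0) - C (u 0) * X (Sum.inl 1) - C c) : R4) =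
        X (Sum.inl 1) - C (-((u 0)⁻¹ * c)) := by
      have h4 : (C (u 0)⁻¹ * C (u 0) : R4) = 1 := by
        rw [← C_mul, inv_mul_cancel₀ h0, C_1]
      rw [h1, C_0, zero_mul, zero_sub, C_neg, C_neg, C_mul]
      linear_combination (X (Sum.inl 1) : R4) * h4
    rwa [h3] at h2
  -- both nonzero
  have hq0 : der (-u) u (C (u 1) * X (Sum.inl 0) - C (u 0) * X (Sum.inl 1) - C c : R4) = 0 := by
    rw [map_sub, map_sub, Derivation.leibniz, Derivation.leibniz, der_X_inl, der_X_inl, der_C,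
      der_C, der_C]
    simp only [smul_eq_mul, mul_zero, add_zero, sub_zero, Pi.neg_apply, C_neg]
    ring
  have hq1 : der (Pi.single 0 (-1)) (Pi.single 0 1)
      (C (u 1) * X (Sum.inl 0) - C (u 0) * X (Sum.inl 1) - C c : R4) ∉ p := by
    have e1 : der (Pi.single 0 (-1)) (Pi.single 0 1)
        (C (u 1) * X (Sum.inl 0) - C (u 0) * X (Sum.inl 1) - C c : R4) = C (-(u 1)) := by
      rw [map_sub, map_sub, Derivation.leibniz, Derivation.leibniz, der_X_inl, der_X_inl, der_C,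
        der_C, der_C]
      simp
    rw [e1]
    exact C2A.C_notMem p hp (neg_ne_zero.2 h1)
  by_cases hstD : ∀ f ∈ p, der (-u) u f ∈ p
  · have hirr : ∀ m' n' : ℤ, (m' : ℂ) * u 0 + n' * u 1 = 0 → m' = 0 ∧ n' = 0 := by
      intro m' n' h2
      rw [hu0, hu1] at h2
      have h3 := G.irr (m' * m) (n' * n) (by push_cast; linear_combination h2)
      have hm0 : m ≠ 0 := by
        intro h4; apply h0; rw [hu0, h4]; simp
      have hn0 : n ≠ 0 := by
        intro h4; apply h1; rw [hu1, h4]; simp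
      exact ⟨(mul_eq_zero.1 h3.1).resolve_right hm0, (mul_eq_zero.1 h3.2).resolve_right hn0⟩
    exact C2A.three_dep hD₀ hD₁ p I hIp hK i (indep_of_stable p hp hU u hirr hstD i)
  · push Not at hstD
    obtain ⟨g', hg', hDg'⟩ := hstD
    have h2 := C2A.grow_two (T := T / 2) hD₀ hD₁ p hp I hK i hi (-u) (Pi.single 0 (-1)) u
      (Pi.single 0 1) _ g' hq hg' hq0 hq1 hDg' (by
        intro f hf m₁ hm₁ n₁ hn₁
        have h4 := fun t₁ h₁ t₂ h₂ => hI f hf t₁ h₁ t₂ h₂ (0 : Fin 3 → ℕ) (fun _ => hS)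
        simp only [tau_zero] at h4
        have h5 := mixed_mem p (Pi.single 0 (-1) : Fin 2 → ℂ) (Pi.single 1 (-1))
          (Pi.single 0 1 : Fin 2 → ℂ) (Pi.single 1 1) (u 0) (u 1) 1 0 T f h4
          (m := m₁) (n := n₁) (by omega)
        have e1 : (u 0 • Pi.single 0 (-1) + u 1 • Pi.single 1 (-1) : Fin 2 → ℂ) = -u := by
          funext k; fin_cases k <;> simp
        have e2 : (u 0 • Pi.single 0 1 + u 1 • Pi.single 1 1 : Fin 2 → ℂ) = u := by
          funext k; fin_cases k <;> simp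
        have e3 : ((1 : ℂ) • Pi.single 0 (-1) + (0 : ℂ) • Pi.single 1 (-1) : Fin 2 → ℂ) =
            Pi.single 0 (-1) := by simp
        have e4 : ((1 : ℂ) • Pi.single 0 1 + (0 : ℂ) • Pi.single 1 1 : Fin 2 → ℂ) =
            Pi.single 0 1 := by simp
        rw [e1, e2, e3, e4] at h5
        exact h5)
    omega

end SharpSix
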