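import Mathlib

/-!
# Zero estimate: definitions

* `box d`: polynomials with `deg_i < d_i`; `hilb d I t`: dimension of `box (t • d)` modulo `I`;
* `satI U ps`, `RegU U ps`: ideals and regular sequences outside the zeros of `U`;
* `der v w`, `tr a y`: invariant derivations and translations of `G_a^ι × G_m^κ`;
* `addp`, `mulp`, `tau`, `derivs`: the points and the translated derivatives of `P`.
-/

open MvPolynomial

namespace SharpSix

section Box

variable {σ : Type} [Fintype σ]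

/-- Polynomials with `deg_i < d_i`. -/
noncomputable def box (d : σ → ℕ) : Submodule ℂ (MvPolynomial σ ℂ) :=
  restrictSupport ℂ {m | ∀ i, m i < d i}

/-- Dimension of the image of `V` in `R / I`. -/
noncomputable def hd (V : Submodule ℂ (MvPolynomial σ ℂ)) (I : Ideal (MvPolynomial σ ℂ)) : ℕ :=
  Module.finrank ℂ (V.map (Ideal.Quotient.mkₐ ℂ I).toLinearMap)

/-- The Hilbert function. -/
noncomputable def hilb (d : σ → ℕ) (I : Ideal (MvPolynomial σ ℂ)) (t : ℕ) : ℕ :=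
  hd (box (t • d)) I

/-- The coordinates in `s` are algebraically independent modulo `p`. -/
def Indep (p : Ideal (MvPolynomial σ ℂ)) (s : Set σ) : Prop :=
  ∀ f ∈ p, f ∈ supported ℂ s → f = 0

end Box

section Reg

variable {R : Type} [CommRing R]

/-- The elements `f` with `U ^ n * f ∈ (ps)` for some `n`. -/
def satI (U : R) (ps : List R) : Ideal R where
  carrier := {f | ∃ n : ℕ, U ^ n * f ∈ Ideal.ofList ps}
  add_mem' := by
    rintro f g ⟨m, hm⟩ ⟨n, hn⟩
    refine ⟨m + n, ?_⟩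
    have h1 : U ^ (m + n) * (f + g) = U ^ n * (U ^ m * f) + U ^ m * (U ^ n * g) := by ring
    rw [h1]
    exact Ideal.add_mem _ (Ideal.mul_mem_left _ _ hm) (Ideal.mul_mem_left _ _ hn)
  zero_mem' := ⟨0, by simp⟩
  smul_mem' := by
    rintro c f ⟨n, hn⟩
    refine ⟨n, ?_⟩
    have h1 : U ^ n * (c • f) = c * (U ^ n * f) := by rw [smul_eq_mul]; ring
    rw [h1]
    exact Ideal.mul_mem_left _ _ hn

theorem mem_satI {U : R} {ps : List R} {f : R} :
    f ∈ satI U ps ↔ ∃ n : ℕ, U ^ n * f ∈ Ideal.ofList ps := Iff.rfl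

/-- `ps` is a regular sequence outside the zeros of `U`. -/
inductive RegU (U : R) : List R → Prop
  | nil : RegU U []
  | snoc (ps : List R) (w : R) : RegU U ps → (∀ g, w * g ∈ satI U ps → g ∈ satI U ps) →
      RegU U (ps ++ [w])

end Reg

section Group

variable {ι κ l : Type} [Fintype ι] [Fintype κ] [Fintype l]

/-- The invariant derivation `z_i ↦ v_i`, `Y_k ↦ w_k Y_k`. -/
noncomputable def der (v : ι → ℂ) (w : κ → ℂ) :
    Derivation ℂ (MvPolynomial (ι ⊕ κ) ℂ) (MvPolynomial (ι ⊕ κ) ℂ) :=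
  mkDerivation ℂ (Sum.elim (fun i => C (v i)) (fun k => C (w k) * X (Sum.inr k)))

/-- The translation `z_i ↦ z_i + a_i`, `Y_k ↦ y_k Y_k`. -/
noncomputable def tr (a : ι → ℂ) (y : κ → ℂ) :
    MvPolynomial (ι ⊕ κ) ℂ →ₐ[ℂ] MvPolynomial (ι ⊕ κ) ℂ :=
  aeval (Sum.elim (fun i => X (Sum.inl i) + C (a i)) (fun k => C (y k) * X (Sum.inr k)))

/-- The product of the multiplicative coordinates. -/
noncomputable def UU (ι κ : Type) [Fintype κ] : MvPolynomial (ι ⊕ κ) ℂ := ∏ k : κ, X (Sum.inr k)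

/-- Additive coordinates of the point `s`. -/
noncomputable def addp (a : l → ι → ℂ) (s : l → ℕ) (i : ι) : ℂ := ∑ j, (s j : ℂ) * a j i

/-- Multiplicative coordinates of the point `s`. -/
noncomputable def mulp (y : l → κ → ℂ) (s : l → ℕ) (k : κ) : ℂ := ∏ j, y j k ^ s j

/-- Translation by the point `s`. -/
noncomputable def tau (a : l → ι → ℂ) (y : l → κ → ℂ) (s : l → ℕ) :
    MvPolynomial (ι ⊕ κ) ℂ →ₐ[ℂ] MvPolynomial (ι ⊕ κ) ℂ := tr (addp a s) (mulp y s)

/-- The span of the translated derivatives of `P`. -/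
noncomputable def derivs (D₁ D₂ : Derivation ℂ (MvPolynomial (ι ⊕ κ) ℂ) (MvPolynomial (ι ⊕ κ) ℂ))
    (a : l → ι → ℂ) (y : l → κ → ℂ) (P : MvPolynomial (ι ⊕ κ) ℂ) (T S : ℕ) :
    Submodule ℂ (MvPolynomial (ι ⊕ κ) ℂ) :=
  Submodule.span ℂ {f | ∃ t₁ < T, ∃ t₂ < T, ∃ s : l → ℕ, (∀ j, s j < S) ∧
    f = D₁^[t₁] (D₂^[t₂] (tau a y s P))}

/-- The origin. -/
def origin (ι κ : Type) : ι ⊕ κ → ℂ := Sum.elim (fun _ => 0) (fun _ => 1)

end Group

end SharpSix
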