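import Pool.Agent.SharpSix.ZGroup
import Pool.Agent.SharpSix.ZLower

/-!
# Eigenvectors of derivations and translations in primes
-/

set_option linter.unusedSectionVars false

open MvPolynomial

namespace SharpSix

section general

variable {ι κ : Type} [Fintype ι] [Fintype κ]

theorem derivation_sum_apply {α : Type} (s : Finset α)
    (D : α → Derivation ℂ (MvPolynomial (ι ⊕ κ) ℂ) (MvPolynomial (ι ⊕ κ) ℂ))
    (f : MvPolynomial (ι ⊕ κ) ℂ) : (∑ i ∈ s, D i) f = ∑ i ∈ s, D i f := by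
  classical
  induction s using Finset.induction_on with
  | empty => simp
  | insert a s ha ih => rw [Finset.sum_insert ha, Finset.sum_insert ha, Derivation.add_apply, ih]

theorem der_eq_sum (v : ι → ℂ) (w : κ → ℂ) (f : MvPolynomial (ι ⊕ κ) ℂ) :
    der v w f = ∑ i, C (v i) * pderiv (Sum.inl i) f +
      ∑ k, C (w k) * X (Sum.inr k) * pderiv (Sum.inr k) f := by
  classical
  have h : der v w = ∑ i, (C (v i) : MvPolynomial (ι ⊕ κ) ℂ) • (pderiv (Sum.inl i) :
      Derivation ℂ (MvPolynomial (ι ⊕ κ) ℂ) (MvPolynomial (ι ⊕ κ) ℂ)) +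
      ∑ k, (C (w k) * X (Sum.inr k) : MvPolynomial (ι ⊕ κ) ℂ) • (pderiv (Sum.inr k) :
      Derivation ℂ (MvPolynomial (ι ⊕ κ) ℂ) (MvPolynomial (ι ⊕ κ) ℂ)) := by
    refine MvPolynomial.derivation_ext fun j => ?_
    rcases j with i | k
    · rw [der_X_inl]
      simp [pderiv_X, derivation_sum_apply, Pi.single_apply]
    · rw [der_X_inr]
      simp [pderiv_X, derivation_sum_apply, Pi.single_apply]
  rw [h]
  simp [derivation_sum_apply]

theorem coeff_der (v : ι → ℂ) (w : κ → ℂ) (f : MvPolynomial (ι ⊕ κ) ℂ) (m : ι ⊕ κ →₀ ℕ) :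
    coeff m (der v w f) =
      ∑ i, v i * (coeff (m + Finsupp.single (Sum.inl i) 1) f * ((m (Sum.inl i) : ℂ) + 1)) +
      (∑ k, w k * (m (Sum.inr k) : ℂ)) * coeff m f := by
  classical
  rw [der_eq_sum, coeff_add, coeff_sum, coeff_sum, Finset.sum_mul]
  congr 1
  · refine Finset.sum_congr rfl fun i _ => ?_
    rw [coeff_C_mul, coeff_pderiv]
  · refine Finset.sum_congr rfl fun k _ => ?_
    rw [mul_assoc, coeff_C_mul, mul_assoc]
    congr 1
    rw [coeff_X_mul']
    by_cases h : Sum.inr k ∈ m.support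
    · rw [if_pos h, coeff_pderiv]
      have h1 : 1 ≤ m (Sum.inr k) := Nat.one_le_iff_ne_zero.2 (Finsupp.mem_support_iff.1 h)
      have h2 : m - Finsupp.single (Sum.inr k) 1 + Finsupp.single (Sum.inr k) 1 = m := by
        refine tsub_add_cancel_of_le ?_
        rw [Finsupp.single_le_iff]
        exact h1
      rw [h2]
      have h3 : (((m - Finsupp.single (Sum.inr k : ι ⊕ κ) 1 : ι ⊕ κ →₀ ℕ) (Sum.inr k) : ℕ) : ℂ) + 1
          = (m (Sum.inr k) : ℂ) := by
        rw [Finsupp.tsub_apply, Finsupp.single_eq_same]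
        push_cast [h1]
        ring
      rw [h3, mul_comm]
    · rw [if_neg h]
      rw [Finsupp.mem_support_iff, not_not] at h
      rw [h]
      simp

/-- The degree in the additive variables. -/
def adeg (m : ι ⊕ κ →₀ ℕ) : ℕ := ∑ i, m (Sum.inl i)

theorem adeg_add (m n : ι ⊕ κ →₀ ℕ) : adeg (m + n) = adeg m + adeg n := by
  simp [adeg, Finset.sum_add_distrib]

theorem adeg_single_inl (i : ι) : adeg (Finsupp.single (Sum.inl i : ι ⊕ κ) 1) = 1 := by
  classical
  simp [adeg, Finsupp.single_apply]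

theorem adeg_single_inr (k : κ) : adeg (Finsupp.single (Sum.inr k : ι ⊕ κ) 1) = 0 := by
  simp [adeg]

/-- Eigenvectors of `der v w`: all monomials have the same weight and `der v 0` kills them.
Proof: among the monomials of `f` with weight `≠ μ` take one of maximal degree in the additive
variables and compare coefficients. -/
theorem der_eigen {v : ι → ℂ} {w : κ → ℂ} {f : MvPolynomial (ι ⊕ κ) ℂ} {μ : ℂ}
    (h : der v w f = μ • f) :
    (∀ m ∈ f.support, ∑ k, w k * (m (Sum.inr k) : ℂ) = μ) ∧ der v (0 : κ → ℂ) f = 0 := by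
  classical
  have hrec : ∀ m, ∑ i, v i * (coeff (m + Finsupp.single (Sum.inl i) 1) f *
      ((m (Sum.inl i) : ℂ) + 1)) = (μ - ∑ k, w k * (m (Sum.inr k) : ℂ)) * coeff m f := by
    intro m
    have h1 := congrArg (coeff m) h
    rw [coeff_der, coeff_smul, smul_eq_mul] at h1
    linear_combination h1
  have hμ : ∀ m ∈ f.support, ∑ k, w k * (m (Sum.inr k) : ℂ) = μ := by
    by_contra hne
    push Not at hne
    obtain ⟨m₀, hm₀, hm₀'⟩ := hne
    obtain ⟨m, hm, hmax⟩ := Finset.exists_max_image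
      (f.support.filter fun m => ∑ k, w k * (m (Sum.inr k) : ℂ) ≠ μ) (fun m => adeg m)
      ⟨m₀, Finset.mem_filter.2 ⟨hm₀, hm₀'⟩⟩
    rw [Finset.mem_filter] at hm
    have h1 : ∑ i, v i * (coeff (m + Finsupp.single (Sum.inl i) 1) f *
      ((m (Sum.inl i) : ℂ) + 1)) = 0 := by
      refine Finset.sum_eq_zero fun i _ => ?_
      have h2 : coeff (m + Finsupp.single (Sum.inl i) 1) f = 0 := by
        by_contra h3
        have h4 := hmax (m + Finsupp.single (Sum.inl i) 1) (Finset.mem_filter.2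
          ⟨mem_support_iff.2 h3, by simpa using hm.2⟩)
        simp only [adeg_add, adeg_single_inl] at h4
        omega
      rw [h2]
      ring
    rw [hrec m] at h1
    rcases mul_eq_zero.1 h1 with h3 | h3
    · exact hm.2 (sub_eq_zero.1 h3).symm
    · exact (mem_support_iff.1 hm.1) h3
  refine ⟨hμ, ?_⟩
  ext m
  rw [coeff_der, hrec m, coeff_zero]
  simp only [Pi.zero_apply, zero_mul, Finset.sum_const_zero, add_zero]
  by_cases hm : coeff m f = 0
  · rw [hm, mul_zero]
  · rw [hμ m (mem_support_iff.2 hm), sub_self, zero_mul]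

/-- `g` consists of monomials below `m'` with the same multiplicative exponents. -/
def Low (m' : ι ⊕ κ →₀ ℕ) (g : MvPolynomial (ι ⊕ κ) ℂ) : Prop :=
  ∀ m ∈ g.support, (∀ k, m (Sum.inr k) = m' (Sum.inr k)) ∧ adeg m < adeg m'

/-- `g` consists of monomials at most `m'` with the same multiplicative exponents. -/
def Leq (m' : ι ⊕ κ →₀ ℕ) (g : MvPolynomial (ι ⊕ κ) ℂ) : Prop :=
  ∀ m ∈ g.support, (∀ k, m (Sum.inr k) = m' (Sum.inr k)) ∧ adeg m ≤ adeg m'

theorem Low.leq {m' : ι ⊕ κ →₀ ℕ} {g : MvPolynomial (ι ⊕ κ) ℂ} (h : Low m' g) : Leq m' g :=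
  fun m hm => ⟨(h m hm).1, (h m hm).2.le⟩

theorem Low.add {m' : ι ⊕ κ →₀ ℕ} {g g' : MvPolynomial (ι ⊕ κ) ℂ} (h : Low m' g)
    (h' : Low m' g') : Low m' (g + g') := by
  classical
  intro m hm
  rcases Finset.mem_union.1 (support_add hm) with h1 | h1
  · exact h m h1
  · exact h' m h1

theorem Leq_monomial (m' : ι ⊕ κ →₀ ℕ) (c : ℂ) : Leq m' (monomial m' c) := by
  classical
  intro m hm
  rw [mem_support_iff, coeff_monomial] at hm
  have : m' = m := by
    by_contra h
    exact hm (if_neg h)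
  subst this
  exact ⟨fun _ => rfl, le_rfl⟩

theorem Leq.C_mul {m' : ι ⊕ κ →₀ ℕ} {g : MvPolynomial (ι ⊕ κ) ℂ} (h : Leq m' g) (c : ℂ) :
    Leq m' (C c * g) := by
  intro m hm
  rw [mem_support_iff, coeff_C_mul] at hm
  exact h m (mem_support_iff.2 (right_ne_zero_of_mul hm))

theorem Low.mul_leq {m' m'' : ι ⊕ κ →₀ ℕ} {g g' : MvPolynomial (ι ⊕ κ) ℂ} (h : Low m' g)
    (h' : Leq m'' g') : Low (m' + m'') (g * g') := by
  classical
  intro m hm
  obtain ⟨a, ha, b, hb, rfl⟩ := Finset.mem_add.1 (support_mul g g' hm)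
  obtain ⟨h1, h2⟩ := h a ha
  obtain ⟨h3, h4⟩ := h' b hb
  refine ⟨fun k => ?_, ?_⟩
  · simp [h1 k, h3 k]
  · rw [adeg_add, adeg_add]; omega

theorem Leq.mul_low {m' m'' : ι ⊕ κ →₀ ℕ} {g g' : MvPolynomial (ι ⊕ κ) ℂ} (h : Leq m' g)
    (h' : Low m'' g') : Low (m' + m'') (g * g') := by
  rw [mul_comm, add_comm]
  exact h'.mul_leq h

/-- The weight of a monomial under the multiplicative part of a translation. -/
noncomputable def mwt (y : κ → ℂ) (m : ι ⊕ κ →₀ ℕ) : ℂ := ∏ k, y k ^ m (Sum.inr k)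

theorem mwt_add (y : κ → ℂ) (m n : ι ⊕ κ →₀ ℕ) : mwt y (m + n) = mwt y m * mwt y n := by
  simp [mwt, pow_add, Finset.prod_mul_distrib]

theorem tr_low (a : ι → ℂ) (y : κ → ℂ) (m' : ι ⊕ κ →₀ ℕ) (c : ℂ) :
    Low m' (tr a y (monomial m' c) - C (mwt y m') * monomial m' c) := by
  classical
  have key : ∀ m' : ι ⊕ κ →₀ ℕ,
      Low m' (tr a y (monomial m' 1) - C (mwt y m') * monomial m' 1) := by
    intro m'
    have hadd : ∀ m n : ι ⊕ κ →₀ ℕ,
        Low m (tr a y (monomial m 1) - C (mwt y m) * monomial m 1) →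
        Low n (tr a y (monomial n 1) - C (mwt y n) * monomial n 1) →
        Low (m + n) (tr a y (monomial (m + n) 1) - C (mwt y (m + n)) * monomial (m + n) 1) := by
      intro m n hm hn
      have e1 : (monomial (m + n) (1 : ℂ) : MvPolynomial (ι ⊕ κ) ℂ) =
          monomial m 1 * monomial n 1 := by rw [monomial_mul, one_mul]
      rw [e1, map_mul, mwt_add, C_mul]
      have e2 : tr a y (monomial m 1) * tr a y (monomial n 1) -
          C (mwt y m) * C (mwt y n) * (monomial m 1 * monomial n 1) =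
          (tr a y (monomial m 1) - C (mwt y m) * monomial m 1) *
            (tr a y (monomial n 1) - C (mwt y n) * monomial n 1) +
          ((tr a y (monomial m 1) - C (mwt y m) * monomial m 1) *
            (C (mwt y n) * monomial n 1) +
          (C (mwt y m) * monomial m 1) *
            (tr a y (monomial n 1) - C (mwt y n) * monomial n 1)) := by ring
      rw [e2]
      exact (hm.mul_leq hn.leq).add ((hm.mul_leq ((Leq_monomial n 1).C_mul _)).add
        (((Leq_monomial m 1).C_mul _).mul_low hn))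
    have hzero : Low 0 (tr a y (monomial (0 : ι ⊕ κ →₀ ℕ) 1) -
        C (mwt y (0 : ι ⊕ κ →₀ ℕ)) * monomial (0 : ι ⊕ κ →₀ ℕ) 1) := by
      intro m hm
      exfalso
      rw [mem_support_iff] at hm
      apply hm
      have e1 : (monomial (0 : ι ⊕ κ →₀ ℕ) (1 : ℂ)) = (1 : MvPolynomial (ι ⊕ κ) ℂ) := rfl
      rw [e1, map_one]
      simp [mwt]
    have hsingle : ∀ (j : ι ⊕ κ) (n : ℕ), Low (Finsupp.single j n)
        (tr a y (monomial (Finsupp.single j n) 1) -
          C (mwt y (Finsupp.single j n)) * monomial (Finsupp.single j n) 1) := by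
      intro j n
      induction n with
      | zero => rw [Finsupp.single_zero]; exact hzero
      | succ n ih =>
        rw [Finsupp.single_add]
        refine hadd _ _ ih ?_
        have e1 : (monomial (Finsupp.single j 1) (1 : ℂ)) = (X j : MvPolynomial (ι ⊕ κ) ℂ) := rfl
        rw [e1]
        rcases j with i | k
        · rw [tr_X_inl]
          have e2 : mwt y (Finsupp.single (Sum.inl i : ι ⊕ κ) 1) = 1 := by simp [mwt]
          rw [e2, C_1, one_mul, add_sub_cancel_left]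
          intro m hm
          rw [mem_support_iff, coeff_C] at hm
          have h0 : m = 0 := by
            by_contra h
            exact hm (if_neg (Ne.symm h))
          subst h0
          refine ⟨fun k => by simp, ?_⟩
          rw [adeg_single_inl]
          simp [adeg]
        · rw [tr_X_inr]
          have e2 : mwt y (Finsupp.single (Sum.inr k : ι ⊕ κ) 1) = y k := by
            rw [mwt, Finset.prod_eq_single k]
            · simp
            · intro b _ hb
              simp [hb.symm]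
            · simp
          rw [e2, sub_self]
          intro m hm
          simp at hm
    induction m' using Finsupp.induction_linear with
    | zero => exact hzero
    | add f g hf hg => exact hadd f g hf hg
    | single j n => exact hsingle j n
  have e : (monomial m' c : MvPolynomial (ι ⊕ κ) ℂ) = C c * monomial m' 1 := by
    rw [C_mul_monomial, mul_one]
  intro m hm
  refine key m' m ?_
  rw [mem_support_iff] at hm ⊢
  intro h0
  apply hm
  rw [e, map_mul, tr_C]
  have e2 : C c * tr a y (monomial m' 1) - C (mwt y m') * (C c * monomial m' 1) =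
      C c * (tr a y (monomial m' 1) - C (mwt y m') * monomial m' 1) := by ring
  rw [e2, coeff_C_mul, h0, mul_zero]

/-- Coefficients of a translate at a monomial of maximal degree in its class. -/
theorem coeff_tr_of_max (a : ι → ℂ) (y : κ → ℂ) (f : MvPolynomial (ι ⊕ κ) ℂ) (m : ι ⊕ κ →₀ ℕ)
    (hmax : ∀ m' ∈ f.support, (∀ k, m (Sum.inr k) = m' (Sum.inr k)) → adeg m' ≤ adeg m) :
    coeff m (tr a y f) = mwt y m * coeff m f := by
  classical
  have h1 : ∀ m' ∈ f.support, coeff m (tr a y (monomial m' (coeff m' f))) =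
      if m' = m then mwt y m * coeff m f else 0 := by
    intro m' hm'
    have h2 := tr_low a y m' (coeff m' f)
    have h3 : coeff m (tr a y (monomial m' (coeff m' f)) -
        C (mwt y m') * monomial m' (coeff m' f)) = 0 := by
      by_contra h4
      obtain ⟨h5, h6⟩ := h2 m (mem_support_iff.2 h4)
      have := hmax m' hm' h5
      omega
    rw [coeff_sub, coeff_C_mul, coeff_monomial, sub_eq_zero] at h3
    rw [h3]
    by_cases h : m' = m
    · subst h; simp
    · simp [h]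
  conv_lhs => rw [f.as_sum, map_sum, coeff_sum]
  rw [Finset.sum_congr rfl h1, Finset.sum_ite_eq']
  by_cases h : m ∈ f.support
  · rw [if_pos h]
  · rw [if_neg h, notMem_support_iff.1 h, mul_zero]

/-- Eigenvectors of `tr a y`. -/
theorem tr_eigen {a : ι → ℂ} {y : κ → ℂ} {f : MvPolynomial (ι ⊕ κ) ℂ} {μ : ℂ}
    (h : tr a y f = μ • f) (hy : ∀ k, y k ≠ 0) :
    (∀ m ∈ f.support, ∏ k, y k ^ m (Sum.inr k) = μ) ∧ tr a (1 : κ → ℂ) f = f := by
  classical
  have hμ : ∀ m ∈ f.support, ∏ k, y k ^ m (Sum.inr k) = μ := by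
    by_contra hne
    push Not at hne
    obtain ⟨m₀, hm₀, hm₀'⟩ := hne
    obtain ⟨m, hm, hmax⟩ := Finset.exists_max_image
      (f.support.filter fun m => ∏ k, y k ^ m (Sum.inr k) ≠ μ) (fun m => adeg m)
      ⟨m₀, Finset.mem_filter.2 ⟨hm₀, hm₀'⟩⟩
    rw [Finset.mem_filter] at hm
    have h1 := coeff_tr_of_max a y f m (fun m' hm' hk => hmax m' (Finset.mem_filter.2 ⟨hm', by
      simp only [← hk]
      exact hm.2⟩))
    rw [h, coeff_smul, smul_eq_mul] at h1
    exact hm.2 (mul_right_cancel₀ (mem_support_iff.1 hm.1) h1).symm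
  refine ⟨hμ, ?_⟩
  by_cases hf : f = 0
  · rw [hf, map_zero]
  obtain ⟨m₀, hm₀⟩ := Finset.nonempty_iff_ne_empty.2 (fun h0 => hf (support_eq_empty.1 h0))
  have hμ0 : μ ≠ 0 := by
    rw [← hμ m₀ hm₀]
    exact Finset.prod_ne_zero_iff.2 fun k _ => pow_ne_zero _ (hy k)
  -- the multiplicative part acts by the scalar `μ`
  have h2 : tr (0 : ι → ℂ) y f = μ • f := by
    conv_lhs => rw [f.as_sum, map_sum]
    conv_rhs => rw [f.as_sum, Finset.smul_sum]
    refine Finset.sum_congr rfl fun m hm => ?_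
    have h3 : ∀ (m : ι ⊕ κ →₀ ℕ) (c : ℂ),
        tr (0 : ι → ℂ) y (monomial m c) = mwt y m • monomial m c := by
      intro m c
      rw [monomial_eq, map_mul, tr_C, map_finsuppProd]
      simp only [map_pow]
      have h4 : (m.prod fun j n => tr (0 : ι → ℂ) y (X j) ^ n) =
          C (mwt y m) * m.prod fun j n => X j ^ n := by
        rw [Finsupp.prod_fintype _ _ (by simp), Finsupp.prod_fintype _ _ (by simp),
          Fintype.prod_sum_type, Fintype.prod_sum_type]
        simp only [tr_X_inl, tr_X_inr, Pi.zero_apply, C_0, add_zero, mul_pow,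
          Finset.prod_mul_distrib, mwt, map_prod, C_pow]
        ring
      rw [h4, smul_eq_C_mul]
      ring
    rw [h3]
    congr 1
    exact hμ m hm
  have h5 : tr a y f = tr (0 : ι → ℂ) y (tr a (1 : κ → ℂ) f) := by
    rw [tr_tr]
    simp
  have h6 : tr a y f = tr a (1 : κ → ℂ) (tr (0 : ι → ℂ) y f) := by
    rw [tr_tr]
    simp
  rw [h2, map_smul, h] at h6
  exact (smul_right_injective _ hμ0 h6).symm

/-- The translation by `T a`, `T` a new variable. -/
noncomputable def shiftT (a : ι → ℂ) :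
    MvPolynomial (ι ⊕ κ) ℂ →ₐ[ℂ] Polynomial (MvPolynomial (ι ⊕ κ) ℂ) :=
  aeval (Sum.elim (fun i => Polynomial.C (X (Sum.inl i)) + Polynomial.X *
    Polynomial.C (C (a i))) (fun k => Polynomial.C (X (Sum.inr k))))

theorem shiftT_eval_nat (a : ι → ℂ) (f : MvPolynomial (ι ⊕ κ) ℂ) (c : ℂ) :
    (shiftT a f).eval (C c) = tr (c • a) (1 : κ → ℂ) f := by
  have h : (((Polynomial.evalRingHom (C c : MvPolynomial (ι ⊕ κ) ℂ)).comp
      (shiftT (κ := κ) a).toRingHom)) = (tr (c • a) (1 : κ → ℂ)).toRingHom := by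
    refine MvPolynomial.ringHom_ext (fun r => ?_) (fun j => ?_)
    · simp only [RingHom.comp_apply, AlgHom.toRingHom_eq_coe, RingHom.coe_coe,
        Polynomial.coe_evalRingHom, tr_C]
      rw [shiftT, aeval_C]
      simp
    · rcases j with i | k
      · simp only [RingHom.comp_apply, AlgHom.toRingHom_eq_coe, RingHom.coe_coe,
          Polynomial.coe_evalRingHom, tr_X_inl]
        rw [shiftT, aeval_X]
        simp
        exact mul_comm _ _
      · simp only [RingHom.comp_apply, AlgHom.toRingHom_eq_coe, RingHom.coe_coe,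
          Polynomial.coe_evalRingHom, tr_X_inr]
        rw [shiftT, aeval_X]
        simp
  exact DFunLike.congr_fun h f

theorem tr_nsmul {a : ι → ℂ} {f : MvPolynomial (ι ⊕ κ) ℂ} (h : tr a (1 : κ → ℂ) f = f) (n : ℕ) :
    tr ((n : ℂ) • a) (1 : κ → ℂ) f = f := by
  induction n with
  | zero => simpa using tr_zero f
  | succ n ih =>
    have e : (((n + 1 : ℕ) : ℂ) • a) = (n : ℂ) • a + a := by
      push_cast; rw [add_smul, one_smul]
    have e2 := tr_tr ((n : ℂ) • a) a (1 : κ → ℂ) 1 f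
    rw [mul_one] at e2
    rw [e, ← e2, h, ih]

theorem shiftT_eq {a : ι → ℂ} {f : MvPolynomial (ι ⊕ κ) ℂ} (h : tr a (1 : κ → ℂ) f = f) :
    shiftT a f = Polynomial.C f := by
  refine Polynomial.eq_of_infinite_eval_eq _ _ ?_
  refine Set.Infinite.mono (s := Set.range fun n : ℕ => (C (n : ℂ) : MvPolynomial (ι ⊕ κ) ℂ)) ?_ ?_
  · rintro _ ⟨n, rfl⟩
    simp only [Set.mem_ofPred_eq, Polynomial.eval_C]
    rw [shiftT_eval_nat, tr_nsmul h]
  · refine Set.infinite_range_of_injective fun m n hmn => ?_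
    have := C_injective (ι ⊕ κ) ℂ hmn
    exact_mod_cast this

/-- A translation-invariant polynomial is killed by the derivation in the same direction. -/
theorem der_of_tr {a : ι → ℂ} {f : MvPolynomial (ι ⊕ κ) ℂ} (h : tr a (1 : κ → ℂ) f = f) :
    der a (0 : κ → ℂ) f = 0 := by
  -- the derivative of `shiftT` at `T = 0`
  have key : ∀ f : MvPolynomial (ι ⊕ κ) ℂ,
      (Polynomial.derivative (shiftT a f)).eval 0 = der a (0 : κ → ℂ) f := by
    intro f
    induction f using MvPolynomial.induction_on with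
    | C c =>
      rw [der_C, shiftT, aeval_C]
      have : (algebraMap ℂ (Polynomial (MvPolynomial (ι ⊕ κ) ℂ))) c = Polynomial.C (C c) := rfl
      rw [this, Polynomial.derivative_C, Polynomial.eval_zero]
    | add f g hf hg => rw [map_add, map_add, Polynomial.eval_add, hf, hg, map_add]
    | mul_X f j hf =>
      have h0 : ∀ f : MvPolynomial (ι ⊕ κ) ℂ, (shiftT a f).eval 0 = f := by
        intro f
        have := shiftT_eval_nat (κ := κ) a f 0
        rw [zero_smul, C_0, tr_zero] at this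
        exact this
      rw [map_mul, Polynomial.derivative_mul, Polynomial.eval_add, Polynomial.eval_mul,
        Polynomial.eval_mul, hf, h0, h0, Derivation.leibniz]
      have h1 : (Polynomial.derivative (shiftT a (X j : MvPolynomial (ι ⊕ κ) ℂ))).eval 0 =
          der a (0 : κ → ℂ) (X j) := by
        rcases j with i | k
        · rw [der_X_inl, shiftT, aeval_X]
          simp
        · rw [der_X_inr, shiftT, aeval_X]
          simp
      rw [h1]
      simp only [smul_eq_mul]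
      ring
  rw [← key, shiftT_eq h, Polynomial.derivative_C, Polynomial.eval_zero]

theorem mem_supported_iff {σ : Type} {s : Set σ} {f : MvPolynomial σ ℂ} :
    f ∈ supported ℂ s ↔ ∀ m ∈ f.support, ∀ j, j ∉ s → m j = 0 := by
  rw [mem_supported]
  constructor
  · intro h m hm j hj
    by_contra h0
    exact hj (h (Finset.mem_coe.2 ((mem_vars_iff_mem_support j).2 ⟨m, hm, Finsupp.mem_support_iff.2 h0⟩)))
  · intro h j hj
    obtain ⟨m, hm, hj'⟩ := (mem_vars_iff_mem_support j).1 (Finset.mem_coe.1 hj)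
    by_contra h0
    exact (Finsupp.mem_support_iff.1 hj') (h m hm j h0)

/-- Existence of eigenvectors in a stable subspace, general form. -/
theorem exists_eigen_gen (L : MvPolynomial (ι ⊕ κ) ℂ →ₗ[ℂ] MvPolynomial (ι ⊕ κ) ℂ)
    (hL : ∀ d : ι ⊕ κ → ℕ, ∀ f ∈ box d, L f ∈ box d) (s : Set (ι ⊕ κ))
    (hL' : ∀ f ∈ supported ℂ s, L f ∈ supported ℂ s)
    (M : Submodule ℂ (MvPolynomial (ι ⊕ κ) ℂ))
    (hM : ∀ f ∈ M, L f ∈ M) {f : MvPolynomial (ι ⊕ κ) ℂ} (hf : f ∈ M)
    (hf0 : f ≠ 0) (hfs : f ∈ supported ℂ s) :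
    ∃ g ∈ M, g ≠ 0 ∧ g ∈ supported ℂ s ∧ ∃ μ : ℂ, L g = μ • g := by
  obtain ⟨c, hc⟩ := exists_box f (fun _ => 1) (fun _ => one_pos)
  have hfd := hc c le_rfl
  set d : ι ⊕ κ → ℕ := c • (fun _ => 1) with hd
  let U : Submodule ℂ (MvPolynomial (ι ⊕ κ) ℂ) :=
    M ⊓ (box d ⊓ (supported ℂ s).toSubmodule)
  have hU : ∀ g ∈ U, L g ∈ U := fun g hg =>
    ⟨hM g hg.1, hL d g hg.2.1, hL' g hg.2.2⟩
  have hfin : Module.Finite ℂ U := by
    have : U ≤ box d := inf_le_right.trans inf_le_left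
    exact Submodule.finiteDimensional_of_le this
  have hnt : Nontrivial U :=
    ⟨⟨⟨f, hf, hfd, hfs⟩, 0, fun h => hf0 (congrArg Subtype.val h)⟩⟩
  obtain ⟨μ, hμ⟩ := Module.End.exists_eigenvalue (L.restrict hU)
  obtain ⟨w, hw⟩ := hμ.exists_hasEigenvector
  have hw1 := hw.apply_eq_smul
  have hw0 := hw.2
  have h1 : L (w : MvPolynomial (ι ⊕ κ) ℂ) = μ • (w : MvPolynomial (ι ⊕ κ) ℂ) :=
    congrArg Subtype.val hw1
  have h2 : (w : MvPolynomial (ι ⊕ κ) ℂ) ≠ 0 := fun h => hw0 (Subtype.ext h)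
  exact ⟨w, w.2.1, h2, w.2.2.2, μ, h1⟩

/-- Existence of eigenvectors in a stable subspace. -/
theorem exists_eigen_der (M : Submodule ℂ (MvPolynomial (ι ⊕ κ) ℂ)) (v : ι → ℂ) (w : κ → ℂ)
    (hM : ∀ f ∈ M, der v w f ∈ M) (s : Set (ι ⊕ κ)) {f : MvPolynomial (ι ⊕ κ) ℂ} (hf : f ∈ M)
    (hf0 : f ≠ 0) (hfs : f ∈ supported ℂ s) :
    ∃ g ∈ M, g ≠ 0 ∧ g ∈ supported ℂ s ∧ ∃ μ : ℂ, der v w g = μ • g :=
  exists_eigen_gen (der v w : MvPolynomial (ι ⊕ κ) ℂ →ₗ[ℂ] MvPolynomial (ι ⊕ κ) ℂ)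
    (fun _ _ h => der_mem_box v w h) s (fun _ h => der_mem_supported v w h) M hM hf hf0 hfs

theorem exists_eigen_der₂ (M : Submodule ℂ (MvPolynomial (ι ⊕ κ) ℂ)) (v v' : ι → ℂ)
    (w w' : κ → ℂ) (hM : ∀ f ∈ M, der v w f ∈ M) (hM' : ∀ f ∈ M, der v' w' f ∈ M)
    (s : Set (ι ⊕ κ)) {f : MvPolynomial (ι ⊕ κ) ℂ} (hf : f ∈ M)
    (hf0 : f ≠ 0) (hfs : f ∈ supported ℂ s) :
    ∃ g ∈ M, g ≠ 0 ∧ g ∈ supported ℂ s ∧ (∃ μ : ℂ, der v w g = μ • g) ∧
      ∃ μ : ℂ, der v' w' g = μ • g := by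
  obtain ⟨g, hg, hg0, hgs, μ, hμ⟩ := exists_eigen_der M v w hM s hf hf0 hfs
  let M' : Submodule ℂ (MvPolynomial (ι ⊕ κ) ℂ) :=
    M ⊓ Module.End.eigenspace (der v w : MvPolynomial (ι ⊕ κ) ℂ →ₗ[ℂ] MvPolynomial (ι ⊕ κ) ℂ) μ
  have hM'1 : ∀ f, f ∈ M' ↔ f ∈ M ∧ der v w f = μ • f := fun f => by
    simp only [M', Submodule.mem_inf, Module.End.mem_eigenspace_iff]
    rfl
  have hst : ∀ f ∈ M', der v' w' f ∈ M' := by
    intro f hf
    rw [hM'1] at hf ⊢
    exact ⟨hM' f hf.1, by rw [der_comm, hf.2, Derivation.map_smul]⟩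
  obtain ⟨g', hg', hg'0, hg's, μ', hμ'⟩ :=
    exists_eigen_der M' v' w' hst s ((hM'1 g).2 ⟨hg, hμ⟩) hg0 hgs
  exact ⟨g', ((hM'1 g').1 hg').1, hg'0, hg's, ⟨μ, ((hM'1 g').1 hg').2⟩, μ', hμ'⟩

theorem exists_eigen_tr (M : Submodule ℂ (MvPolynomial (ι ⊕ κ) ℂ)) (a : ι → ℂ) (y : κ → ℂ)
    (hM : ∀ f ∈ M, tr a y f ∈ M) (s : Set (ι ⊕ κ)) {f : MvPolynomial (ι ⊕ κ) ℂ} (hf : f ∈ M)
    (hf0 : f ≠ 0) (hfs : f ∈ supported ℂ s) :
    ∃ g ∈ M, g ≠ 0 ∧ g ∈ supported ℂ s ∧ ∃ μ : ℂ, tr a y g = μ • g :=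
  exists_eigen_gen (tr a y).toLinearMap
    (fun _ _ h => tr_mem_box a y h) s (fun _ h => tr_mem_supported a y h) M hM hf hf0 hfs

/-- Factor out a variable with constant exponent. -/
theorem factor_X {σ : Type} (g : MvPolynomial σ ℂ) (j : σ) (n : ℕ)
    (h : ∀ m ∈ g.support, m j = n) :
    ∃ g' : MvPolynomial σ ℂ, g = X j ^ n * g' ∧
      ∀ m ∈ g'.support, m j = 0 ∧ m + Finsupp.single j n ∈ g.support := by
  classical
  refine ⟨divMonomial g (Finsupp.single j n), ?_, ?_⟩
  · rw [X_pow_eq_monomial]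
    ext m
    rw [coeff_monomial_mul']
    by_cases hm : Finsupp.single j n ≤ m
    · rw [if_pos hm, coeff_divMonomial, one_mul, add_tsub_cancel_of_le hm]
    · rw [if_neg hm]
      by_contra h0
      have h1 := h m (mem_support_iff.2 h0)
      apply hm
      rw [Finsupp.single_le_iff, h1]
  · intro m hm
    rw [mem_support_iff, coeff_divMonomial, add_comm] at hm
    have h1 := h _ (mem_support_iff.2 hm)
    refine ⟨?_, mem_support_iff.2 hm⟩
    simpa using h1

/-- `p` stable under a translation, `s` independent mod `p`, `Y_k` with non-torsion multiplier: then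
`s ∪ {Y_k}` is independent mod `p`. -/
theorem indep_insert_of_tr (p : Ideal (MvPolynomial (ι ⊕ κ) ℂ)) (hp : p.IsPrime) (a : ι → ℂ)
    (y : κ → ℂ) (hy : ∀ k, y k ≠ 0) (hst : ∀ f ∈ p, tr a y f ∈ p) (k : κ)
    (hk : (X (Sum.inr k) : MvPolynomial (ι ⊕ κ) ℂ) ∉ p)
    (hy' : ∀ m n : ℕ, y k ^ m = y k ^ n → m = n) (s : Set ι) (hs : Indep p (Sum.inl '' s)) :
    Indep p (insert (Sum.inr k) (Sum.inl '' s)) := by
  classical
  intro f hf hfs
  by_contra hf0
  obtain ⟨g, hg, hg0, hgs, μ, hμ⟩ := exists_eigen_tr (p.restrictScalars ℂ) a y hst _ hf hf0 hfs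
  have hg' : g ∈ p := hg
  obtain ⟨h1, -⟩ := tr_eigen hμ hy
  rw [mem_supported_iff] at hgs
  have h2 : ∀ m ∈ g.support, y k ^ m (Sum.inr k) = μ := by
    intro m hm
    rw [← h1 m hm]
    rw [Finset.prod_eq_single k]
    · intro j _ hj
      have : m (Sum.inr j) = 0 := hgs m hm (Sum.inr j) (by
        simp [hj])
      rw [this, pow_zero]
    · simp
  obtain ⟨m₀, hm₀⟩ := Finset.nonempty_iff_ne_empty.2 (fun h0 => hg0 (support_eq_empty.1 h0))
  have h3 : ∀ m ∈ g.support, m (Sum.inr k) = m₀ (Sum.inr k) := fun m hm =>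
    hy' _ _ ((h2 m hm).trans (h2 m₀ hm₀).symm)
  obtain ⟨g', hgg', hg's⟩ := factor_X g (Sum.inr k) _ h3
  have h4 : g' ∈ p := by
    rw [hgg'] at hg'
    rcases hp.mem_or_mem hg' with h5 | h5
    · exact absurd (hp.mem_of_pow_mem _ h5) hk
    · exact h5
  have h5 : g' ∈ supported ℂ (Sum.inl '' s : Set (ι ⊕ κ)) := by
    rw [mem_supported_iff]
    intro m hm j hj
    obtain ⟨h6, h7⟩ := hg's m hm
    by_cases hjk : j = Sum.inr k
    · rw [hjk]; exact h6
    · have h8 := hgs _ h7 j (by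
        rw [Set.mem_insert_iff]
        push Not
        exact ⟨hjk, hj⟩)
      simp only [Finsupp.add_apply] at h8
      omega
  have h6 := hs g' h4 h5
  apply hg0
  rw [hgg', h6, mul_zero]

theorem X_inr_notMem {p : Ideal (MvPolynomial (ι ⊕ κ) ℂ)} (hU : UU ι κ ∉ p) (k : κ) :
    (X (Sum.inr k) : MvPolynomial (ι ⊕ κ) ℂ) ∉ p := by
  intro h
  exact hU (Ideal.mem_of_dvd _ (Finset.dvd_prod_of_mem _ (Finset.mem_univ k)) h)

/-- A nonzero polynomial with constant exponents, not involving the additive coordinates, is not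
in a prime avoiding the occurring multiplicative coordinates. -/
theorem notMem_of_const {σ : Type} (p : Ideal (MvPolynomial σ ℂ)) (hp : p.IsPrime)
    (g : MvPolynomial σ ℂ) (hg0 : g ≠ 0) (m₀ : σ →₀ ℕ)
    (h : ∀ m ∈ g.support, m = m₀) (hX : ∀ j, m₀ j ≠ 0 → (X j : MvPolynomial σ ℂ) ∉ p) :
    g ∉ p := by
  classical
  intro hg
  have h1 : g = monomial m₀ (coeff m₀ g) := by
    ext m
    rw [coeff_monomial]
    by_cases hm : m₀ = m
    · rw [if_pos hm, hm]
    · rw [if_neg hm]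
      by_contra h0
      exact hm (h m (mem_support_iff.2 h0)).symm
  have hc : coeff m₀ g ≠ 0 := by
    intro h0
    rw [h0, monomial_zero] at h1
    exact hg0 h1
  rw [h1, monomial_eq] at hg
  rcases hp.mem_or_mem hg with h2 | h2
  · apply hp.ne_top
    rw [Ideal.eq_top_iff_one]
    have h3 := Ideal.mul_mem_left p (C (coeff m₀ g)⁻¹) h2
    rwa [← C_mul, inv_mul_cancel₀ hc, C_1] at h3
  · rw [Finsupp.prod] at h2
    obtain ⟨j, hj, hj'⟩ := (hp.prod_mem_iff).1 h2
    exact hX j (Finsupp.mem_support_iff.1 hj) (hp.mem_of_pow_mem _ hj')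

/-- Vanishing of `∂_i` means that `z_i` does not occur. -/
theorem exp_zero_of_pderiv {σ : Type} {g : MvPolynomial σ ℂ} {j : σ} (h : pderiv j g = 0) :
    ∀ m ∈ g.support, m j = 0 := by
  intro m hm
  by_contra h0
  have h1 := congrArg (coeff (m - Finsupp.single j 1)) h
  have h2 : m - Finsupp.single j 1 + Finsupp.single j 1 = m := by
    refine tsub_add_cancel_of_le ?_
    rw [Finsupp.single_le_iff]
    omega
  rw [coeff_pderiv, h2, coeff_zero] at h1
  rcases mul_eq_zero.1 h1 with h3 | h3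
  · exact (mem_support_iff.1 hm) h3
  · exact Nat.cast_add_one_ne_zero _ h3

end general

section two

/-- The coordinates `z_i`, `Y_i`, `i = 0, 1`. -/
abbrev R4 := MvPolynomial (Fin 2 ⊕ Fin 2) ℂ

/-- `D_i : z_i ↦ -1, Y_i ↦ Y_i`. -/
noncomputable def DD (i : Fin 2) : Derivation ℂ R4 R4 := der (Pi.single i (-1)) (Pi.single i 1)

/-- Eigenvectors of `DD i`. -/
theorem DD_eigen {i : Fin 2} {g : R4} {μ : ℂ} (h : DD i g = μ • g) :
    (∀ m ∈ g.support, (m (Sum.inr i) : ℂ) = μ) ∧ ∀ m ∈ g.support, m (Sum.inl i) = 0 := by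
  classical
  obtain ⟨h1, h2⟩ := der_eigen h
  refine ⟨fun m hm => ?_, ?_⟩
  · rw [← h1 m hm]
    simp [Pi.single_apply]
  · refine exp_zero_of_pderiv ?_
    rw [der_eq_sum, Finset.sum_eq_single i (fun j _ hj => by simp [hj]) (by simp)] at h2
    simpa using h2

/-- A transversal polynomial in one pair of coordinates. -/
theorem exists_transversal (p : Ideal R4) (hp : p.IsPrime) (i : Fin 2)
    (hY : (X (Sum.inr i) : R4) ∉ p) (h : ¬ Indep p {Sum.inl i, Sum.inr i}) :
    ∃ f ∈ p, f ∈ supported ℂ {Sum.inl i, Sum.inr i} ∧ DD i f ∉ p := by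
  classical
  by_contra hcon
  push Not at hcon
  unfold Indep at h
  push Not at h
  obtain ⟨f, hf, hfs, hf0⟩ := h
  let M : Submodule ℂ R4 := p.restrictScalars ℂ ⊓
    (supported ℂ ({Sum.inl i, Sum.inr i} : Set (Fin 2 ⊕ Fin 2))).toSubmodule
  obtain ⟨g, hg, hg0, hgs, μ, hμ⟩ := exists_eigen_der M (Pi.single i (-1)) (Pi.single i 1)
    (fun f hf => ⟨hcon f hf.1 hf.2, der_mem_supported _ _ hf.2⟩) Set.univ
    (f := f) ⟨hf, hfs⟩ hf0 (by simp)
  obtain ⟨h1, h2⟩ := DD_eigen (i := i) hμ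
  obtain ⟨m₀, hm₀⟩ := Finset.nonempty_iff_ne_empty.2 (fun h0 => hg0 (support_eq_empty.1 h0))
  have hgs' := mem_supported_iff.1 hg.2
  refine notMem_of_const p hp g hg0 m₀ (fun m hm => ?_) (fun j hj => ?_) hg.1
  · ext j
    by_cases hj : j = Sum.inr i
    · rw [hj]
      exact_mod_cast (h1 m hm).trans (h1 m₀ hm₀).symm
    · by_cases hj' : j = Sum.inl i
      · rw [hj', h2 m hm, h2 m₀ hm₀]
      · rw [hgs' m hm j (by simp [hj, hj']), hgs' m₀ hm₀ j (by simp [hj, hj'])]
  · by_cases hj1 : j = Sum.inr i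
    · rw [hj1]; exact hY
    · exfalso
      apply hj
      by_cases hj' : j = Sum.inl i
      · rw [hj', h2 m₀ hm₀]
      · exact hgs' m₀ hm₀ j (by simp [hj1, hj'])

/-- A nonzero prime is not stable under both derivations. -/
theorem exists_unstable (p : Ideal R4) (hp : p.IsPrime) (h0 : p ≠ ⊥) (hU : UU (Fin 2) (Fin 2) ∉ p) :
    ∃ i, ∃ g ∈ p, DD i g ∉ p := by
  classical
  by_contra hcon
  push Not at hcon
  obtain ⟨f, hf, hf0⟩ := Submodule.exists_mem_ne_zero_of_ne_bot h0
  obtain ⟨g, hg, hg0, -, ⟨μ₀, hμ₀⟩, μ₁, hμ₁⟩ := exists_eigen_der₂ (p.restrictScalars ℂ)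
    (Pi.single 0 (-1)) (Pi.single 1 (-1)) (Pi.single 0 1) (Pi.single 1 1)
    (fun f hf => hcon 0 f hf) (fun f hf => hcon 1 f hf) Set.univ (f := f) hf hf0 (by simp)
  obtain ⟨h1, h2⟩ := DD_eigen (i := 0) hμ₀
  obtain ⟨h3, h4⟩ := DD_eigen (i := 1) hμ₁
  obtain ⟨m₀, hm₀⟩ := Finset.nonempty_iff_ne_empty.2 (fun h0 => hg0 (support_eq_empty.1 h0))
  refine notMem_of_const p hp g hg0 m₀ (fun m hm => ?_) (fun j hj => ?_) hg
  · ext j
    rcases j with i | i
    · fin_cases i
      · exact (h2 m hm).trans (h2 m₀ hm₀).symm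
      · exact (h4 m hm).trans (h4 m₀ hm₀).symm
    · fin_cases i
      · exact_mod_cast (h1 m hm).trans (h1 m₀ hm₀).symm
      · exact_mod_cast (h3 m hm).trans (h3 m₀ hm₀).symm
  · rcases j with i | i
    · exfalso
      apply hj
      fin_cases i
      · exact h2 m₀ hm₀
      · exact h4 m₀ hm₀
    · exact X_inr_notMem hU i

/-- Stable under an irrational direction: `z_i, Y_0, Y_1` are independent. -/
theorem indep_of_stable (p : Ideal R4) (hp : p.IsPrime) (hU : UU (Fin 2) (Fin 2) ∉ p)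
    (u : Fin 2 → ℂ) (hu : ∀ m n : ℤ, (m : ℂ) * u 0 + n * u 1 = 0 → m = 0 ∧ n = 0)
    (hst : ∀ f ∈ p, der (-u) u f ∈ p) (i : Fin 2) :
    Indep p {Sum.inl i, Sum.inr 0, Sum.inr 1} := by
  classical
  have hu0 : u 0 ≠ 0 := by
    intro h
    have := hu 1 0 (by simp [h])
    simp at this
  have hu1 : u 1 ≠ 0 := by
    intro h
    have := hu 0 1 (by simp [h])
    simp at this
  have hui : ∀ j, u j ≠ 0 := by
    intro j
    fin_cases j
    · exact hu0
    · exact hu1
  intro f hf hfs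
  by_contra hf0
  obtain ⟨g, hg, hg0, hgs, μ, hμ⟩ := exists_eigen_der (p.restrictScalars ℂ) (-u) u hst _ hf hf0 hfs
  obtain ⟨h1, h2⟩ := der_eigen hμ
  rw [mem_supported_iff] at hgs
  have hother : ∀ j, j ≠ i → ∀ m ∈ g.support, m (Sum.inl j) = 0 := by
    intro j hj m hm
    exact hgs m hm _ (by simp [hj])
  have h3 : pderiv (Sum.inl i) g = 0 := by
    rw [der_eq_sum] at h2
    have h4 : ∀ j, j ≠ i → pderiv (Sum.inl j) g = 0 := by
      intro j hj
      refine pderiv_eq_zero_of_notMem_vars ?_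
      intro hmem
      obtain ⟨m, hm, hm'⟩ := (mem_vars_iff_mem_support (Sum.inl j)).1 hmem
      exact (Finsupp.mem_support_iff.1 hm') (hother j hj m hm)
    rw [Finset.sum_eq_single i (fun j _ hj => by rw [h4 j hj, mul_zero]) (by simp)] at h2
    simp only [Pi.neg_apply, Pi.zero_apply, C_0, zero_mul, Finset.sum_const_zero, add_zero] at h2
    rcases mul_eq_zero.1 h2 with h5 | h5
    · rw [C_eq_zero, neg_eq_zero] at h5
      exact absurd h5 (hui i)
    · exact h5
  have h4 := exp_zero_of_pderiv h3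
  obtain ⟨m₀, hm₀⟩ := Finset.nonempty_iff_ne_empty.2 (fun h0 => hg0 (support_eq_empty.1 h0))
  have h5 : ∀ m ∈ g.support, m (Sum.inr 0) = m₀ (Sum.inr 0) ∧ m (Sum.inr 1) = m₀ (Sum.inr 1) := by
    intro m hm
    have h6 := (h1 m hm).trans (h1 m₀ hm₀).symm
    rw [Fin.sum_univ_two, Fin.sum_univ_two] at h6
    have h7 := hu ((m (Sum.inr 0) : ℤ) - m₀ (Sum.inr 0)) ((m (Sum.inr 1) : ℤ) - m₀ (Sum.inr 1)) (by
      push_cast
      linear_combination h6)
    omega
  have hzero : ∀ m ∈ g.support, ∀ j, m (Sum.inl j) = 0 := by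
    intro m hm j
    by_cases hj : j = i
    · rw [hj]; exact h4 m hm
    · exact hother j hj m hm
  refine notMem_of_const p hp g hg0 m₀ (fun m hm => ?_) (fun j hj => ?_) hg
  · ext j
    rcases j with j | j
    · rw [hzero m hm j, hzero m₀ hm₀ j]
    · fin_cases j
      · exact (h5 m hm).1
      · exact (h5 m hm).2
  · rcases j with j | j
    · exact absurd (hzero m₀ hm₀ j) hj
    · exact X_inr_notMem hU j

/-- Stable under `D_i` and `z_i, Y_0, Y_1` dependent: the other `Y_j` is constant. -/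
theorem const_of_stable (p : Ideal R4) (hp : p.IsPrime) (i j : Fin 2) (hij : i ≠ j)
    (hY : (X (Sum.inr i) : R4) ∉ p) (hst : ∀ f ∈ p, DD i f ∈ p)
    (h : ¬ Indep p {Sum.inl i, Sum.inr 0, Sum.inr 1}) :
    ∃ c : ℂ, (X (Sum.inr j) - C c : R4) ∈ p := by
  classical
  unfold Indep at h
  push Not at h
  obtain ⟨f, hf, hfs, hf0⟩ := h
  obtain ⟨g, hg, hg0, hgs, μ, hμ⟩ := exists_eigen_der (p.restrictScalars ℂ)
    (Pi.single i (-1)) (Pi.single i 1) hst _ (f := f) hf hf0 hfs
  have hg' : g ∈ p := hg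
  obtain ⟨h1, h2⟩ := DD_eigen (i := i) hμ
  rw [mem_supported_iff] at hgs
  obtain ⟨m₀, hm₀⟩ := Finset.nonempty_iff_ne_empty.2 (fun h0 => hg0 (support_eq_empty.1 h0))
  have h3 : ∀ m ∈ g.support, m (Sum.inr i) = m₀ (Sum.inr i) := fun m hm => by
    exact_mod_cast (h1 m hm).trans (h1 m₀ hm₀).symm
  obtain ⟨g', hgg', hg's⟩ := factor_X g (Sum.inr i) _ h3
  have h4 : g' ∈ p := by
    rw [hgg'] at hg'
    rcases hp.mem_or_mem hg' with h5 | h5
    · exact absurd (hp.mem_of_pow_mem _ h5) hY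
    · exact h5
  have hg'0 : g' ≠ 0 := by
    rintro rfl
    apply hg0
    rw [hgg', mul_zero]
  -- only `Y_j` occurs in `g'`
  have h5 : ∀ m ∈ g'.support, ∀ l, l ≠ Sum.inr j → m l = 0 := by
    intro m hm l hl
    obtain ⟨h6, h7⟩ := hg's m hm
    rcases l with l | l
    · by_cases hli : l = i
      · have h8 := h2 _ h7
        rw [hli]
        simpa using h8
      · have h8 := hgs _ h7 (Sum.inl l) (by simp [hli])
        simpa using h8
    · have hli : l = i := by
        have : l ≠ j := fun h => hl (by rw [h])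
        omega
      rw [hli]
      exact h6
  set q : Polynomial ℂ := aeval (fun l => if l = Sum.inr j then Polynomial.X else 0) g' with hq
  have hqg : Polynomial.aeval (X (Sum.inr j) : R4) q = g' := by
    have h6 : Polynomial.aeval (X (Sum.inr j) : R4) q =
        aeval (fun l => Polynomial.aeval (X (Sum.inr j) : R4)
          (if l = Sum.inr j then (Polynomial.X : Polynomial ℂ) else 0)) g' := by
      rw [hq, ← AlgHom.comp_apply, comp_aeval]
    rw [h6]
    have h7 : g' ∈ supported ℂ ({Sum.inr j} : Set (Fin 2 ⊕ Fin 2)) := by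
      rw [mem_supported_iff]
      intro m hm l hl
      exact h5 m hm l (by simpa using hl)
    conv_rhs => rw [← aeval_X_left_apply g']
    rw [mem_supported] at h7
    refine eval₂Hom_congr' rfl (fun l hl _ => ?_) rfl
    have : l = Sum.inr j := by simpa using h7 (Finset.mem_coe.2 hl)
    simp [this]
  have hq0 : q ≠ 0 := by
    intro h0
    rw [h0, map_zero] at hqg
    exact hg'0 hqg.symm
  exact exists_root_of_mem p hp (X (Sum.inr j)) hq0 (by rw [hqg]; exact h4)

/-- A polynomial in `z_0, z_1` invariant under a translation is a polynomial in a linear form. -/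
theorem linear_aux (g : R4) (u : Fin 2 → ℂ) (hg : tr u (1 : Fin 2 → ℂ) g = g)
    (hgs : g ∈ supported ℂ ({Sum.inl 0, Sum.inl 1} : Set (Fin 2 ⊕ Fin 2))) (j₀ j₁ : Fin 2)
    (hj : j₀ ≠ j₁) (hu : u j₀ ≠ 0) (ℓ : R4) (c : ℂ)
    (hℓ : (X (Sum.inl j₁) - C (u j₁ / u j₀) * X (Sum.inl j₀) : R4) = C c * ℓ) :
    ∃ q : Polynomial ℂ, Polynomial.aeval ℓ q = g := by
  classical
  refine ⟨aeval (fun l => if l = Sum.inl j₁ then Polynomial.C c * Polynomial.X else 0) g, ?_⟩
  have h1 : Polynomial.aeval ℓ (aeval (fun l => if l = Sum.inl j₁ then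
      Polynomial.C c * Polynomial.X else 0) g) =
      aeval (fun l => Polynomial.aeval ℓ (if l = Sum.inl j₁ then
        Polynomial.C c * Polynomial.X else (0 : Polynomial ℂ))) g := by
    rw [← AlgHom.comp_apply, comp_aeval]
  set t : R4 := C (-(u j₀)⁻¹) * X (Sum.inl j₀) with ht
  have h2 : (shiftT u g).eval t = g := by
    rw [shiftT_eq hg, Polynomial.eval_C]
  have h3 : (shiftT u g).eval t = aeval (Sum.elim (fun i => (X (Sum.inl i) + t * C (u i) : R4))
      (fun k => X (Sum.inr k))) g := by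
    have h4 : (((Polynomial.evalRingHom t).comp (shiftT (κ := Fin 2) u).toRingHom)) =
        (aeval (Sum.elim (fun i => (X (Sum.inl i) + t * C (u i) : R4))
          (fun k => X (Sum.inr k)))).toRingHom := by
      refine MvPolynomial.ringHom_ext (fun r => ?_) (fun j => ?_)
      · simp only [RingHom.comp_apply, AlgHom.toRingHom_eq_coe, RingHom.coe_coe,
          Polynomial.coe_evalRingHom]
        rw [shiftT, aeval_C, aeval_C]
        simp
      · rcases j with i | k
        · simp only [RingHom.comp_apply, AlgHom.toRingHom_eq_coe, RingHom.coe_coe,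
            Polynomial.coe_evalRingHom]
          rw [shiftT, aeval_X, aeval_X]
          simp
          exact mul_comm _ _
        · simp only [RingHom.comp_apply, AlgHom.toRingHom_eq_coe, RingHom.coe_coe,
            Polynomial.coe_evalRingHom]
          rw [shiftT, aeval_X, aeval_X]
          simp
    exact DFunLike.congr_fun h4 g
  rw [h1]
  conv_rhs => rw [← h2, h3]
  rw [mem_supported] at hgs
  refine eval₂Hom_congr' rfl (fun l hl _ => ?_) rfl
  have hl' := hgs (Finset.mem_coe.2 hl)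
  have hl2 : l = Sum.inl j₀ ∨ l = Sum.inl j₁ := by
    rcases hl' with h5 | h5
    · rw [h5]
      by_cases h6 : j₀ = 0
      · left; rw [h6]
      · right
        have : j₁ = 0 := by omega
        rw [this]
    · rw [Set.mem_singleton_iff] at h5
      rw [h5]
      by_cases h6 : j₀ = 1
      · left; rw [h6]
      · right
        have : j₁ = 1 := by omega
        rw [this]
  rcases hl2 with h5 | h5
  · rw [h5, if_neg (fun h => hj (Sum.inl_injective h)), map_zero]
    simp only [Sum.elim_inl]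
    rw [ht]
    have h6 : (C (-(u j₀)⁻¹) * X (Sum.inl j₀) * C (u j₀) : R4) = - X (Sum.inl j₀) := by
      rw [mul_comm, ← mul_assoc, ← C_mul, mul_neg, mul_inv_cancel₀ hu, C_neg, C_1]
      ring
    rw [h6]
    ring
  · rw [h5, if_pos rfl]
    simp only [Sum.elim_inl, map_mul, Polynomial.aeval_C, Polynomial.aeval_X]
    have h6 : (X (Sum.inl j₁) + t * C (u j₁) : R4) =
        X (Sum.inl j₁) - C (u j₁ / u j₀) * X (Sum.inl j₀) := by
      rw [ht, div_eq_mul_inv, C_mul, C_neg]
      ring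
    rw [h6, hℓ]
    rfl

/-- Stable under a translation with additive part `u ≠ 0` and `z_0, z_1` dependent: a linear
relation. -/
theorem linear_of_tr (p : Ideal R4) (hp : p.IsPrime) (u : Fin 2 → ℂ) (hu : u ≠ 0)
    (y : Fin 2 → ℂ) (hy : ∀ k, y k ≠ 0) (hst : ∀ f ∈ p, tr u y f ∈ p)
    (h : ¬ Indep p {Sum.inl 0, Sum.inl 1}) :
    ∃ c : ℂ, (C (u 1) * X (Sum.inl 0) - C (u 0) * X (Sum.inl 1) - C c : R4) ∈ p := by
  classical
  unfold Indep at h
  push Not at h
  obtain ⟨f, hf, hfs, hf0⟩ := h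
  obtain ⟨g, hg, hg0, hgs, μ, hμ⟩ := exists_eigen_tr (p.restrictScalars ℂ) u y hst _ (f := f)
    hf hf0 hfs
  obtain ⟨-, h2⟩ := tr_eigen hμ hy
  have hq : ∃ q : Polynomial ℂ,
      Polynomial.aeval (C (u 1) * X (Sum.inl 0) - C (u 0) * X (Sum.inl 1) : R4) q = g := by
    by_cases h0 : u 0 = 0
    · have h1 : u 1 ≠ 0 := by
        intro h1
        apply hu
        ext j
        fin_cases j
        · exact h0
        · exact h1
      refine linear_aux g u h2 hgs 1 0 (by decide) h1 _ (u 1)⁻¹ ?_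
      rw [mul_sub, ← mul_assoc, ← mul_assoc, ← C_mul, ← C_mul, inv_mul_cancel₀ h1, C_1, one_mul,
        div_eq_mul_inv, mul_comm (u 1)⁻¹]
    · refine linear_aux g u h2 hgs 0 1 (by decide) h0 _ (-(u 0)⁻¹) ?_
      rw [mul_sub, ← mul_assoc, ← mul_assoc, ← C_mul, ← C_mul, neg_mul, neg_mul,
        inv_mul_cancel₀ h0, C_neg, C_neg, C_1, div_eq_mul_inv, mul_comm (u 0)⁻¹]
      ring
  obtain ⟨q, hq⟩ := hq
  have hq0 : q ≠ 0 := by
    rintro rfl
    rw [map_zero] at hq
    exact hg0 hq.symm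
  exact exists_root_of_mem p hp _ hq0 (by rw [hq]; exact hg)

end two

end SharpSix
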