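import Pool.Agent.SharpSix.ZHilb

/-!
# Invariant derivations and translations
-/

set_option linter.unusedSectionVars false

open MvPolynomial


namespace SharpSix

variable {ι κ l : Type} [Fintype ι] [Fintype κ] [Fintype l]

theorem der_C (v : ι → ℂ) (w : κ → ℂ) (c : ℂ) : der v w (C c) = 0 := by
  rw [← algebraMap_eq]
  exact (der v w).map_algebraMap c

theorem der_X_inl (v : ι → ℂ) (w : κ → ℂ) (i : ι) : der v w (X (Sum.inl i)) = C (v i) := by
  simp [der]

theorem der_X_inr (v : ι → ℂ) (w : κ → ℂ) (k : κ) :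
    der v w (X (Sum.inr k)) = C (w k) * X (Sum.inr k) := by
  simp [der]

theorem tr_C (a : ι → ℂ) (y : κ → ℂ) (c : ℂ) : tr a y (C c) = C c := by
  rw [← algebraMap_eq]
  exact (tr a y).commutes c

theorem tr_X_inl (a : ι → ℂ) (y : κ → ℂ) (i : ι) :
    tr a y (X (Sum.inl i)) = X (Sum.inl i) + C (a i) := by
  simp [tr]

theorem tr_X_inr (a : ι → ℂ) (y : κ → ℂ) (k : κ) :
    tr a y (X (Sum.inr k)) = C (y k) * X (Sum.inr k) := by
  simp [tr]

theorem tr_tr (a a' : ι → ℂ) (y y' : κ → ℂ) (f : MvPolynomial (ι ⊕ κ) ℂ) :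
    tr a y (tr a' y' f) = tr (a + a') (y * y') f := by
  have h : (tr a y).comp (tr a' y') = tr (a + a') (y * y') := by
    refine MvPolynomial.algHom_ext fun i => ?_
    rw [AlgHom.comp_apply]
    rcases i with i | k
    · rw [tr_X_inl, tr_X_inl, map_add, tr_X_inl, tr_C, Pi.add_apply, C_add, add_assoc]
    · rw [tr_X_inr, tr_X_inr, map_mul, tr_X_inr, tr_C, Pi.mul_apply, C_mul]
      ring
  exact congrArg (fun g => g f) h

theorem tr_zero (f : MvPolynomial (ι ⊕ κ) ℂ) : tr (0 : ι → ℂ) (1 : κ → ℂ) f = f := by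
  have h : tr (0 : ι → ℂ) (1 : κ → ℂ) = AlgHom.id ℂ _ := by
    refine MvPolynomial.algHom_ext fun i => ?_
    rcases i with i | k
    · rw [tr_X_inl]; simp
    · rw [tr_X_inr]; simp
  rw [h]; rfl

theorem tr_inv (a : ι → ℂ) (y : κ → ℂ) (hy : ∀ k, y k ≠ 0) (f : MvPolynomial (ι ⊕ κ) ℂ) :
    tr a y (tr (-a) y⁻¹ f) = f := by
  have h : y * y⁻¹ = 1 := by
    funext k
    simp [hy k]
  rw [tr_tr, add_neg_cancel, h, tr_zero]

theorem tr_inv' (a : ι → ℂ) (y : κ → ℂ) (hy : ∀ k, y k ≠ 0) (f : MvPolynomial (ι ⊕ κ) ℂ) :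
    tr (-a) y⁻¹ (tr a y f) = f := by
  have h : y⁻¹ * y = 1 := by
    funext k
    simp [hy k]
  rw [tr_tr, neg_add_cancel, h, tr_zero]

theorem eval_tr (a : ι → ℂ) (y : κ → ℂ) (x : ι ⊕ κ → ℂ) (f : MvPolynomial (ι ⊕ κ) ℂ) :
    eval x (tr a y f) =
      eval (Sum.elim (fun i => x (Sum.inl i) + a i) (fun k => y k * x (Sum.inr k))) f := by
  have h : (aeval x : MvPolynomial (ι ⊕ κ) ℂ →ₐ[ℂ] ℂ).comp (tr a y) =
      aeval (Sum.elim (fun i => x (Sum.inl i) + a i) (fun k => y k * x (Sum.inr k))) := by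
    refine MvPolynomial.algHom_ext fun i => ?_
    rw [AlgHom.comp_apply, aeval_X]
    rcases i with i | k
    · rw [tr_X_inl]; simp
    · rw [tr_X_inr]; simp
  have h1 := congrArg (fun g => g f) h
  simpa [MvPolynomial.aeval_eq_eval] using h1

theorem tr_der (a v : ι → ℂ) (y w : κ → ℂ) (f : MvPolynomial (ι ⊕ κ) ℂ) :
    tr a y (der v w f) = der v w (tr a y f) := by
  induction f using MvPolynomial.induction_on with
  | C a => rw [tr_C, der_C, map_zero]
  | add f g hf hg => rw [map_add, map_add, map_add, map_add, hf, hg]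
  | mul_X f i hf =>
    have hX : tr a y (der v w (X i)) = der v w (tr a y (X i)) := by
      rcases i with i | k
      · rw [der_X_inl, tr_X_inl, map_add, der_X_inl, der_C, tr_C, add_zero]
      · rw [der_X_inr, tr_X_inr, map_mul, tr_X_inr, tr_C, Derivation.leibniz, der_X_inr, der_C]
        simp only [smul_eq_mul, mul_zero, add_zero]
        ring
    rw [Derivation.leibniz, map_add, map_mul, Derivation.leibniz]
    simp only [smul_eq_mul, map_mul, hX, hf]

theorem tr_der_iterate (a v : ι → ℂ) (y w : κ → ℂ) (n : ℕ) (f : MvPolynomial (ι ⊕ κ) ℂ) :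
    tr a y ((der v w)^[n] f) = (der v w)^[n] (tr a y f) := by
  induction n with
  | zero => rfl
  | succ n ih => rw [Function.iterate_succ_apply', Function.iterate_succ_apply', tr_der, ih]

theorem der_comm (v v' : ι → ℂ) (w w' : κ → ℂ) (f : MvPolynomial (ι ⊕ κ) ℂ) :
    der v w (der v' w' f) = der v' w' (der v w f) := by
  induction f using MvPolynomial.induction_on with
  | C a => rw [der_C, der_C, map_zero, map_zero]
  | add f g hf hg => rw [map_add, map_add, map_add, map_add, hf, hg]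
  | mul_X f i hf =>
    have hX : der v w (der v' w' (X i)) = der v' w' (der v w (X i)) := by
      rcases i with i | k
      · rw [der_X_inl, der_X_inl, der_C, der_C]
      · rw [der_X_inr, der_X_inr, Derivation.leibniz, Derivation.leibniz, der_C, der_C, der_X_inr,
          der_X_inr]
        simp only [smul_eq_mul, mul_zero, add_zero]
        ring
    simp only [Derivation.leibniz, map_add, smul_eq_mul, hX, hf]
    ring

theorem der_add_smul (b c : ℂ) (v v' : ι → ℂ) (w w' : κ → ℂ) (f : MvPolynomial (ι ⊕ κ) ℂ) :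
    der (b • v + c • v') (b • w + c • w') f = b • der v w f + c • der v' w' f := by
  have h : der (b • v + c • v') (b • w + c • w') = b • der v w + c • der v' w' := by
    refine MvPolynomial.derivation_ext fun i => ?_
    rw [Derivation.add_apply, Derivation.smul_apply, Derivation.smul_apply]
    rcases i with i | k
    · simp only [der_X_inl, Pi.add_apply, Pi.smul_apply, smul_eq_mul, C_add, C_mul,
        smul_eq_C_mul]
    · simp only [der_X_inr, Pi.add_apply, Pi.smul_apply, smul_eq_mul, C_add, C_mul,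
        smul_eq_C_mul]
      ring
  rw [h]
  rfl

theorem iterate_add (D : Derivation ℂ (MvPolynomial (ι ⊕ κ) ℂ) (MvPolynomial (ι ⊕ κ) ℂ)) (n : ℕ)
    (f g : MvPolynomial (ι ⊕ κ) ℂ) : D^[n] (f + g) = D^[n] f + D^[n] g := by
  induction n with
  | zero => rfl
  | succ n ih => rw [Function.iterate_succ_apply', Function.iterate_succ_apply',
      Function.iterate_succ_apply', ih, map_add]

theorem iterate_smul (D : Derivation ℂ (MvPolynomial (ι ⊕ κ) ℂ) (MvPolynomial (ι ⊕ κ) ℂ)) (n : ℕ)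
    (c : ℂ) (f : MvPolynomial (ι ⊕ κ) ℂ) : D^[n] (c • f) = c • D^[n] f := by
  induction n with
  | zero => rfl
  | succ n ih => rw [Function.iterate_succ_apply', Function.iterate_succ_apply',
      ih, Derivation.map_smul]

theorem iterate_zero' (D : Derivation ℂ (MvPolynomial (ι ⊕ κ) ℂ) (MvPolynomial (ι ⊕ κ) ℂ))
    (n : ℕ) : D^[n] 0 = 0 := by
  induction n with
  | zero => rfl
  | succ n ih => rw [Function.iterate_succ_apply', ih, map_zero]

theorem der_commute (v v' : ι → ℂ) (w w' : κ → ℂ) :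
    Function.Commute (der v w : MvPolynomial (ι ⊕ κ) ℂ → MvPolynomial (ι ⊕ κ) ℂ) (der v' w') :=
  fun f => der_comm v v' w w' f

theorem der_comm_iterate (v v' : ι → ℂ) (w w' : κ → ℂ) (m : ℕ) (f : MvPolynomial (ι ⊕ κ) ℂ) :
    (der v w)^[m] (der v' w' f) = der v' w' ((der v w)^[m] f) :=
  (der_commute v v' w w').iterate_left m f

theorem der_comm_iterate₂ (v v' : ι → ℂ) (w w' : κ → ℂ) (m n : ℕ)
    (f : MvPolynomial (ι ⊕ κ) ℂ) :
    (der v w)^[m] ((der v' w')^[n] f) = (der v' w')^[n] ((der v w)^[m] f) :=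
  (der_commute v v' w w').iterate_iterate m n f

/-- Mixed derivatives along other directions. -/
theorem mixed_mem (p : Ideal (MvPolynomial (ι ⊕ κ) ℂ)) (v₁ v₂ : ι → ℂ) (w₁ w₂ : κ → ℂ)
    (b c b' c' : ℂ) (T : ℕ) (f : MvPolynomial (ι ⊕ κ) ℂ)
    (h : ∀ t₁ < T, ∀ t₂ < T, (der v₁ w₁)^[t₁] ((der v₂ w₂)^[t₂] f) ∈ p) {m n : ℕ}
    (hmn : m + n < T) :
    (der (b • v₁ + c • v₂) (b • w₁ + c • w₂))^[m]
      ((der (b' • v₁ + c' • v₂) (b' • w₁ + c' • w₂))^[n] f) ∈ p := by
  have step : ∀ (b c : ℂ) (k : ℕ) (g : MvPolynomial (ι ⊕ κ) ℂ),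
      (∀ t₁ t₂, t₁ + t₂ + k < T → (der v₁ w₁)^[t₁] ((der v₂ w₂)^[t₂] g) ∈ p) →
      ∀ t₁ t₂, t₁ + t₂ + (k + 1) < T → (der v₁ w₁)^[t₁] ((der v₂ w₂)^[t₂]
        (der (b • v₁ + c • v₂) (b • w₁ + c • w₂) g)) ∈ p := by
    intro b c k g hg t₁ t₂ ht
    have h1 : (der v₁ w₁)^[t₁] ((der v₂ w₂)^[t₂] (der (b • v₁ + c • v₂) (b • w₁ + c • w₂) g)) =
        b • (der v₁ w₁)^[t₁ + 1] ((der v₂ w₂)^[t₂] g) +
          c • (der v₁ w₁)^[t₁] ((der v₂ w₂)^[t₂ + 1] g) := by
      rw [der_add_smul, iterate_add, iterate_add, iterate_smul, iterate_smul, iterate_smul,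
        iterate_smul, der_comm_iterate, der_comm_iterate, der_comm_iterate,
        Function.iterate_succ_apply', Function.iterate_succ_apply', der_comm_iterate]
    rw [h1]
    have h2 := hg (t₁ + 1) t₂ (by omega)
    have h3 := hg t₁ (t₂ + 1) (by omega)
    rw [smul_eq_C_mul, smul_eq_C_mul]
    exact p.add_mem (p.mul_mem_left _ h2) (p.mul_mem_left _ h3)
  have iter : ∀ (b c : ℂ) (n k : ℕ) (g : MvPolynomial (ι ⊕ κ) ℂ),
      (∀ t₁ t₂, t₁ + t₂ + k < T → (der v₁ w₁)^[t₁] ((der v₂ w₂)^[t₂] g) ∈ p) →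
      ∀ t₁ t₂, t₁ + t₂ + (k + n) < T → (der v₁ w₁)^[t₁] ((der v₂ w₂)^[t₂]
        ((der (b • v₁ + c • v₂) (b • w₁ + c • w₂))^[n] g)) ∈ p := by
    intro b c n
    induction n with
    | zero =>
      intro k g hg
      rw [Function.iterate_zero, id_eq]
      exact hg
    | succ n ih =>
      intro k g hg
      rw [Function.iterate_succ_apply']
      exact step b c (k + n) _ (ih k g hg)
  have h1 := iter b' c' n 0 f (fun t₁ t₂ ht => h t₁ (by omega) t₂ (by omega))
  have h2 := iter b c m (0 + n) _ h1 0 0 (by omega)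
  rw [Function.iterate_zero, Function.iterate_zero, id_eq, id_eq] at h2
  exact h2

theorem monomial_mem_box {σ : Type} {d : σ → ℕ} {m : σ →₀ ℕ} (hm : ∀ i, m i < d i) (c : ℂ) :
    monomial m c ∈ box d := by
  classical
  rw [box, mem_restrictSupport_iff]
  intro n hn
  have h := support_monomial_subset hn
  rw [Finset.mem_singleton] at h
  rw [h]
  exact hm

theorem C_mul_mem_box {σ : Type} {d : σ → ℕ} {f : MvPolynomial σ ℂ} (a : ℂ) (hf : f ∈ box d) :
    C a * f ∈ box d := by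
  rw [← smul_eq_C_mul]
  exact Submodule.smul_mem _ _ hf

theorem der_mem_box {d : ι ⊕ κ → ℕ} (v : ι → ℂ) (w : κ → ℂ) {f : MvPolynomial (ι ⊕ κ) ℂ}
    (hf : f ∈ box d) : der v w f ∈ box d := by
  classical
  rw [mem_box] at hf
  rw [f.as_sum, map_sum]
  refine Submodule.sum_mem _ fun m hm => ?_
  have hm' := hf m hm
  rw [der, mkDerivation_monomial]
  refine Submodule.smul_mem _ _ ?_
  refine Submodule.sum_mem _ fun i hi => ?_
  dsimp only
  rcases i with i | k
  · rw [Sum.elim_inl, smul_eq_mul, mul_comm]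
    refine C_mul_mem_box _ (monomial_mem_box (fun j => ?_) _)
    refine lt_of_le_of_lt ?_ (hm' j)
    simp
  · have h1 : m (Sum.inr k) ≠ 0 := Finsupp.mem_support_iff.1 hi
    have e : m - Finsupp.single (Sum.inr k) 1 + Finsupp.single (Sum.inr k) 1 = m := by
      refine tsub_add_cancel_of_le ?_
      rw [Finsupp.single_le_iff]
      omega
    rw [Sum.elim_inr, smul_eq_mul, mul_left_comm, X, monomial_mul, e]
    exact C_mul_mem_box _ (monomial_mem_box hm' _)

theorem mem_box_prod {σ : Type} [Fintype σ] [DecidableEq σ] (s : Finset σ) (F : σ → MvPolynomial σ ℂ)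
    (e : σ → ℕ) (h : ∀ i ∈ s, ∀ m ∈ (F i).support, ∀ j, m j ≤ if j = i then e i else 0) :
    ∀ m ∈ (∏ i ∈ s, F i).support, ∀ j, m j ≤ if j ∈ s then e j else 0 := by
  induction s using Finset.induction_on with
  | empty =>
    intro m hm j
    rw [Finset.prod_empty, support_one, Finset.mem_singleton] at hm
    rw [hm]
    simp
  | insert a s ha ih =>
    intro m hm j
    rw [Finset.prod_insert ha] at hm
    obtain ⟨m₁, hm₁, m₂, hm₂, rfl⟩ := Finset.mem_add.1 (support_mul _ _ hm)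
    have h1 := h a (Finset.mem_insert_self a s) m₁ hm₁ j
    have h2 := ih (fun i hi => h i (Finset.mem_insert_of_mem hi)) m₂ hm₂ j
    rw [Finsupp.add_apply]
    by_cases hj : j = a
    · subst hj
      rw [if_pos rfl] at h1
      rw [if_neg ha] at h2
      rw [if_pos (Finset.mem_insert_self j s)]
      omega
    · rw [if_neg hj] at h1
      by_cases hjs : j ∈ s
      · rw [if_pos hjs] at h2
        rw [if_pos (Finset.mem_insert_of_mem hjs)]
        omega
      · rw [if_neg hjs] at h2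
        rw [if_neg (by rw [Finset.mem_insert]; tauto)]
        omega

theorem support_pow_le {σ : Type} [Fintype σ] [DecidableEq σ] (i : σ) (F : MvPolynomial σ ℂ)
    (h : ∀ m ∈ F.support, ∀ j, m j ≤ if j = i then 1 else 0) (n : ℕ) :
    ∀ m ∈ (F ^ n).support, ∀ j, m j ≤ if j = i then n else 0 := by
  induction n with
  | zero =>
    intro m hm j
    rw [pow_zero, support_one, Finset.mem_singleton] at hm
    rw [hm]
    simp
  | succ n ih =>
    intro m hm j
    rw [pow_succ] at hm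
    obtain ⟨m₁, hm₁, m₂, hm₂, rfl⟩ := Finset.mem_add.1 (support_mul _ _ hm)
    have h1 := ih m₁ hm₁ j
    have h2 := h m₂ hm₂ j
    rw [Finsupp.add_apply]
    split_ifs at * <;> omega

theorem tr_X_support [DecidableEq (ι ⊕ κ)] (a : ι → ℂ) (y : κ → ℂ) (i : ι ⊕ κ) :
    ∀ m ∈ (tr a y (X i)).support, ∀ j, m j ≤ if j = i then 1 else 0 := by
  intro m hm j
  rcases i with i | k
  · rw [tr_X_inl] at hm
    have h1 := support_add hm
    rcases Finset.mem_union.1 h1 with h2 | h2
    · rw [support_X, Finset.mem_singleton] at h2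
      rw [h2, Finsupp.single_apply]
      split_ifs with h3 h4 h4
      · exact le_rfl
      · exact absurd h3.symm h4
      · omega
      · omega
    · have h3 : m = 0 := by
        rw [C_apply] at h2
        have := support_monomial_subset h2
        exact Finset.mem_singleton.1 this
      rw [h3]
      simp
  · rw [tr_X_inr, ← smul_eq_C_mul] at hm
    have h2 := support_smul hm
    rw [support_X, Finset.mem_singleton] at h2
    rw [h2, Finsupp.single_apply]
    split_ifs with h3 h4 h4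
    · exact le_rfl
    · exact absurd h3.symm h4
    · omega
    · omega

theorem tr_monomial_support (a : ι → ℂ) (y : κ → ℂ) (n : ι ⊕ κ →₀ ℕ) (c : ℂ) :
    ∀ m ∈ (tr a y (monomial n c)).support, ∀ j, m j ≤ n j := by
  classical
  intro m hm j
  rw [monomial_eq, map_mul, tr_C, Finsupp.prod_fintype _ _ (by simp), map_prod,
    ← smul_eq_C_mul] at hm
  have h1 := support_smul hm
  have h2 := mem_box_prod Finset.univ (fun i => tr a y (X i ^ n i)) (fun i => n i) (by
    intro i _
    rw [map_pow]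
    exact support_pow_le i _ (tr_X_support a y i) (n i)) m h1 j
  rwa [if_pos (Finset.mem_univ j)] at h2

theorem tr_mem_box {d : ι ⊕ κ → ℕ} (a : ι → ℂ) (y : κ → ℂ) {f : MvPolynomial (ι ⊕ κ) ℂ}
    (hf : f ∈ box d) : tr a y f ∈ box d := by
  rw [mem_box] at hf
  rw [f.as_sum, map_sum]
  refine Submodule.sum_mem _ fun m hm => ?_
  rw [mem_box]
  intro n hn i
  exact (tr_monomial_support a y m _ n hn i).trans_lt (hf m hm i)

theorem der_mem_supported {s : Set (ι ⊕ κ)} (v : ι → ℂ) (w : κ → ℂ)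
    {f : MvPolynomial (ι ⊕ κ) ℂ} (hf : f ∈ supported ℂ s) : der v w f ∈ supported ℂ s := by
  classical
  rw [supported_eq_adjoin_X] at *
  induction hf using Algebra.adjoin_induction with
  | mem x hx =>
    obtain ⟨i, hi, rfl⟩ := hx
    rcases i with i | k
    · rw [der_X_inl]
      exact Subalgebra.algebraMap_mem _ (v i)
    · rw [der_X_inr]
      exact Subalgebra.mul_mem _ (Subalgebra.algebraMap_mem _ (w k))
        (Algebra.subset_adjoin ⟨_, hi, rfl⟩)
  | algebraMap r =>
    rw [Derivation.map_algebraMap]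
    exact Subalgebra.zero_mem _
  | add x y _ _ hx hy =>
    rw [map_add]
    exact Subalgebra.add_mem _ hx hy
  | mul x y hx' hy' hx hy =>
    rw [Derivation.leibniz, smul_eq_mul, smul_eq_mul]
    exact Subalgebra.add_mem _ (Subalgebra.mul_mem _ hx' hy) (Subalgebra.mul_mem _ hy' hx)

theorem tr_mem_supported {s : Set (ι ⊕ κ)} (a : ι → ℂ) (y : κ → ℂ)
    {f : MvPolynomial (ι ⊕ κ) ℂ} (hf : f ∈ supported ℂ s) : tr a y f ∈ supported ℂ s := by
  classical
  rw [supported_eq_adjoin_X] at *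
  induction hf using Algebra.adjoin_induction with
  | mem x hx =>
    obtain ⟨i, hi, rfl⟩ := hx
    rcases i with i | k
    · rw [tr_X_inl]
      exact Subalgebra.add_mem _ (Algebra.subset_adjoin ⟨_, hi, rfl⟩)
        (Subalgebra.algebraMap_mem _ (a i))
    · rw [tr_X_inr]
      exact Subalgebra.mul_mem _ (Subalgebra.algebraMap_mem _ (y k))
        (Algebra.subset_adjoin ⟨_, hi, rfl⟩)
  | algebraMap r =>
    rw [AlgHom.commutes]
    exact Subalgebra.algebraMap_mem _ r
  | add x y _ _ hx hy =>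
    rw [map_add]
    exact Subalgebra.add_mem _ hx hy
  | mul x y _ _ hx hy =>
    rw [map_mul]
    exact Subalgebra.mul_mem _ hx hy

/-- Derivations killing the coordinates in `s`. -/
theorem der_eq_zero_of_supported {s : Set (ι ⊕ κ)} (v : ι → ℂ) (w : κ → ℂ)
    (hv : ∀ i, Sum.inl i ∈ s → v i = 0) (hw : ∀ k, Sum.inr k ∈ s → w k = 0)
    {f : MvPolynomial (ι ⊕ κ) ℂ} (hf : f ∈ supported ℂ s) : der v w f = 0 := by
  classical
  rw [supported_eq_adjoin_X] at hf
  induction hf using Algebra.adjoin_induction with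
  | mem x hx =>
    obtain ⟨i, hi, rfl⟩ := hx
    rcases i with i | k
    · rw [der_X_inl, hv i hi, C_0]
    · rw [der_X_inr, hw k hi, C_0, zero_mul]
  | algebraMap r => rw [Derivation.map_algebraMap]
  | add x y _ _ hx hy => rw [map_add, hx, hy, add_zero]
  | mul x y _ _ hx hy =>
    rw [Derivation.leibniz, hx, hy, smul_zero, smul_zero, add_zero]

theorem tr_UU (a : ι → ℂ) (y : κ → ℂ) : tr a y (UU ι κ) = C (∏ k, y k) * UU ι κ := by
  rw [UU, map_prod, map_prod, ← Finset.prod_mul_distrib]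
  exact Finset.prod_congr rfl fun k _ => tr_X_inr a y k

theorem addp_add (a : l → ι → ℂ) (s s' : l → ℕ) : addp a (s + s') = addp a s + addp a s' := by
  funext i
  simp only [addp, Pi.add_apply, Nat.cast_add, add_mul, Finset.sum_add_distrib]

theorem mulp_add (y : l → κ → ℂ) (s s' : l → ℕ) : mulp y (s + s') = mulp y s * mulp y s' := by
  funext k
  simp only [mulp, Pi.mul_apply, Pi.add_apply, pow_add, Finset.prod_mul_distrib]

theorem mulp_ne_zero (y : l → κ → ℂ) (hy : ∀ j k, y j k ≠ 0) (s : l → ℕ) (k : κ) :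
    mulp y s k ≠ 0 :=
  Finset.prod_ne_zero_iff.2 fun j _ => pow_ne_zero _ (hy j k)

theorem tau_add (a : l → ι → ℂ) (y : l → κ → ℂ) (s s' : l → ℕ) (f : MvPolynomial (ι ⊕ κ) ℂ) :
    tau a y s (tau a y s' f) = tau a y (s + s') f := by
  rw [tau, tau, tau, tr_tr, addp_add, mulp_add]

theorem tau_zero (a : l → ι → ℂ) (y : l → κ → ℂ) (f : MvPolynomial (ι ⊕ κ) ℂ) :
    tau a y 0 f = f := by
  have h1 : addp a 0 = 0 := by
    funext i
    simp [addp]
  have h2 : mulp y 0 = 1 := by
    funext k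
    simp [mulp]
  rw [tau, h1, h2, tr_zero]

theorem der_iterate_mem_box {d : ι ⊕ κ → ℕ} (v : ι → ℂ) (w : κ → ℂ) (n : ℕ)
    {f : MvPolynomial (ι ⊕ κ) ℂ} (hf : f ∈ box d) : (der v w)^[n] f ∈ box d := by
  induction n with
  | zero => exact hf
  | succ n ih =>
    rw [Function.iterate_succ_apply']
    exact der_mem_box v w ih

theorem derivs_le_box {d : ι ⊕ κ → ℕ} (v₁ v₂ : ι → ℂ) (w₁ w₂ : κ → ℂ) (a : l → ι → ℂ)
    (y : l → κ → ℂ) {P : MvPolynomial (ι ⊕ κ) ℂ} (hP : P ∈ box d) (T S : ℕ) :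
    derivs (der v₁ w₁) (der v₂ w₂) a y P T S ≤ box d := by
  refine Submodule.span_le.2 ?_
  rintro _ ⟨t₁, _, t₂, _, s, _, rfl⟩
  exact der_iterate_mem_box _ _ _ (der_iterate_mem_box _ _ _ (tr_mem_box _ _ hP))

theorem self_mem_derivs (v₁ v₂ : ι → ℂ) (w₁ w₂ : κ → ℂ) (a : l → ι → ℂ)
    (y : l → κ → ℂ) (P : MvPolynomial (ι ⊕ κ) ℂ) {T S : ℕ} (hT : 0 < T) (hS : 0 < S) :
    P ∈ derivs (der v₁ w₁) (der v₂ w₂) a y P T S := by
  refine Submodule.subset_span ⟨0, hT, 0, hT, 0, fun _ => hS, ?_⟩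
  rw [tau_zero, Function.iterate_zero, Function.iterate_zero, id_eq, id_eq]

theorem mem_derivs_add (v₁ v₂ : ι → ℂ) (w₁ w₂ : κ → ℂ) (a : l → ι → ℂ)
    (y : l → κ → ℂ) {P f : MvPolynomial (ι ⊕ κ) ℂ} {T S T' S' : ℕ}
    (hf : f ∈ derivs (der v₁ w₁) (der v₂ w₂) a y P T S) {t₁ t₂ : ℕ} (h₁ : t₁ < T') (h₂ : t₂ < T')
    {s : l → ℕ} (hs : ∀ j, s j < S') :
    (der v₁ w₁)^[t₁] ((der v₂ w₂)^[t₂] (tau a y s f)) ∈
      derivs (der v₁ w₁) (der v₂ w₂) a y P (T + T') (S + S') := by
  induction hf using Submodule.span_induction with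
  | mem x hx =>
    obtain ⟨u₁, hu₁, u₂, hu₂, s', hs', rfl⟩ := hx
    refine Submodule.subset_span ⟨t₁ + u₁, by omega, t₂ + u₂, by omega, s + s',
      fun j => ?_, ?_⟩
    · have := hs j
      have := hs' j
      rw [Pi.add_apply]
      omega
    · rw [tau, tr_der_iterate, tr_der_iterate, ← tau, tau_add, Function.iterate_add_apply,
        Function.iterate_add_apply, der_comm_iterate₂ v₂ v₁ w₂ w₁]
  | zero =>
    rw [map_zero, iterate_zero', iterate_zero']
    exact Submodule.zero_mem _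
  | add x y _ _ hx hy =>
    rw [map_add, iterate_add, iterate_add]
    exact Submodule.add_mem _ hx hy
  | smul c x _ hx =>
    rw [map_smul, iterate_smul, iterate_smul]
    exact Submodule.smul_mem _ _ hx

end SharpSix
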