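import Pool.Agent.SharpSix.ZGroup

/-!
# Growth of the Hilbert function of an ideal contained in many jet ideals

Proof plan (see `growth` in Pool/Agent/FiveNum/ZeGrowth.lean for the one-derivation version in three
variables, which the proof below follows word for word):

* for an ideal `Q` and a derivation `D` let `J D m Q = {f | ∀ n < m, D^[n] f ∈ Q}`; it is an ideal
  (Leibniz); if `u` is a nonzerodivisor mod `Q`, then `u * f ∈ J D m Q → f ∈ J D m Q`;
* triangularity: if `q ∈ Q`, `D q` is a nonzerodivisor mod `Q`, `H j ∈ Q → H j = 0` and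
  `∑ j < m, q ^ j * H j ∈ J D m Q`, then all `H j = 0` (apply `D^[j₀]` for the least `j₀` with
  `H j₀ ≠ 0`: modulo `q` the result is `j₀! * (D q) ^ j₀ * H j₀`);
* two derivations: `{f | ∀ a b < T, D₁^[a] (D₂^[b] f) ∈ p} = J D₂ T (J D₁ T p)`; as `D₁ q = 0`, `q` and
  `D₂ q` behave well for `Q = J D₁ T p`;
* `v ∈ p` implies `v ^ (T * T) ∈ J D₂ T (J D₁ T p)`.
-/

set_option linter.unusedSectionVars false

open MvPolynomial

namespace SharpSix

/-- Abstract growth lemma: finitely many pairwise incomparable primes `p i`, ideals `J i` which are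
closed under division by elements outside `p i` and contain a fixed power of every element of
`p i`, multipliers `G i k` (`k : K`) which are independent modulo `J i`. -/
theorem growth_abstract {σ ι K : Type} [Fintype σ] [Fintype ι] [Fintype K] (d : σ → ℕ)
    (hd : ∀ i, 0 < d i) (p J : ι → Ideal (MvPolynomial σ ℂ)) (hp : ∀ i, (p i).IsPrime)
    (hinc : ∀ i j, i ≠ j → ¬ p j ≤ p i)
    (hclosed : ∀ i u f, u ∉ p i → u * f ∈ J i → f ∈ J i)
    (M : ℕ) (hpow : ∀ i, ∀ v ∈ p i, v ^ M ∈ J i) (G : ι → K → MvPolynomial σ ℂ)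
    (hG : ∀ i, ∀ h : K → MvPolynomial σ ℂ, (∀ k, h k ∈ p i → h k = 0) →
      ∑ k, G i k * h k ∈ J i → ∀ k, h k = 0)
    (I : Ideal (MvPolynomial σ ℂ)) (hI : ∀ i, I ≤ J i) :
    ∃ c, ∀ t, ∑ i, Fintype.card K * hilb d (p i) t ≤ hilb d I (t + c) := by
  classical
  have hdom : ∀ i, IsDomain (MvPolynomial σ ℂ ⧸ p i) :=
    fun i => (Ideal.Quotient.isDomain_iff_prime (p i)).2 (hp i)
  let φ : ∀ i, MvPolynomial σ ℂ →ₐ[ℂ] (MvPolynomial σ ℂ ⧸ p i) :=
    fun i => Ideal.Quotient.mkₐ ℂ (p i)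
  have hφ : ∀ i f, φ i f = 0 ↔ f ∈ p i := fun i f => Ideal.Quotient.eq_zero_iff_mem
  -- separators
  have hv : ∀ i j, ∃ v : MvPolynomial σ ℂ, i ≠ j → v ∈ p j ∧ v ∉ p i := by
    intro i j
    by_cases hij : i = j
    · exact ⟨0, fun h => absurd hij h⟩
    · obtain ⟨v, hv1, hv2⟩ := SetLike.not_le_iff_exists.1 (hinc i j hij)
      exact ⟨v, fun _ => ⟨hv1, hv2⟩⟩
  choose v hv using hv
  let u : ι → MvPolynomial σ ℂ := fun i => ∏ j ∈ Finset.univ.erase i, v i j ^ M
  have hu1 : ∀ i, u i ∉ p i := by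
    intro i hi
    have h1 : φ i (u i) = 0 := (hφ i _).2 hi
    simp only [u, map_prod, map_pow] at h1
    rw [Finset.prod_eq_zero_iff] at h1
    obtain ⟨j, hj, h2⟩ := h1
    have hij : i ≠ j := (Finset.ne_of_mem_erase hj).symm
    have hM : M ≠ 0 := by
      rintro rfl
      rw [pow_zero] at h2
      exact one_ne_zero h2
    exact (hv i j hij).2 ((hφ i _).1 ((pow_eq_zero_iff hM).1 h2))
  have hu2 : ∀ i j, i ≠ j → u i ∈ J j := by
    intro i j hij
    have hj : j ∈ Finset.univ.erase i := Finset.mem_erase.2 ⟨hij.symm, Finset.mem_univ _⟩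
    simp only [u]
    rw [← Finset.mul_prod_erase _ _ hj]
    exact Ideal.mul_mem_right _ _ (hpow j _ (hv i j hij).1)
  -- uniform box
  have hbox : ∃ c : ℕ, ∀ i, ∀ k, u i * G i k ∈ box (c • d) := by
    choose c hc using fun (i : ι) (k : K) => exists_box (u i * G i k) d hd
    refine ⟨∑ i, ∑ k, c i k, fun i k => hc i k _ ?_⟩
    refine le_trans ?_ (Finset.single_le_sum (f := fun i => ∑ k, c i k)
      (fun _ _ => Nat.zero_le _) (Finset.mem_univ i))
    exact Finset.single_le_sum (f := fun k => c i k) (fun _ _ => Nat.zero_le _)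
      (Finset.mem_univ k)
  obtain ⟨c, hc⟩ := hbox
  refine ⟨c, fun t => ?_⟩
  -- sections
  obtain ⟨R, hR⟩ : ∃ R : ∀ i, Submodule ℂ (MvPolynomial σ ℂ ⧸ p i),
      ∀ i, R i = (box (t • d)).map (φ i).toLinearMap := ⟨_, fun _ => rfl⟩
  have hRfin : ∀ i, Module.Finite ℂ (R i) := by
    intro i
    rw [hR]
    infer_instance
  have hRfree : ∀ i, Module.Free ℂ (R i) := fun i => Module.Free.of_divisionRing ℂ (R i)
  have hsec : ∀ i, ∃ s : R i →ₗ[ℂ] MvPolynomial σ ℂ,
      (∀ r, s r ∈ box (t • d)) ∧ ∀ r, φ i (s r) = r := by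
    intro i
    let L : box (t • d) →ₗ[ℂ] R i :=
      ((φ i).toLinearMap.restrict (p := box (t • d)) (q := R i) fun f hf => by
        rw [hR]; exact ⟨f, hf, rfl⟩)
    have hL : LinearMap.range L = ⊤ := by
      rw [LinearMap.range_eq_top]
      rintro ⟨r, hr⟩
      have hr' := hr
      rw [hR] at hr'
      obtain ⟨f, hf, hfr⟩ := hr'
      exact ⟨⟨f, hf⟩, Subtype.ext hfr⟩
    obtain ⟨s, hs⟩ := L.exists_rightInverse_of_surjective hL
    refine ⟨(box (t • d)).subtype ∘ₗ s, fun r => (s r).2, fun r => ?_⟩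
    have h1 := congrArg (fun h => h r) hs
    exact congrArg Subtype.val h1
  choose s hs1 hs2 using hsec
  let Φ : (∀ i, K → R i) →ₗ[ℂ] MvPolynomial σ ℂ :=
    ∑ i, ∑ k : K, (LinearMap.mulLeft ℂ (u i * G i k)) ∘ₗ (s i) ∘ₗ
      (LinearMap.proj k) ∘ₗ (LinearMap.proj i)
  have hΦ : ∀ r, Φ r = ∑ i, ∑ k : K, (u i * G i k) * s i (r i k) := by
    intro r
    simp only [Φ, LinearMap.sum_apply]
    rfl
  let mI : MvPolynomial σ ℂ →ₗ[ℂ] (MvPolynomial σ ℂ ⧸ I) := (Ideal.Quotient.mkₐ ℂ I).toLinearMap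
  have hinj : Function.Injective (mI ∘ₗ Φ) := by
    refine (injective_iff_map_eq_zero _).2 fun r hr => ?_
    have h1 : Φ r ∈ I := Ideal.Quotient.eq_zero_iff_mem.1 hr
    funext i
    have h2 : Φ r ∈ J i := hI i h1
    rw [hΦ, ← Finset.add_sum_erase _ _ (Finset.mem_univ i)] at h2
    have h3 : ∑ j ∈ Finset.univ.erase i, ∑ k : K, (u j * G j k) * s j (r j k) ∈ J i := by
      refine Ideal.sum_mem _ fun j hj => Ideal.sum_mem _ fun k _ => ?_
      have hji : j ≠ i := Finset.ne_of_mem_erase hj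
      exact Ideal.mul_mem_right _ _ (Ideal.mul_mem_right _ _ (hu2 j i hji))
    have h4 := (Ideal.add_mem_iff_left _ h3).1 h2
    have h5 : u i * ∑ k, G i k * s i (r i k) ∈ J i := by
      rw [Finset.mul_sum]
      have : ∑ k : K, u i * (G i k * s i (r i k)) =
          ∑ k : K, (u i * G i k) * s i (r i k) := by
        refine Finset.sum_congr rfl fun k _ => ?_
        rw [mul_assoc]
      rw [this]
      exact h4
    have h6 := hclosed i _ _ (hu1 i) h5
    have h7 := hG i (fun k => s i (r i k)) (by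
        intro k h8
        have h9 := (hφ i _).2 h8
        rw [hs2] at h9
        have : r i k = 0 := Subtype.ext h9
        simp only [this, map_zero]) h6
    funext k
    have h8 := h7 k
    have h9 := hs2 i (r i k)
    rw [show s i (r i k) = 0 from h8, map_zero] at h9
    exact Subtype.ext h9.symm
  have hrange : LinearMap.range (mI ∘ₗ Φ) ≤ (box ((t + c) • d)).map mI := by
    rintro _ ⟨r, rfl⟩
    refine ⟨Φ r, ?_, rfl⟩
    rw [hΦ]
    refine Submodule.sum_mem _ fun i _ => Submodule.sum_mem _ fun k _ => ?_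
    have h1 := mul_mem_box (hc i k) (hs1 i (r i k))
    rw [← add_smul, add_comm] at h1
    exact h1
  have h1 := LinearMap.finrank_range_of_inj hinj
  have h2 := Submodule.finrank_mono hrange
  have h3 : Module.finrank ℂ (∀ i, K → R i) = ∑ i, Fintype.card K * hilb d (p i) t := by
    rw [Module.finrank_pi_fintype]
    refine Finset.sum_congr rfl fun i _ => ?_
    rw [Module.finrank_pi_fintype]
    simp only [Finset.sum_const, Finset.card_univ, smul_eq_mul]
    have h4 : Module.finrank ℂ (R i) = hilb d (p i) t := by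
      rw [hR]
      rfl
    exact congrArg (fun x => Fintype.card K * x) h4
  rw [← h3, ← h1]
  exact h2

/-! ### Jet ideals -/

section jets

variable {R : Type} [CommRing R] [Algebra ℂ R]

theorem iter_add (D : Derivation ℂ R R) (n : ℕ) (f g : R) :
    (D : R → R)^[n] (f + g) = (D : R → R)^[n] f + (D : R → R)^[n] g := by
  induction n generalizing f g with
  | zero => rfl
  | succ n ih => rw [Function.iterate_succ_apply, map_add, ih]; rfl

/-- The additive group of all `f` with `D^[n] f ∈ Q` for `n < m`. -/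
def JD (D : Derivation ℂ R R) (m : ℕ) (Q : Ideal R) : Set R :=
  {f | ∀ n < m, (D : R → R)^[n] f ∈ Q}

theorem mem_JD_succ {D : Derivation ℂ R R} {m : ℕ} {Q : Ideal R} {f : R} :
    f ∈ JD D (m + 1) Q ↔ f ∈ Q ∧ D f ∈ JD D m Q := by
  constructor
  · intro h
    exact ⟨h 0 (Nat.succ_pos _), fun n hn => h (n + 1) (by omega)⟩
  · rintro ⟨h0, h1⟩ n hn
    rcases n with _ | n
    · exact h0
    · exact h1 n (by omega)

theorem JD_anti {D : Derivation ℂ R R} {m n : ℕ} (hmn : m ≤ n) {Q : Ideal R} {f : R}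
    (hf : f ∈ JD D n Q) : f ∈ JD D m Q := fun k hk => hf k (by omega)

theorem JD_add {D : Derivation ℂ R R} {m : ℕ} {Q : Ideal R} {f g : R} (hf : f ∈ JD D m Q)
    (hg : g ∈ JD D m Q) : f + g ∈ JD D m Q := by
  intro n hn
  rw [iter_add]
  exact Q.add_mem (hf n hn) (hg n hn)

theorem JD_mul {D : Derivation ℂ R R} {m : ℕ} {Q : Ideal R} (c : R) {f : R}
    (hf : f ∈ JD D m Q) : c * f ∈ JD D m Q := by
  induction m generalizing c f with
  | zero => exact fun n hn => absurd hn (Nat.not_lt_zero _)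
  | succ m ih =>
    rw [mem_JD_succ] at hf ⊢
    refine ⟨Q.mul_mem_left _ hf.1, ?_⟩
    rw [Derivation.leibniz, smul_eq_mul, smul_eq_mul]
    have hf' : f ∈ JD D m Q := JD_anti (Nat.le_succ m) (mem_JD_succ.2 hf)
    refine JD_add (ih c hf.2) ?_
    rw [mul_comm]
    exact ih (D c) hf'

/-- The ideal of all `f` with `D^[n] f ∈ Q` for `n < m`. -/
def jetI (D : Derivation ℂ R R) (m : ℕ) (Q : Ideal R) : Ideal R where
  carrier := JD D m Q
  add_mem' := JD_add
  zero_mem' := by
    intro n hn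
    have : (D : R → R)^[n] 0 = 0 := by
      induction n with
      | zero => rfl
      | succ n ih => rw [Function.iterate_succ_apply, map_zero, ih (by omega)]
    rw [this]
    exact Q.zero_mem
  smul_mem' := fun c f hf => JD_mul c hf

theorem mem_jetI {D : Derivation ℂ R R} {m : ℕ} {Q : Ideal R} {f : R} :
    f ∈ jetI D m Q ↔ ∀ n < m, (D : R → R)^[n] f ∈ Q := Iff.rfl

theorem mem_jetI_succ {D : Derivation ℂ R R} {m : ℕ} {Q : Ideal R} {f : R} :
    f ∈ jetI D (m + 1) Q ↔ f ∈ Q ∧ D f ∈ jetI D m Q := mem_JD_succ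

theorem jetI_anti {D : Derivation ℂ R R} {m n : ℕ} (hmn : m ≤ n) (Q : Ideal R) :
    jetI D n Q ≤ jetI D m Q := fun _ hf => JD_anti hmn hf

theorem jetI_closed {D : Derivation ℂ R R} {m : ℕ} {Q : Ideal R} {u : R}
    (hu : ∀ g, u * g ∈ Q → g ∈ Q) {f : R} (hf : u * f ∈ jetI D m Q) : f ∈ jetI D m Q := by
  induction m generalizing f with
  | zero => exact fun n hn => absurd hn (Nat.not_lt_zero _)
  | succ m ih =>
    have h1 := ih (jetI_anti (Nat.le_succ m) Q hf)
    rw [mem_jetI_succ] at hf ⊢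
    refine ⟨hu _ hf.1, ih ?_⟩
    have h2 := hf.2
    rw [Derivation.leibniz, smul_eq_mul, smul_eq_mul] at h2
    exact (Ideal.add_mem_iff_left _ (Ideal.mul_mem_right _ _ h1)).1 h2

theorem pow_mem_jetI {D : Derivation ℂ R R} (m : ℕ) {Q : Ideal R} {v : R} (hv : v ∈ Q) :
    v ^ m ∈ jetI D m Q := by
  induction m with
  | zero => exact fun n hn => absurd hn (Nat.not_lt_zero _)
  | succ m ih =>
    rw [mem_jetI_succ]
    refine ⟨?_, ?_⟩
    · rw [pow_succ]
      exact Q.mul_mem_left _ hv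
    · rw [Derivation.leibniz_pow, Nat.add_sub_cancel, smul_eq_mul, nsmul_eq_mul]
      exact Ideal.mul_mem_left _ _ (Ideal.mul_mem_right _ _ ih)

theorem iter_mul_sub {D : Derivation ℂ R R} (m : ℕ) {Q : Ideal R} (c : R) {g : R}
    (hg : g ∈ jetI D m Q) : (D : R → R)^[m] (c * g) - c * (D : R → R)^[m] g ∈ Q := by
  induction m generalizing c g with
  | zero => simp
  | succ m ih =>
    have hg' := jetI_anti (Nat.le_succ m) Q hg
    have hDg := (mem_jetI_succ.1 hg).2
    rw [Function.iterate_succ_apply, Derivation.leibniz, smul_eq_mul, smul_eq_mul, iter_add,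
      Function.iterate_succ_apply]
    have h1 := ih c hDg
    have h2 : (D : R → R)^[m] (g * D c) ∈ Q :=
      (Ideal.mul_mem_right (D c) (jetI D (m + 1) Q) hg) m (Nat.lt_succ_self m)
    have e : (D : R → R)^[m] (c * D g) + (D : R → R)^[m] (g * D c) - c * (D : R → R)^[m] (D g)
        = ((D : R → R)^[m] (c * D g) - c * (D : R → R)^[m] (D g)) + (D : R → R)^[m] (g * D c) := by
      ring
    rw [e]
    exact Q.add_mem h1 h2

theorem iter_mul_sub' {D : Derivation ℂ R R} (m : ℕ) {Q : Ideal R} {q : R} (hq : q ∈ Q) {g : R}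
    (hg : g ∈ jetI D m Q) :
    (D : R → R)^[m + 1] (q * g) - (m + 1 : ℕ) * (D q * (D : R → R)^[m] g) ∈ Q := by
  induction m generalizing g with
  | zero =>
    have : (D : R → R)^[0 + 1] (q * g) - ((0 + 1 : ℕ) : R) * (D q * (D : R → R)^[0] g)
        = q * D g := by
      simp only [zero_add, Function.iterate_one, Function.iterate_zero, id_eq, Nat.cast_one,
        one_mul]
      rw [Derivation.leibniz, smul_eq_mul, smul_eq_mul]
      ring
    rw [this]
    exact Q.mul_mem_right _ hq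
  | succ m ih =>
    have hDg := (mem_jetI_succ.1 hg).2
    rw [Function.iterate_succ_apply, Derivation.leibniz, smul_eq_mul, smul_eq_mul, iter_add]
    have h1 := ih hDg
    have h2 := iter_mul_sub (m + 1) (D q) hg
    rw [mul_comm (D q) g] at h2
    have e : (D : R → R)^[m + 1] (q * D g) + (D : R → R)^[m + 1] (g * D q)
        - ((m + 1 + 1 : ℕ) : R) * (D q * (D : R → R)^[m + 1] g)
        = ((D : R → R)^[m + 1] (q * D g) - ((m + 1 : ℕ) : R) * (D q * (D : R → R)^[m] (D g)))
          + ((D : R → R)^[m + 1] (g * D q) - D q * (D : R → R)^[m + 1] g) := by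
      rw [Function.iterate_succ_apply (D : R → R) m g]
      push_cast
      ring
    rw [e]
    exact Q.add_mem h1 h2

theorem natCast_mul_mem {Q : Ideal R} {n : ℕ} (hn : n ≠ 0) {x : R} (h : (n : R) * x ∈ Q) :
    x ∈ Q := by
  have h1 := Q.mul_mem_left (algebraMap ℂ R ((n : ℂ)⁻¹)) h
  have e : algebraMap ℂ R ((n : ℂ)⁻¹) * ((n : R) * x) = x := by
    rw [← mul_assoc, ← map_natCast (algebraMap ℂ R) n, ← map_mul,
      inv_mul_cancel₀ (Nat.cast_ne_zero.2 hn), map_one, one_mul]
  rwa [e] at h1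

theorem jetI_div {D : Derivation ℂ R R} (m : ℕ) {Q : Ideal R} {q : R} (hq : q ∈ Q)
    (hDq : ∀ g, D q * g ∈ Q → g ∈ Q) {g : R} (hg : q * g ∈ jetI D (m + 1) Q) :
    g ∈ jetI D m Q := by
  induction m with
  | zero => exact fun n hn => absurd hn (Nat.not_lt_zero _)
  | succ m ih =>
    have h1 := ih (jetI_anti (Nat.le_succ _) Q hg)
    have h2 := iter_mul_sub' m hq h1
    have h3 : (D : R → R)^[m + 1] (q * g) ∈ Q := hg (m + 1) (Nat.lt_succ_self _)
    have h4 := Q.sub_mem h3 h2
    rw [sub_sub_cancel] at h4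
    have h5 := hDq _ (natCast_mul_mem (Nat.succ_ne_zero m) h4)
    intro n hn
    rcases Nat.lt_succ_iff_lt_or_eq.1 hn with h | h
    · exact h1 n h
    · rw [h]; exact h5

theorem jetI_triangular {D : Derivation ℂ R R} (m : ℕ) {Q : Ideal R} {q : R} (hq : q ∈ Q)
    (hDq : ∀ g, D q * g ∈ Q → g ∈ Q) (H : ℕ → R) (hH : ∀ j < m, H j ∈ Q → H j = 0)
    (h : ∑ j ∈ Finset.range m, q ^ j * H j ∈ jetI D m Q) : ∀ j < m, H j = 0 := by
  induction m generalizing H with
  | zero => exact fun j hj => absurd hj (Nat.not_lt_zero _)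
  | succ m ih =>
    rw [Finset.sum_range_succ'] at h
    have e : ∑ k ∈ Finset.range m, q ^ (k + 1) * H (k + 1)
        = q * ∑ k ∈ Finset.range m, q ^ k * H (k + 1) := by
      rw [Finset.mul_sum]
      refine Finset.sum_congr rfl fun k _ => ?_
      ring
    rw [e, pow_zero, one_mul] at h
    have h0 : H 0 = 0 := by
      apply hH 0 (Nat.succ_pos _)
      have h1 := (mem_jetI_succ.1 h).1
      exact (Ideal.add_mem_iff_right _ (Q.mul_mem_right _ hq)).1 h1
    rw [h0, add_zero] at h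
    have h2 := ih (fun j => H (j + 1)) (fun j hj => hH (j + 1) (by omega)) (jetI_div m hq hDq h)
    intro j hj
    rcases j with _ | j
    · exact h0
    · exact h2 j (by omega)

theorem jetI_triangular_fin {D : Derivation ℂ R R} (m : ℕ) {Q : Ideal R} {q : R} (hq : q ∈ Q)
    (hDq : ∀ g, D q * g ∈ Q → g ∈ Q) (H : Fin m → R) (hH : ∀ j, H j ∈ Q → H j = 0)
    (h : ∑ j : Fin m, q ^ (j : ℕ) * H j ∈ jetI D m Q) : ∀ j, H j = 0 := by
  have h1 := jetI_triangular m hq hDq (fun j => if hj : j < m then H ⟨j, hj⟩ else 0)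
    (by
      intro j hj
      simp only [dif_pos hj]
      exact hH _)
    (by
      rw [Finset.sum_range]
      simpa using h)
  intro j
  have := h1 j j.2
  simpa using this

end jets

variable {ι κ : Type} [Fintype ι] [Fintype κ]

theorem hilb_comap_tr (d : ι ⊕ κ → ℕ) (p : Ideal (MvPolynomial (ι ⊕ κ) ℂ)) (a : ι → ℂ)
    (y : κ → ℂ) (hy : ∀ k, y k ≠ 0) (t : ℕ) :
    hilb d (p.comap (tr a y)) t = hilb d p t := by
  unfold hilb hd
  set V := box (t • d) with hV
  have hVV : V.map (tr a y).toLinearMap = V := by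
    apply le_antisymm
    · rintro _ ⟨f, hf, rfl⟩
      exact tr_mem_box a y hf
    · intro f hf
      exact ⟨tr (-a) y⁻¹ f, tr_mem_box _ _ hf, tr_inv a y hy f⟩
  set q : (MvPolynomial (ι ⊕ κ) ℂ ⧸ p.comap (tr a y)) →ₐ[ℂ] (MvPolynomial (ι ⊕ κ) ℂ ⧸ p) :=
    Ideal.quotientMapₐ p (tr a y) le_rfl with hq
  have hinj : Function.Injective q.toLinearMap := by
    refine (injective_iff_map_eq_zero _).2 fun r hr => ?_
    obtain ⟨r, rfl⟩ := Ideal.Quotient.mk_surjective r
    have h1 : Ideal.Quotient.mk p (tr a y r) = 0 := hr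
    have h2 : tr a y r ∈ p := Ideal.Quotient.eq_zero_iff_mem.1 h1
    exact Ideal.Quotient.eq_zero_iff_mem.2 (Ideal.mem_comap.2 h2)
  have h1 : (V.map (Ideal.Quotient.mkₐ ℂ (p.comap (tr a y))).toLinearMap).map q.toLinearMap
      = V.map (Ideal.Quotient.mkₐ ℂ p).toLinearMap := by
    conv_rhs => rw [← hVV]
    rw [← Submodule.map_comp, ← Submodule.map_comp]
    rfl
  rw [← h1]
  exact LinearEquiv.finrank_eq (Submodule.equivMapOfInjective _ hinj _)

/-- Growth with one transversal direction, over translates. -/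
theorem grow1 {α : Type} [Fintype α] (d : ι ⊕ κ → ℕ) (hd : ∀ i, 0 < d i)
    (v : ι → ℂ) (w : κ → ℂ) (p : Ideal (MvPolynomial (ι ⊕ κ) ℂ)) (hp : p.IsPrime)
    (A : α → ι → ℂ) (B : α → κ → ℂ) (hB : ∀ i k, B i k ≠ 0)
    (hinc : ∀ i j, i ≠ j → ¬ p.comap (tr (A j) (B j)) ≤ p.comap (tr (A i) (B i)))
    (g : MvPolynomial (ι ⊕ κ) ℂ) (hg : g ∈ p) (hDg : der v w g ∉ p) (T : ℕ)
    (I : Ideal (MvPolynomial (ι ⊕ κ) ℂ))
    (hI : ∀ i, ∀ f ∈ I, ∀ n < T, (der v w)^[n] (tr (A i) (B i) f) ∈ p) :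
    ∃ c, ∀ t, T * Fintype.card α * hilb d p t ≤ hilb d I (t + c) := by
  have hnzd : ∀ u, u ∉ p → ∀ g, u * g ∈ p → g ∈ p := fun u hu g h =>
    (hp.mem_or_mem h).resolve_left hu
  obtain ⟨c, hc⟩ := growth_abstract (ι := α) (K := Fin T) d hd
    (fun i => p.comap (tr (A i) (B i)))
    (fun i => (jetI (der v w) T p).comap (tr (A i) (B i)))
    (fun i => Ideal.comap_isPrime _ _) hinc
    (by
      intro i u f hu hf
      rw [Ideal.mem_comap] at hu hf ⊢
      rw [map_mul] at hf
      exact jetI_closed (hnzd _ hu) hf)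
    T
    (by
      intro i v hv
      rw [Ideal.mem_comap] at hv ⊢
      rw [map_pow]
      exact pow_mem_jetI T hv)
    (fun i k => tr (-(A i)) (B i)⁻¹ (g ^ (k : ℕ)))
    (by
      intro i h hh hsum k
      rw [Ideal.mem_comap, map_sum] at hsum
      have h1 := jetI_triangular_fin T hg (hnzd _ hDg) (fun k => tr (A i) (B i) (h k))
        (by
          intro j hj
          rw [hh j hj, map_zero])
        (by
          convert hsum using 2 with k
          rw [map_mul, tr_inv _ _ (hB i)])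
      have h2 := congrArg (tr (-(A i)) (B i)⁻¹) (h1 k)
      rwa [tr_inv' _ _ (hB i), map_zero] at h2)
    I
    (by
      intro i f hf
      rw [Ideal.mem_comap, mem_jetI]
      exact fun n hn => hI i f hf n hn)
  refine ⟨c, fun t => ?_⟩
  have h1 := hc t
  simp only [hilb_comap_tr d p _ _ (hB _), Fintype.card_fin, Finset.sum_const, Finset.card_univ,
    smul_eq_mul] at h1
  calc T * Fintype.card α * hilb d p t = Fintype.card α * (T * hilb d p t) := by ring
    _ ≤ _ := h1

/-- Growth with two transversal directions, over translates. -/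
theorem grow2 {α : Type} [Fintype α] (d : ι ⊕ κ → ℕ) (hd : ∀ i, 0 < d i)
    (v₁ v₂ : ι → ℂ) (w₁ w₂ : κ → ℂ) (p : Ideal (MvPolynomial (ι ⊕ κ) ℂ)) (hp : p.IsPrime)
    (A : α → ι → ℂ) (B : α → κ → ℂ) (hB : ∀ i k, B i k ≠ 0)
    (hinc : ∀ i j, i ≠ j → ¬ p.comap (tr (A j) (B j)) ≤ p.comap (tr (A i) (B i)))
    (q g : MvPolynomial (ι ⊕ κ) ℂ) (hq : q ∈ p) (hg : g ∈ p) (h1 : der v₁ w₁ q = 0)
    (h2 : der v₂ w₂ q ∉ p) (h3 : der v₁ w₁ g ∉ p) (T : ℕ)
    (I : Ideal (MvPolynomial (ι ⊕ κ) ℂ))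
    (hI : ∀ i, ∀ f ∈ I, ∀ m < T, ∀ n < T,
      (der v₁ w₁)^[m] ((der v₂ w₂)^[n] (tr (A i) (B i) f)) ∈ p) :
    ∃ c, ∀ t, T ^ 2 * Fintype.card α * hilb d p t ≤ hilb d I (t + c) := by
  have hnzd : ∀ u, u ∉ p → ∀ g, u * g ∈ p → g ∈ p := fun u hu g h =>
    (hp.mem_or_mem h).resolve_left hu
  have hq' : q ∈ jetI (der v₁ w₁) T p := by
    intro n hn
    rcases n with _ | n
    · exact hq
    · rw [Function.iterate_succ_apply, h1]
      have : ∀ n, (der v₁ w₁)^[n] (0 : MvPolynomial (ι ⊕ κ) ℂ) = 0 := by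
        intro n
        induction n with
        | zero => rfl
        | succ n ih => rw [Function.iterate_succ_apply, map_zero, ih]
      rw [this]
      exact p.zero_mem
  have hnzd2 : ∀ u, u ∉ p → ∀ g, u * g ∈ jetI (der v₁ w₁) T p → g ∈ jetI (der v₁ w₁) T p :=
    fun u hu g h => jetI_closed (hnzd u hu) h
  obtain ⟨c, hc⟩ := growth_abstract (ι := α) (K := Fin T × Fin T) d hd
    (fun i => p.comap (tr (A i) (B i)))
    (fun i => (jetI (der v₂ w₂) T (jetI (der v₁ w₁) T p)).comap (tr (A i) (B i)))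
    (fun i => Ideal.comap_isPrime _ _) hinc
    (by
      intro i u f hu hf
      rw [Ideal.mem_comap] at hu hf ⊢
      rw [map_mul] at hf
      exact jetI_closed (hnzd2 _ hu) hf)
    (T * T)
    (by
      intro i v hv
      rw [Ideal.mem_comap] at hv ⊢
      rw [map_pow, pow_mul]
      exact pow_mem_jetI T (pow_mem_jetI T hv))
    (fun i k => tr (-(A i)) (B i)⁻¹ (q ^ (k.1 : ℕ) * g ^ (k.2 : ℕ)))
    (by
      intro i h hh hsum k
      rw [Ideal.mem_comap, map_sum] at hsum
      have h1' := jetI_triangular_fin T hq' (hnzd2 _ h2)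
        (fun j => ∑ k : Fin T, g ^ (k : ℕ) * tr (A i) (B i) (h (j, k)))
        (by
          intro j hj
          have h5 := jetI_triangular_fin T hg (hnzd _ h3)
            (fun k => tr (A i) (B i) (h (j, k))) (by
              intro k hk
              rw [hh (j, k) hk, map_zero]) hj
          exact Finset.sum_eq_zero fun k _ => by rw [h5 k, mul_zero])
        (by
          convert hsum using 1
          rw [Fintype.sum_prod_type]
          refine Finset.sum_congr rfl fun j _ => ?_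
          rw [Finset.mul_sum]
          refine Finset.sum_congr rfl fun k _ => ?_
          rw [map_mul, tr_inv _ _ (hB i), mul_assoc])
      have h6 := jetI_triangular_fin T hg (hnzd _ h3)
        (fun k' => tr (A i) (B i) (h (k.1, k'))) (by
              intro k' hk
              rw [hh (k.1, k') hk, map_zero]) (by
              rw [h1' k.1]
              exact Ideal.zero_mem _)
      have h7 := congrArg (tr (-(A i)) (B i)⁻¹) (h6 k.2)
      rwa [tr_inv' _ _ (hB i), map_zero] at h7)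
    I
    (by
      intro i f hf
      rw [Ideal.mem_comap, mem_jetI]
      intro n hn
      rw [mem_jetI]
      intro m hm
      exact hI i f hf m hm n hn)
  refine ⟨c, fun t => ?_⟩
  have h8 := hc t
  simp only [hilb_comap_tr d p _ _ (hB _), Fintype.card_prod, Fintype.card_fin, Finset.sum_const,
    Finset.card_univ, smul_eq_mul] at h8
  calc T ^ 2 * Fintype.card α * hilb d p t = Fintype.card α * (T * T * hilb d p t) := by ring
    _ ≤ _ := h8

end SharpSix
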