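import Pool.Agent.SharpSix.ZDefs

/-!
# Boxes of monomials and Hilbert functions
-/

set_option linter.unusedSectionVars false

open MvPolynomial

namespace SharpSix

variable {σ : Type} [Fintype σ]

theorem mem_box {d : σ → ℕ} {f : (MvPolynomial σ ℂ)} : f ∈ box d ↔ ∀ m ∈ f.support, ∀ i, m i < d i := by
  rw [box, mem_restrictSupport_iff]
  rfl

theorem box_mono {d e : σ → ℕ} (h : ∀ i, d i ≤ e i) : box d ≤ box e := by
  intro f hf
  rw [mem_box] at hf ⊢
  exact fun m hm i => (hf m hm i).trans_le (h i)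

theorem mul_mem_box {d e : σ → ℕ} {f g : (MvPolynomial σ ℂ)} (hf : f ∈ box d) (hg : g ∈ box e) :
    f * g ∈ box (d + e) := by
  classical
  rw [mem_box] at *
  intro m hm i
  have h1 := support_mul f g hm
  obtain ⟨a, ha, b, hb, rfl⟩ := Finset.mem_add.1 h1
  have := hf a ha i
  have := hg b hb i
  simp only [Finsupp.add_apply, Pi.add_apply]
  omega

/-- The monomials in the box. -/
noncomputable def boxEquiv (d : σ → ℕ) :
    {m : σ →₀ ℕ | ∀ i, m i < d i} ≃ (∀ i, Fin (d i)) where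
  toFun m i := ⟨m.1 i, m.2 i⟩
  invFun v := ⟨Finsupp.equivFunOnFinite.symm fun i => (v i : ℕ), fun i => by simp⟩
  left_inv m := by
    ext i
    simp
  right_inv v := by
    ext i
    simp

theorem finrank_box (d : σ → ℕ) : Module.finrank ℂ (box d) = ∏ i, d i := by
  classical
  have : Fintype {m : σ →₀ ℕ | ∀ i, m i < d i} := Fintype.ofEquiv _ (boxEquiv d).symm
  rw [box, Module.finrank_eq_card_basis (basisRestrictSupport ℂ {m | ∀ i, m i < d i}),
    Fintype.card_congr (boxEquiv d)]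
  simp

instance finite_box (d : σ → ℕ) : Module.Finite ℂ (box d) := by
  classical
  have : Fintype {m : σ →₀ ℕ | ∀ i, m i < d i} := Fintype.ofEquiv _ (boxEquiv d).symm
  exact Module.Finite.of_basis (basisRestrictSupport ℂ {m | ∀ i, m i < d i})

/-- Every polynomial lies in a box. -/
theorem exists_box (f : (MvPolynomial σ ℂ)) (d : σ → ℕ) (hd : ∀ i, 0 < d i) :
    ∃ c : ℕ, ∀ t, c ≤ t → f ∈ box (t • d) := by
  refine ⟨f.totalDegree + 1, fun t ht => ?_⟩
  rw [mem_box]
  intro m hm i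
  have h1 : m i ≤ f.totalDegree := by
    refine le_trans ?_ (le_totalDegree hm)
    rw [Finsupp.sum_fintype _ _ (by simp)]
    exact Finset.single_le_sum (f := fun i => m i) (fun _ _ => Nat.zero_le _) (Finset.mem_univ i)
  have h2 : t * 1 ≤ t * d i := Nat.mul_le_mul_left _ (hd i)
  simp only [Pi.smul_apply, smul_eq_mul]
  omega

theorem hd_mono {V W : Submodule ℂ (MvPolynomial σ ℂ)} [Module.Finite ℂ W] (h : V ≤ W) (I : Ideal (MvPolynomial σ ℂ)) :
    hd V I ≤ hd W I :=
  Submodule.finrank_mono (Submodule.map_mono h)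

theorem hd_bot (V : Submodule ℂ (MvPolynomial σ ℂ)) : hd V ⊥ = Module.finrank ℂ V := by
  unfold hd
  refine (LinearEquiv.finrank_eq (Submodule.equivMapOfInjective _ ?_ V)).symm
  intro f g hfg
  have h : (Ideal.Quotient.mkₐ ℂ (⊥ : Ideal (MvPolynomial σ ℂ))) f = (Ideal.Quotient.mkₐ ℂ (⊥ : Ideal (MvPolynomial σ ℂ))) g := hfg
  rw [Ideal.Quotient.mkₐ_eq_mk, Ideal.Quotient.mk_eq_mk_iff_sub_mem] at h
  exact sub_eq_zero.1 ((Submodule.mem_bot _).1 h)

/-- Basic inequality: `hd V J + hd W I ≤ hd V I` if `I ≤ J`, `W ≤ V`, `W ⊆ J`. -/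
theorem hd_add_le {V W : Submodule ℂ (MvPolynomial σ ℂ)} [Module.Finite ℂ V] {I J : Ideal (MvPolynomial σ ℂ)} (hIJ : I ≤ J)
    (hWV : W ≤ V) (hWJ : ∀ f ∈ W, f ∈ J) : hd V J + hd W I ≤ hd V I := by
  unfold hd
  set mI := (Ideal.Quotient.mkₐ ℂ I).toLinearMap with hmI
  set mJ := (Ideal.Quotient.mkₐ ℂ J).toLinearMap with hmJ
  set q : ((MvPolynomial σ ℂ) ⧸ I) →ₗ[ℂ] ((MvPolynomial σ ℂ) ⧸ J) := (Ideal.Quotient.factorₐ ℂ hIJ).toLinearMap with hq
  have hcomp : mJ = q ∘ₗ mI := by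
    ext f
    simp [hmI, hmJ, hq]
  have h1 : V.map mJ = (V.map mI).map q := by
    rw [hcomp, Submodule.map_comp]
  have h2 := LinearMap.finrank_range_add_finrank_ker (q.domRestrict (V.map mI))
  have h3 : LinearMap.range (q.domRestrict (V.map mI)) = V.map mJ := by
    rw [LinearMap.range_domRestrict, h1]
  rw [h3] at h2
  have h4 : Module.finrank ℂ (W.map mI) ≤
      Module.finrank ℂ (LinearMap.ker (q.domRestrict (V.map mI))) := by
    have h5 : W.map mI ≤ (LinearMap.ker (q.domRestrict (V.map mI))).map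
        (V.map mI).subtype := by
      rintro _ ⟨f, hf, rfl⟩
      have h6 : mI f ∈ V.map mI := ⟨f, hWV hf, rfl⟩
      refine ⟨⟨mI f, h6⟩, ?_, rfl⟩
      have h7 : q (mI f) = 0 := by
        have : q (mI f) = mJ f := by rw [hcomp]; rfl
        rw [this]
        exact Ideal.Quotient.eq_zero_iff_mem.2 (hWJ f hf)
      exact LinearMap.mem_ker.2 h7
    refine (Submodule.finrank_mono h5).trans ?_
    exact Submodule.finrank_map_le _ _
  omega

theorem hd_anti {V : Submodule ℂ (MvPolynomial σ ℂ)} [Module.Finite ℂ V] {I J : Ideal (MvPolynomial σ ℂ)} (hIJ : I ≤ J) :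
    hd V J ≤ hd V I := by
  have := hd_add_le (W := ⊥) hIJ bot_le (by
    intro f hf
    rw [(Submodule.mem_bot ℂ).1 hf]
    exact J.zero_mem) (V := V)
  omega

/-- Multiplication by a nonzerodivisor modulo `I`. -/
theorem hd_mul {V : Submodule ℂ (MvPolynomial σ ℂ)} {I : Ideal (MvPolynomial σ ℂ)} {f : (MvPolynomial σ ℂ)}
    (hf : ∀ g, f * g ∈ I → g ∈ I) : hd (V.map (LinearMap.mulLeft ℂ f)) I = hd V I := by
  unfold hd
  set mI := (Ideal.Quotient.mkₐ ℂ I).toLinearMap with hmI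
  have h1 : (V.map (LinearMap.mulLeft ℂ f)).map mI =
      (V.map mI).map (LinearMap.mulLeft ℂ (Ideal.Quotient.mk I f)) := by
    rw [← Submodule.map_comp, ← Submodule.map_comp]
    congr 1
  rw [h1]
  refine (LinearEquiv.finrank_eq (Submodule.equivMapOfInjective _ ?_ _)).symm
  rw [← LinearMap.ker_eq_bot, LinearMap.ker_eq_bot']
  intro g hg
  obtain ⟨g, rfl⟩ := Ideal.Quotient.mk_surjective g
  have h2 : Ideal.Quotient.mk I (f * g) = 0 := by
    rw [map_mul]
    exact hg
  exact Ideal.Quotient.eq_zero_iff_mem.2 (hf g (Ideal.Quotient.eq_zero_iff_mem.1 h2))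

theorem hilb_mono (d : σ → ℕ) (I : Ideal (MvPolynomial σ ℂ)) : Monotone (hilb d I) := by
  intro s t hst
  refine hd_mono (box_mono fun i => ?_) I
  simp only [Pi.smul_apply, smul_eq_mul]
  exact Nat.mul_le_mul_right _ hst

theorem hilb_bot (d : σ → ℕ) (t : ℕ) : hilb d ⊥ t = t ^ Fintype.card σ * ∏ i, d i := by
  rw [hilb, hd_bot, finrank_box]
  simp only [Pi.smul_apply, smul_eq_mul]
  rw [Finset.prod_mul_distrib]
  simp

theorem hilb_step {d : σ → ℕ} {I J : Ideal (MvPolynomial σ ℂ)} {f : (MvPolynomial σ ℂ)} (hfd : f ∈ box d)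
    (hf : ∀ g, f * g ∈ I → g ∈ I) (hIJ : I ≤ J) (hfJ : f ∈ J) (t : ℕ) :
    hilb d J (t + 1) + hilb d I t ≤ hilb d I (t + 1) := by
  unfold hilb
  rw [← hd_mul (V := box (t • d)) hf]
  refine hd_add_le hIJ ?_ ?_
  · rintro _ ⟨g, hg, rfl⟩
    have := mul_mem_box hfd hg
    have e : (t + 1) • d = d + t • d := by
      rw [add_smul, one_smul, add_comm]
    rw [e]
    exact this
  · rintro _ ⟨g, _, rfl⟩
    exact J.mul_mem_right _ hfJ

theorem telescope {a b : ℕ → ℕ} (h : ∀ t, a (t + 1) + b t ≤ b (t + 1)) (ha : Monotone a) (t : ℕ) :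
    t * a t ≤ b (2 * t) := by
  have key : ∀ k, k * a t + b t ≤ b (t + k) := by
    intro k
    induction k with
    | zero => simp
    | succ k ih =>
      have h1 := h (t + k)
      have h2 : a t ≤ a (t + k + 1) := ha (by omega)
      have h3 : t + (k + 1) = t + k + 1 := by ring
      rw [h3, add_mul, one_mul]
      omega
  have := key t
  have e : t + t = 2 * t := by ring
  rw [e] at this
  omega

end SharpSix
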